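import Pool.Agent.H5.PC.Fac

/-! # PC.Act : the isotropy groups in elementary terms (definitions of the statement)

`Z ↦ U * Z * W` with unitary `U`, `W` (type I), `Z ↦ U * Z * Uᵀ` with unitary `U` (types II and III), `z ↦ u z O` with
`|u| = 1` and a rotation `O` (type IV). -/

namespace H5.PC

open scoped Matrix.Norms.Elementwise

/-- unitary matrices -/
def IsUni {n : ℕ} (U : Matrix (Fin n) (Fin n) ℂ) : Prop := U * U.conjTranspose = 1

/-- `Z' = U * Z * W` with unitary `U` and `W` -/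
def ActI {m n : ℕ} (Z Z' : Matrix (Fin m) (Fin n) ℂ) : Prop :=
  ∃ (U : Matrix (Fin m) (Fin m) ℂ) (W : Matrix (Fin n) (Fin n) ℂ), IsUni U ∧ IsUni W ∧ Z' = U * Z * W

/-- `Z' = U * Z * Uᵀ` with unitary `U` -/
def ActT {n : ℕ} (Z Z' : Matrix (Fin n) (Fin n) ℂ) : Prop :=
  ∃ U : Matrix (Fin n) (Fin n) ℂ, IsUni U ∧ Z' = U * Z * U.transpose

/-- `z' = u z O` with `|u| = 1` and a rotation `O`, for row vectors -/
def ActV {n : ℕ} (z z' : Matrix (Fin 1) (Fin n) ℂ) : Prop :=
  ∃ (u : ℂ) (O : Matrix (Fin n) (Fin n) ℝ), ‖u‖ = 1 ∧ O * O.transpose = 1 ∧ O.det = 1 ∧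
    ∀ j, z' 0 j = u * ∑ i, z 0 i * (O i j : ℂ)

/-- `Z'` is the image of `Z` under an element of the isotropy group -/
def Fac.Act : (c : Fac) → Matrix (Fin c.row) (Fin c.col) ℂ → Matrix (Fin c.row) (Fin c.col) ℂ → Prop
  | .I _ _ => ActI
  | .II _ => ActT
  | .III _ => ActT
  | .IV _ => ActV

private theorem isUni_of {n : ℕ} (U : Matrix.unitaryGroup (Fin n) ℂ) :
    IsUni (U : Matrix (Fin n) (Fin n) ℂ) :=
  Matrix.mem_unitaryGroup_iff.1 U.2

theorem actV_of {n : ℕ} (U : Matrix.unitaryGroup (Fin 1) ℂ) (W : Matrix.unitaryGroup (Fin n) ℂ)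
    (h1 : ∀ i j, (W.1 i j).im = 0) (h2 : W.1.det = 1) (z z' : Matrix (Fin 1) (Fin n) ℂ)
    (h : z' = U.1 * z * W.1) : ActV z z' := by
  set O : Matrix (Fin n) (Fin n) ℝ := fun i j => (W.1 i j).re with hO
  have hW : ∀ i j, W.1 i j = (O i j : ℂ) := fun i j => Complex.ext (by simp [hO]) (by simp [h1 i j])
  have hWm : (W.1 : Matrix (Fin n) (Fin n) ℂ) = O.map Complex.ofRealHom := by
    ext i j
    exact hW i j
  refine ⟨U.1 0 0, O, ?_, ?_, ?_, fun j => ?_⟩
  · have e1 := Matrix.mem_unitaryGroup_iff.1 U.2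
    have e2 : ∑ j, U.1 0 j * (star U.1) j 0 = (1 : Matrix (Fin 1) (Fin 1) ℂ) 0 0 :=
      (Matrix.mul_apply).symm.trans (congrFun (congrFun e1 0) 0)
    rw [Fin.sum_univ_one, Matrix.one_apply_eq] at e2
    have e2' : U.1 0 0 * star (U.1 0 0) = 1 := e2
    have e3 : ‖U.1 0 0‖ * ‖U.1 0 0‖ = 1 := by
      have := congrArg norm e2'
      rwa [norm_mul, norm_star, norm_one] at this
    nlinarith [norm_nonneg (U.1 0 0)]
  · ext i k
    have e1 := Matrix.mem_unitaryGroup_iff.1 W.2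
    have e2 : ∑ j, W.1 i j * (star W.1) j k = (1 : Matrix (Fin n) (Fin n) ℂ) i k :=
      (Matrix.mul_apply).symm.trans (congrFun (congrFun e1 i) k)
    rw [Matrix.mul_apply]
    have e3 : ((∑ j, O i j * O.transpose j k : ℝ) : ℂ) = ((1 : Matrix (Fin n) (Fin n) ℝ) i k : ℂ) := by
      push_cast
      have e4 : ((1 : Matrix (Fin n) (Fin n) ℝ) i k : ℂ) = (1 : Matrix (Fin n) (Fin n) ℂ) i k := by
        rw [Matrix.one_apply, Matrix.one_apply]
        split_ifs <;> simp
      rw [e4, ← e2]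
      refine Finset.sum_congr rfl fun j _ => ?_
      have e5 : (star W.1) j k = star (W.1 k j) := rfl
      rw [e5, hW i j, hW k j, Matrix.transpose_apply]
      simp
    exact_mod_cast e3
  · have e1 : ((O.det : ℝ) : ℂ) = 1 := by
      rw [← h2, hWm]
      exact RingHom.map_det Complex.ofRealHom O
    exact_mod_cast e1
  · rw [h, Matrix.mul_assoc, Matrix.mul_apply]
    simp only [Fin.sum_univ_one, Fin.isValue]
    rw [Matrix.mul_apply]
    congr 1
    exact Finset.sum_congr rfl fun i _ => by rw [hW i j]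

theorem act_of_group (c : Fac) {Z Z' : Matrix (Fin c.row) (Fin c.col) ℂ}
    (h : ∃ g ∈ c.group, Z' = g.1.1 * Z * g.2.1) : c.Act Z Z' := by
  obtain ⟨g, hg, h⟩ := h
  cases c with
  | I m k => exact ⟨g.1.1, g.2.1, isUni_of g.1, isUni_of g.2, h⟩
  | II n =>
    have hg' : g.2.1 = g.1.1.transpose := hg
    rw [hg'] at h
    exact ⟨g.1.1, isUni_of g.1, h⟩
  | III n =>
    have hg' : g.2.1 = g.1.1.transpose := hg
    rw [hg'] at h
    exact ⟨g.1.1, isUni_of g.1, h⟩
  | IV n =>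
    obtain ⟨h1, h2⟩ := hg
    exact actV_of g.1 g.2 h1 h2 Z Z' h

section space

variable {L : Type}

/-- the product of the spaces of the factors `c l` -/
def Space (c : L → Fac) : Type := (l : L) → (c l).space

/-- the norm is the maximum of the absolute values of the entries -/
noncomputable instance normSpace [Fintype L] (c : L → Fac) : NormedAddCommGroup (Space c) :=
  (Pi.normedAddCommGroup : NormedAddCommGroup ((l : L) → (c l).space))

noncomputable instance modSpace [Fintype L] (c : L → Fac) : NormedSpace ℂ (Space c) :=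
  (Pi.normedSpace : NormedSpace ℂ ((l : L) → (c l).space))

end space

end H5.PC
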