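import Pool.Agent.H5.PC.Defs
import Pool.Agent.H5.PK.SvB

/-! # PC.Cg : the congruence action, group properties

`KS_one`: `U = 1`. `KS_inv`: `U⁻¹` (`star U`): `star U * (U * Z * Uᵀ) * (star U)ᵀ = Z` as `Uᵀ * (star U)ᵀ = (star U * U)ᵀ = 1`. `tr_unit`: the transpose of a unitary matrix is unitary. `KS_sv`: `sv_unitary (le_refl n)` with `W = Uᵀ`. -/

namespace H5.PC

open H5.PK Topology
open scoped Matrix.Norms.Elementwise

variable {n : ℕ} {S : Submodule ℂ (Matrix (Fin n) (Fin n) ℂ)} (hS : CInv S)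

theorem tr_unit (U : Matrix.unitaryGroup (Fin n) ℂ) :
    (U : Matrix (Fin n) (Fin n) ℂ).transpose ∈ Matrix.unitaryGroup (Fin n) ℂ := by
  have h : star (U : Matrix (Fin n) (Fin n) ℂ) * (U : Matrix (Fin n) (Fin n) ℂ) = 1 :=
    Matrix.mem_unitaryGroup_iff'.1 U.2
  rw [Matrix.mem_unitaryGroup_iff]
  have e : star (U : Matrix (Fin n) (Fin n) ℂ).transpose =
      (star (U : Matrix (Fin n) (Fin n) ℂ)).transpose := rfl
  rw [e, ← Matrix.transpose_mul, h, Matrix.transpose_one]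

theorem KS_one : ContinuousLinearMap.id ℂ (Sp S) ∈ KS hS := by
  refine ⟨1, ?_⟩
  apply ContinuousLinearMap.ext
  intro Z
  apply Sp.ext
  rw [actS_val]
  show Z.val = 1 * Z.val * (1 : Matrix (Fin n) (Fin n) ℂ).transpose
  rw [Matrix.transpose_one, Matrix.one_mul, Matrix.mul_one]

private theorem act_act (A B Z : Matrix (Fin n) (Fin n) ℂ) (h : A * B = 1) :
    A * (B * Z * B.transpose) * A.transpose = Z := by
  have h2 : B.transpose * A.transpose = 1 := by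
    rw [← Matrix.transpose_mul, h, Matrix.transpose_one]
  rw [Matrix.mul_assoc B, ← Matrix.mul_assoc A, h, Matrix.one_mul, Matrix.mul_assoc, h2,
    Matrix.mul_one]

theorem KS_inv (k : Sp S →L[ℂ] Sp S) (hk : k ∈ KS hS) :
    ∃ k' ∈ KS hS, (∀ z, k' (k z) = z) ∧ ∀ z, k (k' z) = z := by
  obtain ⟨U, rfl⟩ := hk
  have h1 : (U : Matrix (Fin n) (Fin n) ℂ) * ((U⁻¹ : Matrix.unitaryGroup (Fin n) ℂ) :
      Matrix (Fin n) (Fin n) ℂ) = 1 := by
    have := congrArg (Subtype.val) (mul_inv_cancel U)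
    exact this
  have h2 : ((U⁻¹ : Matrix.unitaryGroup (Fin n) ℂ) : Matrix (Fin n) (Fin n) ℂ) *
      (U : Matrix (Fin n) (Fin n) ℂ) = 1 := by
    have := congrArg (Subtype.val) (inv_mul_cancel U)
    exact this
  refine ⟨actS hS ((U⁻¹ : Matrix.unitaryGroup (Fin n) ℂ) : Matrix (Fin n) (Fin n) ℂ),
    ⟨U⁻¹, rfl⟩, ?_, ?_⟩
  · intro z
    apply Sp.ext
    rw [actS_val, actS_val]
    exact act_act _ _ _ h2
  · intro z
    apply Sp.ext
    rw [actS_val, actS_val]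
    exact act_act _ _ _ h1

theorem KS_sv (k : Sp S →L[ℂ] Sp S) (hk : k ∈ KS hS) (Z : Sp S) : sv (k Z).val = sv Z.val := by
  obtain ⟨U, rfl⟩ := hk
  rw [actS_val]
  exact sv_unitary (le_refl n) Z.val U ⟨_, tr_unit U⟩

end H5.PC
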