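import Pool.Agent.H5.PC.Defs

/-! # PC.CgR : curves in the orbits of the congruence action

`R θ = 1 + (cos θ - 1) • D + sin θ • J` is unitary for real `θ`: `(R θ)ᴴ = 1 + (cos θ - 1) • D - sin θ • J` and the product is `1` by the relations (`J * J = - D`, `cos² + sin² = 1`; see `rot_mem` in `H5.PK.IRt`). `c t = actS hS (R (x t)) Z`, i.e. `R Z Rᵀ = Z + (cos - 1) • (D Z + Z Dᵀ) + sin • (J Z + Z Jᵀ)
+ (cos - 1)² • D Z Dᵀ + (cos - 1) sin • (D Z Jᵀ + J Z Dᵀ) + sin² • J Z Jᵀ`: a combination of six fixed elements of `S` with real coefficients (each is in `S`: polarise `hS`, e.g. `D Z + Z Dᵀ = (1+D) Z (1+D)ᵀ - Z - D Z Dᵀ`); so `c` is differentiable with derivative the same combination of the derivatives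
of the coefficients (`HasDerivAt.ofReal_comp`, `smul_const`; see `crv` in `H5.PK.IRt`), at `t = 0`: `x • (J Z + Z Jᵀ)`; second derivative at `0`: `x² • (2 J Z Jᵀ - (D Z + Z Dᵀ))`. -/

namespace H5.PC

open H5.PK Topology
open scoped Matrix.Norms.Elementwise

variable {n : ℕ} {S : Submodule ℂ (Matrix (Fin n) (Fin n) ℂ)} (hS : CInv S)

private theorem hd {V : Type} [NormedAddCommGroup V] [NormedSpace ℂ V] {g : ℝ → ℝ} {g' t : ℝ}
    (h : HasDerivAt g g' t) (v : V) :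
    HasDerivAt (fun t => ((g t : ℝ) : ℂ) • v) ((g' : ℂ) • v) t :=
  (h.ofReal_comp).smul_const v

private theorem crv {V : Type} [NormedAddCommGroup V] [NormedSpace ℂ V]
    (v0 v1 v2 v3 v4 v5 : V) (x : ℝ) :
    ∃ c' : ℝ → V, (∀ t, HasDerivAt (fun t : ℝ => v0 + ((Real.cos (t * x) - 1 : ℝ) : ℂ) • v1 +
        ((Real.sin (t * x) : ℝ) : ℂ) • v2 +
        (((Real.cos (t * x) - 1) * (Real.cos (t * x) - 1) : ℝ) : ℂ) • v3 +
        (((Real.cos (t * x) - 1) * Real.sin (t * x) : ℝ) : ℂ) • v4 +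
        ((Real.sin (t * x) * Real.sin (t * x) : ℝ) : ℂ) • v5) (c' t) t) ∧
      HasDerivAt c' (((-(x ^ 2) : ℝ) : ℂ) • v1 + ((2 * x ^ 2 : ℝ) : ℂ) • v5) 0 ∧
      c' 0 = ((x : ℝ) : ℂ) • v2 := by
  have hc : ∀ z t : ℝ, HasDerivAt (fun t : ℝ => Real.cos (t * z) - 1) (-Real.sin (t * z) * z) t :=
    fun z t => ((hasDerivAt_mul_const z).cos).sub_const 1
  have hs : ∀ z t : ℝ, HasDerivAt (fun t : ℝ => Real.sin (t * z)) (Real.cos (t * z) * z) t :=
    fun z t => (hasDerivAt_mul_const z).sin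
  have hc1 : ∀ z t : ℝ, HasDerivAt (fun t : ℝ => -Real.sin (t * z) * z)
      (-(Real.cos (t * z) * z) * z) t :=
    fun z t => ((hs z t).neg).mul_const z
  have hs1 : ∀ z t : ℝ, HasDerivAt (fun t : ℝ => Real.cos (t * z) * z)
      (-Real.sin (t * z) * z * z) t :=
    fun z t => ((hasDerivAt_mul_const z).cos).mul_const z
  refine ⟨fun t => ((-Real.sin (t * x) * x : ℝ) : ℂ) • v1 + ((Real.cos (t * x) * x : ℝ) : ℂ) • v2 +
      ((-Real.sin (t * x) * x * (Real.cos (t * x) - 1) +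
        (Real.cos (t * x) - 1) * (-Real.sin (t * x) * x) : ℝ) : ℂ) • v3 +
      ((-Real.sin (t * x) * x * Real.sin (t * x) +
        (Real.cos (t * x) - 1) * (Real.cos (t * x) * x) : ℝ) : ℂ) • v4 +
      ((Real.cos (t * x) * x * Real.sin (t * x) +
        Real.sin (t * x) * (Real.cos (t * x) * x) : ℝ) : ℂ) • v5, fun t => ?_, ?_, ?_⟩
  · have h := ((((((hasDerivAt_const t v0).fun_add (hd (hc x t) v1)).fun_add
      (hd (hs x t) v2)).fun_add (hd ((hc x t).fun_mul (hc x t)) v3)).fun_add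
      (hd ((hc x t).fun_mul (hs x t)) v4)).fun_add (hd ((hs x t).fun_mul (hs x t)) v5))
    convert h using 1
    rw [zero_add]
  · have h := (((((hd (hc1 x 0) v1).fun_add (hd (hs1 x 0) v2)).fun_add
      (hd (((hc1 x 0).fun_mul (hc x 0)).fun_add ((hc x 0).fun_mul (hc1 x 0))) v3)).fun_add
      (hd (((hc1 x 0).fun_mul (hs x 0)).fun_add ((hc x 0).fun_mul (hs1 x 0))) v4)).fun_add
      (hd (((hs1 x 0).fun_mul (hs x 0)).fun_add ((hs x 0).fun_mul (hs1 x 0))) v5))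
    convert h using 1
    simp only [zero_mul, Real.sin_zero, Real.cos_zero, sub_self, mul_zero, neg_zero, add_zero,
      zero_add, Complex.ofReal_zero, zero_smul, one_mul]
    push_cast
    module
  · simp

private theorem rot_mem {D J : Matrix (Fin n) (Fin n) ℂ} (hDD : D * D = D) (hDJ : D * J = J)
    (hJD : J * D = J) (hJJ : J * J = -D) (hDs : D.conjTranspose = D) (hJs : J.conjTranspose = -J)
    (θ : ℝ) : 1 + ((Real.cos θ - 1 : ℝ) : ℂ) • D + ((Real.sin θ : ℝ) : ℂ) • J ∈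
      Matrix.unitaryGroup (Fin n) ℂ := by
  rw [Matrix.mem_unitaryGroup_iff]
  have hst : star (1 + ((Real.cos θ - 1 : ℝ) : ℂ) • D + ((Real.sin θ : ℝ) : ℂ) • J) =
      1 + ((Real.cos θ - 1 : ℝ) : ℂ) • D - ((Real.sin θ : ℝ) : ℂ) • J := by
    rw [star_add, star_add, star_one, star_smul, star_smul,
      show star D = D from hDs, show star J = -J from hJs,
      show star (((Real.cos θ - 1 : ℝ) : ℂ)) = ((Real.cos θ - 1 : ℝ) : ℂ) from Complex.conj_ofReal _,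
      show star (((Real.sin θ : ℝ) : ℂ)) = ((Real.sin θ : ℝ) : ℂ) from Complex.conj_ofReal _,
      smul_neg]
    exact (sub_eq_add_neg _ _).symm
  rw [hst]
  have e1 : (1 + ((Real.cos θ - 1 : ℝ) : ℂ) • D + ((Real.sin θ : ℝ) : ℂ) • J) *
      (1 + ((Real.cos θ - 1 : ℝ) : ℂ) • D - ((Real.sin θ : ℝ) : ℂ) • J) =
      1 + (((Real.cos θ - 1 : ℝ) : ℂ) * 2 + ((Real.cos θ - 1 : ℝ) : ℂ) ^ 2) • D +
        -(((Real.sin θ : ℝ) : ℂ) ^ 2) • (J * J) := by
    simp only [mul_add, add_mul, mul_sub, one_mul, mul_one, smul_mul_assoc, mul_smul_comm,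
      hDD, hDJ, hJD]
    module
  rw [e1, hJJ]
  have e2 : (((Real.cos θ - 1 : ℝ) : ℂ) * 2 + ((Real.cos θ - 1 : ℝ) : ℂ) ^ 2) +
      ((Real.sin θ : ℝ) : ℂ) ^ 2 = 0 := by
    have := Real.sin_sq_add_cos_sq θ
    have h3 : ((Real.cos θ - 1) * 2 + (Real.cos θ - 1) ^ 2) + (Real.sin θ) ^ 2 = (0 : ℝ) := by
      nlinarith
    exact_mod_cast congrArg (fun z : ℝ => (z : ℂ)) h3
  calc 1 + (((Real.cos θ - 1 : ℝ) : ℂ) * 2 + ((Real.cos θ - 1 : ℝ) : ℂ) ^ 2) • D +
        -(((Real.sin θ : ℝ) : ℂ) ^ 2) • (-D)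
      = 1 + ((((Real.cos θ - 1 : ℝ) : ℂ) * 2 + ((Real.cos θ - 1 : ℝ) : ℂ) ^ 2) +
      ((Real.sin θ : ℝ) : ℂ) ^ 2) • D := by module
    _ = 1 := by rw [e2, zero_smul, add_zero]

theorem cu_rot {D J : Matrix (Fin n) (Fin n) ℂ} (hDD : D * D = D) (hDJ : D * J = J) (hJD : J * D = J)
    (hJJ : J * J = -D) (hDs : D.conjTranspose = D) (hJs : J.conjTranspose = -J) (x : ℝ) (Z : Sp S) :
    ∃ (c c' : ℝ → Sp S) (y : Sp S), Cu (KS hS) Z c c' y ∧
      (c' 0).val = (x : ℂ) • (J * Z.val + Z.val * J.transpose) ∧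
      y.val = ((x ^ 2 : ℝ) : ℂ) • ((2 : ℂ) • (J * Z.val * J.transpose) - (D * Z.val + Z.val * D.transpose)) := by
  have pol : ∀ A : Matrix (Fin n) (Fin n) ℂ,
      (actS hS (1 + A) Z - Z - actS hS A Z : Sp S).val = A * Z.val + Z.val * A.transpose := by
    intro A
    rw [Sp.val_sub, Sp.val_sub, actS_val, actS_val, Matrix.transpose_add, Matrix.transpose_one]
    simp only [Matrix.mul_add, Matrix.add_mul, Matrix.one_mul, Matrix.mul_one]
    abel
  have pol2 : (actS hS (D + J) Z - actS hS D Z - actS hS J Z : Sp S).val =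
      D * Z.val * J.transpose + J * Z.val * D.transpose := by
    rw [Sp.val_sub, Sp.val_sub, actS_val, actS_val, actS_val, Matrix.transpose_add]
    simp only [Matrix.mul_add, Matrix.add_mul]
    abel
  obtain ⟨c', h1, h2, h3⟩ := crv (V := Sp S) Z (actS hS (1 + D) Z - Z - actS hS D Z)
    (actS hS (1 + J) Z - Z - actS hS J Z) (actS hS D Z)
    (actS hS (D + J) Z - actS hS D Z - actS hS J Z) (actS hS J Z) x
  refine ⟨_, c', _, ⟨h1, h2, ?_, ?_⟩, ?_, ?_⟩
  · simp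
  · intro t
    refine ⟨_, ⟨⟨_, rot_mem hDD hDJ hJD hJJ hDs hJs (t * x)⟩, rfl⟩, ?_⟩
    apply Sp.ext
    rw [actS_val]
    simp only [Sp.val_add, Sp.val_smul, pol, pol2, actS_val]
    simp only [Matrix.transpose_add, Matrix.transpose_smul, Matrix.transpose_one, Matrix.mul_add,
      Matrix.add_mul, Matrix.one_mul, Matrix.mul_one, Matrix.smul_mul, Matrix.mul_smul]
    push_cast
    module
  · rw [h3, Sp.val_smul, pol]
  · rw [Sp.val_add, Sp.val_smul, Sp.val_smul, pol, actS_val]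
    push_cast
    module

end H5.PC
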