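import Pool.Agent.H5.PC.Defs

/-! # PC.Cols : unitary matrices with given first columns

The vectors `v i` in `EuclideanSpace ℂ (Fin n)` are orthonormal; extend to an orthonormal basis indexed by `Fin n` with `w (Fin.castLE hp i) = v i`: `Orthonormal.exists_orthonormalBasis_extension_of_card_eq` as in `H5.PK.SvA` (set `{j | (j : ℕ) < p}`). The matrix with columns `w j` is unitary (`svA_unit` there is private: copy). -/

namespace H5.PC

open H5.PK Topology

/-- the matrix with columns `e j` -/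
private noncomputable def cols_mat {k : ℕ} (e : OrthonormalBasis (Fin k) ℂ (EuclideanSpace ℂ (Fin k))) :
    Matrix (Fin k) (Fin k) ℂ := fun a j => e j a

private theorem cols_unit {k : ℕ} (e : OrthonormalBasis (Fin k) ℂ (EuclideanSpace ℂ (Fin k))) :
    cols_mat e ∈ Matrix.unitaryGroup (Fin k) ℂ := by
  rw [Matrix.mem_unitaryGroup_iff']
  ext i j
  rw [Matrix.mul_apply, Matrix.one_apply]
  have h := orthonormal_iff_ite.1 e.orthonormal i j
  rw [EuclideanSpace.inner_eq_star_dotProduct] at h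
  rw [← h]
  simp only [dotProduct, Matrix.star_apply, cols_mat, Pi.star_apply]
  refine Finset.sum_congr rfl fun a _ => ?_
  rw [mul_comm]

theorem exists_unitary_cols {n p : ℕ} (hp : p ≤ n) (v : Fin p → Fin n → ℂ)
    (hv : ∀ i j, ∑ k, star (v i k) * v j k = if i = j then 1 else 0) :
    ∃ U : Matrix.unitaryGroup (Fin n) ℂ, ∀ (i : Fin p) (k : Fin n),
      (U : Matrix (Fin n) (Fin n) ℂ) k (Fin.castLE hp i) = v i k := by
  classical
  obtain ⟨w0, hw0⟩ : ∃ w0 : Fin n → EuclideanSpace ℂ (Fin n), w0 = fun j : Fin n =>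
      if h : (j : ℕ) < p then WithLp.toLp 2 (v ⟨(j : ℕ), h⟩) else 0 := ⟨_, rfl⟩
  have hort : Orthonormal ℂ (Set.domRestrict {j : Fin n | (j : ℕ) < p} w0) := by
    rw [orthonormal_iff_ite]
    rintro ⟨i, hi⟩ ⟨j, hj⟩
    have hi' : (i : ℕ) < p := hi
    have hj' : (j : ℕ) < p := hj
    show inner ℂ (w0 i) (w0 j) = _
    rw [hw0]
    simp only [dif_pos hi', dif_pos hj']
    rw [EuclideanSpace.inner_eq_star_dotProduct]
    have h := hv ⟨i, hi'⟩ ⟨j, hj'⟩
    have h1 : (v ⟨(j : ℕ), hj'⟩) ⬝ᵥ star (v ⟨(i : ℕ), hi'⟩) =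
        ∑ k, star (v ⟨(i : ℕ), hi'⟩ k) * v ⟨(j : ℕ), hj'⟩ k := by
      simp only [dotProduct, Pi.star_apply]
      exact Finset.sum_congr rfl fun a _ => mul_comm _ _
    refine (h1.trans h).trans ?_
    by_cases hij : i = j
    · subst hij
      rw [if_pos rfl, if_pos rfl]
    · rw [if_neg, if_neg]
      · intro h2
        exact hij (congrArg Subtype.val h2)
      · intro h2
        exact hij (Fin.ext (by simpa using h2))
  obtain ⟨w, hw⟩ := hort.exists_orthonormalBasis_extension_of_card_eq (by simp)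
  refine ⟨⟨cols_mat w, cols_unit w⟩, fun i k => ?_⟩
  show w (Fin.castLE hp i) k = v i k
  have h1 : Fin.castLE hp i ∈ {j : Fin n | (j : ℕ) < p} := i.2
  rw [hw _ h1, hw0]
  have h2 : ((Fin.castLE hp i : Fin n) : ℕ) < p := i.2
  simp only [dif_pos h2]
  rfl

end H5.PC
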