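import Pool.Agent.H5.PC.Defs

/-! # PC.ColsR : special orthogonal matrices with given first rows

Real orthonormal basis extension: `Orthonormal.exists_orthonormalBasis_extension_of_card_eq` in `EuclideanSpace ℝ (Fin N)` for the set `{0, 1}` gives an orthonormal basis `w` with `w 0 = x`, `w 1 = y`; the matrix with rows `w i` is orthogonal, its determinant is `± 1` (`Matrix.det_of_mem_orthogonalGroup`-type, or `det² = 1`).
If it is `-1` replace the row `2` by its negative (`N = n + 3`; `Matrix.updateRow`, `det_updateRow_smul`; or multiply by `Matrix.diagonal (fun i => if i = 2 then -1 else 1)` from the left). -/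

namespace H5.PC

open H5.PK Topology

private lemma cr_basis {n : ℕ} (x y : Fin (n + 3) → ℝ) (hx : ∑ i, x i ^ 2 = 1)
    (hy : ∑ i, y i ^ 2 = 1) (hxy : ∑ i, x i * y i = 0) :
    ∃ O : Matrix (Fin (n + 3)) (Fin (n + 3)) ℝ, O * O.transpose = 1 ∧
      (∀ j, O 0 j = x j) ∧ ∀ j, O 1 j = y j := by
  classical
  set v : Fin (n + 3) → EuclideanSpace ℝ (Fin (n + 3)) := fun i =>
    if i = 0 then WithLp.toLp 2 x else WithLp.toLp 2 y with hv
  have h01 : (1 : Fin (n + 3)) ≠ 0 := by
    intro h
    have := congrArg Fin.val h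
    simp at this
  have hv0 : v 0 = WithLp.toLp 2 x := by simp [hv]
  have hv1 : v 1 = WithLp.toLp 2 y := by simp [hv, h01]
  have hxx : inner ℝ (v 0) (v 0) = (1 : ℝ) := by
    rw [hv0, EuclideanSpace.inner_eq_star_dotProduct]
    simp only [dotProduct, Pi.star_apply, star_trivial]
    rw [← hx]
    exact Finset.sum_congr rfl fun i _ => by ring
  have hyy : inner ℝ (v 1) (v 1) = (1 : ℝ) := by
    rw [hv1, EuclideanSpace.inner_eq_star_dotProduct]
    simp only [dotProduct, Pi.star_apply, star_trivial]
    rw [← hy]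
    exact Finset.sum_congr rfl fun i _ => by ring
  have hxy' : inner ℝ (v 0) (v 1) = (0 : ℝ) := by
    rw [hv0, hv1, EuclideanSpace.inner_eq_star_dotProduct]
    simp only [dotProduct, Pi.star_apply, star_trivial]
    rw [← hxy]
    exact Finset.sum_congr rfl fun i _ => by ring
  have hyx' : inner ℝ (v 1) (v 0) = (0 : ℝ) := by
    rw [real_inner_comm]
    exact hxy'
  have hor : Orthonormal ℝ (({0, 1} : Set (Fin (n + 3))).restrict v) := by
    rw [orthonormal_iff_ite]
    rintro ⟨i, hi⟩ ⟨j, hj⟩
    simp only [Set.restrict_apply, Subtype.mk.injEq]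
    rcases hi with rfl | hi <;> rcases hj with rfl | hj
    · rw [if_pos rfl]
      exact hxx
    · rw [Set.mem_singleton_iff] at hj
      subst hj
      rw [if_neg h01.symm]
      exact hxy'
    · rw [Set.mem_singleton_iff] at hi
      subst hi
      rw [if_neg h01]
      exact hyx'
    · rw [Set.mem_singleton_iff] at hi hj
      subst hi
      subst hj
      rw [if_pos rfl]
      exact hyy
  obtain ⟨w, hw⟩ := hor.exists_orthonormalBasis_extension_of_card_eq (by simp)
  refine ⟨Matrix.of fun i j => w i j, ?_, fun j => ?_, fun j => ?_⟩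
  · ext i j
    rw [Matrix.mul_apply]
    simp only [Matrix.of_apply, Matrix.transpose_apply]
    have h := orthonormal_iff_ite.1 w.orthonormal j i
    rw [EuclideanSpace.inner_eq_star_dotProduct] at h
    simp only [dotProduct, Pi.star_apply, star_trivial] at h
    rw [Matrix.one_apply]
    rw [h]
    by_cases hij : i = j
    · rw [if_pos hij, if_pos hij.symm]
    · rw [if_neg hij, if_neg (Ne.symm hij)]
  · rw [Matrix.of_apply, hw 0 (by simp), hv0]
  · rw [Matrix.of_apply, hw 1 (by simp), hv1]

theorem exists_SO_rows {n : ℕ} (x y : Fin (n + 3) → ℝ) (hx : ∑ i, x i ^ 2 = 1)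
    (hy : ∑ i, y i ^ 2 = 1) (hxy : ∑ i, x i * y i = 0) :
    ∃ O : Matrix (Fin (n + 3)) (Fin (n + 3)) ℝ, O ∈ Matrix.orthogonalGroup (Fin (n + 3)) ℝ ∧
      O.det = 1 ∧ (∀ j, O 0 j = x j) ∧ ∀ j, O 1 j = y j := by
  classical
  obtain ⟨O, hO, h0, h1⟩ := cr_basis x y hx hy hxy
  have hdet : O.det * O.det = 1 := by
    have h := congrArg Matrix.det hO
    rwa [Matrix.det_mul, Matrix.det_transpose, Matrix.det_one] at h
  rcases mul_self_eq_one_iff.1 hdet with hd | hd
  · exact ⟨O, (Matrix.mem_orthogonalGroup_iff _ _).2 hO, hd, h0, h1⟩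
  · have h2m : 2 % (n + 3) = 2 := Nat.mod_eq_of_lt (by omega)
    have h20 : (0 : Fin (n + 3)) ≠ 2 := by
      intro h
      have := congrArg Fin.val h
      simp at this
      omega
    have h21 : (1 : Fin (n + 3)) ≠ 2 := by
      intro h
      have := congrArg Fin.val h
      simp at this
      omega
    set D : Matrix (Fin (n + 3)) (Fin (n + 3)) ℝ :=
      Matrix.diagonal fun i => if i = 2 then (-1 : ℝ) else 1 with hD
    have hDD : D * D = 1 := by
      rw [hD, Matrix.diagonal_mul_diagonal]
      have : (fun i : Fin (n + 3) => (if i = 2 then (-1 : ℝ) else 1) * (if i = 2 then (-1 : ℝ) else 1)) =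
          fun _ => 1 := by
        funext i
        split_ifs <;> norm_num
      rw [this, Matrix.diagonal_one]
    have hDt : D.transpose = D := by rw [hD, Matrix.diagonal_transpose]
    have hDd : D.det = -1 := by
      rw [hD, Matrix.det_diagonal, Finset.prod_ite_eq' ]
      simp
    refine ⟨D * O, (Matrix.mem_orthogonalGroup_iff _ _).2 ?_, ?_, fun j => ?_, fun j => ?_⟩
    · show D * O * (D * O).transpose = 1
      rw [Matrix.transpose_mul, hDt]
      calc D * O * (O.transpose * D) = D * (O * O.transpose) * D := by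
            simp only [Matrix.mul_assoc]
        _ = 1 := by rw [hO, Matrix.mul_one, hDD]
    · rw [Matrix.det_mul, hDd, hd]
      norm_num
    · rw [hD, Matrix.diagonal_mul, if_neg h20, one_mul]
      exact h0 j
    · rw [hD, Matrix.diagonal_mul, if_neg h21, one_mul]
      exact h1 j

end H5.PC
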