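import Pool.Agent.H5.PK.MDef

/-! # PC.Defs : definitions for MP_c69c51_an, classical bounded symmetric domains (complete)

`Fr` is a frame with one block (see `H5.PK.Frame`); products of blocks are frames (`Kp`, `dgp`, `Pp`). The four types of classical
factors are realised as spaces of matrices `Fac.space` with the groups `Fac.group` of pairs `(U, W)` acting by `Z ↦ U * Z * W`. -/

namespace H5.PC

open H5.PK Topology
open scoped Matrix.Norms.Elementwise

section one

variable {V : Type} [NormedAddCommGroup V] [NormedSpace ℂ V]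

/-- a real vector as a complex vector -/
def cx1 {r : ℕ} (b : Fin r → ℝ) : Fin r → ℂ := fun i => (b i : ℂ)

/-- as `RP`, for one block -/
def RP1 {r : ℕ} (K : Set (V →L[ℂ] V)) (P : V →L[ℂ] (Fin r → ℂ)) (p : V) (w : Fin r → ℂ) : Prop :=
  ∃ (x : V) (c₁ c₁' c₂ c₂' : ℝ → V) (y₁ y₂ : V), P x = 0 ∧ Cu K p c₁ c₁' y₁ ∧ c₁' 0 = x ∧
    Cu K p c₂ c₂' y₂ ∧ c₂' 0 = Complex.I • x ∧ P (y₁ + y₂) = w

end one

/-- a frame with one block -/
structure Fr (V : Type) [NormedAddCommGroup V] [NormedSpace ℂ V] (r : ℕ) where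
  K : Set (V →L[ℂ] V)
  dg : (Fin r → ℂ) →L[ℂ] V
  P : V →L[ℂ] (Fin r → ℂ)
  s : V → Fin r → ℝ
  tube : Prop
  d : ℕ
  Δ : Fin r → V → ℂ
  one : ContinuousLinearMap.id ℂ V ∈ K
  P_dg : ∀ b, P (dg b) = b
  K_inv : ∀ k ∈ K, ∃ k' ∈ K, (∀ z, k' (k z) = z) ∧ ∀ z, k (k' z) = z
  s_cont : Continuous s
  s_anti : ∀ z, Antitone (s z)
  s_nn : ∀ z i, 0 ≤ s z i
  s_K : ∀ k ∈ K, ∀ z, s (k z) = s z
  s_dg : ∀ b : Fin r → ℝ, Antitone b → (∀ i, 0 ≤ b i) → s (dg (cx1 b)) = b
  polar : ∀ z, ∃ k ∈ K, z = k (dg (cx1 (s z)))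
  torus : ∀ θ : Fin r → ℝ, ∃ k ∈ K, ∀ b : Fin r → ℂ,
    k (dg b) = dg (fun i => Complex.exp ((θ i : ℂ) * Complex.I) * b i)
  swap : ∀ (a : Fin r → ℝ) (i j : Fin r), a i = a j →
    ∃ k ∈ K, (∀ z, k (k z) = z) ∧ k (dg (cx1 a)) = dg (cx1 a) ∧
      ∀ c : ℂ, k (dg (Pi.single i c)) = dg (Pi.single j c)
  grad : ∀ a : Fin r → ℝ, (∀ i, 0 ≤ a i) → ∀ f : V →L[ℝ] ℝ,
    (∀ k ∈ K, (∀ z, k (k (k (k z))) = z) → k (dg (cx1 a)) = dg (cx1 a) → ∀ z, f (k z) = f z) →
    (∀ z, f z = f (dg (P z))) ∧ ∀ i, a i = 0 → ∀ c : ℂ, f (dg (Pi.single i c)) = 0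
  root : ∀ a : Fin r → ℝ, (∀ i, 0 ≤ a i) → ∀ i j : Fin r, a j < a i →
    ∃ κ : ℝ, 0 < κ ∧ RP1 K P (dg (cx1 a))
      (Pi.single i ((-(κ * a i) : ℝ) : ℂ) + Pi.single j ((κ * a j : ℝ) : ℂ))
  root' : ∀ a : Fin r → ℝ, (∀ i, 0 ≤ a i) → ∀ i : Fin r, ¬ tube → 0 < a i →
    ∃ κ : ℝ, 0 < κ ∧ RP1 K P (dg (cx1 a)) (Pi.single i ((-κ : ℝ) : ℂ))
  d_pos : 0 < d
  Δ_diff : ∀ k, Differentiable ℂ (Δ k)
  Δ_dg : ∀ k (b : Fin r → ℂ), Δ k (dg b) = (∏ i ∈ Finset.Iic k, b i) ^ d
  Δ_le : ∀ k z, ‖Δ k z‖ ≤ (∏ i ∈ Finset.Iic k, s z i) ^ d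
  Δ_eq : tube → ∀ k : Fin r, (k : ℕ) + 1 = r → ∀ z, ‖Δ k z‖ = (∏ i, s z i) ^ d
  iso : ∀ a : Fin r → ℝ, Antitone a → (∀ i, 0 ≤ a i) →
    ∃ φ : V →L[ℂ] ℂ, φ (dg (cx1 a)) = ((∑ i, a i ^ 2 : ℝ) : ℂ) ∧
      ∀ z, s z = a → ‖φ z‖ ≤ ∑ i, a i ^ 2 ∧
        (φ z = ((∑ i, a i ^ 2 : ℝ) : ℂ) → z = dg (cx1 a))

section prod

variable {L : Type} [Fintype L] [DecidableEq L] {V : L → Type} [∀ l, NormedAddCommGroup (V l)]
  [∀ l, NormedSpace ℂ (V l)] {r : L → ℕ}

set_option linter.unusedSectionVars false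

/-- product of linear maps -/
noncomputable def pm (k : (l : L) → V l →L[ℂ] V l) : ((l : L) → V l) →L[ℂ] ((l : L) → V l) :=
  ContinuousLinearMap.pi fun l => (k l).comp (ContinuousLinearMap.proj l)

theorem pm_apply (k : (l : L) → V l →L[ℂ] V l) (z : (l : L) → V l) (l : L) :
    pm k z l = k l (z l) := rfl

/-- the product of the groups -/
def Kp (F : (l : L) → Fr (V l) (r l)) : Set (((l : L) → V l) →L[ℂ] ((l : L) → V l)) :=
  {T | ∃ k : (l : L) → V l →L[ℂ] V l, (∀ l, k l ∈ (F l).K) ∧ T = pm k}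

/-- diagonal elements of the product -/
noncomputable def dgp (F : (l : L) → Fr (V l) (r l)) : XC r →L[ℂ] ((l : L) → V l) :=
  ContinuousLinearMap.pi fun l => (F l).dg.comp (ContinuousLinearMap.proj l)

theorem dgp_apply (F : (l : L) → Fr (V l) (r l)) (b : XC r) (l : L) :
    dgp F b l = (F l).dg (b l) := rfl

/-- the diagonal part in the product -/
noncomputable def Pp (F : (l : L) → Fr (V l) (r l)) : ((l : L) → V l) →L[ℂ] XC r :=
  ContinuousLinearMap.pi fun l => (F l).P.comp (ContinuousLinearMap.proj l)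

theorem Pp_apply (F : (l : L) → Fr (V l) (r l)) (z : (l : L) → V l) (l : L) :
    Pp F z l = (F l).P (z l) := rfl

end prod

section transport

variable {V V' : Type} [NormedAddCommGroup V] [NormedSpace ℂ V] [NormedAddCommGroup V']
  [NormedSpace ℂ V'] {r : ℕ}

/-- transported group -/
def trK (F : Frame V' (fun _ : Unit => r)) (e : V ≃L[ℂ] V') : Set (V →L[ℂ] V) :=
  {T | ∃ k ∈ F.K, ∀ z, T z = e.symm (k (e z))}

/-- transported diagonal elements -/
noncomputable def trD (F : Frame V' (fun _ : Unit => r)) (e : V ≃L[ℂ] V') : (Fin r → ℂ) →L[ℂ] V :=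
  (e.symm : V' →L[ℂ] V).comp (F.dg.comp
    (ContinuousLinearMap.pi fun _ : Unit => ContinuousLinearMap.id ℂ (Fin r → ℂ)))

theorem trD_apply (F : Frame V' (fun _ : Unit => r)) (e : V ≃L[ℂ] V') (b : Fin r → ℂ) :
    trD F e b = e.symm (F.dg (fun _ => b)) := rfl

/-- transported diagonal part -/
noncomputable def trP (F : Frame V' (fun _ : Unit => r)) (e : V ≃L[ℂ] V') : V →L[ℂ] (Fin r → ℂ) :=
  (ContinuousLinearMap.proj (R := ℂ) (φ := fun _ : Unit => Fin r → ℂ) ()).comp
    (F.P.comp (e : V →L[ℂ] V'))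

theorem trP_apply (F : Frame V' (fun _ : Unit => r)) (e : V ≃L[ℂ] V') (z : V) :
    trP F e z = F.P (e z) () := rfl

end transport

section space

variable {m n : ℕ}

/-- the space of matrices `S` with the norm of the space of matrices (a type of its own, so that there is only one topology on it) -/
def Sp (S : Submodule ℂ (Matrix (Fin m) (Fin n) ℂ)) : Type := S

noncomputable instance (S : Submodule ℂ (Matrix (Fin m) (Fin n) ℂ)) : NormedAddCommGroup (Sp S) :=
  inferInstanceAs (NormedAddCommGroup S)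

noncomputable instance (S : Submodule ℂ (Matrix (Fin m) (Fin n) ℂ)) : NormedSpace ℂ (Sp S) :=
  inferInstanceAs (NormedSpace ℂ S)

instance (S : Submodule ℂ (Matrix (Fin m) (Fin n) ℂ)) : FiniteDimensional ℂ (Sp S) :=
  inferInstanceAs (FiniteDimensional ℂ S)

variable {S : Submodule ℂ (Matrix (Fin m) (Fin n) ℂ)}

/-- the matrix -/
def Sp.val (Z : Sp S) : Matrix (Fin m) (Fin n) ℂ := (Z : S).1

/-- a matrix in `S` as an element of `Sp S` -/
def Sp.mk (Z : Matrix (Fin m) (Fin n) ℂ) (h : Z ∈ S) : Sp S := (⟨Z, h⟩ : S)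

theorem Sp.mem (Z : Sp S) : Z.val ∈ S := (Z : S).2

theorem Sp.val_mk (Z : Matrix (Fin m) (Fin n) ℂ) (h : Z ∈ S) : (Sp.mk Z h).val = Z := rfl

theorem Sp.ext {Z W : Sp S} (h : Z.val = W.val) : Z = W := Subtype.ext h

theorem Sp.val_add (Z W : Sp S) : (Z + W).val = Z.val + W.val := rfl

theorem Sp.val_sub (Z W : Sp S) : (Z - W).val = Z.val - W.val := rfl

theorem Sp.val_neg (Z : Sp S) : (-Z).val = -Z.val := rfl

theorem Sp.val_zero : (0 : Sp S).val = 0 := rfl

theorem Sp.val_smul (c : ℂ) (Z : Sp S) : (c • Z).val = c • Z.val := rfl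

/-- the inclusion -/
noncomputable def Sp.valL (S : Submodule ℂ (Matrix (Fin m) (Fin n) ℂ)) :
    Sp S →L[ℂ] Matrix (Fin m) (Fin n) ℂ :=
  LinearMap.toContinuousLinearMap
    { toFun := Sp.val
      map_add' := Sp.val_add
      map_smul' := Sp.val_smul }

theorem Sp.valL_apply (Z : Sp S) : Sp.valL S Z = Z.val := rfl

/-- a linear map into the space of matrices with values in `S` -/
noncomputable def Sp.lift {E : Type} [NormedAddCommGroup E] [NormedSpace ℂ E] [FiniteDimensional ℂ E]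
    (f : E →ₗ[ℂ] Matrix (Fin m) (Fin n) ℂ) (h : ∀ x, f x ∈ S) : E →L[ℂ] Sp S :=
  LinearMap.toContinuousLinearMap
    { toFun := fun x => Sp.mk (f x) (h x)
      map_add' := fun x y => Sp.ext (map_add f x y)
      map_smul' := fun c x => Sp.ext (map_smul f c x) }

theorem Sp.lift_val {E : Type} [NormedAddCommGroup E] [NormedSpace ℂ E] [FiniteDimensional ℂ E]
    (f : E →ₗ[ℂ] Matrix (Fin m) (Fin n) ℂ) (h : ∀ x, f x ∈ S) (x : E) :
    (Sp.lift f h x).val = f x := rfl

end space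

section congruence

/-- a space of square matrices which is invariant under congruence -/
def CInv {n : ℕ} (S : Submodule ℂ (Matrix (Fin n) (Fin n) ℂ)) : Prop :=
  ∀ A Z : Matrix (Fin n) (Fin n) ℂ, Z ∈ S → A * Z * A.transpose ∈ S

variable {n : ℕ} {S : Submodule ℂ (Matrix (Fin n) (Fin n) ℂ)}

/-- the map `Z ↦ A * Z * Aᵀ` -/
noncomputable def actS (hS : CInv S) (A : Matrix (Fin n) (Fin n) ℂ) : Sp S →L[ℂ] Sp S :=
  Sp.lift
    { toFun := fun Z => A * Z.val * A.transpose
      map_add' := fun x y => by rw [Sp.val_add, Matrix.mul_add, Matrix.add_mul]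
      map_smul' := fun c x => by
        rw [Sp.val_smul, Matrix.mul_smul, Matrix.smul_mul, RingHom.id_apply] }
    (fun Z => hS A Z.val Z.mem)

theorem actS_val (hS : CInv S) (A : Matrix (Fin n) (Fin n) ℂ) (Z : Sp S) :
    (actS hS A Z).val = A * Z.val * A.transpose := rfl

/-- the group of all `Z ↦ U * Z * Uᵀ` with unitary `U` -/
def KS (hS : CInv S) : Set (Sp S →L[ℂ] Sp S) :=
  {T | ∃ U : Matrix.unitaryGroup (Fin n) ℂ, T = actS hS (U : Matrix (Fin n) (Fin n) ℂ)}

/-- symmetric matrices -/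
def symS (n : ℕ) : Submodule ℂ (Matrix (Fin n) (Fin n) ℂ) where
  carrier := {Z | Z.transpose = Z}
  add_mem' := fun {x y} (hx : x.transpose = x) (hy : y.transpose = y) => by
    show (x + y).transpose = x + y
    rw [Matrix.transpose_add, hx, hy]
  zero_mem' := Matrix.transpose_zero
  smul_mem' := fun c x (hx : x.transpose = x) => by
    show (c • x).transpose = c • x
    rw [Matrix.transpose_smul, hx]

/-- skew symmetric matrices -/
def skwS (n : ℕ) : Submodule ℂ (Matrix (Fin n) (Fin n) ℂ) where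
  carrier := {Z | Z.transpose = -Z}
  add_mem' := fun {x y} (hx : x.transpose = -x) (hy : y.transpose = -y) => by
    show (x + y).transpose = -(x + y)
    rw [Matrix.transpose_add, hx, hy, neg_add]
  zero_mem' := by
    show (0 : Matrix (Fin n) (Fin n) ℂ).transpose = -0
    rw [Matrix.transpose_zero, neg_zero]
  smul_mem' := fun c x (hx : x.transpose = -x) => by
    show (c • x).transpose = -(c • x)
    rw [Matrix.transpose_smul, hx, smul_neg]

theorem hsym (n : ℕ) : CInv (symS n) := by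
  intro A Z hZ
  have h : Z.transpose = Z := hZ
  show (A * Z * A.transpose).transpose = A * Z * A.transpose
  rw [Matrix.transpose_mul, Matrix.transpose_mul, Matrix.transpose_transpose, h, Matrix.mul_assoc]

theorem hskw (n : ℕ) : CInv (skwS n) := by
  intro A Z hZ
  have h : Z.transpose = -Z := hZ
  show (A * Z * A.transpose).transpose = -(A * Z * A.transpose)
  rw [Matrix.transpose_mul, Matrix.transpose_mul, Matrix.transpose_transpose, h, Matrix.neg_mul,
    Matrix.mul_neg, Matrix.mul_assoc]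

end congruence

/-! ### type III : symmetric matrices -/

theorem dgm_sym {n : ℕ} (b : Fin n → ℂ) : (dgm b : Matrix (Fin n) (Fin n) ℂ) ∈ symS n := by
  show (dgm b : Matrix (Fin n) (Fin n) ℂ).transpose = dgm b
  ext i j
  rw [Matrix.transpose_apply]
  unfold dgm
  by_cases h : (j : ℕ) = (i : ℕ)
  · rw [if_pos h, if_pos h.symm, Fin.ext h]
  · rw [if_neg h, if_neg (fun h' => h h'.symm)]

/-- diagonal elements, type III -/
noncomputable def dgY (n : ℕ) : (Fin n → ℂ) →L[ℂ] Sp (symS n) :=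
  Sp.lift
    { toFun := fun b => dgm b
      map_add' := fun x y => by
        funext i j
        show (if (i : ℕ) = (j : ℕ) then x i + y i else 0) =
          (if (i : ℕ) = (j : ℕ) then x i else 0) + (if (i : ℕ) = (j : ℕ) then y i else 0)
        split_ifs <;> simp
      map_smul' := fun c x => by
        funext i j
        show (if (i : ℕ) = (j : ℕ) then c * x i else 0) =
          c * (if (i : ℕ) = (j : ℕ) then x i else 0)
        split_ifs <;> simp } dgm_sym

theorem dgY_val (n : ℕ) (b : Fin n → ℂ) : (dgY n b).val = dgm b := rfl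

/-- diagonal part, type III -/
noncomputable def PY (n : ℕ) : Sp (symS n) →L[ℂ] (Fin n → ℂ) :=
  LinearMap.toContinuousLinearMap
    { toFun := fun Z i => Z.val i i
      map_add' := fun _ _ => rfl
      map_smul' := fun _ _ => rfl }

theorem PY_apply (n : ℕ) (Z : Sp (symS n)) (i : Fin n) : PY n Z i = Z.val i i := rfl

/-! ### type II : skew symmetric matrices -/

/-- the block diagonal matrix with blocks `[[0, b k], [- b k, 0]]` (and `0` if `n` is odd) -/
def skm (n : ℕ) (b : Fin (n / 2) → ℂ) : Matrix (Fin n) (Fin n) ℂ := fun i j =>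
  if h : (i : ℕ) / 2 < n / 2 then
    (if (j : ℕ) = (i : ℕ) + 1 ∧ (i : ℕ) % 2 = 0 then b ⟨(i : ℕ) / 2, h⟩
      else if (i : ℕ) = (j : ℕ) + 1 ∧ (j : ℕ) % 2 = 0 then -b ⟨(i : ℕ) / 2, h⟩ else 0)
  else 0

theorem skm_skw (n : ℕ) (b : Fin (n / 2) → ℂ) : skm n b ∈ skwS n := by
  show (skm n b).transpose = -(skm n b)
  ext i j
  rw [Matrix.transpose_apply, Matrix.neg_apply]
  unfold skm
  have hi := i.2
  have hj := j.2
  by_cases h1 : (i : ℕ) = (j : ℕ) + 1 ∧ (j : ℕ) % 2 = 0
  · have e1 : (j : ℕ) / 2 < n / 2 := by omega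
    have e2 : (i : ℕ) / 2 < n / 2 := by omega
    have e3 : ¬ ((j : ℕ) = (i : ℕ) + 1 ∧ (i : ℕ) % 2 = 0) := by omega
    have e4 : (⟨(j : ℕ) / 2, e1⟩ : Fin (n / 2)) = ⟨(i : ℕ) / 2, e2⟩ := by
      apply Fin.ext
      show (j : ℕ) / 2 = (i : ℕ) / 2
      omega
    rw [dif_pos e1, if_pos h1, dif_pos e2, if_neg e3, if_pos h1, e4, neg_neg]
  · by_cases h2 : (j : ℕ) = (i : ℕ) + 1 ∧ (i : ℕ) % 2 = 0
    · have e1 : (j : ℕ) / 2 < n / 2 := by omega
      have e2 : (i : ℕ) / 2 < n / 2 := by omega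
      have e4 : (⟨(j : ℕ) / 2, e1⟩ : Fin (n / 2)) = ⟨(i : ℕ) / 2, e2⟩ := by
        apply Fin.ext
        show (j : ℕ) / 2 = (i : ℕ) / 2
        omega
      rw [dif_pos e1, if_neg h1, if_pos h2, dif_pos e2, if_pos h2, e4]
    · simp only [if_neg h1, if_neg h2]
      split_ifs <;> simp

/-- diagonal elements, type II -/
noncomputable def dgK (n : ℕ) : (Fin (n / 2) → ℂ) →L[ℂ] Sp (skwS n) :=
  Sp.lift
    { toFun := fun b => skm n b
      map_add' := fun x y => by
        funext i j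
        show skm n (x + y) i j = skm n x i j + skm n y i j
        unfold skm
        split_ifs
        · rfl
        · rw [Pi.add_apply, neg_add]
        · rw [add_zero]
        · rw [add_zero]
      map_smul' := fun c x => by
        funext i j
        show skm n (c • x) i j = c * skm n x i j
        unfold skm
        split_ifs
        · rfl
        · rw [Pi.smul_apply, smul_eq_mul, mul_neg]
        · rw [mul_zero]
        · rw [mul_zero] } (skm_skw n)

theorem dgK_val (n : ℕ) (b : Fin (n / 2) → ℂ) : (dgK n b).val = skm n b := rfl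

/-- the index `2 k` -/
def ev {n : ℕ} (k : Fin (n / 2)) : Fin n := ⟨2 * (k : ℕ), by have := k.2; omega⟩

/-- the index `2 k + 1` -/
def od {n : ℕ} (k : Fin (n / 2)) : Fin n := ⟨2 * (k : ℕ) + 1, by have := k.2; omega⟩

/-- diagonal part, type II -/
noncomputable def PK2 (n : ℕ) : Sp (skwS n) →L[ℂ] (Fin (n / 2) → ℂ) :=
  LinearMap.toContinuousLinearMap
    { toFun := fun Z k => Z.val (ev k) (od k)
      map_add' := fun _ _ => rfl
      map_smul' := fun _ _ => rfl }

theorem PK2_apply (n : ℕ) (Z : Sp (skwS n)) (k : Fin (n / 2)) :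
    PK2 n Z k = Z.val (ev k) (od k) := rfl

/-- every entry of `b` twice (and `0` at the end if `n` is odd) -/
def dbl (n : ℕ) (b : Fin (n / 2) → ℝ) : Fin n → ℝ := fun i =>
  if h : (i : ℕ) / 2 < n / 2 then b ⟨(i : ℕ) / 2, h⟩ else 0

/-- singular values, type II -/
noncomputable def sK (n : ℕ) (Z : Sp (skwS n)) : Fin (n / 2) → ℝ := fun k => sv Z.val (ev k)

/-- the matrix `M ⊗ [[0, 1], [-1, 0]]` (and `0` if `n` is odd) -/
def emM (n : ℕ) (M : Matrix (Fin (n / 2)) (Fin (n / 2)) ℂ) : Matrix (Fin n) (Fin n) ℂ := fun i j =>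
  if h : (i : ℕ) / 2 < n / 2 ∧ (j : ℕ) / 2 < n / 2 then
    (if (i : ℕ) % 2 = 0 ∧ (j : ℕ) % 2 = 1 then M ⟨(i : ℕ) / 2, h.1⟩ ⟨(j : ℕ) / 2, h.2⟩
      else if (i : ℕ) % 2 = 1 ∧ (j : ℕ) % 2 = 0 then -M ⟨(i : ℕ) / 2, h.1⟩ ⟨(j : ℕ) / 2, h.2⟩ else 0)
  else 0

theorem emM_skw (n : ℕ) (M : Sp (symS (n / 2))) : emM n M.val ∈ skwS n := by
  show (emM n M.val).transpose = -(emM n M.val)
  have hM : ∀ a b, M.val a b = M.val b a := fun a b => by
    have h : M.val.transpose = M.val := M.mem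
    have h2 := congrFun (congrFun h b) a
    rw [Matrix.transpose_apply] at h2
    exact h2
  ext i j
  rw [Matrix.transpose_apply, Matrix.neg_apply]
  unfold emM
  by_cases h : (i : ℕ) / 2 < n / 2 ∧ (j : ℕ) / 2 < n / 2
  · rw [dif_pos ⟨h.2, h.1⟩, dif_pos h]
    by_cases h1 : (i : ℕ) % 2 = 0 ∧ (j : ℕ) % 2 = 1
    · rw [if_neg (by omega), if_pos ⟨h1.2, h1.1⟩, if_pos h1, hM]
    · by_cases h2 : (i : ℕ) % 2 = 1 ∧ (j : ℕ) % 2 = 0
      · rw [if_pos ⟨h2.2, h2.1⟩, if_neg h1, if_pos h2, neg_neg, hM]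
      · rw [if_neg (fun h3 => h2 ⟨h3.2, h3.1⟩), if_neg (fun h3 => h1 ⟨h3.2, h3.1⟩), if_neg h1,
          if_neg h2, neg_zero]
  · rw [dif_neg (fun h3 => h ⟨h3.2, h3.1⟩), dif_neg h, neg_zero]

/-- the embedding of type III in type II -/
noncomputable def emb (n : ℕ) : Sp (symS (n / 2)) →L[ℂ] Sp (skwS n) :=
  Sp.lift
    { toFun := fun M => emM n M.val
      map_add' := fun x y => by
        funext i j
        show emM n (x.val + y.val) i j = emM n x.val i j + emM n y.val i j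
        unfold emM
        split_ifs
        · rfl
        · rw [Matrix.add_apply, neg_add]
        · rw [add_zero]
        · rw [add_zero]
      map_smul' := fun c x => by
        funext i j
        show emM n (c • x.val) i j = c * emM n x.val i j
        unfold emM
        split_ifs
        · rfl
        · rw [Matrix.smul_apply, smul_eq_mul, mul_neg]
        · rw [mul_zero]
        · rw [mul_zero] } (emM_skw n)

theorem emb_val (n : ℕ) (M : Sp (symS (n / 2))) : (emb n M).val = emM n M.val := rfl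

/-! ### type IV : vectors, `N = n + 3` -/

section four

variable {N : ℕ}

/-- the map `z ↦ u z O` -/
noncomputable def actV (u : ℂ) (O : Matrix (Fin N) (Fin N) ℝ) : (Fin N → ℂ) →L[ℂ] (Fin N → ℂ) :=
  LinearMap.toContinuousLinearMap
    { toFun := fun z j => u * ∑ i, z i * (O i j : ℂ)
      map_add' := fun x y => by
        funext j
        simp only [Pi.add_apply, add_mul, Finset.sum_add_distrib, mul_add]
      map_smul' := fun c x => by
        funext j
        simp only [Pi.smul_apply, smul_eq_mul, RingHom.id_apply, mul_assoc, ← Finset.mul_sum]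
        ring }

theorem actV_apply (u : ℂ) (O : Matrix (Fin N) (Fin N) ℝ) (z : Fin N → ℂ) (j : Fin N) :
    actV u O z j = u * ∑ i, z i * (O i j : ℂ) := rfl

/-- the group of all `z ↦ u z O` with `|u| = 1` and `O` in `SO(N)` -/
def KV (N : ℕ) : Set ((Fin N → ℂ) →L[ℂ] (Fin N → ℂ)) :=
  {T | ∃ (u : ℂ) (O : Matrix (Fin N) (Fin N) ℝ), ‖u‖ = 1 ∧ O ∈ Matrix.orthogonalGroup (Fin N) ℝ ∧
    O.det = 1 ∧ T = actV u O}

/-- `|z|²` -/
noncomputable def nq (z : Fin N → ℂ) : ℝ := ∑ i, ‖z i‖ ^ 2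

/-- `z · z` -/
noncomputable def qf (z : Fin N → ℂ) : ℂ := ∑ i, z i ^ 2

/-- singular values, type IV -/
noncomputable def sV (z : Fin N → ℂ) : Fin 2 → ℝ :=
  ![(Real.sqrt (2 * nq z + 2 * ‖qf z‖) + Real.sqrt (2 * nq z - 2 * ‖qf z‖)) / 2,
    (Real.sqrt (2 * nq z + 2 * ‖qf z‖) - Real.sqrt (2 * nq z - 2 * ‖qf z‖)) / 2]

end four

/-- diagonal elements, type IV -/
noncomputable def dgV (n : ℕ) : (Fin 2 → ℂ) →L[ℂ] (Fin (n + 3) → ℂ) :=
  LinearMap.toContinuousLinearMap
    { toFun := fun b j => if j = 0 then (b 0 + b 1) / 2 else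
        if j = 1 then Complex.I * (b 0 - b 1) / 2 else 0
      map_add' := fun x y => by
        funext j
        simp only [Pi.add_apply]
        split_ifs <;> ring
      map_smul' := fun c x => by
        funext j
        simp only [Pi.smul_apply, smul_eq_mul, RingHom.id_apply]
        split_ifs <;> ring }

theorem dgV_apply (n : ℕ) (b : Fin 2 → ℂ) (j : Fin (n + 3)) : dgV n b j =
    if j = 0 then (b 0 + b 1) / 2 else if j = 1 then Complex.I * (b 0 - b 1) / 2 else 0 := rfl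

/-- diagonal part, type IV -/
noncomputable def PV (n : ℕ) : (Fin (n + 3) → ℂ) →L[ℂ] (Fin 2 → ℂ) :=
  LinearMap.toContinuousLinearMap
    { toFun := fun z => ![z 0 - Complex.I * z 1, z 0 + Complex.I * z 1]
      map_add' := fun x y => by
        funext i
        fin_cases i
        · show x 0 + y 0 - Complex.I * (x 1 + y 1) = x 0 - Complex.I * x 1 + (y 0 - Complex.I * y 1)
          ring
        · show x 0 + y 0 + Complex.I * (x 1 + y 1) = x 0 + Complex.I * x 1 + (y 0 + Complex.I * y 1)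
          ring
      map_smul' := fun c x => by
        funext i
        fin_cases i
        · show c * x 0 - Complex.I * (c * x 1) = c * (x 0 - Complex.I * x 1)
          ring
        · show c * x 0 + Complex.I * (c * x 1) = c * (x 0 + Complex.I * x 1)
          ring }

theorem PV_apply (n : ℕ) (z : Fin (n + 3) → ℂ) :
    PV n z = ![z 0 - Complex.I * z 1, z 0 + Complex.I * z 1] := rfl

/-- the conical polynomials, type IV -/
noncomputable def ΔV (n : ℕ) (k : Fin 2) (z : Fin (n + 3) → ℂ) : ℂ :=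
  if k = 0 then z 0 - Complex.I * z 1 else qf z

end H5.PC
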