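import Pool.Agent.H5.PC.Defs

/-! # PC.Fac : the classical factors (definitions of the statement)

`Fac.I m k`: matrices with `m` rows and `m + k` columns, `Z ↦ U Z W`. `Fac.II n`: skew symmetric matrices, `Fac.III n`: symmetric matrices,
`Z ↦ U Z Uᵀ`. `Fac.IV n`: row vectors of length `n + 3`, `z ↦ u z O`, `|u| = 1`, `O` in `SO(n+3)`. -/

namespace H5.PC

/-- the types of irreducible classical bounded symmetric domains -/
inductive Fac : Type
  | I (m k : ℕ)
  | II (n : ℕ)
  | III (n : ℕ)
  | IV (n : ℕ)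

/-- number of rows -/
def Fac.row : Fac → ℕ
  | .I m _ => m
  | .II n => n
  | .III n => n
  | .IV _ => 1

/-- number of columns -/
def Fac.col : Fac → ℕ
  | .I m k => m + k
  | .II n => n
  | .III n => n
  | .IV n => n + 3

/-- the rank -/
def Fac.rank : Fac → ℕ
  | .I m _ => m
  | .II n => n / 2
  | .III n => n
  | .IV _ => 2

/-- the space of matrices -/
def Fac.space : (c : Fac) → Submodule ℂ (Matrix (Fin c.row) (Fin c.col) ℂ)
  | .I _ _ => ⊤
  | .II n => skwS n
  | .III n => symS n
  | .IV _ => ⊤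

/-- the pairs `(U, W)` of unitary matrices for which `Z ↦ U * Z * W` belongs to the isotropy group -/
def Fac.group : (c : Fac) →
    Set (Matrix.unitaryGroup (Fin c.row) ℂ × Matrix.unitaryGroup (Fin c.col) ℂ)
  | .I _ _ => Set.univ
  | .II _ => {g | g.2.1 = g.1.1.transpose}
  | .III _ => {g | g.2.1 = g.1.1.transpose}
  | .IV _ => {g | (∀ i j, (g.2.1 i j).im = 0) ∧ g.2.1.det = 1}

end H5.PC
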