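import Pool.Agent.H5.PC.TrF
import Pool.Agent.H5.PC.Fac
import Pool.Agent.H5.PK.IFr

/-! # PC.FI : type I (glue) -/

namespace H5.PC

open H5.PK Topology
open scoped Matrix.Norms.Elementwise

/-- all matrices as matrices indexed by `Unit` -/
noncomputable def eI (a b : ℕ) : Sp (⊤ : Submodule ℂ (Matrix (Fin a) (Fin b) ℂ)) ≃L[ℂ]
    MV (fun _ : Unit => a) (fun _ : Unit => b) :=
  LinearEquiv.toContinuousLinearEquiv
    { toFun := fun Z _ => Z.val
      invFun := fun Z => Sp.mk (Z ()) trivial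
      map_add' := fun _ _ => rfl
      map_smul' := fun _ _ => rfl
      left_inv := fun _ => rfl
      right_inv := fun _ => rfl }

theorem eI_apply (a b : ℕ) (Z : Sp (⊤ : Submodule ℂ (Matrix (Fin a) (Fin b) ℂ))) :
    eI a b Z = fun _ => Z.val := rfl

theorem eI_symm_val (a b : ℕ) (Z : MV (fun _ : Unit => a) (fun _ : Unit => b)) :
    ((eI a b).symm Z).val = Z () := rfl

theorem id_mem (a b : ℕ) : ContinuousLinearMap.id ℂ (MV (fun _ : Unit => a) (fun _ : Unit => b)) ∈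
    KM (fun _ : Unit => a) (fun _ : Unit => b) := by
  refine ⟨fun _ => 1, fun _ => 1, ?_⟩
  ext Z l i j
  rw [actL_apply]
  show Z l i j = ((1 : Matrix (Fin a) (Fin a) ℂ) * Z l * (1 : Matrix (Fin b) (Fin b) ℂ)) i j
  rw [Matrix.one_mul, Matrix.mul_one]

/-- type I -/
noncomputable def FrI (m k : ℕ) : Fr (Sp (⊤ : Submodule ℂ (Matrix (Fin m) (Fin (m + k)) ℂ))) m :=
  ofUnit (FM (m := fun _ : Unit => m) (n := fun _ : Unit => m + k) (fun _ => Nat.le_add_right m k))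
    (eI m (m + k)) (id_mem m (m + k))

theorem FrI_K (m k : ℕ) (T : Sp (⊤ : Submodule ℂ (Matrix (Fin m) (Fin (m + k)) ℂ)) →L[ℂ]
    Sp (⊤ : Submodule ℂ (Matrix (Fin m) (Fin (m + k)) ℂ))) (hT : T ∈ (FrI m k).K) :
    ∃ (U : Matrix.unitaryGroup (Fin m) ℂ) (W : Matrix.unitaryGroup (Fin (m + k)) ℂ),
      ∀ Z, (T Z).val = (U : Matrix (Fin m) (Fin m) ℂ) * Z.val *
        (W : Matrix (Fin (m + k)) (Fin (m + k)) ℂ) := by
  obtain ⟨k', ⟨U, W, rfl⟩, h⟩ := hT
  exact ⟨U (), W (), fun Z => congrArg Sp.val (h Z)⟩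

end H5.PC
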