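import Pool.Agent.H5.PC.Defs

/-! # PC.RpM : root curves under an equivariant map

The curves are composed with `ι` (`(ι.restrictScalars ℝ).hasFDerivAt.comp_hasDerivAt`); orbit: `ι (c t) = ι (k p) = k' (ι p)`. -/

namespace H5.PC

open H5.PK Topology

private theorem rpM_cu {V W : Type} [NormedAddCommGroup V] [NormedSpace ℂ V] [NormedAddCommGroup W]
    [NormedSpace ℂ W] {K : Set (V →L[ℂ] V)} {p : V} {K' : Set (W →L[ℂ] W)} (ι : V →L[ℂ] W)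
    (hK : ∀ k ∈ K, ∃ k' ∈ K', ∀ z, ι (k z) = k' (ι z)) {c c' : ℝ → V} {y : V}
    (h : Cu K p c c' y) : Cu K' (ι p) (fun t => ι (c t)) (fun t => ι (c' t)) (ι y) := by
  obtain ⟨h1, h2, h3, h4⟩ := h
  refine ⟨fun t => ?_, ?_, ?_, fun t => ?_⟩
  · exact (ι.restrictScalars ℝ).hasFDerivAt.comp_hasDerivAt t (h1 t)
  · exact (ι.restrictScalars ℝ).hasFDerivAt.comp_hasDerivAt 0 h2
  · show ι (c 0) = ι p
    rw [h3]
  · obtain ⟨k, hk, hkc⟩ := h4 t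
    obtain ⟨k', hk', hkk⟩ := hK k hk
    refine ⟨k', hk', ?_⟩
    show ι (c t) = k' (ι p)
    rw [hkc, hkk]

theorem RP1.map {V W : Type} [NormedAddCommGroup V] [NormedSpace ℂ V] [NormedAddCommGroup W]
    [NormedSpace ℂ W] {r : ℕ} {K : Set (V →L[ℂ] V)} {P : V →L[ℂ] (Fin r → ℂ)} {p : V}
    {w : Fin r → ℂ} {K' : Set (W →L[ℂ] W)} {P' : W →L[ℂ] (Fin r → ℂ)} (ι : V →L[ℂ] W)
    (hK : ∀ k ∈ K, ∃ k' ∈ K', ∀ z, ι (k z) = k' (ι z)) (hP : ∀ z, P' (ι z) = P z)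
    (h : RP1 K P p w) : RP1 K' P' (ι p) w := by
  obtain ⟨x, c₁, c₁', c₂, c₂', y₁, y₂, hx, h1, h1x, h2, h2x, hw⟩ := h
  refine ⟨ι x, fun t => ι (c₁ t), fun t => ι (c₁' t), fun t => ι (c₂ t), fun t => ι (c₂' t), ι y₁,
    ι y₂, by rw [hP, hx], rpM_cu ι hK h1, ?_, rpM_cu ι hK h2, ?_, by rw [← map_add, hP, hw]⟩
  · show ι (c₁' 0) = ι x
    rw [h1x]
  · show ι (c₂' 0) = Complex.I • ι x
    rw [h2x, map_smul]

end H5.PC
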