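import Pool.Agent.H5.PC.Defs

/-! # PC.SkG : type II, gradients

For `k : Fin (n/2)` let `U` be diagonal with entries `-1` at `ev k`, `od k` and `1` elsewhere: `Z ↦ U Z Uᵀ` is an involution, fixes `skm n b`, and changes the sign of the entries `(i, j)` with exactly one of `i, j` in the pair of `k`; if `n` is odd the matrix `U` with `-1` at the last index only changes the sign of the entries in the last row and column
and fixes `skm n b`. So `f` vanishes on the skew symmetric matrices with entries `c` at `(i, j)` and `- c` at `(j, i)` only, if `i ≠ j` are not in the same pair (`i / 2 ≠ j / 2`). Every skew symmetric `Z` is `dgK (PK2 Z)` plus a sum of those (half the sum over all `(i, j)` with `i/2 ≠ j/2`; the diagonal entries vanish).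
Second claim: `U` diagonal with `-1` at `ev i` only: an involution, changes the sign of the block `i` of `skm n b`; it fixes `dgK (cx1 a)` because `a i = 0`. -/

namespace H5.PC

open H5.PK Topology
open scoped Matrix.Norms.Elementwise

private theorem SkG_val {n : ℕ} (s : Fin n → ℂ) (Z : Sp (skwS n)) (p q : Fin n) :
    (actS (hskw n) (Matrix.diagonal s) Z).val p q = s p * Z.val p q * s q := by
  rw [actS_val, Matrix.diagonal_transpose, Matrix.mul_diagonal, Matrix.diagonal_mul]

private theorem SkG_mem {n : ℕ} (s : Fin n → ℂ) (h : ∀ i, s i = 1 ∨ s i = -1) :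
    actS (hskw n) (Matrix.diagonal s) ∈ KS (hskw n) := by
  have h1 : Matrix.diagonal s ∈ Matrix.unitaryGroup (Fin n) ℂ := by
    rw [Matrix.mem_unitaryGroup_iff, Matrix.star_eq_conjTranspose, Matrix.diagonal_conjTranspose,
      Matrix.diagonal_mul_diagonal, ← Matrix.diagonal_one]
    congr 1
    funext i
    rcases h i with h | h <;> simp [h]
  exact ⟨⟨Matrix.diagonal s, h1⟩, rfl⟩

private theorem SkG_invol {n : ℕ} (s : Fin n → ℂ) (h : ∀ i, s i = 1 ∨ s i = -1) (Z : Sp (skwS n)) :
    actS (hskw n) (Matrix.diagonal s) (actS (hskw n) (Matrix.diagonal s) Z) = Z := by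
  apply Sp.ext
  funext p q
  rw [SkG_val, SkG_val]
  rcases h p with hp | hp <;> rcases h q with hq | hq <;> rw [hp, hq] <;> ring

/-- the sign function of the pair `k` -/
private noncomputable def SkG_s (n : ℕ) (k : ℕ) : Fin n → ℂ := fun i => if (i : ℕ) / 2 = k then -1 else 1

private theorem SkG_s_pm (n k : ℕ) (i : Fin n) : SkG_s n k i = 1 ∨ SkG_s n k i = -1 := by
  unfold SkG_s
  split_ifs
  · right; rfl
  · left; rfl

open scoped Classical in
/-- the matrix with the entries of mixed pairs cut off -/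
private noncomputable def SkG_cut {n : ℕ} (s : Finset (Fin (n / 2))) (Z : Sp (skwS n)) : Sp (skwS n) :=
  Sp.mk (fun i j => if ∃ k ∈ s, ¬ ((i : ℕ) / 2 = (k : ℕ) ↔ (j : ℕ) / 2 = (k : ℕ)) then 0 else Z.val i j) (by
    have hZ : Z.val.transpose = -Z.val := Z.mem
    have hZ' : ∀ i j, Z.val j i = -Z.val i j := fun i j => congrFun (congrFun hZ i) j
    show Matrix.transpose _ = -_
    funext i j
    show (if ∃ k ∈ s, ¬ ((j : ℕ) / 2 = (k : ℕ) ↔ (i : ℕ) / 2 = (k : ℕ)) then 0 else Z.val j i) =
      -(if ∃ k ∈ s, ¬ ((i : ℕ) / 2 = (k : ℕ) ↔ (j : ℕ) / 2 = (k : ℕ)) then 0 else Z.val i j)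
    by_cases h : ∃ k ∈ s, ¬ ((i : ℕ) / 2 = (k : ℕ) ↔ (j : ℕ) / 2 = (k : ℕ))
    · have h' : ∃ k ∈ s, ¬ ((j : ℕ) / 2 = (k : ℕ) ↔ (i : ℕ) / 2 = (k : ℕ)) := by
        obtain ⟨k, hk, h2⟩ := h
        exact ⟨k, hk, fun h3 => h2 h3.symm⟩
      rw [if_pos h, if_pos h', neg_zero]
    · have h' : ¬ ∃ k ∈ s, ¬ ((j : ℕ) / 2 = (k : ℕ) ↔ (i : ℕ) / 2 = (k : ℕ)) := by
        rintro ⟨k, hk, h2⟩
        exact h ⟨k, hk, fun h3 => h2 h3.symm⟩
      rw [if_neg h, if_neg h']
      exact hZ' i j)

open scoped Classical in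
private theorem SkG_cut_val {n : ℕ} (s : Finset (Fin (n / 2))) (Z : Sp (skwS n)) (i j : Fin n) :
    (SkG_cut s Z).val i j =
      if ∃ k ∈ s, ¬ ((i : ℕ) / 2 = (k : ℕ) ↔ (j : ℕ) / 2 = (k : ℕ)) then 0 else Z.val i j := rfl

private theorem SkG_step {n : ℕ} (k : Fin (n / 2)) (s : Finset (Fin (n / 2))) (Z : Sp (skwS n)) :
    SkG_cut (insert k s) Z + SkG_cut (insert k s) Z =
      SkG_cut s Z + actS (hskw n) (Matrix.diagonal (SkG_s n k)) (SkG_cut s Z) := by
  classical
  apply Sp.ext
  funext i j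
  rw [Sp.val_add, Sp.val_add, Matrix.add_apply, Matrix.add_apply, SkG_val, SkG_cut_val, SkG_cut_val]
  by_cases h : ∃ k ∈ s, ¬ ((i : ℕ) / 2 = (k : ℕ) ↔ (j : ℕ) / 2 = (k : ℕ))
  · have h' : ∃ k' ∈ insert k s, ¬ ((i : ℕ) / 2 = (k' : ℕ) ↔ (j : ℕ) / 2 = (k' : ℕ)) := by
      obtain ⟨k', hk, h2⟩ := h
      exact ⟨k', Finset.mem_insert_of_mem hk, h2⟩
    rw [if_pos h, if_pos h']
    ring
  · rw [if_neg h]
    by_cases h2 : ((i : ℕ) / 2 = (k : ℕ) ↔ (j : ℕ) / 2 = (k : ℕ))
    · have h' : ¬ ∃ k' ∈ insert k s, ¬ ((i : ℕ) / 2 = (k' : ℕ) ↔ (j : ℕ) / 2 = (k' : ℕ)) := by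
        rintro ⟨k', hk, h3⟩
        rcases Finset.mem_insert.1 hk with rfl | hk
        · exact h3 h2
        · exact h ⟨k', hk, h3⟩
      rw [if_neg h']
      unfold SkG_s
      by_cases h3 : (i : ℕ) / 2 = (k : ℕ)
      · rw [if_pos h3, if_pos (h2.1 h3)]
        ring
      · rw [if_neg h3, if_neg (fun h4 => h3 (h2.2 h4))]
        ring
    · have h' : ∃ k' ∈ insert k s, ¬ ((i : ℕ) / 2 = (k' : ℕ) ↔ (j : ℕ) / 2 = (k' : ℕ)) :=
        ⟨k, Finset.mem_insert_self _ _, h2⟩
      rw [if_pos h']
      unfold SkG_s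
      by_cases h3 : (i : ℕ) / 2 = (k : ℕ)
      · have h4 : ¬ (j : ℕ) / 2 = (k : ℕ) := fun h4 => h2 ⟨fun _ => h4, fun _ => h3⟩
        rw [if_pos h3, if_neg h4]
        ring
      · have h4 : (j : ℕ) / 2 = (k : ℕ) := by
          by_contra h4
          exact h2 ⟨fun h5 => absurd h5 h3, fun h5 => absurd h5 h4⟩
        rw [if_neg h3, if_pos h4]
        ring

private theorem SkG_univ {n : ℕ} (Z : Sp (skwS n)) : SkG_cut Finset.univ Z = dgK n (PK2 n Z) := by
  classical
  have hZ : Z.val.transpose = -Z.val := Z.mem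
  have hZ' : ∀ i j, Z.val j i = -Z.val i j := fun i j => congrFun (congrFun hZ i) j
  have hd : ∀ i, Z.val i i = 0 := fun i => by
    have h := hZ' i i
    exact self_eq_neg.1 h
  apply Sp.ext
  funext i j
  rw [SkG_cut_val, dgK_val]
  unfold skm
  have hi := i.2
  have hj := j.2
  by_cases hij : (i : ℕ) / 2 = (j : ℕ) / 2
  · have h : ¬ ∃ k ∈ (Finset.univ : Finset (Fin (n / 2))), ¬ ((i : ℕ) / 2 = (k : ℕ) ↔ (j : ℕ) / 2 = (k : ℕ)) := by
      rintro ⟨k, _, h2⟩
      exact h2 (by rw [hij])
    rw [if_neg h]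
    by_cases h1 : (i : ℕ) / 2 < n / 2
    · rw [dif_pos h1]
      by_cases h2 : (j : ℕ) = (i : ℕ) + 1 ∧ (i : ℕ) % 2 = 0
      · rw [if_pos h2, PK2_apply]
        have e1 : ev ⟨(i : ℕ) / 2, h1⟩ = i := Fin.ext (by show 2 * ((i : ℕ) / 2) = (i : ℕ); omega)
        have e2 : od ⟨(i : ℕ) / 2, h1⟩ = j := Fin.ext (by show 2 * ((i : ℕ) / 2) + 1 = (j : ℕ); omega)
        rw [e1, e2]
      · rw [if_neg h2]
        by_cases h3 : (i : ℕ) = (j : ℕ) + 1 ∧ (j : ℕ) % 2 = 0
        · rw [if_pos h3, PK2_apply]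
          have e1 : ev ⟨(i : ℕ) / 2, h1⟩ = j := Fin.ext (by show 2 * ((i : ℕ) / 2) = (j : ℕ); omega)
          have e2 : od ⟨(i : ℕ) / 2, h1⟩ = i := Fin.ext (by show 2 * ((i : ℕ) / 2) + 1 = (i : ℕ); omega)
          rw [e1, e2]
          exact hZ' j i
        · rw [if_neg h3]
          have e1 : i = j := Fin.ext (by omega)
          rw [e1]
          exact hd j
    · rw [dif_neg h1]
      have e1 : i = j := Fin.ext (by omega)
      rw [e1]
      exact hd j
  · have h : ∃ k ∈ (Finset.univ : Finset (Fin (n / 2))), ¬ ((i : ℕ) / 2 = (k : ℕ) ↔ (j : ℕ) / 2 = (k : ℕ)) := by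
      by_cases h1 : (i : ℕ) / 2 < n / 2
      · exact ⟨⟨(i : ℕ) / 2, h1⟩, Finset.mem_univ _, fun h2 => hij (h2.1 rfl).symm⟩
      · have h2 : (j : ℕ) / 2 < n / 2 := by omega
        exact ⟨⟨(j : ℕ) / 2, h2⟩, Finset.mem_univ _, fun h3 => hij (h3.2 rfl)⟩
    rw [if_pos h]
    symm
    by_cases h1 : (i : ℕ) / 2 < n / 2
    · rw [dif_pos h1, if_neg (by omega), if_neg (by omega)]
    · rw [dif_neg h1]

private theorem SkG_empty {n : ℕ} (Z : Sp (skwS n)) : SkG_cut ∅ Z = Z := by
  classical
  apply Sp.ext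
  funext i j
  rw [SkG_cut_val, if_neg]
  rintro ⟨k, hk, _⟩
  exact absurd hk (Finset.notMem_empty _)

theorem K_grad (n : ℕ) (a : Fin (n / 2) → ℝ) (ha : ∀ i, 0 ≤ a i) (f : Sp (skwS n) →L[ℝ] ℝ)
    (hf : ∀ k ∈ KS (hskw n), (∀ z, k (k (k (k z))) = z) → k (dgK n (cx1 a)) = dgK n (cx1 a) →
      ∀ z, f (k z) = f z) :
    (∀ z, f z = f (dgK n (PK2 n z))) ∧ ∀ i, a i = 0 → ∀ c : ℂ, f (dgK n (Pi.single i c)) = 0 := by
  constructor
  · intro z
    have key : ∀ s : Finset (Fin (n / 2)), f (SkG_cut s z) = f z := by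
      intro s
      induction s using Finset.induction_on with
      | empty => rw [SkG_empty]
      | insert k s _ ih =>
        have h1 := congrArg f (SkG_step k s z)
        rw [map_add, map_add] at h1
        have h2 := hf (actS (hskw n) (Matrix.diagonal (SkG_s n k))) (SkG_mem _ (SkG_s_pm n k))
          (fun z => by rw [SkG_invol _ (SkG_s_pm n k), SkG_invol _ (SkG_s_pm n k)]) (by
            apply Sp.ext
            funext i j
            rw [SkG_val, dgK_val]
            unfold skm SkG_s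
            by_cases h1 : (i : ℕ) / 2 < n / 2
            · rw [dif_pos h1]
              by_cases h2 : (j : ℕ) = (i : ℕ) + 1 ∧ (i : ℕ) % 2 = 0
              · rw [if_pos h2]
                have e : (i : ℕ) / 2 = (k : ℕ) ↔ (j : ℕ) / 2 = (k : ℕ) := by omega
                by_cases h3 : (i : ℕ) / 2 = (k : ℕ)
                · rw [if_pos h3, if_pos (e.1 h3)]; ring
                · rw [if_neg h3, if_neg (fun h4 => h3 (e.2 h4))]; ring
              · rw [if_neg h2]
                by_cases h3 : (i : ℕ) = (j : ℕ) + 1 ∧ (j : ℕ) % 2 = 0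
                · rw [if_pos h3]
                  have e : (i : ℕ) / 2 = (k : ℕ) ↔ (j : ℕ) / 2 = (k : ℕ) := by omega
                  by_cases h3 : (i : ℕ) / 2 = (k : ℕ)
                  · rw [if_pos h3, if_pos (e.1 h3)]; ring
                  · rw [if_neg h3, if_neg (fun h4 => h3 (e.2 h4))]; ring
                · rw [if_neg h3]; ring
            · rw [dif_neg h1]; ring) (SkG_cut s z)
        rw [h2, ih] at h1
        linarith
    rw [← SkG_univ, key]
  · intro i hi c
    let s : Fin n → ℂ := fun j => if j = ev i then -1 else 1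
    have hs : ∀ j, s j = 1 ∨ s j = -1 := by
      intro j
      show (if j = ev i then (-1 : ℂ) else 1) = 1 ∨ (if j = ev i then (-1 : ℂ) else 1) = -1
      split_ifs
      · right; rfl
      · left; rfl
    have hse : s (ev i) = -1 := if_pos rfl
    have hso : ∀ j, j ≠ ev i → s j = 1 := fun j hj => if_neg hj
    -- the action on block diagonal matrices
    have hb : ∀ b : Fin (n / 2) → ℂ, ∀ p q : Fin n, s p * skm n b p q * s q =
        if (p : ℕ) / 2 = (i : ℕ) then -skm n b p q else skm n b p q := by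
      intro b p q
      by_cases h0 : skm n b p q = 0
      · rw [h0]
        simp
      have hpq : (p : ℕ) / 2 = (q : ℕ) / 2 ∧ p ≠ q := by
        by_contra hc
        apply h0
        unfold skm
        by_cases h1 : (p : ℕ) / 2 < n / 2
        · rw [dif_pos h1, if_neg, if_neg]
          · intro h2
            exact hc ⟨by omega, fun h3 => by rw [h3] at h2; omega⟩
          · intro h2
            exact hc ⟨by omega, fun h3 => by rw [h3] at h2; omega⟩
        · rw [dif_neg h1]
      by_cases h1 : (p : ℕ) / 2 = (i : ℕ)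
      · rw [if_pos h1]
        by_cases h2 : p = ev i
        · have h3 : q ≠ ev i := fun h3 => hpq.2 (h2.trans h3.symm)
          rw [hso q h3, h2, hse]
          ring
        · have h3 : q = ev i := by
            apply Fin.ext
            have h4 : (p : ℕ) ≠ 2 * (i : ℕ) := fun h4 => h2 (Fin.ext h4)
            have h5 : (p : ℕ) ≠ (q : ℕ) := fun h5 => hpq.2 (Fin.ext h5)
            have h6 := hpq.1
            show (q : ℕ) = 2 * (i : ℕ)
            omega
          rw [hso p h2, h3, hse]
          ring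
      · rw [if_neg h1]
        have h2 : p ≠ ev i := by
          intro h2
          apply h1
          rw [h2]
          show 2 * (i : ℕ) / 2 = (i : ℕ)
          omega
        have h3 : q ≠ ev i := by
          intro h3
          apply h1
          rw [hpq.1, h3]
          show 2 * (i : ℕ) / 2 = (i : ℕ)
          omega
        rw [hso p h2, hso q h3]
        ring
    have h2 := hf (actS (hskw n) (Matrix.diagonal s)) (SkG_mem _ hs)
      (fun z => by rw [SkG_invol _ hs, SkG_invol _ hs]) (by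
        apply Sp.ext
        funext p q
        rw [SkG_val, dgK_val, hb]
        split_ifs with h
        · have h0 : skm n (cx1 a) p q = 0 := by
            unfold skm
            by_cases h1 : (p : ℕ) / 2 < n / 2
            · rw [dif_pos h1]
              have e : (⟨(p : ℕ) / 2, h1⟩ : Fin (n / 2)) = i := Fin.ext h
              have e2 : cx1 a ⟨(p : ℕ) / 2, h1⟩ = 0 := by
                rw [e]
                show ((a i : ℝ) : ℂ) = 0
                rw [hi, Complex.ofReal_zero]
              rw [e2]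
              split_ifs <;> simp
            · rw [dif_neg h1]
          rw [h0, neg_zero]
        · rfl) (dgK n (Pi.single i c))
    have h3 : actS (hskw n) (Matrix.diagonal s) (dgK n (Pi.single i c)) = -dgK n (Pi.single i c) := by
      apply Sp.ext
      funext p q
      rw [SkG_val, Sp.val_neg, Matrix.neg_apply, dgK_val, hb]
      split_ifs with h
      · rfl
      · have h0 : skm n (Pi.single i c) p q = 0 := by
          unfold skm
          by_cases h1 : (p : ℕ) / 2 < n / 2
          · rw [dif_pos h1]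
            have e : (⟨(p : ℕ) / 2, h1⟩ : Fin (n / 2)) ≠ i := fun e => h (congrArg Fin.val e)
            have e2 : (Pi.single i c : Fin (n / 2) → ℂ) ⟨(p : ℕ) / 2, h1⟩ = 0 := by rw [Pi.single_apply, if_neg e]
            rw [e2]
            split_ifs <;> simp
          · rw [dif_neg h1]
        rw [h0, neg_zero]
    rw [h3, map_neg] at h2
    linarith

end H5.PC
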