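import Pool.Agent.H5.PC.SkJ
import Pool.Agent.H5.PK.IIs

/-! # PC.SkI : type II, the isolating functional

Let `J` be the unitary matrix of `SkJ` (private there: copy) with `skm n (cx1 a) = dgm (cx1 (dbl n a)) * J`, `W = Jᴴ`. For `Z` skew symmetric let `Z' = Z * W`: `sv Z' = sv Z` (`sv_unitary` with `U = 1`), and `dgK (cx1 a)` goes to `dgm (cx1 (dbl n a))`. `M_iso` for `L = Unit`, `a = fun _ => dbl n a` gives `φ`; the functional is `Z ↦ (1/2) φ (fun _ => Z.val * W)`.
If `sK n Z = a` then `sv Z.val = dbl n a`: `Z.val = U * skm n (cx1 b) * Uᵀ` is not needed: it is assumed here as `sv z.val = dbl n a`. `∑ i, dbl n a i ^ 2 = 2 ∑ a i ^ 2` (group in pairs). -/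

namespace H5.PC

open H5.PK Topology
open scoped Matrix.Norms.Elementwise

private theorem skm_ev_od (n : ℕ) (b : Fin (n / 2) → ℂ) (k : Fin (n / 2)) : skm n b (ev k) (od k) = b k := by
  have hk := k.2
  unfold skm ev od
  have h1 : 2 * (k : ℕ) / 2 < n / 2 := by omega
  simp only [true_and]
  rw [dif_pos h1, if_pos (by omega)]
  congr 1
  apply Fin.ext
  show 2 * (k : ℕ) / 2 = k
  omega

private theorem skm_od_ev (n : ℕ) (b : Fin (n / 2) → ℂ) (k : Fin (n / 2)) : skm n b (od k) (ev k) = -b k := by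
  have hk := k.2
  unfold skm ev od
  have h1 : (2 * (k : ℕ) + 1) / 2 < n / 2 := by omega
  simp only [true_and]
  rw [dif_pos h1, if_neg (by omega), if_pos (by omega)]
  congr 2
  apply Fin.ext
  show (2 * (k : ℕ) + 1) / 2 = k
  omega

private theorem skm_sum (n : ℕ) (b : Fin (n / 2) → ℂ) (i j : Fin n) :
    skm n b i j = ∑ k, ((if i = ev k then (if j = od k then b k else 0) else 0) -
      (if i = od k then (if j = ev k then b k else 0) else 0)) := by
  by_cases h : (i : ℕ) / 2 < n / 2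
  · rw [Finset.sum_eq_single ⟨(i : ℕ) / 2, h⟩]
    · unfold skm
      rw [dif_pos h]
      have hi1 : (i = ev ⟨(i : ℕ) / 2, h⟩) ↔ (i : ℕ) % 2 = 0 := by
        rw [Fin.ext_iff]
        show (i : ℕ) = 2 * ((i : ℕ) / 2) ↔ _
        omega
      have hi2 : (i = od ⟨(i : ℕ) / 2, h⟩) ↔ (i : ℕ) % 2 = 1 := by
        rw [Fin.ext_iff]
        show (i : ℕ) = 2 * ((i : ℕ) / 2) + 1 ↔ _
        omega
      have hj1 : (j = ev ⟨(i : ℕ) / 2, h⟩) ↔ (j : ℕ) = 2 * ((i : ℕ) / 2) := by
        rw [Fin.ext_iff]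
        exact Iff.rfl
      have hj2 : (j = od ⟨(i : ℕ) / 2, h⟩) ↔ (j : ℕ) = 2 * ((i : ℕ) / 2) + 1 := by
        rw [Fin.ext_iff]
        exact Iff.rfl
      simp only [hi1, hi2, hj1, hj2]
      rcases Nat.mod_two_eq_zero_or_one (i : ℕ) with h2 | h2
      · rw [if_pos h2, if_neg (by omega : ¬ (i : ℕ) % 2 = 1), sub_zero]
        by_cases h3 : (j : ℕ) = (i : ℕ) + 1
        · rw [if_pos ⟨h3, h2⟩, if_pos (by omega)]
        · rw [if_neg (fun h4 => h3 h4.1), if_neg (by omega), if_neg (by omega)]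
      · rw [if_neg (by omega : ¬ (i : ℕ) % 2 = 0), if_pos h2, zero_sub]
        by_cases h3 : (i : ℕ) = (j : ℕ) + 1
        · rw [if_neg (by omega), if_pos ⟨h3, by omega⟩, if_pos (by omega)]
        · rw [if_neg (by omega), if_neg (by omega), if_neg (by omega), neg_zero]
    · intro k _ hk
      have hk' : (k : ℕ) ≠ (i : ℕ) / 2 := fun h2 => hk (Fin.ext h2)
      have h1 : ¬ (i = ev k) := by
        rw [Fin.ext_iff]
        show ¬ ((i : ℕ) = 2 * (k : ℕ))
        omega
      have h2 : ¬ (i = od k) := by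
        rw [Fin.ext_iff]
        show ¬ ((i : ℕ) = 2 * (k : ℕ) + 1)
        omega
      rw [if_neg h1, if_neg h2, sub_zero]
    · intro h2
      exact absurd (Finset.mem_univ _) h2
  · unfold skm
    rw [dif_neg h]
    symm
    refine Finset.sum_eq_zero fun k _ => ?_
    have hk := k.2
    have h1 : ¬ (i = ev k) := by
      rw [Fin.ext_iff]
      show ¬ ((i : ℕ) = 2 * (k : ℕ))
      omega
    have h2 : ¬ (i = od k) := by
      rw [Fin.ext_iff]
      show ¬ ((i : ℕ) = 2 * (k : ℕ) + 1)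
      omega
    rw [if_neg h1, if_neg h2, sub_zero]

private theorem skm_pair (n : ℕ) (b : Fin (n / 2) → ℂ) (Z : Fin n → Fin n → ℂ) :
    ∑ i, ∑ j, skm n b i j * Z i j = ∑ k, b k * (Z (ev k) (od k) - Z (od k) (ev k)) := by
  have h1 : ∀ i j, skm n b i j * Z i j =
      ∑ k, ((if i = ev k then (if j = od k then b k * Z i j else 0) else 0) -
        (if i = od k then (if j = ev k then b k * Z i j else 0) else 0)) := by
    intro i j
    rw [skm_sum, Finset.sum_mul]
    refine Finset.sum_congr rfl fun k _ => ?_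
    split_ifs <;> ring
  have h2 : ∀ k : Fin (n / 2), ∑ i, ∑ j, ((if i = ev k then (if j = od k then b k * Z i j else 0) else 0) -
        (if i = od k then (if j = ev k then b k * Z i j else 0) else 0)) =
      b k * (Z (ev k) (od k) - Z (od k) (ev k)) := by
    intro k
    have e1 : ∑ i, ∑ j, (if i = ev k then (if j = od k then b k * Z i j else 0) else 0) =
        b k * Z (ev k) (od k) := by
      rw [Finset.sum_eq_single (ev k)]
      · rw [Finset.sum_eq_single (od k)]
        · rw [if_pos rfl, if_pos rfl]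
        · intro j _ hj
          rw [if_pos rfl, if_neg hj]
        · intro h; exact absurd (Finset.mem_univ _) h
      · intro i _ hi
        refine Finset.sum_eq_zero fun j _ => ?_
        rw [if_neg hi]
      · intro h; exact absurd (Finset.mem_univ _) h
    have e2 : ∑ i, ∑ j, (if i = od k then (if j = ev k then b k * Z i j else 0) else 0) =
        b k * Z (od k) (ev k) := by
      rw [Finset.sum_eq_single (od k)]
      · rw [Finset.sum_eq_single (ev k)]
        · rw [if_pos rfl, if_pos rfl]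
        · intro j _ hj
          rw [if_pos rfl, if_neg hj]
        · intro h; exact absurd (Finset.mem_univ _) h
      · intro i _ hi
        refine Finset.sum_eq_zero fun j _ => ?_
        rw [if_neg hi]
      · intro h; exact absurd (Finset.mem_univ _) h
    simp only [Finset.sum_sub_distrib]
    rw [e1, e2]
    ring
  rw [Finset.sum_congr rfl fun i _ => Finset.sum_congr rfl fun j _ => h1 i j]
  rw [Finset.sum_congr rfl fun i _ => Finset.sum_comm, Finset.sum_comm]
  exact Finset.sum_congr rfl fun k _ => h2 k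

/-- the functional -/
private noncomputable def phK (n : ℕ) (a : Fin (n / 2) → ℝ) : Sp (skwS n) →L[ℂ] ℂ :=
  LinearMap.toContinuousLinearMap
    { toFun := fun Z => ∑ k, (a k : ℂ) * PK2 n Z k
      map_add' := fun x y => by
        rw [← Finset.sum_add_distrib]
        refine Finset.sum_congr rfl fun k _ => ?_
        rw [map_add, Pi.add_apply, mul_add]
      map_smul' := fun c x => by
        rw [RingHom.id_apply, smul_eq_mul, Finset.mul_sum]
        refine Finset.sum_congr rfl fun k _ => ?_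
        rw [map_smul, Pi.smul_apply, smul_eq_mul]
        ring }

private theorem phK_apply (n : ℕ) (a : Fin (n / 2) → ℝ) (Z : Sp (skwS n)) :
    phK n a Z = ∑ k, (a k : ℂ) * PK2 n Z k := rfl

private theorem skm_re (n : ℕ) (a : Fin (n / 2) → ℝ) (i j : Fin n) :
    skm n (cx1 a) i j = (((skm n (cx1 a) i j).re : ℝ) : ℂ) := by
  unfold skm cx1
  split_ifs <;> simp

private theorem sq_sub_real (x : ℂ) (r : ℝ) :
    ‖x - (r : ℂ)‖ ^ 2 = ‖x‖ ^ 2 + r ^ 2 - 2 * (r * x.re) := by
  rw [← Complex.normSq_eq_norm_sq, ← Complex.normSq_eq_norm_sq, Complex.normSq_apply, Complex.normSq_apply]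
  simp only [Complex.sub_re, Complex.sub_im, Complex.ofReal_re, Complex.ofReal_im]
  ring

private theorem sk_key (n : ℕ) (a : Fin (n / 2) → ℝ) (Z : Sp (skwS n)) :
    ∑ i, ∑ j, ‖Z.val i j - skm n (cx1 a) i j‖ ^ 2 =
      ∑ i, ∑ j, ‖Z.val i j‖ ^ 2 + 2 * (∑ k, a k ^ 2) - 4 * (phK n a Z).re := by
  have h1 : ∀ i j, ‖Z.val i j - skm n (cx1 a) i j‖ ^ 2 =
      ‖Z.val i j‖ ^ 2 + (skm n (cx1 a) i j * skm n (cx1 a) i j).re -
        2 * (skm n (cx1 a) i j * Z.val i j).re := by
    intro i j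
    have h2 := sq_sub_real (Z.val i j) (skm n (cx1 a) i j).re
    rw [← skm_re] at h2
    rw [h2]
    have h3 : (skm n (cx1 a) i j * skm n (cx1 a) i j).re = (skm n (cx1 a) i j).re ^ 2 := by
      rw [skm_re n a i j, Complex.re_ofReal_mul, Complex.ofReal_re]
      ring
    have h4 : (skm n (cx1 a) i j * Z.val i j).re = (skm n (cx1 a) i j).re * (Z.val i j).re := by
      rw [skm_re n a i j, Complex.re_ofReal_mul, Complex.ofReal_re]
    rw [h3, h4]
  have hsk : ∀ k : Fin (n / 2), Z.val (od k) (ev k) = -Z.val (ev k) (od k) := by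
    intro k
    have h2 : Z.val.transpose = -Z.val := Z.mem
    have h3 := congrFun (congrFun h2 (ev k)) (od k)
    rw [Matrix.transpose_apply, Matrix.neg_apply] at h3
    exact h3
  have h5 : ∑ i, ∑ j, (skm n (cx1 a) i j * skm n (cx1 a) i j).re = 2 * (∑ k, a k ^ 2) := by
    have h6 := skm_pair n (cx1 a) (skm n (cx1 a))
    have h7 := congrArg Complex.re h6
    rw [Complex.re_sum] at h7
    rw [Finset.sum_congr rfl fun i _ => (Complex.re_sum _ _).symm, h7, Complex.re_sum, Finset.mul_sum]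
    refine Finset.sum_congr rfl fun k _ => ?_
    rw [skm_ev_od, skm_od_ev]
    show ((a k : ℂ) * ((a k : ℂ) - -(a k : ℂ))).re = _
    rw [sub_neg_eq_add, Complex.re_ofReal_mul, Complex.add_re, Complex.ofReal_re]
    ring
  have h8 : ∑ i, ∑ j, (skm n (cx1 a) i j * Z.val i j).re = 2 * (phK n a Z).re := by
    have h6 := skm_pair n (cx1 a) Z.val
    have h7 := congrArg Complex.re h6
    rw [Complex.re_sum] at h7
    rw [Finset.sum_congr rfl fun i _ => (Complex.re_sum _ _).symm, h7, Complex.re_sum, phK_apply,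
      Complex.re_sum, Finset.mul_sum]
    refine Finset.sum_congr rfl fun k _ => ?_
    rw [hsk, PK2_apply]
    show ((a k : ℂ) * (Z.val (ev k) (od k) - -Z.val (ev k) (od k))).re = _
    rw [sub_neg_eq_add, Complex.re_ofReal_mul, Complex.add_re, Complex.re_ofReal_mul]
    ring
  rw [Finset.sum_congr rfl fun i _ => Finset.sum_congr rfl fun j _ => h1 i j]
  simp only [Finset.sum_add_distrib, Finset.sum_sub_distrib, ← Finset.mul_sum]
  rw [h5, h8]
  ring

private theorem sk_re_le (n : ℕ) (a : Fin (n / 2) → ℝ) (Z : Sp (skwS n))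
    (hZ : ∑ i, ∑ j, ‖Z.val i j‖ ^ 2 = 2 * ∑ k, a k ^ 2) : (phK n a Z).re ≤ ∑ k, a k ^ 2 := by
  have h1 := sk_key n a Z
  have h2 : 0 ≤ ∑ i, ∑ j, ‖Z.val i j - skm n (cx1 a) i j‖ ^ 2 :=
    Finset.sum_nonneg fun i _ => Finset.sum_nonneg fun j _ => sq_nonneg _
  rw [hZ] at h1
  linarith

private theorem dbl_sum (n : ℕ) (a : Fin (n / 2) → ℝ) : ∑ i, dbl n a i ^ 2 = 2 * ∑ k, a k ^ 2 := by
  have h1 : ∀ i : Fin n, dbl n a i ^ 2 =
      ∑ k, ((if i = ev k then a k ^ 2 else 0) + (if i = od k then a k ^ 2 else 0)) := by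
    intro i
    unfold dbl
    by_cases h : (i : ℕ) / 2 < n / 2
    · rw [dif_pos h, Finset.sum_eq_single ⟨(i : ℕ) / 2, h⟩]
      · have hi1 : (i = ev ⟨(i : ℕ) / 2, h⟩) ↔ (i : ℕ) % 2 = 0 := by
          rw [Fin.ext_iff]
          show (i : ℕ) = 2 * ((i : ℕ) / 2) ↔ _
          omega
        have hi2 : (i = od ⟨(i : ℕ) / 2, h⟩) ↔ (i : ℕ) % 2 = 1 := by
          rw [Fin.ext_iff]
          show (i : ℕ) = 2 * ((i : ℕ) / 2) + 1 ↔ _
          omega
        simp only [hi1, hi2]
        rcases Nat.mod_two_eq_zero_or_one (i : ℕ) with h2 | h2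
        · rw [if_pos h2, if_neg (by omega), add_zero]
        · rw [if_neg (by omega), if_pos h2, zero_add]
      · intro k _ hk
        have hk' : (k : ℕ) ≠ (i : ℕ) / 2 := fun h2 => hk (Fin.ext h2)
        have h1 : ¬ (i = ev k) := by
          rw [Fin.ext_iff]
          show ¬ ((i : ℕ) = 2 * (k : ℕ))
          omega
        have h2 : ¬ (i = od k) := by
          rw [Fin.ext_iff]
          show ¬ ((i : ℕ) = 2 * (k : ℕ) + 1)
          omega
        rw [if_neg h1, if_neg h2, add_zero]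
      · intro h2
        exact absurd (Finset.mem_univ _) h2
    · rw [dif_neg h]
      have h0 : ∑ k, ((if i = ev k then a k ^ 2 else 0) + (if i = od k then a k ^ 2 else 0)) = 0 := by
        refine Finset.sum_eq_zero fun k _ => ?_
        have hk := k.2
        have h1 : ¬ (i = ev k) := by
          rw [Fin.ext_iff]
          show ¬ ((i : ℕ) = 2 * (k : ℕ))
          omega
        have h2 : ¬ (i = od k) := by
          rw [Fin.ext_iff]
          show ¬ ((i : ℕ) = 2 * (k : ℕ) + 1)
          omega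
        rw [if_neg h1, if_neg h2, add_zero]
      rw [h0]
      norm_num
  rw [Finset.sum_congr rfl fun i _ => h1 i, Finset.sum_comm, Finset.mul_sum]
  refine Finset.sum_congr rfl fun k _ => ?_
  rw [Finset.sum_add_distrib, Finset.sum_ite_eq' Finset.univ (ev k), Finset.sum_ite_eq' Finset.univ (od k),
    if_pos (Finset.mem_univ _), if_pos (Finset.mem_univ _)]
  ring

theorem K_iso (n : ℕ) (a : Fin (n / 2) → ℝ) (ha : Antitone a) (h0 : ∀ i, 0 ≤ a i) :
    ∃ φ : Sp (skwS n) →L[ℂ] ℂ, φ (dgK n (cx1 a)) = ((∑ i, a i ^ 2 : ℝ) : ℂ) ∧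
      ∀ z : Sp (skwS n), sv z.val = dbl n a → ‖φ z‖ ≤ ∑ i, a i ^ 2 ∧
        (φ z = ((∑ i, a i ^ 2 : ℝ) : ℂ) → z = dgK n (cx1 a)) := by
  refine ⟨phK n a, ?_, fun z hz => ?_⟩
  · rw [phK_apply]
    push_cast
    refine Finset.sum_congr rfl fun k _ => ?_
    rw [PK2_apply, dgK_val, skm_ev_od]
    show (a k : ℂ) * (a k : ℂ) = _
    ring
  · have h1 : ∑ i, ∑ j, ‖z.val i j‖ ^ 2 = 2 * ∑ k, a k ^ 2 := by
      rw [isSv_frob (le_refl n) (sv_spec (le_refl n) z.val), hz, dbl_sum]
    constructor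
    · by_cases h2 : phK n a z = 0
      · rw [h2, norm_zero]
        exact Finset.sum_nonneg fun i _ => sq_nonneg _
      · have h3 : ‖phK n a z‖ ≠ 0 := norm_ne_zero_iff.2 h2
        set u : ℂ := (starRingEnd ℂ (phK n a z)) / (‖phK n a z‖ : ℂ) with hu
        have h4 : ‖u‖ = 1 := by
          rw [hu, norm_div, RCLike.norm_conj, Complex.norm_real, norm_norm, div_self h3]
        have h5 : ∑ i, ∑ j, ‖(u • z).val i j‖ ^ 2 = 2 * ∑ k, a k ^ 2 := by
          rw [← h1]
          refine Finset.sum_congr rfl fun i _ => Finset.sum_congr rfl fun j _ => ?_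
          rw [Sp.val_smul, Matrix.smul_apply, smul_eq_mul, norm_mul, h4, one_mul]
        have h6 := sk_re_le n a (u • z) h5
        have h7 : phK n a (u • z) = ((‖phK n a z‖ : ℝ) : ℂ) := by
          rw [map_smul, smul_eq_mul, hu, div_mul_eq_mul_div, Complex.conj_mul', sq, mul_div_assoc,
            div_self (by exact_mod_cast h3), mul_one]
        rw [h7, Complex.ofReal_re] at h6
        exact h6
    · intro h2
      have h3 := sk_key n a z
      rw [h1, h2, Complex.ofReal_re] at h3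
      have h4 : ∑ i, ∑ j, ‖z.val i j - skm n (cx1 a) i j‖ ^ 2 = 0 := by linarith
      apply Sp.ext
      rw [dgK_val]
      ext i j
      have h5 := (Finset.sum_eq_zero_iff_of_nonneg (fun i _ => Finset.sum_nonneg fun j _ => sq_nonneg _)).1 h4 i
        (Finset.mem_univ _)
      have h6 := (Finset.sum_eq_zero_iff_of_nonneg (fun j _ => sq_nonneg _)).1 h5 j (Finset.mem_univ _)
      have h7 : ‖z.val i j - skm n (cx1 a) i j‖ = 0 := by
        rcases pow_eq_zero_iff (n := 2) (by norm_num) |>.1 h6 with h8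
        exact h8
      exact sub_eq_zero.1 (norm_eq_zero.1 h7)

end H5.PC
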