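import Pool.Agent.H5.PC.Defs
import Pool.Agent.H5.PK.SvB

/-! # PC.SkJ : singular values of the normal form of skew symmetric matrices

Let `J i j = if j = i + 1 ∧ i even then 1 else if i = j + 1 ∧ j even then -1 else if i = j ∧ n / 2 ≤ i / 2 then 1 else 0` (natural numbers): a unitary matrix (`J * Jᴴ = 1`: every row has exactly one nonzero entry `±1`), and `skm n (cx1 b) = dgm (cx1 (dbl n b)) * J` (entrywise: row `i` of the right side is `dbl n b i` times row `i` of `J`). `dbl n b` is antitone and nonnegative.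
So `IsSv (U * skm n (cx1 b) * Uᵀ) (dbl n b)` with the unitary matrices `U` and `J * Uᵀ`; `sv_eq (le_refl n)`. -/

namespace H5.PC

open H5.PK Topology
open scoped Matrix.Norms.Elementwise

theorem dbl_anti {n : ℕ} {b : Fin (n / 2) → ℝ} (hb : Antitone b) (h0 : ∀ i, 0 ≤ b i) :
    Antitone (dbl n b) ∧ ∀ i, 0 ≤ dbl n b i := by
  have h1 : ∀ i, 0 ≤ dbl n b i := by
    intro i
    unfold dbl
    split_ifs
    · exact h0 _
    · exact le_rfl
  refine ⟨fun i j hij => ?_, h1⟩
  have hij' : (i : ℕ) ≤ (j : ℕ) := hij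
  by_cases hj : (j : ℕ) / 2 < n / 2
  · have hi : (i : ℕ) / 2 < n / 2 := by omega
    unfold dbl
    rw [dif_pos hj, dif_pos hi]
    apply hb
    show (i : ℕ) / 2 ≤ (j : ℕ) / 2
    omega
  · have e : dbl n b j = 0 := by
      unfold dbl
      rw [dif_neg hj]
    rw [e]
    exact h1 i

/-- the partner of an index -/
private def sjS {n : ℕ} (i : Fin n) : Fin n :=
  if h : (i : ℕ) % 2 = 0 ∧ (i : ℕ) + 1 < n then ⟨(i : ℕ) + 1, h.2⟩
  else if (i : ℕ) % 2 = 1 then ⟨(i : ℕ) - 1, by have := i.2; omega⟩ else i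

private theorem sjS_val {n : ℕ} (i : Fin n) : (sjS i : ℕ) =
    if (i : ℕ) % 2 = 0 ∧ (i : ℕ) + 1 < n then (i : ℕ) + 1
    else if (i : ℕ) % 2 = 1 then (i : ℕ) - 1 else (i : ℕ) := by
  unfold sjS
  split_ifs <;> rfl

private theorem sjS_inj {n : ℕ} {i k : Fin n} (h : sjS i = sjS k) : i = k := by
  have h1 : (sjS i : ℕ) = (sjS k : ℕ) := congrArg _ h
  rw [sjS_val, sjS_val] at h1
  apply Fin.ext
  have hi := i.2
  have hk := k.2
  split_ifs at h1 <;> omega

/-- the sign -/
private noncomputable def sjE {n : ℕ} (i : Fin n) : ℂ := if (i : ℕ) % 2 = 0 then 1 else -1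

private theorem sjE_mul {n : ℕ} (i : Fin n) : sjE i * star (sjE i) = 1 := by
  unfold sjE
  split_ifs <;> simp

/-- the matrix `J` -/
private noncomputable def sjJ (n : ℕ) : Matrix (Fin n) (Fin n) ℂ := fun i j =>
  if j = sjS i then sjE i else 0

private theorem sjJ_mul (n : ℕ) : sjJ n * (sjJ n).conjTranspose = 1 := by
  ext i k
  rw [Matrix.mul_apply, Finset.sum_eq_single (sjS i)]
  · rw [Matrix.conjTranspose_apply]
    unfold sjJ
    rw [if_pos rfl]
    by_cases hik : i = k
    · subst hik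
      rw [if_pos rfl, Matrix.one_apply_eq]
      exact sjE_mul i
    · rw [if_neg (fun h => hik (sjS_inj h)), star_zero, mul_zero, Matrix.one_apply_ne hik]
  · intro j _ hj
    unfold sjJ
    rw [if_neg hj, zero_mul]
  · intro h
    exact absurd (Finset.mem_univ _) h

private theorem sjJ_mem (n : ℕ) : sjJ n ∈ Matrix.unitaryGroup (Fin n) ℂ :=
  Matrix.mem_unitaryGroup_iff.2 (sjJ_mul n)

private theorem skm_eq {n : ℕ} (b : Fin (n / 2) → ℝ) :
    skm n (cx1 b) = dgm (fun i => (dbl n b i : ℂ)) * sjJ n := by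
  ext i j
  rw [Matrix.mul_apply, Finset.sum_eq_single i]
  · have hi := i.2
    have hj := j.2
    have e0 : (dgm (fun i => (dbl n b i : ℂ)) : Matrix (Fin n) (Fin n) ℂ) i i = (dbl n b i : ℂ) :=
      if_pos rfl
    rw [e0]
    have e1 : sjJ n i j = if j = sjS i then sjE i else 0 := rfl
    rw [e1]
    unfold skm dbl
    by_cases h : (i : ℕ) / 2 < n / 2
    · rw [dif_pos h, dif_pos h]
      unfold sjE
      have hs := sjS_val i
      by_cases h1 : (j : ℕ) = (i : ℕ) + 1 ∧ (i : ℕ) % 2 = 0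
      · have e : j = sjS i := by
          apply Fin.ext
          rw [hs, if_pos ⟨h1.2, by omega⟩]
          exact h1.1
        rw [if_pos h1, if_pos e, if_pos h1.2, mul_one]
        rfl
      · rw [if_neg h1]
        by_cases h2 : (i : ℕ) = (j : ℕ) + 1 ∧ (j : ℕ) % 2 = 0
        · have e : j = sjS i := by
            apply Fin.ext
            rw [hs, if_neg (by omega), if_pos (by omega)]
            omega
          rw [if_pos h2, if_pos e, if_neg (by omega), mul_neg, mul_one]
          rfl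
        · have e : j ≠ sjS i := by
            intro e
            have e' : (j : ℕ) = (sjS i : ℕ) := congrArg _ e
            rw [hs] at e'
            split_ifs at e' <;> omega
          rw [if_neg h2, if_neg e, mul_zero]
    · rw [dif_neg h, dif_neg h]
      push_cast
      rw [zero_mul]
  · intro k _ hk
    unfold dgm
    rw [if_neg (fun h => hk (Fin.ext h).symm), zero_mul]
  · intro h
    exact absurd (Finset.mem_univ _) h

theorem sk_sv {n : ℕ} {b : Fin (n / 2) → ℝ} (hb : Antitone b) (h0 : ∀ i, 0 ≤ b i)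
    (U : Matrix.unitaryGroup (Fin n) ℂ) :
    sv ((U : Matrix (Fin n) (Fin n) ℂ) * skm n (cx1 b) *
      (U : Matrix (Fin n) (Fin n) ℂ).transpose) = dbl n b := by
  obtain ⟨h1, h2⟩ := dbl_anti hb h0
  have hUt : (U : Matrix (Fin n) (Fin n) ℂ).transpose ∈ Matrix.unitaryGroup (Fin n) ℂ := by
    have h3 := (Matrix.mem_unitaryGroup_iff.1 U.2)
    rw [Matrix.mem_unitaryGroup_iff']
    have h4 := congrArg Matrix.transpose h3
    rw [Matrix.transpose_mul, Matrix.transpose_one] at h4
    rw [Matrix.star_eq_conjTranspose] at h4 ⊢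
    exact h4
  refine sv_eq (le_refl n) ⟨h1, h2, U, ⟨sjJ n, sjJ_mem n⟩ * ⟨_, hUt⟩, ?_⟩
  rw [skm_eq]
  show (U : Matrix (Fin n) (Fin n) ℂ) * (dgm (fun i => (dbl n b i : ℂ)) * sjJ n) *
    (U : Matrix (Fin n) (Fin n) ℂ).transpose = (U : Matrix (Fin n) (Fin n) ℂ) *
    dgm (fun i => (dbl n b i : ℂ)) * (sjJ n * (U : Matrix (Fin n) (Fin n) ℂ).transpose)
  exact (congrArg (fun X : Matrix (Fin n) (Fin n) ℂ => X * (U : Matrix (Fin n) (Fin n) ℂ).transpose)
    (Matrix.mul_assoc (U : Matrix (Fin n) (Fin n) ℂ) (dgm (fun i => (dbl n b i : ℂ)))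
      (sjJ n)).symm).trans
    (Matrix.mul_assoc ((U : Matrix (Fin n) (Fin n) ℂ) * dgm (fun i => (dbl n b i : ℂ))) (sjJ n)
      (U : Matrix (Fin n) (Fin n) ℂ).transpose)

end H5.PC
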