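import Pool.Agent.H5.PC.Defs
import Pool.Agent.H5.PK.SvB

/-! # PC.SkM : leading minors of skew symmetric normal forms

`mnr_skm`: the leading block of size `2 (k + 1)` of `skm n b` is, after the equivalence `finProdFinEquiv : Fin (k + 1) × Fin 2 ≃ Fin ((k + 1) * 2)` (and a cast of `(k+1)*2` to `(od k : ℕ) + 1`), the block diagonal matrix `Matrix.blockDiagonal (fun i => !![0, b i; - b i, 0])` up to the order of the factors of the product (`Matrix.blockDiagonal_apply`, index `(Fin 2) × Fin (k+1)`);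
`Matrix.det_reindex_self` / `det_submatrix_equiv_self`, `Matrix.det_blockDiagonal`, `Matrix.det_fin_two_of`: `∏ i ≤ k, b i ^ 2`. Or: induction on the size by expansion. `prod_dbl`, `prod_dbl_full`: the product over `i ≤ 2 k + 1` of `b (i / 2)`; group in pairs (e.g. `Finset.prod_bij` to `Fin 2 × ..`, or induction on `k` for products over `Finset.range`). -/

namespace H5.PC

open H5.PK Topology

private theorem prod_Iic {M : Type*} [CommMonoid M] {m : ℕ} (k : Fin m) (h : (k : ℕ) + 1 ≤ m)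
    (b : Fin m → M) : ∏ i ∈ Finset.Iic k, b i = ∏ j : Fin ((k : ℕ) + 1), b (Fin.castLE h j) := by
  have e : Finset.Iic k = Finset.univ.map (Fin.castLEEmb h) := by
    ext i
    simp only [Finset.mem_Iic, Finset.mem_map, Finset.mem_univ, true_and, Fin.castLEEmb_apply]
    constructor
    · intro hi
      refine ⟨⟨(i : ℕ), Nat.lt_succ_of_le hi⟩, ?_⟩
      ext
      rfl
    · rintro ⟨j, rfl⟩
      exact Fin.le_def.2 (Nat.le_of_lt_succ j.2)
  rw [e, Finset.prod_map]
  rfl

/-- `(a, i) ↦ a + 2 i` -/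
private def eq2 (q N : ℕ) (h : q * 2 = N) : Fin 2 × Fin q ≃ Fin N :=
  (Equiv.prodComm (Fin 2) (Fin q)).trans (finProdFinEquiv.trans (finCongr h))

private theorem eq2_val (q N : ℕ) (h : q * 2 = N) (x : Fin 2 × Fin q) :
    ((eq2 q N h x : Fin N) : ℕ) = (x.1 : ℕ) + 2 * (x.2 : ℕ) := rfl

theorem mnr_skm {n : ℕ} (k : Fin (n / 2)) (b : Fin (n / 2) → ℂ) :
    mnr (le_refl n) (od k) (skm n b) = (∏ i ∈ Finset.Iic k, b i) ^ 2 := by
  have hk := k.2
  have hN : ((k : ℕ) + 1) * 2 = ((od k : Fin n) : ℕ) + 1 := by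
    show ((k : ℕ) + 1) * 2 = 2 * (k : ℕ) + 1 + 1
    ring
  have hkk : (k : ℕ) + 1 ≤ n / 2 := hk
  unfold mnr
  rw [← Matrix.det_submatrix_equiv_self (eq2 _ _ hN), prod_Iic k hkk]
  have hM : ((skm n b).submatrix (Fin.castLE (Nat.succ_le_of_lt (od k).2))
      (Fin.castLE ((Nat.succ_le_of_lt (od k).2).trans (le_refl n)))).submatrix
        (eq2 _ _ hN) (eq2 _ _ hN) =
      Matrix.blockDiagonal (fun i : Fin ((k : ℕ) + 1) =>
        !![0, b (Fin.castLE hkk i); - b (Fin.castLE hkk i), 0]) := by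
    ext ⟨a, i⟩ ⟨c, j⟩
    rw [Matrix.blockDiagonal_apply, Matrix.submatrix_apply, Matrix.submatrix_apply]
    unfold skm
    simp only [Fin.val_castLE, eq2_val]
    have hi := i.2
    have hj := j.2
    have ha := a.2
    have hc := c.2
    have h1 : ((a : ℕ) + 2 * (i : ℕ)) / 2 < n / 2 := by omega
    have h2 : (⟨((a : ℕ) + 2 * (i : ℕ)) / 2, h1⟩ : Fin (n / 2)) = Fin.castLE hkk i := by
      apply Fin.ext
      show ((a : ℕ) + 2 * (i : ℕ)) / 2 = (i : ℕ)
      omega
    rw [dif_pos h1, h2]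
    by_cases hij : i = j
    · subst hij
      rw [if_pos rfl]
      fin_cases a <;> fin_cases c
      · rw [if_neg (by simp), if_neg (by simp)]
        rfl
      · rw [if_pos (by simp; omega)]
        rfl
      · rw [if_neg (by simp), if_pos (by simp; omega)]
        rfl
      · rw [if_neg (by simp), if_neg (by simp)]
        rfl
    · have hij' : (i : ℕ) ≠ (j : ℕ) := fun h => hij (Fin.ext h)
      rw [if_neg hij, if_neg (by omega), if_neg (by omega)]
  rw [hM, Matrix.det_blockDiagonal, ← Finset.prod_pow]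
  refine Finset.prod_congr rfl fun i _ => ?_
  rw [Matrix.det_fin_two_of]
  ring

private theorem dbl_eq {n : ℕ} (q : ℕ) (hq : q ≤ n / 2) (b : Fin (n / 2) → ℝ)
    (i : Fin q) (a : Fin 2) (j : Fin n) (h : (j : ℕ) = (a : ℕ) + 2 * (i : ℕ)) :
    dbl n b j = b (Fin.castLE hq i) := by
  have hi := i.2
  have ha := a.2
  have h1 : (j : ℕ) / 2 < n / 2 := by omega
  unfold dbl
  rw [dif_pos h1]
  congr 1
  apply Fin.ext
  show (j : ℕ) / 2 = (i : ℕ)
  omega

theorem prod_dbl {n : ℕ} (k : Fin (n / 2)) (b : Fin (n / 2) → ℝ) :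
    ∏ i ∈ Finset.Iic (od k : Fin n), dbl n b i = (∏ i ∈ Finset.Iic k, b i) ^ 2 := by
  have hk := k.2
  have hN : ((k : ℕ) + 1) * 2 = ((od k : Fin n) : ℕ) + 1 := by
    show ((k : ℕ) + 1) * 2 = 2 * (k : ℕ) + 1 + 1
    ring
  have hkk : (k : ℕ) + 1 ≤ n / 2 := hk
  rw [prod_Iic k hkk, prod_Iic (od k) (Nat.succ_le_of_lt (od k).2),
    ← Equiv.prod_comp (eq2 _ _ hN), Fintype.prod_prod_type, Fin.prod_univ_two, sq]
  congr 1
  · refine Finset.prod_congr rfl fun i _ => ?_
    exact dbl_eq _ hkk b i 0 _ rfl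
  · refine Finset.prod_congr rfl fun i _ => ?_
    exact dbl_eq _ hkk b i 1 _ rfl

theorem prod_dbl_full {n : ℕ} (hn : n % 2 = 0) (b : Fin (n / 2) → ℝ) :
    ∏ i, dbl n b i = (∏ i, b i) ^ 2 := by
  have hN : n / 2 * 2 = n := by omega
  rw [← Equiv.prod_comp (eq2 _ _ hN), Fintype.prod_prod_type, Fin.prod_univ_two, sq]
  congr 1
  · refine Finset.prod_congr rfl fun i _ => ?_
    exact dbl_eq _ (le_refl _) b i 0 _ rfl
  · refine Finset.prod_congr rfl fun i _ => ?_
    exact dbl_eq _ (le_refl _) b i 1 _ rfl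

end H5.PC
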