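import Pool.Agent.H5.PC.CgR

/-! # PC.SkR : type II of odd size, the short roots

Let `p = ev i`, `q = od i`, `l` the last index (`n` odd), `D = single q q 1 + single l l 1`, and `J = single q l 1 - single l q 1` resp. `J = single q l I + single l q I`. `cu_rot` with `x = 1 / a i`, resp. `x = - 1 / a i` (check signs): `Z = skm n (cx1 a)` has in the rows and columns `p, q, l` only the entries `Z p q = a i`, `Z q p = - a i`. `J Z + Z Jᵀ`: first curve:
entries `(l, p)`: `a i`, `(p, l)`: `- a i`; second curve: `(l, p)`: `- I a i`, `(p, l)`: `I a i`. So `x₀` = the skew symmetric matrix with entry `-1` at `(p, l)`, `1` at `(l, p)`, up to the common sign. `J Z Jᵀ = 0` and `D Z + Z Dᵀ` = the part of `Z` in `(p, q), (q, p)`. So `P (y₁ + y₂) = - 2 / a i` at `i`: `κ = 2 / a i`. -/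

namespace H5.PC

open H5.PK Topology
open scoped Matrix.Norms.Elementwise

private theorem SkR_sm {n : ℕ} (i j : Fin n) (c : ℂ) (Z : Matrix (Fin n) (Fin n) ℂ) (r s : Fin n) :
    (Matrix.single i j c * Z) r s = if r = i then c * Z j s else 0 := by
  by_cases h : r = i
  · subst h
    rw [if_pos rfl, Matrix.single_mul_apply_same]
  · rw [if_neg h, Matrix.single_mul_apply_of_ne (h := h)]

private theorem SkR_ms {n : ℕ} (i j : Fin n) (c : ℂ) (Z : Matrix (Fin n) (Fin n) ℂ) (r s : Fin n) :
    (Z * Matrix.single i j c) r s = if s = j then Z r i * c else 0 := by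
  by_cases h : s = j
  · subst h
    rw [if_pos rfl, Matrix.mul_single_apply_same]
  · rw [if_neg h, Matrix.mul_single_apply_of_ne (hbj := h)]

theorem K_root' (n : ℕ) (a : Fin (n / 2) → ℝ) (ha : ∀ i, 0 ≤ a i) (i : Fin (n / 2))
    (hn : ¬ n % 2 = 0) (hi : 0 < a i) :
    ∃ κ : ℝ, 0 < κ ∧ RP1 (KS (hskw n)) (PK2 n) (dgK n (cx1 a)) (Pi.single i ((-κ : ℝ) : ℂ)) := by
  have _ := ha
  have hi2 := i.2
  obtain ⟨l, hl⟩ : ∃ l : Fin n, (l : ℕ) = n - 1 := ⟨⟨n - 1, by omega⟩, rfl⟩
  obtain ⟨p, hp⟩ : ∃ p : Fin n, p = ev i := ⟨_, rfl⟩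
  obtain ⟨q, hq⟩ : ∃ q : Fin n, q = od i := ⟨_, rfl⟩
  have hpv : (p : ℕ) = 2 * (i : ℕ) := by rw [hp]; rfl
  have hqv : (q : ℕ) = 2 * (i : ℕ) + 1 := by rw [hq]; rfl
  have hpq : p ≠ q := fun h => by have := congrArg Fin.val h; omega
  have hql : q ≠ l := fun h => by have := congrArg Fin.val h; omega
  have hpl : p ≠ l := fun h => by have := congrArg Fin.val h; omega
  obtain ⟨Z, hZ⟩ : ∃ Z : Sp (skwS n), Z = dgK n (cx1 a) := ⟨_, rfl⟩
  have hZv : Z.val = skm n (cx1 a) := by rw [hZ]; rfl
  -- the rows of `Z`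
  have hZl : ∀ s, Z.val l s = 0 := by
    intro s
    rw [hZv]
    unfold skm
    rw [dif_neg (by omega)]
  have hZl' : ∀ s, Z.val s l = 0 := by
    intro s
    rw [hZv]
    unfold skm
    have hs := s.2
    split_ifs with h1 h2 h3
    · exfalso; omega
    · exfalso; omega
    · rfl
    · rfl
  have hZq : ∀ s, Z.val q s = if s = p then -(a i : ℂ) else 0 := by
    intro s
    rw [hZv]
    unfold skm
    have hs := s.2
    have e1 : (q : ℕ) / 2 < n / 2 := by omega
    rw [dif_pos e1, if_neg (by omega)]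
    by_cases h : s = p
    · subst h
      rw [if_pos rfl, if_pos (by omega)]
      have e2 : (⟨(q : ℕ) / 2, e1⟩ : Fin (n / 2)) = i := by
        apply Fin.ext
        show (q : ℕ) / 2 = i
        omega
      rw [e2]
      rfl
    · rw [if_neg h, if_neg]
      intro h2
      apply h
      apply Fin.ext
      omega
  have hZq' : ∀ s, Z.val s q = if s = p then (a i : ℂ) else 0 := by
    intro s
    have h := congrFun (congrFun Z.mem s) q
    rw [Matrix.transpose_apply, Matrix.neg_apply, hZq] at h
    by_cases h2 : s = p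
    · rw [if_pos h2] at h ⊢
      rw [← neg_eq_iff_eq_neg] at h
      rw [← h, neg_neg]
    · rw [if_neg h2] at h ⊢
      rw [← neg_eq_iff_eq_neg] at h
      rw [← h, neg_zero]
  obtain ⟨D, hD⟩ : ∃ D : Matrix (Fin n) (Fin n) ℂ, D = Matrix.single q q 1 + Matrix.single l l 1 := ⟨_, rfl⟩
  have key : ∀ c : ℂ, c * star c = 1 → ∀ x : ℝ, ∃ (γ γ' : ℝ → Sp (skwS n)) (y : Sp (skwS n)),
      Cu (KS (hskw n)) Z γ γ' y ∧
      (γ' 0).val = ((x : ℂ) * (star c * a i)) • (Matrix.single l p 1 - Matrix.single p l 1) ∧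
      ∀ k, y.val (ev k) (od k) = if k = i then -((x : ℂ) ^ 2 * a i) else 0 := by
    intro c hc x
    obtain ⟨J, hJ⟩ : ∃ J : Matrix (Fin n) (Fin n) ℂ, J = Matrix.single q l c - Matrix.single l q (star c) := ⟨_, rfl⟩
    have hc' : star c * c = 1 := by rw [mul_comm]; exact hc
    obtain ⟨γ, γ', y, h1, h2, h3⟩ := cu_rot (hskw n) (D := D) (J := J)
      (by rw [hD]; simp [Matrix.add_mul, Matrix.mul_add, Matrix.single_mul_single_of_ne, hql, hql.symm])
      (by rw [hD, hJ]; simp [Matrix.add_mul, Matrix.mul_sub, Matrix.single_mul_single_of_ne, hql, hql.symm])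
      (by rw [hD, hJ]; simp [Matrix.mul_add, Matrix.sub_mul, Matrix.single_mul_single_of_ne, hql, hql.symm]; abel)
      (by
        rw [hD, hJ, Matrix.sub_mul, Matrix.mul_sub, Matrix.mul_sub, Matrix.single_mul_single_of_ne (h := hql.symm),
          Matrix.single_mul_single_same, Matrix.single_mul_single_same, Matrix.single_mul_single_of_ne (h := hql), hc, hc']
        abel)
      (by rw [hD]; simp)
      (by rw [hJ]; simp)
      x Z
    -- the products
    have hJZ : J * Z.val = (star c * a i) • Matrix.single l p 1 := by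
      ext r s
      rw [hJ, Matrix.sub_mul, Matrix.sub_apply, SkR_sm, SkR_sm, hZl, hZq, Matrix.smul_apply, Matrix.single_apply, mul_zero,
        ite_self, zero_sub, smul_eq_mul]
      by_cases h4 : r = l
      · by_cases h5 : s = p
        · rw [if_pos h4, if_pos h5, if_pos ⟨h4.symm, h5.symm⟩]
          ring
        · rw [if_pos h4, if_neg h5, if_neg (fun h => h5 h.2.symm)]
          ring
      · rw [if_neg h4, if_neg (fun h => h4 h.1.symm)]
        ring
    have hZt : Z.val.transpose = -Z.val := Z.mem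
    have hZJ : Z.val * J.transpose = -((star c * a i) • Matrix.single p l 1) := by
      have h4 := congrArg Matrix.transpose hJZ
      rw [Matrix.transpose_mul, hZt, Matrix.neg_mul, Matrix.transpose_smul, Matrix.transpose_single] at h4
      rw [← h4, neg_neg]
    have hJZJ : J * Z.val * J.transpose = 0 := by
      rw [hJZ, hJ, Matrix.transpose_sub, Matrix.transpose_single, Matrix.transpose_single, Matrix.smul_mul, Matrix.mul_sub,
        Matrix.single_mul_single_of_ne (h := hpl), Matrix.single_mul_single_of_ne (h := hpq), sub_zero, smul_zero]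
    refine ⟨γ, γ', y, h1, ?_, ?_⟩
    · rw [h2, hJZ, hZJ, ← sub_eq_add_neg, ← smul_sub, smul_smul]
    · intro k
      rw [h3, hJZJ, smul_zero, zero_sub, Matrix.smul_apply, Matrix.neg_apply, Matrix.add_apply, hD, Matrix.add_mul,
        Matrix.transpose_add, Matrix.transpose_single, Matrix.transpose_single, Matrix.mul_add, Matrix.add_apply,
        Matrix.add_apply, SkR_sm, SkR_sm, SkR_ms, SkR_ms, hZl, hZq, hZl', hZq']
      have e1 : ev k ≠ l := fun h => by
        have := congrArg Fin.val h
        have h5 : ((ev k : Fin n) : ℕ) = 2 * (k : ℕ) := rfl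
        have := k.2
        omega
      have e2 : od k ≠ l := fun h => by
        have := congrArg Fin.val h
        have h5 : ((od k : Fin n) : ℕ) = 2 * (k : ℕ) + 1 := rfl
        have := k.2
        omega
      have e3 : ev k ≠ q := fun h => by
        have := congrArg Fin.val h
        have h5 : ((ev k : Fin n) : ℕ) = 2 * (k : ℕ) := rfl
        omega
      rw [if_neg e3, if_neg e1, if_neg e2]
      by_cases h4 : k = i
      · subst h4
        rw [if_pos hq.symm, if_pos hp.symm, if_pos rfl, smul_eq_mul]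
        push_cast
        ring
      · have e4 : ¬ od k = q := fun h => h4 (by
          have := congrArg Fin.val h
          have h5 : ((od k : Fin n) : ℕ) = 2 * (k : ℕ) + 1 := rfl
          apply Fin.ext
          omega)
        rw [if_neg e4, if_neg h4]
        simp
  have hai : (a i : ℂ) ≠ 0 := by exact_mod_cast hi.ne'
  obtain ⟨c₁, c₁', y₁, u1, u2, u3⟩ := key 1 (by simp) (1 / a i)
  obtain ⟨c₂, c₂', y₂, v1, v2, v3⟩ := key Complex.I (by simp) (-(1 / a i))
  refine ⟨2 / a i, by positivity, c₁' 0, c₁, c₁', c₂, c₂', y₁, y₂, ?_, ?_, rfl, ?_, ?_, ?_⟩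
  · funext k
    rw [PK2_apply, u2, Matrix.smul_apply, Matrix.sub_apply, Matrix.single_apply, Matrix.single_apply]
    have e1 : ¬ (l = ev k ∧ p = od k) := fun h => by
      have := congrArg Fin.val h.1
      have h5 : ((ev k : Fin n) : ℕ) = 2 * (k : ℕ) := rfl
      have := k.2
      omega
    have e2 : ¬ (p = ev k ∧ l = od k) := fun h => by
      have := congrArg Fin.val h.2
      have h5 : ((od k : Fin n) : ℕ) = 2 * (k : ℕ) + 1 := rfl
      have := k.2
      omega
    rw [if_neg e1, if_neg e2, sub_zero, smul_zero]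
    rfl
  · rw [← hZ]
    exact u1
  · rw [← hZ]
    exact v1
  · apply Sp.ext
    rw [Sp.val_smul, u2, v2, smul_smul]
    congr 1
    push_cast
    simp only [star_one, one_mul, RCLike.star_def, Complex.conj_I]
    field_simp
  · funext k
    rw [PK2_apply, Sp.val_add, Matrix.add_apply, u3, v3]
    by_cases h4 : k = i
    · subst h4
      rw [if_pos rfl, if_pos rfl, Pi.single_eq_same]
      push_cast
      field_simp
      ring
    · rw [if_neg h4, if_neg h4, Pi.single_eq_of_ne h4, add_zero]

end H5.PC
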