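import Pool.Agent.H5.PC.Sk

/-! # PC.SkS : sorting in the normal form of skew symmetric matrices

`skew_nf` gives `b`, `U`. Let `π` be a permutation of `Fin (n / 2)` with `b ∘ π` antitone (`Tuple.sort`), `τ` the permutation of `Fin n` with `τ (2k) = 2 π k`, `τ (2k+1) = 2 π k + 1` (and fixing `n - 1` if `n` is odd), `P i j = if i = τ j then 1 else 0`, a unitary matrix. `P * skm n (cx1 (b ∘ π)) * Pᵀ = skm n (cx1 b)` (entries: `(P M Pᵀ) (τ i) (τ j) = M i j`). So take `U * P`. -/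

namespace H5.PC

open H5.PK Topology

/-- the map on `Fin n` induced by a map of the pairs -/
private def tf {n : ℕ} (f : Fin (n / 2) → Fin (n / 2)) (i : Fin n) : Fin n :=
  if h : (i : ℕ) / 2 < n / 2 then
    ⟨2 * (f ⟨(i : ℕ) / 2, h⟩ : ℕ) + (i : ℕ) % 2, by
      have := (f ⟨(i : ℕ) / 2, h⟩).2
      have := Nat.mod_lt (i : ℕ) (by norm_num : 2 > 0)
      omega⟩
  else i

private theorem tf_pos {n : ℕ} (f : Fin (n / 2) → Fin (n / 2)) (i : Fin n)
    (h : (i : ℕ) / 2 < n / 2) :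
    ((tf f i : Fin n) : ℕ) = 2 * (f ⟨(i : ℕ) / 2, h⟩ : ℕ) + (i : ℕ) % 2 := by
  unfold tf
  rw [dif_pos h]

private theorem tf_neg {n : ℕ} (f : Fin (n / 2) → Fin (n / 2)) (i : Fin n)
    (h : ¬ (i : ℕ) / 2 < n / 2) : tf f i = i := by
  unfold tf
  rw [dif_neg h]

private theorem tf_tf {n : ℕ} (f g : Fin (n / 2) → Fin (n / 2)) (hfg : ∀ k, f (g k) = k)
    (i : Fin n) : tf f (tf g i) = i := by
  by_cases h : (i : ℕ) / 2 < n / 2
  · have h1 := tf_pos g i h
    have h2 : ((tf g i : Fin n) : ℕ) / 2 = (g ⟨(i : ℕ) / 2, h⟩ : ℕ) := by omega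
    have h3 : ((tf g i : Fin n) : ℕ) % 2 = (i : ℕ) % 2 := by omega
    have h4 : ((tf g i : Fin n) : ℕ) / 2 < n / 2 := by
      rw [h2]
      exact (g ⟨(i : ℕ) / 2, h⟩).2
    have h5 : (⟨((tf g i : Fin n) : ℕ) / 2, h4⟩ : Fin (n / 2)) = g ⟨(i : ℕ) / 2, h⟩ :=
      Fin.ext h2
    apply Fin.ext
    rw [tf_pos f (tf g i) h4, h5, hfg, h3]
    show 2 * ((i : ℕ) / 2) + (i : ℕ) % 2 = (i : ℕ)
    omega
  · rw [tf_neg g i h, tf_neg f i h]

/-- the permutation of `Fin n` induced by a permutation of the pairs -/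
private def tp {n : ℕ} (π : Equiv.Perm (Fin (n / 2))) : Equiv.Perm (Fin n) where
  toFun := tf π
  invFun := tf π.symm
  left_inv := tf_tf _ _ (fun k => π.symm_apply_apply k)
  right_inv := tf_tf _ _ (fun k => π.apply_symm_apply k)

private theorem skm_tp {n : ℕ} (π : Equiv.Perm (Fin (n / 2))) (b : Fin (n / 2) → ℂ) (i j : Fin n) :
    skm n b (tp π i) (tp π j) = skm n (b ∘ π) i j := by
  have e1 : tp π i = tf π i := rfl
  have e2 : tp π j = tf π j := rfl
  rw [e1, e2]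
  have hi := i.2
  have hj := j.2
  unfold skm
  by_cases h : (i : ℕ) / 2 < n / 2
  · have h1 := tf_pos π i h
    have h2 : ((tf π i : Fin n) : ℕ) / 2 = (π ⟨(i : ℕ) / 2, h⟩ : ℕ) := by omega
    have h4 : ((tf π i : Fin n) : ℕ) / 2 < n / 2 := by
      rw [h2]
      exact (π ⟨(i : ℕ) / 2, h⟩).2
    have h5 : (⟨((tf π i : Fin n) : ℕ) / 2, h4⟩ : Fin (n / 2)) = π ⟨(i : ℕ) / 2, h⟩ :=
      Fin.ext h2
    rw [dif_pos h4, dif_pos h, h5]
    have hlt := (π ⟨(i : ℕ) / 2, h⟩).2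
    by_cases g : (j : ℕ) / 2 < n / 2
    · have g1 := tf_pos π j g
      have key : ((π ⟨(j : ℕ) / 2, g⟩ : Fin (n / 2)) : ℕ) = (π ⟨(i : ℕ) / 2, h⟩ : ℕ) ↔
          (j : ℕ) / 2 = (i : ℕ) / 2 := by
        constructor
        · intro hh
          have := π.injective (Fin.ext hh)
          exact Fin.mk.inj_iff.mp this
        · intro hh
          have : (⟨(j : ℕ) / 2, g⟩ : Fin (n / 2)) = ⟨(i : ℕ) / 2, h⟩ := Fin.ext hh
          rw [this]
      have c1 : (((tf π j : Fin n) : ℕ) = ((tf π i : Fin n) : ℕ) + 1 ∧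
          ((tf π i : Fin n) : ℕ) % 2 = 0) ↔ ((j : ℕ) = (i : ℕ) + 1 ∧ (i : ℕ) % 2 = 0) := by
        rw [g1, h1]
        generalize ((π ⟨(j : ℕ) / 2, g⟩ : Fin (n / 2)) : ℕ) = x at key ⊢
        generalize ((π ⟨(i : ℕ) / 2, h⟩ : Fin (n / 2)) : ℕ) = y at key ⊢
        constructor
        · intro hh
          have : x = y := by omega
          have := key.mp this
          omega
        · intro hh
          have : (j : ℕ) / 2 = (i : ℕ) / 2 := by omega
          have := key.mpr this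
          omega
      have c2 : (((tf π i : Fin n) : ℕ) = ((tf π j : Fin n) : ℕ) + 1 ∧
          ((tf π j : Fin n) : ℕ) % 2 = 0) ↔ ((i : ℕ) = (j : ℕ) + 1 ∧ (j : ℕ) % 2 = 0) := by
        rw [g1, h1]
        generalize ((π ⟨(j : ℕ) / 2, g⟩ : Fin (n / 2)) : ℕ) = x at key ⊢
        generalize ((π ⟨(i : ℕ) / 2, h⟩ : Fin (n / 2)) : ℕ) = y at key ⊢
        constructor
        · intro hh
          have : x = y := by omega
          have := key.mp this
          omega
        · intro hh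
          have : (j : ℕ) / 2 = (i : ℕ) / 2 := by omega
          have := key.mpr this
          omega
      simp only [c1, c2, Function.comp_apply]
    · have g1 : tf π j = j := tf_neg π j g
      rw [g1]
      rw [if_neg (by omega), if_neg (by omega), if_neg (by omega), if_neg (by omega)]
  · have h1 : tf π i = i := tf_neg π i h
    rw [h1, dif_neg h, dif_neg h]

private theorem perm_unitary {n : ℕ} (τ : Equiv.Perm (Fin n)) :
    (1 : Matrix (Fin n) (Fin n) ℂ).submatrix id τ ∈ Matrix.unitaryGroup (Fin n) ℂ := by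
  rw [Matrix.mem_unitaryGroup_iff, Matrix.star_eq_conjTranspose, Matrix.conjTranspose_submatrix,
    Matrix.conjTranspose_one, Matrix.one_submatrix_mul]
  ext i j
  simp [Matrix.one_apply]

private theorem perm_conj {n : ℕ} (τ : Equiv.Perm (Fin n)) (M M' : Matrix (Fin n) (Fin n) ℂ)
    (h : ∀ i j, M (τ i) (τ j) = M' i j) :
    M = (1 : Matrix (Fin n) (Fin n) ℂ).submatrix id τ * M' *
      ((1 : Matrix (Fin n) (Fin n) ℂ).submatrix id τ).transpose := by
  rw [Matrix.transpose_submatrix, Matrix.transpose_one, Matrix.one_submatrix_mul,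
    Matrix.mul_submatrix_one]
  ext i j
  have := h (τ.symm i) (τ.symm j)
  rw [Equiv.apply_symm_apply, Equiv.apply_symm_apply] at this
  simpa using this

theorem skew_nf' {n : ℕ} (Z : Matrix (Fin n) (Fin n) ℂ) (hZ : Z.transpose = -Z) :
    ∃ (b : Fin (n / 2) → ℝ) (U : Matrix.unitaryGroup (Fin n) ℂ), Antitone b ∧ (∀ i, 0 ≤ b i) ∧
      Z = (U : Matrix (Fin n) (Fin n) ℂ) * skm n (cx1 b) *
        (U : Matrix (Fin n) (Fin n) ℂ).transpose := by
  obtain ⟨b, U, hb, hZU⟩ := skew_nf Z hZ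
  obtain ⟨π, hπ⟩ : ∃ π : Equiv.Perm (Fin (n / 2)), Antitone (b ∘ π) := by
    refine ⟨Tuple.sort (fun i => -b i), ?_⟩
    intro i j hij
    have := Tuple.monotone_sort (fun i => -b i) hij
    simp only [Function.comp_apply] at this ⊢
    linarith
  refine ⟨b ∘ π, U * ⟨(1 : Matrix (Fin n) (Fin n) ℂ).submatrix id (tp π), perm_unitary _⟩, hπ,
    fun i => hb _, ?_⟩
  have h1 := perm_conj (tp π) (skm n (cx1 b)) (skm n (cx1 (b ∘ π)))
    (fun i j => skm_tp π (cx1 b) i j)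
  rw [hZU]
  conv_lhs => rw [h1]
  show _ = ((U : Matrix (Fin n) (Fin n) ℂ) * (1 : Matrix (Fin n) (Fin n) ℂ).submatrix id (tp π)) *
    _ * ((U : Matrix (Fin n) (Fin n) ℂ) * (1 : Matrix (Fin n) (Fin n) ℂ).submatrix id (tp π)).transpose
  rw [Matrix.transpose_mul]
  simp only [Matrix.mul_assoc]

end H5.PC
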