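import Pool.Agent.H5.PC.Defs

/-! # PC.SkU : the embedding of type III in type II is equivariant

For `U` unitary of size `n / 2` let `U' i j = U (i/2) (j/2)` if `i/2, j/2 < n/2` and `i, j` have the same parity, `U' i i = 1` for the last index if `n` is odd, `0` otherwise. `U'` is unitary and `emM n (U * M * Uᵀ) = U' * emM n M * U'ᵀ` (sums over `Fin n` split in even, odd and the last index; or: all matrices in question are submatrices of
Kronecker products `Matrix.kronecker`, `1 ⊗ U`-type). A good way: the injective maps `ev, od : Fin (n/2) → Fin n`; every `j : Fin n` is `ev k`, `od k` or the last index (`n / 2 ≤ j / 2`); so `∑ j, f j = ∑ k, f (ev k) + ∑ k, f (od k) + (the last term if n is odd)`. `emb_dg`, `P_emb`: entrywise. -/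

namespace H5.PC

open H5.PK Topology
open scoped Matrix.Norms.Elementwise

/-- the indices: pairs (block, position in the block), and the last index if `n` is odd -/
private def gix (n : ℕ) : (Fin (n / 2) × Fin 2) ⊕ Fin (n % 2) ≃ Fin n :=
  ((Equiv.sumCongr finProdFinEquiv (Equiv.refl (Fin (n % 2)))).trans finSumFinEquiv).trans
    (finCongr (by omega : n / 2 * 2 + n % 2 = n))

private theorem gix_inl (n : ℕ) (k : Fin (n / 2)) (b : Fin 2) :
    (gix n (Sum.inl (k, b)) : ℕ) = b + 2 * k := rfl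

private theorem gix_inr (n : ℕ) (c : Fin (n % 2)) :
    (gix n (Sum.inr c) : ℕ) = n / 2 * 2 + c := rfl

open scoped Kronecker in
private noncomputable def upm (n : ℕ) (A : Matrix (Fin (n / 2)) (Fin (n / 2)) ℂ) :
    Matrix (Fin n) (Fin n) ℂ :=
  (Matrix.fromBlocks (A ⊗ₖ (1 : Matrix (Fin 2) (Fin 2) ℂ)) 0 0 1).submatrix (gix n).symm
    (gix n).symm

private def Jm : Matrix (Fin 2) (Fin 2) ℂ := !![0, 1; -1, 0]

open scoped Kronecker in
private theorem emM_eq (n : ℕ) (M : Matrix (Fin (n / 2)) (Fin (n / 2)) ℂ) :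
    emM n M = (Matrix.fromBlocks (M ⊗ₖ Jm) 0 0 0).submatrix (gix n).symm (gix n).symm := by
  have key : (emM n M).submatrix (gix n) (gix n) = Matrix.fromBlocks (M ⊗ₖ Jm) 0 0 0 := by
    ext x y
    rw [Matrix.submatrix_apply]
    rcases x with ⟨k, b⟩ | c
    · rcases y with ⟨l, b'⟩ | c'
      · rw [Matrix.fromBlocks_apply₁₁, Matrix.kroneckerMap_apply]
        unfold emM
        have h1 := gix_inl n k b
        have h2 := gix_inl n l b'
        have hk := k.2
        have hl := l.2
        have hb := b.2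
        have hb' := b'.2
        have e1 : (gix n (Sum.inl (k, b)) : ℕ) / 2 = k := by omega
        have e2 : (gix n (Sum.inl (l, b')) : ℕ) / 2 = l := by omega
        have e3 : (gix n (Sum.inl (k, b)) : ℕ) % 2 = b := by omega
        have e4 : (gix n (Sum.inl (l, b')) : ℕ) % 2 = b' := by omega
        have f1 : ∀ h, (⟨(gix n (Sum.inl (k, b)) : ℕ) / 2, h⟩ : Fin (n / 2)) = k :=
          fun h => Fin.ext e1
        have f2 : ∀ h, (⟨(gix n (Sum.inl (l, b')) : ℕ) / 2, h⟩ : Fin (n / 2)) = l :=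
          fun h => Fin.ext e2
        rw [dif_pos ⟨by omega, by omega⟩, f1, f2, e3, e4]
        fin_cases b <;> fin_cases b' <;> simp [Jm]
      · rw [Matrix.fromBlocks_apply₁₂]
        unfold emM
        have h2 := gix_inr n c'
        rw [dif_neg (by omega)]
        rfl
    · have h1 := gix_inr n c
      have h3 : emM n M (gix n (Sum.inr c)) (gix n y) = 0 := by
        unfold emM
        rw [dif_neg (by omega)]
      rw [h3]
      rcases y with y | y
      · rw [Matrix.fromBlocks_apply₂₁]; rfl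
      · rw [Matrix.fromBlocks_apply₂₂]; rfl
  rw [← key, Matrix.submatrix_submatrix]
  simp

open scoped Kronecker in
private theorem upm_mul (n : ℕ) (A B : Matrix (Fin (n / 2)) (Fin (n / 2)) ℂ) :
    upm n A * upm n B = upm n (A * B) := by
  unfold upm
  rw [Matrix.submatrix_mul_equiv, Matrix.fromBlocks_multiply, ← Matrix.mul_kronecker_mul]
  simp

open scoped Kronecker in
private theorem upm_one (n : ℕ) : upm n 1 = 1 := by
  unfold upm
  rw [Matrix.one_kronecker_one, Matrix.fromBlocks_one, Matrix.submatrix_one_equiv]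

open scoped Kronecker in
private theorem upm_star (n : ℕ) (A : Matrix (Fin (n / 2)) (Fin (n / 2)) ℂ) :
    star (upm n A) = upm n (star A) := by
  unfold upm
  rw [Matrix.star_eq_conjTranspose, Matrix.star_eq_conjTranspose, Matrix.conjTranspose_submatrix,
    Matrix.fromBlocks_conjTranspose, Matrix.conjTranspose_kronecker]
  simp

open scoped Kronecker in
private theorem upm_transpose (n : ℕ) (A : Matrix (Fin (n / 2)) (Fin (n / 2)) ℂ) :
    (upm n A).transpose = upm n A.transpose := by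
  unfold upm
  rw [Matrix.transpose_submatrix, Matrix.fromBlocks_transpose, ← Matrix.kroneckerMap_transpose]
  simp

open scoped Kronecker in
private theorem upm_mul_emM (n : ℕ) (A M : Matrix (Fin (n / 2)) (Fin (n / 2)) ℂ) :
    upm n A * emM n M = emM n (A * M) := by
  rw [emM_eq, emM_eq]
  unfold upm
  rw [Matrix.submatrix_mul_equiv, Matrix.fromBlocks_multiply, ← Matrix.mul_kronecker_mul]
  simp

open scoped Kronecker in
private theorem emM_mul_upm (n : ℕ) (M B : Matrix (Fin (n / 2)) (Fin (n / 2)) ℂ) :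
    emM n M * upm n B = emM n (M * B) := by
  rw [emM_eq, emM_eq]
  unfold upm
  rw [Matrix.submatrix_mul_equiv, Matrix.fromBlocks_multiply, ← Matrix.mul_kronecker_mul]
  simp

theorem emb_act (n : ℕ) (U : Matrix.unitaryGroup (Fin (n / 2)) ℂ) :
    ∃ U' : Matrix.unitaryGroup (Fin n) ℂ,
      (∀ M : Sp (symS (n / 2)), emb n (actS (hsym (n / 2)) (U : Matrix (Fin (n / 2)) (Fin (n / 2)) ℂ) M) =
        actS (hskw n) (U' : Matrix (Fin n) (Fin n) ℂ) (emb n M)) ∧
      ((U : Matrix (Fin (n / 2)) (Fin (n / 2)) ℂ) * (U : Matrix (Fin (n / 2)) (Fin (n / 2)) ℂ) = 1 →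
        (U' : Matrix (Fin n) (Fin n) ℂ) * (U' : Matrix (Fin n) (Fin n) ℂ) = 1) := by
  have hU : upm n (U : Matrix (Fin (n / 2)) (Fin (n / 2)) ℂ) ∈ Matrix.unitaryGroup (Fin n) ℂ := by
    rw [Matrix.mem_unitaryGroup_iff, upm_star, upm_mul, Matrix.mem_unitaryGroup_iff.mp U.2, upm_one]
  refine ⟨⟨upm n U, hU⟩, ?_, ?_⟩
  · intro M
    apply Sp.ext
    rw [emb_val, actS_val, actS_val, emb_val]
    show emM n _ = upm n _ * emM n M.val * (upm n _).transpose
    rw [upm_transpose, upm_mul_emM, emM_mul_upm]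
  · intro h
    show upm n _ * upm n _ = 1
    rw [upm_mul, h, upm_one]

theorem emb_dg (n : ℕ) (b : Fin (n / 2) → ℂ) : emb n (dgY (n / 2) b) = dgK n b := by
  apply Sp.ext
  rw [emb_val, dgY_val, dgK_val]
  ext i j
  unfold emM skm dgm
  have hi := i.2
  have hj := j.2
  by_cases h1 : (i : ℕ) / 2 < n / 2
  · rw [dif_pos h1]
    by_cases h2 : (j : ℕ) / 2 < n / 2
    · rw [dif_pos ⟨h1, h2⟩]
      dsimp only
      split_ifs <;> first | rfl | (exfalso; omega) | exact neg_zero
    · rw [dif_neg (fun h => h2 h.2)]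
      split_ifs <;> first | rfl | (exfalso; omega)
  · rw [dif_neg h1, dif_neg (fun h => h1 h.1)]

theorem P_emb (n : ℕ) (M : Sp (symS (n / 2))) : PK2 n (emb n M) = PY (n / 2) M := by
  funext k
  rw [PK2_apply, PY_apply, emb_val]
  unfold emM ev od
  have hk := k.2
  have e1 : ∀ h, (⟨(2 * (k : ℕ)) / 2, h⟩ : Fin (n / 2)) = k := fun h =>
    Fin.ext (by show 2 * (k : ℕ) / 2 = k; omega)
  have e2 : ∀ h, (⟨(2 * (k : ℕ) + 1) / 2, h⟩ : Fin (n / 2)) = k := fun h =>
    Fin.ext (by show (2 * (k : ℕ) + 1) / 2 = k; omega)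
  have h1 : 2 * (k : ℕ) / 2 < n / 2 ∧ (2 * (k : ℕ) + 1) / 2 < n / 2 := by omega
  show (if h : 2 * (k : ℕ) / 2 < n / 2 ∧ (2 * (k : ℕ) + 1) / 2 < n / 2 then _ else _) = _
  rw [dif_pos h1]
  show (if 2 * (k : ℕ) % 2 = 0 ∧ (2 * (k : ℕ) + 1) % 2 = 1 then _ else _) = _
  rw [if_pos (by omega)]
  rw [e1, e2]

end H5.PC
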