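import Pool.Agent.H5.PC.CgR

/-! # PC.YR : type III, root curves

`D = single i i 1 + single j j 1`. First curve: `cu_rot` with `J = single i j 1 - single j i 1`, `x = 1 / (a j - a i)`; second curve: `J = single i j I + single j i I`, `x = 1 / (a i + a j)` (`a i > a j ≥ 0`). With `Z = dgm (cx1 a)`: `J Z + Z Jᵀ = (a j - a i) (E_ij + E_ji)`, resp. `I (a i + a j) (E_ij + E_ji)`; so `x₀ = E_ij + E_ji`
(in `symS n`, diagonal zero). `J Z Jᵀ = a j E_ii + a i E_jj`, resp. `- (a j E_ii + a i E_jj)`; `D Z + Z Dᵀ = 2 a i E_ii + 2 a j E_jj`. Sum of the diagonals of the second derivatives at `i`: `2 (a j - a i) / (a j - a i)² - 2 (a i + a j) / (a i + a j)² = - 4 a i / (a i² - a j²)`, at `j`: `4 a j / (a i² - a j²)`;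
`κ = 4 / (a i² - a j²)`. -/

namespace H5.PC

open H5.PK Topology
open scoped Matrix.Norms.Elementwise

private theorem dgm_dg {n : ℕ} (b : Fin n → ℂ) :
    (dgm b : Matrix (Fin n) (Fin n) ℂ) = Matrix.diagonal b := by
  ext i j
  by_cases h : i = j
  · subst h
    simp [dgm]
  · have h1 : (i : ℕ) ≠ (j : ℕ) := fun h2 => h (Fin.ext h2)
    simp [dgm, h, h1]

private theorem s_d {n : ℕ} (b : Fin n → ℂ) (p q : Fin n) (c : ℂ) :
    Matrix.single p q c * Matrix.diagonal b = Matrix.single p q (c * b q) := by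
  ext x y
  rw [Matrix.mul_diagonal, Matrix.single_apply, Matrix.single_apply]
  by_cases h : p = x ∧ q = y
  · rw [if_pos h, if_pos h, h.2]
  · rw [if_neg h, if_neg h, zero_mul]

private theorem d_s {n : ℕ} (b : Fin n → ℂ) (p q : Fin n) (c : ℂ) :
    Matrix.diagonal b * Matrix.single p q c = Matrix.single p q (b p * c) := by
  ext x y
  rw [Matrix.diagonal_mul, Matrix.single_apply, Matrix.single_apply]
  by_cases h : p = x ∧ q = y
  · rw [if_pos h, if_pos h, h.1]
  · rw [if_neg h, if_neg h, mul_zero]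

theorem Y_root (n : ℕ) (a : Fin n → ℝ) (ha : ∀ i, 0 ≤ a i) (i j : Fin n) (hij : a j < a i) :
    ∃ κ : ℝ, 0 < κ ∧ RP1 (KS (hsym n)) (PY n) (dgY n (cx1 a))
      (Pi.single i ((-(κ * a i) : ℝ) : ℂ) + Pi.single j ((κ * a j : ℝ) : ℂ)) := by
  have hne : i ≠ j := fun h => by rw [h] at hij; exact lt_irrefl _ hij
  have hne' : j ≠ i := hne.symm
  have hj := ha j
  have hs : 0 < a i + a j := by linarith
  have hd : a j - a i ≠ 0 := by linarith [hij] |> fun (h : a j - a i < 0) => h.ne
  have hsn : (a i + a j) ≠ 0 := hs.ne'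
  have hsq : 0 < a i ^ 2 - a j ^ 2 := by nlinarith
  have hdc : ((a j : ℂ) - (a i : ℂ)) ≠ 0 := by exact_mod_cast hd
  have hsc : ((a i : ℂ) + (a j : ℂ)) ≠ 0 := by exact_mod_cast hsn
  have hqc : ((a i : ℂ) ^ 2 - (a j : ℂ) ^ 2) ≠ 0 := by exact_mod_cast hsq.ne'
  set D : Matrix (Fin n) (Fin n) ℂ := Matrix.single i i 1 + Matrix.single j j 1 with hD
  set J1 : Matrix (Fin n) (Fin n) ℂ := Matrix.single i j 1 - Matrix.single j i 1 with hJ1
  set J2 : Matrix (Fin n) (Fin n) ℂ := Matrix.single i j Complex.I + Matrix.single j i Complex.I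
    with hJ2
  have hDD : D * D = D := by simp [hD, mul_add, add_mul, hne, hne']
  have hDJ1 : D * J1 = J1 := by simp [hD, hJ1, mul_sub, add_mul, hne, hne']
  have hJD1 : J1 * D = J1 := by
    simp [hD, hJ1, mul_add, sub_mul, hne, hne']
    abel
  have hJJ1 : J1 * J1 = -D := by
    simp [hD, hJ1, mul_sub, sub_mul, hne, hne']
    abel
  have hDJ2 : D * J2 = J2 := by simp [hD, hJ2, mul_add, add_mul, hne, hne']
  have hJD2 : J2 * D = J2 := by
    simp [hD, hJ2, mul_add, add_mul, hne, hne']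
    abel
  have hJJ2 : J2 * J2 = -D := by
    simp [hD, hJ2, mul_add, add_mul, hne, hne', Matrix.single_neg]
  have hDs : D.conjTranspose = D := by simp [hD, Matrix.conjTranspose_single]
  have hJs1 : J1.conjTranspose = -J1 := by simp [hJ1, Matrix.conjTranspose_single]
  have hJs2 : J2.conjTranspose = -J2 := by
    simp [hJ2, Matrix.conjTranspose_single, Matrix.single_neg]
  have hZ : (dgY n (cx1 a)).val = Matrix.diagonal (cx1 a) := by rw [dgY_val, dgm_dg]
  have hDt : D.transpose = D := by simp [hD, Matrix.transpose_single]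
  have hJ1t : J1.transpose = Matrix.single j i 1 - Matrix.single i j 1 := by
    simp [hJ1, Matrix.transpose_single]
  have hJ2t : J2.transpose = Matrix.single j i Complex.I + Matrix.single i j Complex.I := by
    simp [hJ2, Matrix.transpose_single]
  obtain ⟨c1, c1', y1, hc1, hc1d, hy1⟩ := cu_rot (hsym n) hDD hDJ1 hJD1 hJJ1 hDs hJs1
    (1 / (a j - a i)) (dgY n (cx1 a))
  obtain ⟨c2, c2', y2, hc2, hc2d, hy2⟩ := cu_rot (hsym n) hDD hDJ2 hJD2 hJJ2 hDs hJs2
    (1 / (a i + a j)) (dgY n (cx1 a))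
  have e1 : (c1' 0).val = Matrix.single i j 1 + Matrix.single j i 1 := by
    rw [hc1d, hZ, hJ1t, hJ1, sub_mul, mul_sub, s_d, s_d, d_s, d_s]
    ext x y
    simp only [Matrix.smul_apply, Matrix.add_apply, Matrix.sub_apply, Matrix.single_apply, cx1,
      smul_eq_mul]
    push_cast
    split_ifs <;> field_simp <;> ring
  have e2 : (c2' 0).val = Complex.I • (Matrix.single i j 1 + Matrix.single j i 1) := by
    rw [hc2d, hZ, hJ2t, hJ2, add_mul, mul_add, s_d, s_d, d_s, d_s]
    ext x y
    simp only [Matrix.smul_apply, Matrix.add_apply, Matrix.single_apply, cx1, smul_eq_mul]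
    push_cast
    split_ifs <;> field_simp <;> ring
  have f1 : J1 * Matrix.diagonal (cx1 a) * J1.transpose =
      Matrix.single i i (a j : ℂ) + Matrix.single j j (a i : ℂ) := by
    rw [hJ1t, hJ1, sub_mul, s_d, s_d]
    simp [mul_sub, sub_mul, hne, hne', cx1]
  have f2 : J2 * Matrix.diagonal (cx1 a) * J2.transpose =
      -(Matrix.single i i (a j : ℂ) + Matrix.single j j (a i : ℂ)) := by
    rw [hJ2t, hJ2, add_mul, s_d, s_d]
    have g1 : Complex.I * (a j : ℂ) * Complex.I = -(a j : ℂ) := by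
      linear_combination (a j : ℂ) * Complex.I_mul_I
    have g2 : Complex.I * (a i : ℂ) * Complex.I = -(a i : ℂ) := by
      linear_combination (a i : ℂ) * Complex.I_mul_I
    simp [mul_add, add_mul, hne, hne', cx1, g1, g2, Matrix.single_neg]
    abel
  have f3 : D * Matrix.diagonal (cx1 a) + Matrix.diagonal (cx1 a) * D.transpose =
      Matrix.single i i (2 * (a i : ℂ)) + Matrix.single j j (2 * (a j : ℂ)) := by
    rw [hDt, hD, add_mul, mul_add, s_d, s_d, d_s, d_s]
    ext x y
    simp only [Matrix.add_apply, Matrix.single_apply, cx1]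
    split_ifs <;> ring
  refine ⟨4 / (a i ^ 2 - a j ^ 2), by positivity, c1' 0, c1, c1', c2, c2', y1, y2, ?_, hc1, rfl,
    hc2, ?_, ?_⟩
  · funext k
    rw [PY_apply, e1]
    simp only [Matrix.add_apply, Matrix.single_apply, Pi.zero_apply]
    have h1 : ¬ (i = k ∧ j = k) := fun h => hne (h.1.trans h.2.symm)
    have h2 : ¬ (j = k ∧ i = k) := fun h => hne (h.2.trans h.1.symm)
    rw [if_neg h1, if_neg h2, add_zero]
  · apply Sp.ext
    rw [e2, Sp.val_smul, e1]
  · funext k
    rw [PY_apply, Sp.val_add, Matrix.add_apply, hy1, hy2, hZ, f1, f2, f3]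
    simp only [Matrix.smul_apply, Matrix.add_apply, Matrix.sub_apply, Matrix.neg_apply,
      Matrix.single_apply, smul_eq_mul, Pi.add_apply]
    push_cast
    by_cases h1 : k = i
    · subst h1
      rw [Pi.single_eq_same, Pi.single_eq_of_ne hne]
      simp [hne']
      have : ((a k : ℂ) ^ 2 - (a j : ℂ) ^ 2) = -(((a j : ℂ) - (a k : ℂ)) * ((a k : ℂ) + (a j : ℂ))) := by
        ring
      rw [this]
      field_simp
      ring
    · by_cases h2 : k = j
      · subst h2
        rw [Pi.single_eq_same, Pi.single_eq_of_ne hne']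
        simp [hne]
        have : ((a i : ℂ) ^ 2 - (a k : ℂ) ^ 2) = -(((a k : ℂ) - (a i : ℂ)) * ((a i : ℂ) + (a k : ℂ))) := by
          ring
        rw [this]
        field_simp
        ring
      · rw [Pi.single_eq_of_ne h1, Pi.single_eq_of_ne h2]
        simp [Ne.symm h1, Ne.symm h2]

end H5.PC
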