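import Pool.Agent.H5.PC.Defs

/-! # PC.YS : type III, torus and swaps

`Y_torus`: `U` diagonal with entries `exp (θ i / 2 * I)`. `Y_swap`: the permutation matrix of the transposition of `i` and `j` (symmetric, square `1`); `U * dgm b * Uᵀ = dgm (b ∘ swap i j)`. For `i = j` it is the identity. See `M_torus`, `M_swap` in `H5.PK.ISw`. -/

namespace H5.PC

open H5.PK Topology
open scoped Matrix.Norms.Elementwise

theorem Y_torus (n : ℕ) (θ : Fin n → ℝ) : ∃ U : Matrix.unitaryGroup (Fin n) ℂ, ∀ b : Fin n → ℂ,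
    actS (hsym n) (U : Matrix (Fin n) (Fin n) ℂ) (dgY n b) =
      dgY n (fun i => Complex.exp ((θ i : ℂ) * Complex.I) * b i) := by
  have h1 : (Matrix.diagonal (fun i => Complex.exp (((θ i / 2 : ℝ) : ℂ) * Complex.I)) :
      Matrix (Fin n) (Fin n) ℂ) ∈ Matrix.unitaryGroup (Fin n) ℂ := by
    rw [Matrix.mem_unitaryGroup_iff, Matrix.star_eq_conjTranspose, Matrix.diagonal_conjTranspose,
      Matrix.diagonal_mul_diagonal, ← Matrix.diagonal_one]
    congr 1
    funext i
    rw [Pi.star_apply]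
    show Complex.exp (((θ i / 2 : ℝ) : ℂ) * Complex.I) *
      (starRingEnd ℂ) (Complex.exp (((θ i / 2 : ℝ) : ℂ) * Complex.I)) = 1
    rw [Complex.mul_conj, Complex.normSq_eq_norm_sq, Complex.norm_exp_ofReal_mul_I]
    norm_num
  refine ⟨⟨_, h1⟩, fun b => ?_⟩
  apply Sp.ext
  rw [actS_val, dgY_val, dgY_val]
  show Matrix.diagonal (fun i => Complex.exp (((θ i / 2 : ℝ) : ℂ) * Complex.I)) * dgm b *
    (Matrix.diagonal (fun i => Complex.exp (((θ i / 2 : ℝ) : ℂ) * Complex.I))).transpose = _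
  ext i j
  rw [Matrix.diagonal_transpose, Matrix.mul_diagonal, Matrix.diagonal_mul]
  show Complex.exp (((θ i / 2 : ℝ) : ℂ) * Complex.I) * (if (i : ℕ) = (j : ℕ) then b i else 0) *
    Complex.exp (((θ j / 2 : ℝ) : ℂ) * Complex.I) =
    if (i : ℕ) = (j : ℕ) then Complex.exp ((θ i : ℂ) * Complex.I) * b i else 0
  by_cases h : (i : ℕ) = (j : ℕ)
  · have hij : i = j := Fin.ext h
    subst hij
    rw [if_pos rfl, if_pos rfl]
    have h2 : Complex.exp ((θ i : ℂ) * Complex.I) = Complex.exp (((θ i / 2 : ℝ) : ℂ) * Complex.I) *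
        Complex.exp (((θ i / 2 : ℝ) : ℂ) * Complex.I) := by
      rw [← Complex.exp_add]
      congr 1
      push_cast
      ring
    rw [h2]
    ring
  · rw [if_neg h, if_neg h, mul_zero, zero_mul]

private theorem ys_unit {p : ℕ} (σ : Equiv.Perm (Fin p)) :
    (1 : Matrix (Fin p) (Fin p) ℂ).submatrix σ id ∈ Matrix.unitaryGroup (Fin p) ℂ := by
  rw [Matrix.mem_unitaryGroup_iff, Matrix.star_eq_conjTranspose, Matrix.conjTranspose_submatrix,
    Matrix.conjTranspose_one, ← Matrix.submatrix_mul _ _ _ id _ Function.bijective_id,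
    Matrix.one_mul, Matrix.submatrix_one_equiv]

private theorem ys_mul {p : ℕ} (σ : Equiv.Perm (Fin p)) (Z : Matrix (Fin p) (Fin p) ℂ) :
    (1 : Matrix (Fin p) (Fin p) ℂ).submatrix σ id * Z = Z.submatrix σ id := by
  conv_lhs => rw [← Matrix.submatrix_id_id Z]
  rw [← Matrix.submatrix_mul _ _ _ id _ Function.bijective_id, Matrix.one_mul]

private theorem ys_act {p : ℕ} (σ : Equiv.Perm (Fin p)) (Z : Matrix (Fin p) (Fin p) ℂ) :
    (1 : Matrix (Fin p) (Fin p) ℂ).submatrix σ id * Z *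
      ((1 : Matrix (Fin p) (Fin p) ℂ).submatrix σ id).transpose = Z.submatrix σ σ := by
  rw [ys_mul, Matrix.transpose_submatrix, Matrix.transpose_one,
    ← Matrix.submatrix_mul _ _ _ id _ Function.bijective_id, Matrix.mul_one]

private theorem ys_dg {n : ℕ} (σ : Equiv.Perm (Fin n)) (b : Fin n → ℂ) :
    actS (hsym n) (((⟨_, ys_unit σ⟩ : Matrix.unitaryGroup (Fin n) ℂ)) : Matrix (Fin n) (Fin n) ℂ)
      (dgY n b) = dgY n (fun i => b (σ i)) := by
  apply Sp.ext
  rw [actS_val, dgY_val, dgY_val]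
  show (1 : Matrix (Fin n) (Fin n) ℂ).submatrix σ id * dgm b *
      ((1 : Matrix (Fin n) (Fin n) ℂ).submatrix σ id).transpose = _
  rw [ys_act]
  ext x y
  show (if ((σ x : Fin n) : ℕ) = ((σ y : Fin n) : ℕ) then b (σ x) else 0) =
    if (x : ℕ) = (y : ℕ) then b (σ x) else 0
  by_cases h : (x : ℕ) = (y : ℕ)
  · have hxy : x = y := Fin.ext h
    rw [if_pos h, if_pos (by rw [hxy])]
  · rw [if_neg h, if_neg]
    intro h1
    exact h (congrArg Fin.val (σ.injective (Fin.ext h1)))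

theorem Y_swap (n : ℕ) (a : Fin n → ℝ) (i j : Fin n) (h : a i = a j) :
    ∃ U : Matrix.unitaryGroup (Fin n) ℂ,
      (U : Matrix (Fin n) (Fin n) ℂ) * (U : Matrix (Fin n) (Fin n) ℂ) = 1 ∧
      actS (hsym n) (U : Matrix (Fin n) (Fin n) ℂ) (dgY n (cx1 a)) = dgY n (cx1 a) ∧
      ∀ c : ℂ, actS (hsym n) (U : Matrix (Fin n) (Fin n) ℂ) (dgY n (Pi.single i c)) =
        dgY n (Pi.single j c) := by
  refine ⟨⟨_, ys_unit (Equiv.swap i j)⟩, ?_, ?_, fun c => ?_⟩
  · show (1 : Matrix (Fin n) (Fin n) ℂ).submatrix (Equiv.swap i j) id *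
      (1 : Matrix (Fin n) (Fin n) ℂ).submatrix (Equiv.swap i j) id = 1
    rw [ys_mul, Matrix.submatrix_submatrix]
    have h1 : (Equiv.swap i j : Fin n → Fin n) ∘ (Equiv.swap i j : Fin n → Fin n) = id := by
      funext x
      show Equiv.swap i j (Equiv.swap i j x) = x
      exact Equiv.swap_apply_self i j x
    rw [h1]
    rfl
  · rw [ys_dg]
    congr 1
    funext x
    show ((a (Equiv.swap i j x) : ℝ) : ℂ) = ((a x : ℝ) : ℂ)
    congr 1
    by_cases h1 : x = i
    · rw [h1, Equiv.swap_apply_left, h]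
    · by_cases h2 : x = j
      · rw [h2, Equiv.swap_apply_right, h]
      · rw [Equiv.swap_apply_of_ne_of_ne h1 h2]
  · rw [ys_dg]
    congr 1
    funext x
    show (Pi.single i c : Fin n → ℂ) (Equiv.swap i j x) = (Pi.single j c : Fin n → ℂ) x
    by_cases h1 : x = i
    · rw [h1, Equiv.swap_apply_left]
      by_cases h3 : i = j
      · rw [← h3]
      · rw [Pi.single_eq_of_ne (Ne.symm h3), Pi.single_eq_of_ne h3]
    · by_cases h2 : x = j
      · rw [h2, Equiv.swap_apply_right, Pi.single_eq_same, Pi.single_eq_same]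
      · rw [Equiv.swap_apply_of_ne_of_ne h1 h2, Pi.single_eq_of_ne h1, Pi.single_eq_of_ne h2]

end H5.PC
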