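import Pool.Agent.H5.PC.Cg
import Pool.Agent.H5.PC.YS
import Pool.Agent.H5.PC.YR
import Pool.Agent.H5.PC.SkS
import Pool.Agent.H5.PC.SkJ
import Pool.Agent.H5.PC.SkM
import Pool.Agent.H5.PC.SkU
import Pool.Agent.H5.PC.SkG
import Pool.Agent.H5.PC.SkR
import Pool.Agent.H5.PC.SkI
import Pool.Agent.H5.PC.RpM
import Pool.Agent.H5.PK.SvC
import Pool.Agent.H5.PK.Mnr

/-! # PC.FK : type II (glue) -/

namespace H5.PC

open H5.PK Topology
open scoped Matrix.Norms.Elementwise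

theorem dbl_ev (n : ℕ) (b : Fin (n / 2) → ℝ) (k : Fin (n / 2)) : dbl n b (ev k) = b k := by
  have h : (2 * (k : ℕ)) / 2 = (k : ℕ) := by omega
  unfold dbl ev
  simp only [h]
  rw [dif_pos k.2]

/-- the singular values of a skew symmetric matrix come in pairs -/
theorem sv_dbl (n : ℕ) (Z : Sp (skwS n)) : ∃ (U : Matrix.unitaryGroup (Fin n) ℂ),
    Antitone (sK n Z) ∧ (∀ i, 0 ≤ sK n Z i) ∧ sv Z.val = dbl n (sK n Z) ∧
      Z = actS (hskw n) (U : Matrix (Fin n) (Fin n) ℂ) (dgK n (cx1 (sK n Z))) := by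
  obtain ⟨b, U, hb, h0, hZ⟩ := skew_nf' Z.val Z.mem
  have h1 : sv Z.val = dbl n b := by
    conv_lhs => rw [hZ]
    exact sk_sv hb h0 U
  have h2 : sK n Z = b := by
    funext k
    show sv Z.val (ev k) = b k
    rw [h1, dbl_ev]
  rw [h2]
  refine ⟨U, hb, h0, h1, Sp.ext ?_⟩
  rw [actS_val, dgK_val]
  exact hZ

theorem sK_dg (n : ℕ) (b : Fin (n / 2) → ℝ) (hb : Antitone b) (h0 : ∀ i, 0 ≤ b i) :
    sK n (dgK n (cx1 b)) = b := by
  funext k
  show sv (dgK n (cx1 b)).val (ev k) = b k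
  have h := sk_sv hb h0 1
  have h2 : ((1 : Matrix.unitaryGroup (Fin n) ℂ) : Matrix (Fin n) (Fin n) ℂ) = 1 := rfl
  rw [h2, Matrix.one_mul, Matrix.transpose_one, Matrix.mul_one] at h
  rw [dgK_val, h, dbl_ev]

/-- type II -/
noncomputable def FrII (n : ℕ) : Fr (Sp (skwS n)) (n / 2) where
  K := KS (hskw n)
  dg := dgK n
  P := PK2 n
  s := sK n
  tube := n % 2 = 0
  d := 2
  Δ := fun k Z => mnr (le_refl n) (od k) Z.val
  one := KS_one (hskw n)
  P_dg := by
    intro b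
    rw [← emb_dg, P_emb]
    funext i
    rw [PY_apply, dgY_val]
    unfold dgm
    rw [if_pos rfl]
  K_inv := KS_inv (hskw n)
  s_cont := by
    apply continuous_pi
    intro k
    exact (continuous_apply (ev k)).comp
      ((sv_continuous (le_refl n)).comp (Sp.valL (skwS n)).continuous)
  s_anti := fun Z => (sv_dbl n Z).choose_spec.1
  s_nn := fun Z => (sv_dbl n Z).choose_spec.2.1
  s_K := by
    intro k hk Z
    funext i
    show sv (k Z).val (ev i) = sv Z.val (ev i)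
    rw [KS_sv (hskw n) k hk Z]
  s_dg := sK_dg n
  polar := by
    intro Z
    obtain ⟨U, -, -, -, h⟩ := sv_dbl n Z
    exact ⟨_, ⟨U, rfl⟩, h⟩
  torus := by
    intro θ
    obtain ⟨U, h⟩ := Y_torus (n / 2) θ
    obtain ⟨U', h1, -⟩ := emb_act n U
    refine ⟨_, ⟨U', rfl⟩, fun b => ?_⟩
    rw [← emb_dg, ← h1, h, emb_dg]
  swap := by
    intro a i j hij
    obtain ⟨U, h1, h2, h3⟩ := Y_swap (n / 2) a i j hij
    obtain ⟨U', h4, h5⟩ := emb_act n U
    refine ⟨_, ⟨U', rfl⟩, fun Z => ?_, ?_, fun c => ?_⟩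
    · apply Sp.ext
      rw [actS_val, actS_val]
      have h6 : (U' : Matrix (Fin n) (Fin n) ℂ).transpose *
          (U' : Matrix (Fin n) (Fin n) ℂ).transpose = 1 := by
        rw [← Matrix.transpose_mul, h5 h1, Matrix.transpose_one]
      calc (U' : Matrix (Fin n) (Fin n) ℂ) * ((U' : Matrix (Fin n) (Fin n) ℂ) * Z.val *
            (U' : Matrix (Fin n) (Fin n) ℂ).transpose) * (U' : Matrix (Fin n) (Fin n) ℂ).transpose
          = ((U' : Matrix (Fin n) (Fin n) ℂ) * (U' : Matrix (Fin n) (Fin n) ℂ)) * Z.val *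
            ((U' : Matrix (Fin n) (Fin n) ℂ).transpose * (U' : Matrix (Fin n) (Fin n) ℂ).transpose) := by
            simp only [Matrix.mul_assoc]
        _ = Z.val := by rw [h5 h1, h6, Matrix.one_mul, Matrix.mul_one]
    · rw [← emb_dg, ← h4, h2]
    · rw [← emb_dg, ← h4, h3, emb_dg]
  grad := K_grad n
  root := by
    intro a ha i j hij
    obtain ⟨κ, hκ, h⟩ := Y_root (n / 2) a ha i j hij
    refine ⟨κ, hκ, ?_⟩
    rw [← emb_dg]
    refine h.map (emb n) ?_ (P_emb n)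
    rintro k ⟨U, rfl⟩
    obtain ⟨U', h1, -⟩ := emb_act n U
    exact ⟨_, ⟨U', rfl⟩, h1⟩
  root' := fun a ha i hn hi => K_root' n a ha i hn hi
  d_pos := Nat.two_pos
  Δ_diff := fun k => (mnr_diff (le_refl n) (od k)).comp (Sp.valL (skwS n)).differentiable
  Δ_dg := fun k b => mnr_skm k b
  Δ_le := by
    intro k Z
    obtain ⟨U, -, -, h, -⟩ := sv_dbl n Z
    rw [← prod_dbl, ← h]
    exact mnr_le (le_refl n) (od k) (sv_spec (le_refl n) Z.val)
  Δ_eq := by
    intro hn k hk Z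
    obtain ⟨U, -, -, h, -⟩ := sv_dbl n Z
    rw [← prod_dbl_full hn, ← h]
    refine mnr_eq (le_refl n) rfl (od k) ?_ (sv_spec (le_refl n) Z.val)
    show 2 * (k : ℕ) + 1 + 1 = n
    omega
  iso := by
    intro a ha h0
    obtain ⟨φ, h1, h2⟩ := K_iso n a ha h0
    refine ⟨φ, h1, fun z hz => h2 z ?_⟩
    obtain ⟨U, -, -, h, -⟩ := sv_dbl n z
    rw [h, hz]

end H5.PC
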