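import Pool.Agent.H5.PC.Defs

/-! # PC.PiG : product of frames, gradients

For a factor `l` let `f_l v = f (Pi.single l v)` (a continuous real linear map `V l → ℝ`, e.g. `f.comp (ContinuousLinearMap.single ℝ V l)`). If `k₀ ∈ (F l).K`,
`k₀ ∘ k₀ ∘ k₀ ∘ k₀ = id` and `k₀` fixes `(F l).dg (cx1 (a l))`, then `k = pm (update id l k₀)` is in `Kp F`, has the same two properties, and `k (Pi.single l v) = Pi.single l (k₀ v)`; so `(F l).grad` applies to `f_l`.
Then `f z = ∑ l, f_l (z l)` (`Finset.univ_sum_single`) `= ∑ l, f_l ((F l).dg ((F l).P (z l))) = f (dgp F (Pp F z))`, and `dgp F (e1 l i c) = Pi.single l ((F l).dg (Pi.single i c))`. -/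

namespace H5.PC

open H5.PK Topology

variable {L : Type} [Fintype L] [DecidableEq L] {V : L → Type} [∀ l, NormedAddCommGroup (V l)]
  [∀ l, NormedSpace ℂ (V l)] {r : L → ℕ} (F : (l : L) → Fr (V l) (r l))

/-- the family with `k₀` at `l` and the identity elsewhere -/
private noncomputable def upG (l : L) (k₀ : V l →L[ℂ] V l) : (l' : L) → V l' →L[ℂ] V l' :=
  Function.update (fun l' => ContinuousLinearMap.id ℂ (V l')) l k₀

omit [Fintype L] in
private theorem upG_self (l : L) (k₀ : V l →L[ℂ] V l) : upG l k₀ l = k₀ :=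
  Function.update_self _ _ _

omit [Fintype L] in
private theorem upG_ne {l l' : L} (h : l' ≠ l) (k₀ : V l →L[ℂ] V l) (v : V l') :
    upG l k₀ l' v = v := by
  unfold upG
  rw [Function.update_of_ne h]
  rfl

private theorem upG_single (l : L) (k₀ : V l →L[ℂ] V l) (v : V l) :
    pm (upG l k₀) (Pi.single l v) = Pi.single l (k₀ v) := by
  funext l'
  rw [pm_apply]
  by_cases h : l' = l
  · subst h
    rw [upG_self, Pi.single_eq_same, Pi.single_eq_same]
  · rw [upG_ne h, Pi.single_eq_of_ne h, Pi.single_eq_of_ne h]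

theorem pi_grad (a : X r) (ha : ∀ l i, 0 ≤ a l i) (f : ((l : L) → V l) →L[ℝ] ℝ)
    (hf : ∀ k ∈ Kp F, (∀ z, k (k (k (k z))) = z) → k (dgp F (cx a)) = dgp F (cx a) →
      ∀ z, f (k z) = f z) :
    (∀ z, f z = f (dgp F (Pp F z))) ∧
      ∀ l i, a l i = 0 → ∀ c, f (dgp F (e1 l i c)) = 0 := by
  have key : ∀ l, (∀ v : V l, f (Pi.single l v) = f (Pi.single l ((F l).dg ((F l).P v)))) ∧
      ∀ i, a l i = 0 → ∀ c : ℂ, f (Pi.single l ((F l).dg (Pi.single i c))) = 0 := by
    intro l
    have h := (F l).grad (a l) (ha l) (f.comp (ContinuousLinearMap.single ℝ V l)) ?_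
    · exact h
    · intro k₀ hk₀ h4 hfix v
      show f (Pi.single l (k₀ v)) = f (Pi.single l v)
      rw [← upG_single l k₀ v]
      refine hf (pm (upG l k₀)) ⟨upG l k₀, ?_, rfl⟩ ?_ ?_ _
      · intro l'
        by_cases h : l' = l
        · subst h
          rw [upG_self]
          exact hk₀
        · have e : upG l k₀ l' = ContinuousLinearMap.id ℂ (V l') :=
            Function.update_of_ne h _ _
          rw [e]
          exact (F l').one
      · intro z
        funext l'
        simp only [pm_apply]
        by_cases h : l' = l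
        · subst h
          rw [upG_self]
          exact h4 _
        · simp only [upG_ne h]
      · funext l'
        rw [pm_apply]
        by_cases h : l' = l
        · subst h
          rw [upG_self]
          exact hfix
        · rw [upG_ne h]
  have hsum : ∀ z : (l : L) → V l, f z = ∑ l, f (Pi.single l (z l)) := by
    intro z
    conv_lhs => rw [← Finset.univ_sum_single z]
    rw [map_sum]
  refine ⟨fun z => ?_, fun l i hi c => ?_⟩
  · rw [hsum z, hsum (dgp F (Pp F z))]
    refine Finset.sum_congr rfl fun l _ => ?_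
    rw [dgp_apply, Pp_apply]
    exact (key l).1 (z l)
  · have e : dgp F (e1 l i c) = Pi.single l ((F l).dg (Pi.single i c)) := by
      funext l'
      rw [dgp_apply]
      by_cases h : l' = l
      · subst h
        rw [Pi.single_eq_same]
        unfold e1
        rw [Pi.single_eq_same]
      · rw [Pi.single_eq_of_ne h]
        unfold e1
        rw [Pi.single_eq_of_ne h, map_zero]
    rw [e]
    exact (key l).2 i hi c

end H5.PC
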