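import Pool.Agent.H5.PC.Defs

/-! # PC.PiI : product of frames, the isolating functional

`φ z = ∑ l, φ_l (z l)` with the functionals of the factors (`(F l).iso`). If `s_l (z l) = a l` for all `l`: `‖φ z‖ ≤ ∑ ‖φ_l (z l)‖ ≤ ∑ ∑ a²`. If `φ z = ∑ ∑ a²`, take real parts: `Re φ_l (z l) ≤ ‖φ_l (z l)‖ ≤ ∑ i, a l i ^ 2`, the sums are equal, so every
`Re φ_l (z l) = ∑ i, a l i ^ 2` (`Finset.sum_eq_sum_iff_of_le`), and as `‖φ_l (z l)‖ ≤` this, `φ_l (z l)` is real and equal to it; so `z l = (F l).dg (cx1 (a l))`. -/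

namespace H5.PC

open H5.PK Topology

variable {L : Type} [Fintype L] [DecidableEq L] {V : L → Type} [∀ l, NormedAddCommGroup (V l)]
  [∀ l, NormedSpace ℂ (V l)] {r : L → ℕ} (F : (l : L) → Fr (V l) (r l))

private theorem eq_of_re {w : ℂ} {c : ℝ} (h1 : w.re = c) (h2 : ‖w‖ ≤ c) : w = (c : ℂ) := by
  have h3 : ‖w‖ ^ 2 ≤ c ^ 2 := pow_le_pow_left₀ (norm_nonneg _) h2 2
  rw [Complex.sq_norm, Complex.normSq_apply, h1] at h3
  have h4 : w.im = 0 := by
    have : w.im * w.im ≤ 0 := by nlinarith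
    exact mul_self_eq_zero.1 (le_antisymm this (mul_self_nonneg _))
  apply Complex.ext
  · rw [h1, Complex.ofReal_re]
  · rw [h4, Complex.ofReal_im]

theorem pi_iso (a : X r) (ha : Srt a) :
    ∃ φ : ((l : L) → V l) →L[ℂ] ℂ, φ (dgp F (cx a)) = ((∑ l, ∑ i, a l i ^ 2 : ℝ) : ℂ) ∧
      ∀ z, (fun l => (F l).s (z l)) = a → ‖φ z‖ ≤ ∑ l, ∑ i, a l i ^ 2 ∧
        (φ z = ((∑ l, ∑ i, a l i ^ 2 : ℝ) : ℂ) → z = dgp F (cx a)) := by
  choose ψ hψ hz using fun l => (F l).iso (a l) (ha.2 l) (ha.1 l)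
  have hφ : ∀ z : (l : L) → V l, (∑ l, (ψ l).comp (ContinuousLinearMap.proj l)) z =
      ∑ l, ψ l (z l) := by
    intro z
    rw [ContinuousLinearMap.sum_apply]
    rfl
  refine ⟨∑ l, (ψ l).comp (ContinuousLinearMap.proj l), ?_, ?_⟩
  · rw [hφ, Complex.ofReal_sum]
    exact Finset.sum_congr rfl fun l _ => hψ l
  · intro z hs
    have hb : ∀ l, ‖ψ l (z l)‖ ≤ ∑ i, a l i ^ 2 := fun l => (hz l (z l) (congrFun hs l)).1
    rw [hφ]
    refine ⟨(norm_sum_le _ _).trans (Finset.sum_le_sum fun l _ => hb l), fun he => ?_⟩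
    have hre : ∑ l, (ψ l (z l)).re = ∑ l, ∑ i, a l i ^ 2 := by
      have := congrArg Complex.re he
      rw [Complex.re_sum, Complex.ofReal_re] at this
      exact this
    have hle : ∀ l ∈ (Finset.univ : Finset L), (ψ l (z l)).re ≤ ∑ i, a l i ^ 2 := fun l _ =>
      (Complex.re_le_norm _).trans (hb l)
    have heq := (Finset.sum_eq_sum_iff_of_le hle).1 hre
    funext l
    exact (hz l (z l) (congrFun hs l)).2 (eq_of_re (heq l (Finset.mem_univ l)) (hb l))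

end H5.PC
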