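import Pool.Agent.H5.PC.Defs

/-! # PC.PiR : product of frames, root curves

Let `q = dgp F (cx a)` and `ι v = Function.update q l v` (affine in `v`: `ι v = q + Pi.single l (v - q l)`). From curves `c₁, c₂` in `V l` with base point `q l = (F l).dg (cx1 (a l))` we get `t ↦ ι (c₁ t)`, with derivative
`Pi.single l (c₁' t)` and second derivative `Pi.single l y₁` at `0`; `hasDerivAt_pi` or composition with the continuous linear map `Pi.single l` (`ContinuousLinearMap.single`). Orbit: `c t = k₀ (q l)`, `k₀ ∈ (F l).K`: `ι (c t) = pm (update id l k₀) q` (`(F l').one`).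
`x = Pi.single l x₀`; `Pp F (Pi.single l v) = Pi.single l ((F l).P v)`. (`cx a l = cx1 (a l)` by `rfl`.) -/

namespace H5.PC

open H5.PK Topology

variable {L : Type} [Fintype L] [DecidableEq L] {V : L → Type} [∀ l, NormedAddCommGroup (V l)]
  [∀ l, NormedSpace ℂ (V l)] {r : L → ℕ} (F : (l : L) → Fr (V l) (r l))

private theorem piR_cu {q : (l : L) → V l} (l : L) {c c' : ℝ → V l} {y : V l}
    (h : Cu (F l).K (q l) c c' y) :
    Cu (Kp F) q (fun t => Function.update q l (c t)) (fun t => Pi.single l (c' t))
      (Pi.single l y) := by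
  obtain ⟨h1, h2, h3, h4⟩ := h
  refine ⟨fun t => ?_, ?_, ?_, fun t => ?_⟩
  · rw [hasDerivAt_pi]
    intro l'
    by_cases hl : l' = l
    · subst hl
      simp only [Function.update_self, Pi.single_eq_same]
      exact h1 t
    · simp only [Function.update_of_ne hl, Pi.single_eq_of_ne hl]
      exact hasDerivAt_const t _
  · rw [hasDerivAt_pi]
    intro l'
    by_cases hl : l' = l
    · subst hl
      simp only [Pi.single_eq_same]
      exact h2
    · simp only [Pi.single_eq_of_ne hl]
      exact hasDerivAt_const 0 _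
  · show Function.update q l (c 0) = q
    rw [h3, Function.update_eq_self]
  · obtain ⟨k, hk, hkc⟩ := h4 t
    refine ⟨pm (Function.update (fun l' => ContinuousLinearMap.id ℂ (V l')) l k),
      ⟨_, fun l' => ?_, rfl⟩, ?_⟩
    · by_cases hl : l' = l
      · subst hl
        rw [Function.update_self]
        exact hk
      · rw [Function.update_of_ne hl]
        exact (F l').one
    · funext l'
      rw [pm_apply]
      by_cases hl : l' = l
      · subst hl
        rw [Function.update_self, Function.update_self]
        exact hkc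
      · rw [Function.update_of_ne hl, Function.update_of_ne hl]
        rfl

private theorem piR_P (l : L) (v : V l) :
    Pp F (Pi.single l v) = Pi.single l ((F l).P v) := by
  funext l'
  rw [Pp_apply]
  by_cases hl : l' = l
  · subst hl
    rw [Pi.single_eq_same, Pi.single_eq_same]
  · rw [Pi.single_eq_of_ne hl, Pi.single_eq_of_ne hl, map_zero]

theorem pi_rp (a : X r) (l : L) (w : Fin (r l) → ℂ)
    (h : RP1 (F l).K (F l).P ((F l).dg (cx1 (a l))) w) :
    RP (Kp F) (Pp F) (dgp F (cx a)) (Pi.single l w) := by
  obtain ⟨x, c₁, c₁', c₂, c₂', y₁, y₂, hx, h1, h1x, h2, h2x, hw⟩ := h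
  refine ⟨Pi.single l x, _, _, _, _, Pi.single l y₁, Pi.single l y₂, ?_,
    piR_cu F (q := dgp F (cx a)) l h1, ?_, piR_cu F (q := dgp F (cx a)) l h2, ?_, ?_⟩
  · rw [piR_P, hx, Pi.single_zero]
  · show Pi.single l (c₁' 0) = Pi.single l x
    rw [h1x]
  · show Pi.single l (c₂' 0) = Complex.I • Pi.single l x
    rw [h2x, Pi.single_smul]
  · rw [← Pi.single_add, piR_P, hw]

end H5.PC
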