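import Pool.Agent.H5.PC.PiS
import Pool.Agent.H5.PC.PiG
import Pool.Agent.H5.PC.PiR
import Pool.Agent.H5.PC.PiI

/-! # PC.PiF : the product of frames (glue) -/

namespace H5.PC

open H5.PK Topology

variable {L : Type} [Fintype L] [DecidableEq L] {V : L → Type} [∀ l, NormedAddCommGroup (V l)]
  [∀ l, NormedSpace ℂ (V l)] {r : L → ℕ}

/-- the product of frames with one block -/
noncomputable def Fr.pi (F : (l : L) → Fr (V l) (r l)) : Frame ((l : L) → V l) r where
  K := Kp F
  dg := dgp F
  P := Pp F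
  s := fun z l => (F l).s (z l)
  tube := fun l => (F l).tube
  d := fun l => (F l).d
  Δ := fun l k z => (F l).Δ k (z l)
  P_dg := fun b => by
    funext l
    exact (F l).P_dg (b l)
  K_inv := pi_inv F
  s_cont := by
    apply continuous_pi
    intro l
    exact (F l).s_cont.comp (continuous_apply l)
  s_srt := fun z => ⟨fun l i => (F l).s_nn (z l) i, fun l => (F l).s_anti (z l)⟩
  s_K := by
    rintro k ⟨k', hk', rfl⟩ z
    funext l
    exact (F l).s_K (k' l) (hk' l) (z l)
  s_dg := by
    intro b hb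
    funext l
    exact (F l).s_dg (b l) (hb.2 l) (hb.1 l)
  polar := pi_polar F
  torus := pi_torus F
  swap := pi_swap F
  grad := pi_grad F
  root := by
    intro a ha l i j hij
    obtain ⟨κ, hκ, h⟩ := (F l).root (a l) (ha l) i j hij
    refine ⟨κ, hκ, ?_⟩
    have h2 := pi_rp F a l _ h
    rw [Pi.single_add] at h2
    exact h2
  root' := by
    intro a ha l i hl hi
    obtain ⟨κ, hκ, h⟩ := (F l).root' (a l) (ha l) i hl hi
    exact ⟨κ, hκ, pi_rp F a l _ h⟩
  d_pos := fun l => (F l).d_pos
  Δ_diff := fun l k => ((F l).Δ_diff k).comp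
    (ContinuousLinearMap.proj (R := ℂ) (φ := V) l).differentiable
  Δ_dg := fun l k b => (F l).Δ_dg k (b l)
  Δ_le := fun l k z => (F l).Δ_le k (z l)
  Δ_eq := fun l h k hk z => (F l).Δ_eq h k hk (z l)
  iso := pi_iso F

end H5.PC
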