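import Pool.Agent.H5.PC.Defs

/-! # PC.TrB : transport of a frame with one block, second part

As in `TrA`. `tr_rp`: the curves are composed with `e.symm` (`e.symm` as a continuous real linear map: `HasDerivAt` of the composition is `(e.symm : V' →L[ℂ] V).hasFDerivAt` restricted to the reals composed with the derivative, e.g.
`((e.symm : V' →L[ℂ] V).restrictScalars ℝ).hasFDerivAt.comp_hasDerivAt t h`). `tr_iso`: compose the functional with `e`; the sums over `Unit` are `Fintype.sum_unique` / `Finset.univ_unique, Finset.sum_singleton`. -/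

namespace H5.PC

open H5.PK Topology

variable {V V' : Type} [NormedAddCommGroup V] [NormedSpace ℂ V] [NormedAddCommGroup V']
  [NormedSpace ℂ V'] {r : ℕ} (F : Frame V' (fun _ : Unit => r)) (e : V ≃L[ℂ] V')

/-- a curve composed with `e.symm` -/
private theorem TrB_cu (p : V) (c c' : ℝ → V') (y : V') (h : Cu F.K (e p) c c' y) :
    Cu (trK F e) p (fun t => e.symm (c t)) (fun t => e.symm (c' t)) (e.symm y) := by
  have hd : ∀ (f : ℝ → V') (f' : V') (t : ℝ), HasDerivAt f f' t →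
      HasDerivAt (fun t => e.symm (f t)) (e.symm f') t := by
    intro f f' t hf
    exact ((e.symm : V' →L[ℂ] V).restrictScalars ℝ).hasFDerivAt.comp_hasDerivAt t hf
  refine ⟨fun t => hd _ _ _ (h.d1 t), hd _ _ _ h.d2, ?_, fun t => ?_⟩
  · show e.symm (c 0) = p
    rw [h.zero, e.symm_apply_apply]
  · obtain ⟨k, hk, h1⟩ := h.orb t
    refine ⟨(e.symm : V' →L[ℂ] V).comp (k.comp (e : V →L[ℂ] V')), ⟨k, hk, fun z => rfl⟩, ?_⟩
    show e.symm (c t) = e.symm (k (e p))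
    rw [h1]

theorem tr_rp (p : V) (w : Fin r → ℂ) (h : RP F.K F.P (e p) (fun _ : Unit => w)) :
    RP1 (trK F e) (trP F e) p w := by
  obtain ⟨x, c₁, c₁', c₂, c₂', y₁, y₂, hx, h1, h2, h3, h4, h5⟩ := h
  refine ⟨e.symm x, _, _, _, _, e.symm y₁, e.symm y₂, ?_, TrB_cu F e p c₁ c₁' y₁ h1, ?_,
    TrB_cu F e p c₂ c₂' y₂ h3, ?_, ?_⟩
  · rw [trP_apply, e.apply_symm_apply, hx]
    rfl
  · show e.symm (c₁' 0) = e.symm x
    rw [h2]
  · show e.symm (c₂' 0) = Complex.I • e.symm x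
    rw [h4, map_smul]
  · rw [trP_apply, map_add, e.apply_symm_apply, e.apply_symm_apply, h5]

theorem tr_iso (a : Fin r → ℝ) (ha : Antitone a) (h0 : ∀ i, 0 ≤ a i) :
    ∃ φ : V →L[ℂ] ℂ, φ (trD F e (cx1 a)) = ((∑ i, a i ^ 2 : ℝ) : ℂ) ∧
      ∀ z, F.s (e z) () = a → ‖φ z‖ ≤ ∑ i, a i ^ 2 ∧
        (φ z = ((∑ i, a i ^ 2 : ℝ) : ℂ) → z = trD F e (cx1 a)) := by
  obtain ⟨φ, h1, h2⟩ := F.iso (fun _ => a) ⟨fun _ i => h0 i, fun _ => ha⟩
  have hs : (∑ _l : Unit, ∑ i, a i ^ 2 : ℝ) = ∑ i, a i ^ 2 := by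
    rw [Finset.univ_unique, Finset.sum_singleton]
  rw [hs] at h1
  simp only [hs] at h2
  refine ⟨φ.comp (e : V →L[ℂ] V'), ?_, fun z hz => ?_⟩
  · have h3 : e (trD F e (cx1 a)) = F.dg (cx (fun _ => a)) := by
      rw [trD_apply, e.apply_symm_apply]
      rfl
    show φ (e (trD F e (cx1 a))) = _
    rw [h3, h1]
  · have hz' : F.s (e z) = fun _ => a := by
      funext l
      cases l
      exact hz
    obtain ⟨h3, h4⟩ := h2 (e z) hz'
    refine ⟨h3, fun h5 => ?_⟩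
    have h6 := h4 h5
    have h7 : e.symm (e z) = e.symm (F.dg (cx (fun _ => a))) := by rw [h6]
    rw [e.symm_apply_apply] at h7
    rw [h7]
    rfl

end H5.PC
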