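import Pool.Agent.H5.PC.TrA
import Pool.Agent.H5.PC.TrB
import Pool.Agent.H5.PC.PiF

/-! # PC.TrF : transport of frames (glue) -/

namespace H5.PC

open H5.PK Topology

variable {V V' : Type} [NormedAddCommGroup V] [NormedSpace ℂ V] [NormedAddCommGroup V']
  [NormedSpace ℂ V'] {r : ℕ}

/-- a frame with one block from a frame with index type `Unit` -/
noncomputable def ofUnit (F : Frame V' (fun _ : Unit => r)) (e : V ≃L[ℂ] V')
    (h1 : ContinuousLinearMap.id ℂ V' ∈ F.K) : Fr V r where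
  K := trK F e
  dg := trD F e
  P := trP F e
  s := fun z => F.s (e z) ()
  tube := F.tube ()
  d := F.d ()
  Δ := fun k z => F.Δ () k (e z)
  one := ⟨_, h1, fun z => (e.symm_apply_apply z).symm⟩
  P_dg := fun b => by
    rw [trP_apply, trD_apply, e.apply_symm_apply, F.P_dg]
  K_inv := tr_inv F e
  s_cont := (continuous_apply ()).comp (F.s_cont.comp e.continuous)
  s_anti := fun z => (F.s_srt (e z)).2 ()
  s_nn := fun z i => (F.s_srt (e z)).1 () i
  s_K := by
    rintro k ⟨k', hk', h⟩ z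
    show F.s (e (k z)) () = F.s (e z) ()
    rw [h, e.apply_symm_apply, F.s_K k' hk']
  s_dg := tr_dg F e
  polar := tr_polar F e
  torus := tr_torus F e
  swap := tr_swap F e
  grad := tr_grad F e
  root := by
    intro a ha i j hij
    obtain ⟨κ, hκ, h⟩ := F.root (fun _ => a) (fun _ => ha) () i j hij
    have hw : (fun _ : Unit => (Pi.single i ((-(κ * a i) : ℝ) : ℂ) +
        Pi.single j ((κ * a j : ℝ) : ℂ) : Fin r → ℂ)) =
        (e1 () i ((-(κ * a i) : ℝ) : ℂ) + e1 () j ((κ * a j : ℝ) : ℂ) : XC (fun _ : Unit => r)) := by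
      funext u
      show _ = (Pi.single () (Pi.single i ((-(κ * a i) : ℝ) : ℂ)) : XC (fun _ : Unit => r)) u +
        (Pi.single () (Pi.single j ((κ * a j : ℝ) : ℂ)) : XC (fun _ : Unit => r)) u
      cases u
      rw [Pi.single_eq_same, Pi.single_eq_same]
    refine ⟨κ, hκ, tr_rp F e _ _ ?_⟩
    rw [trD_apply, e.apply_symm_apply, hw]
    exact h
  root' := by
    intro a ha i hl hi
    obtain ⟨κ, hκ, h⟩ := F.root' (fun _ => a) (fun _ => ha) () i hl hi
    have hw : (fun _ : Unit => (Pi.single i ((-κ : ℝ) : ℂ) : Fin r → ℂ)) =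
        (e1 () i ((-κ : ℝ) : ℂ) : XC (fun _ : Unit => r)) := by
      funext u
      show _ = (Pi.single () (Pi.single i ((-κ : ℝ) : ℂ)) : XC (fun _ : Unit => r)) u
      cases u
      rw [Pi.single_eq_same]
    refine ⟨κ, hκ, tr_rp F e _ _ ?_⟩
    rw [trD_apply, e.apply_symm_apply, hw]
    exact h
  d_pos := F.d_pos ()
  Δ_diff := fun k => (F.Δ_diff () k).comp (e : V →L[ℂ] V').differentiable
  Δ_dg := fun k b => by
    rw [trD_apply, e.apply_symm_apply, F.Δ_dg]
  Δ_le := fun k z => F.Δ_le () k (e z)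
  Δ_eq := fun h k hk z => F.Δ_eq () h k hk (e z)
  iso := tr_iso F e

/-- transport along an isomorphism -/
noncomputable def Fr.congr (F : Fr V' r) (e : V ≃L[ℂ] V') : Fr V r :=
  ofUnit (Fr.pi (fun _ : Unit => F)) (e.trans (ContinuousLinearEquiv.funUnique Unit ℂ V').symm)
    ⟨fun _ => ContinuousLinearMap.id ℂ V', fun _ => F.one, rfl⟩

theorem congr_K (F : Fr V' r) (e : V ≃L[ℂ] V') {k : V →L[ℂ] V} (hk : k ∈ (F.congr e).K) :
    ∃ k' ∈ F.K, ∀ z, k z = e.symm (k' (e z)) := by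
  obtain ⟨T, ⟨k', hk', rfl⟩, h⟩ := hk
  exact ⟨k' (), hk' (), fun z => h z⟩

end H5.PC
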