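import Pool.Agent.H5.PC.Defs

/-! # PC.VG : type IV, gradients

First claim: `f` vanishes on `Pi.single j c` for `j ≥ 2` (then `f z = f (z 0, z 1, 0, ..) = f (dgV (PV z))`). If `n = 0` (`N = 3`, `j = 2`): `u = -1`, `O = diagonal (-1, -1, 1)`: an involution in `KV 3`, fixes all `dgV b`, maps `Pi.single 2 c` to its negative. If `n ≥ 1`: choose `j' ≥ 2`, `j' ≠ j`, `u = 1`, `O` diagonal with `-1` at `j, j'` and `1` elsewhere (determinant `1`).
Second claim: if `a i = 0`: `k = actV I O` with the rotation `O` by `± π/2` in the plane of the first two coordinates (as in `VT`: `cos φ = 0`, `sin φ = ± 1`): it multiplies one of `z 0 ∓ I z 1` by `I * I = -1`, the other by `I * (-I) = 1`, and the coordinates `j ≥ 2` by `I`; so `k (k (k (k z))) = z`, `k (dgV (cx1 a)) = dgV (cx1 a)` and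
`k (dgV (Pi.single i c)) = - dgV (Pi.single i c)`. The matrix `O` for `i = 0`: `(z 0, z 1) ↦ (z 1, - z 0)`, for `i = 1`: `(z 0, z 1) ↦ (- z 1, z 0)`; determinant one. -/

namespace H5.PC

open H5.PK Topology

private theorem vg_diag {n : ℕ} (z : Fin (n + 3) → ℂ) (j : Fin (n + 3)) :
    actV (-1) (Matrix.diagonal (fun j : Fin (n + 3) => if j = 0 ∨ j = 1 then (-1 : ℝ) else 1)) z j =
      if j = 0 ∨ j = 1 then z j else - z j := by
  rw [actV_apply, Finset.sum_eq_single j]
  · rw [Matrix.diagonal_apply_eq]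
    split_ifs with h
    · rw [Complex.ofReal_neg, Complex.ofReal_one]; ring
    · rw [Complex.ofReal_one]; ring
  · intro i _ hij
    rw [Matrix.diagonal_apply_ne _ hij, Complex.ofReal_zero, mul_zero]
  · intro h
    exact absurd (Finset.mem_univ j) h

private theorem vg_diag_mem {n : ℕ} :
    actV (-1) (Matrix.diagonal (fun j : Fin (n + 3) => if j = 0 ∨ j = 1 then (-1 : ℝ) else 1)) ∈
      KV (n + 3) := by
  refine ⟨_, _, ?_, ?_, ?_, rfl⟩
  · rw [norm_neg, norm_one]
  · rw [Matrix.mem_orthogonalGroup_iff]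
    show Matrix.diagonal _ * (Matrix.diagonal _).transpose = 1
    rw [Matrix.diagonal_transpose, Matrix.diagonal_mul_diagonal, ← Matrix.diagonal_one]
    congr 1
    funext j
    split_ifs <;> norm_num
  · rw [Matrix.det_diagonal, Fin.prod_univ_succ, Fin.prod_univ_succ]
    have h : ∀ i : Fin (n + 1), (if (i.succ.succ : Fin (n + 3)) = 0 ∨ (i.succ.succ : Fin (n + 3)) = 1
        then (-1 : ℝ) else 1) = 1 := by
      intro i
      rw [if_neg]
      rintro (h | h)
      · exact absurd h (Fin.succ_ne_zero _)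
      · have h' := congrArg Fin.val h
        simp at h'
    rw [Finset.prod_congr rfl fun i _ => h i, Finset.prod_const_one]
    have h1 : ((0 : Fin (n + 2)).succ : Fin (n + 3)) = 1 := rfl
    rw [h1]
    simp

private theorem vg_zero {n : ℕ} (a : Fin 2 → ℝ) (f : (Fin (n + 3) → ℂ) →L[ℝ] ℝ)
    (hf : ∀ k ∈ KV (n + 3), (∀ z, k (k (k (k z))) = z) → k (dgV n (cx1 a)) = dgV n (cx1 a) →
      ∀ z, f (k z) = f z) (w : Fin (n + 3) → ℂ) (h0 : w 0 = 0) (h1 : w 1 = 0) : f w = 0 := by
  have h := hf _ (vg_diag_mem (n := n)) ?_ ?_ w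
  · have h2 : actV (-1) (Matrix.diagonal
        (fun j : Fin (n + 3) => if j = 0 ∨ j = 1 then (-1 : ℝ) else 1)) w = -w := by
      funext j
      rw [vg_diag, Pi.neg_apply]
      split_ifs with hj
      · rcases hj with rfl | rfl
        · rw [h0, neg_zero]
        · rw [h1, neg_zero]
      · rfl
    rw [h2, map_neg] at h
    linarith
  · intro z
    funext j
    simp only [vg_diag]
    split_ifs <;> ring
  · funext j
    rw [vg_diag]
    split_ifs with hj
    · rfl
    · rw [dgV_apply, if_neg (fun h => hj (Or.inl h)), if_neg (fun h => hj (Or.inr h)), neg_zero]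

private noncomputable def vgO {n : ℕ} (d : Fin (n + 3) → ℝ) :
    Matrix (Fin (n + 3)) (Fin (n + 3)) ℝ :=
  Matrix.of fun i j => if Equiv.swap (0 : Fin (n + 3)) 1 i = j then d i else 0

private theorem vgO_apply {n : ℕ} (d : Fin (n + 3) → ℝ) (z : Fin (n + 3) → ℂ) (j : Fin (n + 3)) :
    actV Complex.I (vgO d) z j = Complex.I *
      (z (Equiv.swap (0 : Fin (n + 3)) 1 j) * (d (Equiv.swap (0 : Fin (n + 3)) 1 j) : ℂ)) := by
  rw [actV_apply, Finset.sum_eq_single (Equiv.swap (0 : Fin (n + 3)) 1 j)]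
  · unfold vgO
    rw [Matrix.of_apply, Equiv.swap_apply_self, if_pos rfl]
  · intro i _ hij
    unfold vgO
    rw [Matrix.of_apply, if_neg, Complex.ofReal_zero, mul_zero]
    intro h
    apply hij
    rw [← h, Equiv.swap_apply_self]
  · intro h
    exact absurd (Finset.mem_univ _) h

private theorem vgO_mem {n : ℕ} (d : Fin (n + 3) → ℝ) (hd : ∀ i, d i * d i = 1)
    (hp : ∏ i, d i = -1) : actV Complex.I (vgO d) ∈ KV (n + 3) := by
  refine ⟨_, _, Complex.norm_I, ?_, ?_, rfl⟩
  · rw [Matrix.mem_orthogonalGroup_iff]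
    show vgO d * (vgO d).transpose = 1
    ext i k
    rw [Matrix.mul_apply]
    have h : ∀ j, vgO d i j * (vgO d).transpose j k =
        if Equiv.swap (0 : Fin (n + 3)) 1 i = j then
          (if Equiv.swap (0 : Fin (n + 3)) 1 k = j then d i * d k else 0) else 0 := by
      intro j
      unfold vgO
      rw [Matrix.transpose_apply, Matrix.of_apply, Matrix.of_apply]
      split_ifs <;> simp
    rw [Finset.sum_congr rfl fun j _ => h j, Finset.sum_ite_eq, if_pos (Finset.mem_univ _)]
    by_cases hik : i = k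
    · subst hik
      rw [if_pos rfl, Matrix.one_apply_eq, hd]
    · rw [if_neg, Matrix.one_apply_ne hik]
      intro h
      exact hik ((Equiv.swap (0 : Fin (n + 3)) 1).injective h.symm)
  · have h : vgO d = Matrix.diagonal d *
        ((Equiv.swap (0 : Fin (n + 3)) 1).toPEquiv.toMatrix : Matrix _ _ ℝ) := by
      ext i j
      rw [Matrix.diagonal_mul]
      unfold vgO
      rw [Matrix.of_apply, PEquiv.toMatrix_apply]
      by_cases h : Equiv.swap (0 : Fin (n + 3)) 1 i = j
      · rw [if_pos h, if_pos, mul_one]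
        simp [Equiv.toPEquiv_apply, h]
      · rw [if_neg h, if_neg, mul_zero]
        simpa [Equiv.toPEquiv_apply] using h
    rw [h, Matrix.det_mul, Matrix.det_diagonal, hp, Matrix.det_permutation,
      Equiv.Perm.sign_swap (by simp)]
    simp

private theorem vgO_case {n : ℕ} (s : ℝ) (hs : s = 1 ∨ s = -1) (a : Fin 2 → ℝ)
    (f : (Fin (n + 3) → ℂ) →L[ℝ] ℝ)
    (hf : ∀ k ∈ KV (n + 3), (∀ z, k (k (k (k z))) = z) → k (dgV n (cx1 a)) = dgV n (cx1 a) →
      ∀ z, f (k z) = f z) (b : Fin 2 → ℂ)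
    (ha : (s = 1 → a 0 = 0) ∧ (s = -1 → a 1 = 0)) (hb : (s = 1 → b 1 = 0) ∧ (s = -1 → b 0 = 0)) :
    f (dgV n b) = 0 := by
  set d : Fin (n + 3) → ℝ := fun j => if j = 0 then -s else if j = 1 then s else 1 with hd
  have hss : s * s = 1 := by rcases hs with rfl | rfl <;> norm_num
  have hdd : ∀ i, d i * d i = 1 := by
    intro i
    simp only [hd]
    split_ifs
    · linarith [hss]
    · exact hss
    · norm_num
  have hp : ∏ i, d i = -1 := by
    rw [Fin.prod_univ_succ, Fin.prod_univ_succ]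
    have h : ∀ i : Fin (n + 1), d (i.succ.succ : Fin (n + 3)) = 1 := by
      intro i
      simp only [hd]
      rw [if_neg (Fin.succ_ne_zero _), if_neg]
      intro h
      have h' := congrArg Fin.val h
      simp at h'
    rw [Finset.prod_congr rfl fun i _ => h i, Finset.prod_const_one]
    have h1 : ((0 : Fin (n + 2)).succ : Fin (n + 3)) = 1 := rfl
    rw [h1]
    have h2 : d 0 = -s := by simp [hd]
    have h3 : d 1 = s := by simp [hd]
    rw [h2, h3]
    linarith [hss]
  have e0 : Equiv.swap (0 : Fin (n + 3)) 1 0 = 1 := Equiv.swap_apply_left _ _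
  have e1 : Equiv.swap (0 : Fin (n + 3)) 1 1 = 0 := Equiv.swap_apply_right _ _
  have ej : ∀ j : Fin (n + 3), j ≠ 0 → j ≠ 1 → Equiv.swap (0 : Fin (n + 3)) 1 j = j :=
    fun j h0 h1 => Equiv.swap_apply_of_ne_of_ne h0 h1
  have d0 : d 0 = -s := by simp [hd]
  have d1 : d 1 = s := by simp [hd]
  have dj : ∀ j : Fin (n + 3), j ≠ 0 → j ≠ 1 → d j = 1 := by
    intro j h0 h1
    simp only [hd]
    rw [if_neg h0, if_neg h1]
  have k0 : ∀ z : Fin (n + 3) → ℂ, actV Complex.I (vgO d) z 0 = Complex.I * (z 1 * (s : ℂ)) := by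
    intro z; rw [vgO_apply, e0, d1]
  have k1 : ∀ z : Fin (n + 3) → ℂ,
      actV Complex.I (vgO d) z 1 = Complex.I * (z 0 * (-(s : ℂ))) := by
    intro z; rw [vgO_apply, e1, d0, Complex.ofReal_neg]
  have kj : ∀ (z : Fin (n + 3) → ℂ) (j : Fin (n + 3)), j ≠ 0 → j ≠ 1 →
      actV Complex.I (vgO d) z j = Complex.I * z j := by
    intro z j h0 h1; rw [vgO_apply, ej j h0 h1, dj j h0 h1, Complex.ofReal_one, mul_one]
  have hsc : (s : ℂ) * (s : ℂ) = 1 := by rw [← Complex.ofReal_mul, hss, Complex.ofReal_one]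
  have hI : Complex.I * Complex.I = -1 := Complex.I_mul_I
  have g0 : ∀ b : Fin 2 → ℂ, dgV n b 0 = (b 0 + b 1) / 2 := by
    intro b; rw [dgV_apply, if_pos rfl]
  have g1 : ∀ b : Fin 2 → ℂ, dgV n b 1 = Complex.I * (b 0 - b 1) / 2 := by
    intro b; rw [dgV_apply, if_neg (by simp), if_pos rfl]
  have gj : ∀ (b : Fin 2 → ℂ) (j : Fin (n + 3)), j ≠ 0 → j ≠ 1 → dgV n b j = 0 := by
    intro b j h0 h1; rw [dgV_apply, if_neg h0, if_neg h1]
  have key : ∀ b : Fin 2 → ℂ, actV Complex.I (vgO d) (dgV n b) =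
      dgV n ![-(s : ℂ) * ((b 0 - b 1) / 2) + -(s : ℂ) * ((b 0 + b 1) / 2),
        -(s : ℂ) * ((b 0 - b 1) / 2) + (s : ℂ) * ((b 0 + b 1) / 2)] := by
    intro b
    funext j
    by_cases h0 : j = 0
    · subst h0
      rw [k0, g0, g1]
      simp only [Matrix.cons_val_zero, Matrix.cons_val_one]
      linear_combination ((b 0 - b 1) / 2 * (s : ℂ)) * hI
    · by_cases h1 : j = 1
      · subst h1
        rw [k1, g0, g1]
        simp only [Matrix.cons_val_zero, Matrix.cons_val_one]
        ring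
      · rw [kj _ _ h0 h1, gj _ _ h0 h1, gj _ _ h0 h1, mul_zero]
  have h := hf _ (vgO_mem d hdd hp) ?_ ?_ (dgV n b)
  · rw [key] at h
    have h2 : dgV n ![-(s : ℂ) * ((b 0 - b 1) / 2) + -(s : ℂ) * ((b 0 + b 1) / 2),
        -(s : ℂ) * ((b 0 - b 1) / 2) + (s : ℂ) * ((b 0 + b 1) / 2)] = - dgV n b := by
      rw [← map_neg]
      congr 1
      funext i
      rcases hs with h3 | h3
      · have h4 := hb.1 h3
        rw [h3]
        fin_cases i
        · simp [h4] <;> ring
        · simp [h4] <;> ring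
      · have h4 := hb.2 h3
        rw [h3]
        fin_cases i
        · simp [h4] <;> ring
        · simp [h4] <;> ring
    rw [h2, map_neg] at h
    linarith
  · intro z
    funext j
    by_cases h0 : j = 0
    · subst h0
      rw [k0, k1, k0, k1]
      linear_combination (z 0 * Complex.I * Complex.I * Complex.I * Complex.I *
        ((s : ℂ) * (s : ℂ) + 1)) * hsc + z 0 * (Complex.I * Complex.I - 1) * hI
    · by_cases h1 : j = 1
      · subst h1
        rw [k1, k0, k1, k0]
        linear_combination (z 1 * Complex.I * Complex.I * Complex.I * Complex.I *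
          ((s : ℂ) * (s : ℂ) + 1)) * hsc + z 1 * (Complex.I * Complex.I - 1) * hI
      · rw [kj _ _ h0 h1, kj _ _ h0 h1, kj _ _ h0 h1, kj _ _ h0 h1]
        linear_combination z j * (Complex.I * Complex.I - 1) * hI
  · rw [key]
    congr 1
    funext i
    rcases hs with h3 | h3
    · have h4 := ha.1 h3
      rw [h3]
      fin_cases i
      · simp [cx1, h4] <;> ring
      · simp [cx1, h4] <;> ring
    · have h4 := ha.2 h3
      rw [h3]
      fin_cases i
      · simp [cx1, h4] <;> ring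
      · simp [cx1, h4] <;> ring

theorem V_grad (n : ℕ) (a : Fin 2 → ℝ) (ha : ∀ i, 0 ≤ a i) (f : (Fin (n + 3) → ℂ) →L[ℝ] ℝ)
    (hf : ∀ k ∈ KV (n + 3), (∀ z, k (k (k (k z))) = z) → k (dgV n (cx1 a)) = dgV n (cx1 a) →
      ∀ z, f (k z) = f z) :
    (∀ z, f z = f (dgV n (PV n z))) ∧ ∀ i, a i = 0 → ∀ c : ℂ, f (dgV n (Pi.single i c)) = 0 := by
  refine ⟨fun z => ?_, fun i hi c => ?_⟩
  · have h := vg_zero a f hf (z - dgV n (PV n z)) ?_ ?_
    · rw [map_sub] at h
      linarith
    · rw [Pi.sub_apply, dgV_apply, if_pos rfl, PV_apply]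
      simp only [Matrix.cons_val_zero, Matrix.cons_val_one]
      ring
    · rw [Pi.sub_apply, dgV_apply, if_neg (by simp), if_pos rfl, PV_apply]
      simp only [Matrix.cons_val_zero, Matrix.cons_val_one]
      linear_combination (z 1) * Complex.I_mul_I
  · fin_cases i
    · refine vgO_case 1 (Or.inl rfl) a f hf _ ⟨fun _ => hi, fun h => ?_⟩ ⟨fun _ => ?_, fun h => ?_⟩
      · norm_num at h
      · simp
      · norm_num at h
    · refine vgO_case (-1) (Or.inr rfl) a f hf _ ⟨fun h => ?_, fun _ => hi⟩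
        ⟨fun h => ?_, fun _ => ?_⟩
      · norm_num at h
      · norm_num at h
      · simp

end H5.PC
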