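import Pool.Agent.H5.PC.VS

/-! # PC.VI : type IV, the isolating functional

`φ z = a 0 (z 0 - I z 1) + a 1 (z 0 + I z 1) = 2 ∑ j, z j * star (p j)` with `p = dgV (cx1 a)`. `φ p = 2 nq p = a 0 ² + a 1 ²` (`V_nq_dg`). If `sV z = a`: `2 nq z = a 0 ² + a 1 ²` (`V_sq`), so `nq z = nq p`, and `nq (z - p) = nq z + nq p - Re (φ z)`, which gives the equality case; for the bound replace `z` by `c z`, `|c| = 1`, with `c φ z = ‖φ z‖` (see `H5.PK.IIs`), or Cauchy-Schwarz. -/

namespace H5.PC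

open H5.PK Topology

private noncomputable def phiV (n : ℕ) (a : Fin 2 → ℝ) : (Fin (n + 3) → ℂ) →L[ℂ] ℂ :=
  LinearMap.toContinuousLinearMap
    { toFun := fun z => (a 0 : ℂ) * (z 0 - Complex.I * z 1) + (a 1 : ℂ) * (z 0 + Complex.I * z 1)
      map_add' := fun x y => by
        simp only [Pi.add_apply]
        ring
      map_smul' := fun c x => by
        simp only [Pi.smul_apply, smul_eq_mul, RingHom.id_apply]
        ring }

private theorem phiV_apply (n : ℕ) (a : Fin 2 → ℝ) (z : Fin (n + 3) → ℂ) : phiV n a z =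
    (a 0 : ℂ) * (z 0 - Complex.I * z 1) + (a 1 : ℂ) * (z 0 + Complex.I * z 1) := rfl

private theorem one_ne (n : ℕ) : (1 : Fin (n + 3)) ≠ 0 := by
  intro h
  have h1 := congrArg Fin.val h
  rw [Fin.val_one, Fin.val_zero] at h1
  exact one_ne_zero h1

private theorem phiV_re (n : ℕ) (a : Fin 2 → ℝ) (z : Fin (n + 3) → ℂ) :
    (phiV n a z).re = (a 0 + a 1) * (z 0).re + (a 0 - a 1) * (z 1).im := by
  rw [phiV_apply]
  rw [Complex.add_re, Complex.re_ofReal_mul, Complex.re_ofReal_mul, Complex.sub_re, Complex.add_re,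
    Complex.mul_re, Complex.I_re, Complex.I_im]
  ring

private theorem phiV_dg (n : ℕ) (a : Fin 2 → ℝ) :
    phiV n a (dgV n (cx1 a)) = ((∑ i, a i ^ 2 : ℝ) : ℂ) := by
  rw [phiV_apply, dgV_apply, dgV_apply, if_pos rfl, if_neg (one_ne n), if_pos rfl, Fin.sum_univ_two]
  unfold cx1
  push_cast
  have hI : Complex.I * Complex.I = -1 := Complex.I_mul_I
  linear_combination (-(a 0 : ℂ) * ((a 0 : ℂ) - (a 1 : ℂ)) / 2 +
    (a 1 : ℂ) * ((a 0 : ℂ) - (a 1 : ℂ)) / 2) * hI

private theorem nq_sub (n : ℕ) (a : Fin 2 → ℝ) (z : Fin (n + 3) → ℂ) :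
    nq (z - dgV n (cx1 a)) = nq z + (a 0 ^ 2 + a 1 ^ 2) / 2 - (phiV n a z).re := by
  have h1 : ∀ j, ‖(z - dgV n (cx1 a)) j‖ ^ 2 = ‖z j‖ ^ 2 +
      (if j = 0 then ((a 0 + a 1) / 2) ^ 2 - (a 0 + a 1) * (z 0).re else
        if j = 1 then ((a 0 - a 1) / 2) ^ 2 - (a 0 - a 1) * (z 1).im else 0) := by
    intro j
    rw [Pi.sub_apply, dgV_apply]
    by_cases hj : j = 0
    · rw [if_pos hj, if_pos hj, hj, ← Complex.normSq_eq_norm_sq, ← Complex.normSq_eq_norm_sq,
        Complex.normSq_apply, Complex.normSq_apply]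
      unfold cx1
      have e : ((a 0 : ℂ) + (a 1 : ℂ)) / 2 = (((a 0 + a 1) / 2 : ℝ) : ℂ) := by push_cast; ring
      rw [e]
      simp only [Complex.sub_re, Complex.sub_im, Complex.ofReal_re, Complex.ofReal_im]
      ring
    · rw [if_neg hj, if_neg hj]
      by_cases hj1 : j = 1
      · rw [if_pos hj1, if_pos hj1, hj1, ← Complex.normSq_eq_norm_sq, ← Complex.normSq_eq_norm_sq,
          Complex.normSq_apply, Complex.normSq_apply]
        unfold cx1
        have e : Complex.I * ((a 0 : ℂ) - (a 1 : ℂ)) / 2 = Complex.I * (((a 0 - a 1) / 2 : ℝ) : ℂ) := by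
          push_cast; ring
        rw [e]
        simp only [Complex.sub_re, Complex.sub_im, Complex.mul_re, Complex.mul_im, Complex.I_re,
          Complex.I_im, Complex.ofReal_re, Complex.ofReal_im, zero_mul, one_mul, mul_zero, zero_add,
          sub_zero]
        ring
      · rw [if_neg hj1, if_neg hj1, sub_zero, add_zero]
  unfold nq
  rw [Finset.sum_congr rfl fun j _ => h1 j, Finset.sum_add_distrib, phiV_re]
  have h2 : ∑ j : Fin (n + 3), (if j = 0 then ((a 0 + a 1) / 2) ^ 2 - (a 0 + a 1) * (z 0).re else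
        if j = 1 then ((a 0 - a 1) / 2) ^ 2 - (a 0 - a 1) * (z 1).im else 0) =
      (((a 0 + a 1) / 2) ^ 2 - (a 0 + a 1) * (z 0).re) +
        (((a 0 - a 1) / 2) ^ 2 - (a 0 - a 1) * (z 1).im) := by
    have h3 : ∀ j : Fin (n + 3), (if j = 0 then ((a 0 + a 1) / 2) ^ 2 - (a 0 + a 1) * (z 0).re else
        if j = 1 then ((a 0 - a 1) / 2) ^ 2 - (a 0 - a 1) * (z 1).im else 0) =
        (if j = 0 then ((a 0 + a 1) / 2) ^ 2 - (a 0 + a 1) * (z 0).re else 0) +
        (if j = 1 then ((a 0 - a 1) / 2) ^ 2 - (a 0 - a 1) * (z 1).im else 0) := by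
      intro j
      by_cases hj : j = 0
      · rw [if_pos hj, if_pos hj, if_neg (by rw [hj]; exact (one_ne n).symm), add_zero]
      · rw [if_neg hj, if_neg hj, zero_add]
    rw [Finset.sum_congr rfl fun j _ => h3 j, Finset.sum_add_distrib,
      Finset.sum_ite_eq' Finset.univ (0 : Fin (n + 3)), if_pos (Finset.mem_univ _),
      Finset.sum_ite_eq' Finset.univ (1 : Fin (n + 3)), if_pos (Finset.mem_univ _)]
  rw [h2]
  ring

private theorem nq_nonneg' {N : ℕ} (z : Fin N → ℂ) : 0 ≤ nq z :=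
  Finset.sum_nonneg fun _ _ => sq_nonneg _

theorem V_iso (n : ℕ) (a : Fin 2 → ℝ) (ha : Antitone a) (h0 : ∀ i, 0 ≤ a i) :
    ∃ φ : (Fin (n + 3) → ℂ) →L[ℂ] ℂ, φ (dgV n (cx1 a)) = ((∑ i, a i ^ 2 : ℝ) : ℂ) ∧
      ∀ z, sV z = a → ‖φ z‖ ≤ ∑ i, a i ^ 2 ∧
        (φ z = ((∑ i, a i ^ 2 : ℝ) : ℂ) → z = dgV n (cx1 a)) := by
  refine ⟨phiV n a, phiV_dg n a, fun z hz => ?_⟩
  have hnz : nq z = (a 0 ^ 2 + a 1 ^ 2) / 2 := by
    have h1 := V_sq z
    rw [hz] at h1
    linarith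
  have hs : ∑ i, a i ^ 2 = a 0 ^ 2 + a 1 ^ 2 := Fin.sum_univ_two _
  constructor
  · by_cases hp : phiV n a z = 0
    · rw [hp, norm_zero]
      exact Finset.sum_nonneg fun i _ => sq_nonneg _
    · have h3 : ‖phiV n a z‖ ≠ 0 := norm_ne_zero_iff.2 hp
      set u : ℂ := (starRingEnd ℂ (phiV n a z)) / (‖phiV n a z‖ : ℂ) with hu
      have h4 : ‖u‖ = 1 := by
        rw [hu, norm_div, RCLike.norm_conj, Complex.norm_real, norm_norm, div_self h3]
      have h5 : nq (u • z) = nq z := by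
        unfold nq
        refine Finset.sum_congr rfl fun j _ => ?_
        rw [Pi.smul_apply, smul_eq_mul, norm_mul, h4, one_mul]
      have h6 := nq_sub n a (u • z)
      have h7 : phiV n a (u • z) = (‖phiV n a z‖ : ℂ) := by
        rw [map_smul, smul_eq_mul, hu, div_mul_eq_mul_div, mul_comm (starRingEnd ℂ _),
          Complex.mul_conj, Complex.normSq_eq_norm_sq]
        have h8 : (‖phiV n a z‖ : ℂ) ≠ 0 := by exact_mod_cast h3
        push_cast
        field_simp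
      rw [h7, Complex.ofReal_re, h5, hnz] at h6
      have h8 := nq_nonneg' (u • z - dgV n (cx1 a))
      rw [hs]
      linarith
  · intro h2
    have h3 := nq_sub n a z
    rw [h2, Complex.ofReal_re, hs, hnz] at h3
    have h4 : nq (z - dgV n (cx1 a)) = 0 := by rw [h3]; ring
    funext j
    unfold nq at h4
    have h5 : ‖(z - dgV n (cx1 a)) j‖ ^ 2 = 0 :=
      (Finset.sum_eq_zero_iff_of_nonneg fun j _ => sq_nonneg _).1 h4 j (Finset.mem_univ j)
    have h6 := norm_eq_zero.1 ((pow_eq_zero_iff two_ne_zero).1 h5)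
    rw [Pi.sub_apply] at h6
    exact sub_eq_zero.1 h6

end H5.PC
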