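import Pool.Agent.H5.PC.Defs

/-! # PC.VK : type IV, the group

`O * Oᵀ = 1` and `Oᵀ * O = 1`. `V_nq`: `∑ j, ‖∑ i, z i O i j‖² = ∑ i, ‖z i‖²`: expand, or write `z = x + i y`, `x, y` real: `‖·‖² = re² + im²` and for real vectors `∑ j, (∑ i, x i O i j)² = ∑ i, x i ^ 2`. `V_qf`: `∑ j, (∑ i, z i O i j)² = ∑ i, ∑ k, z i z k (O Oᵀ) i k`. `V_inv`: `conj u`, `Oᵀ` (`det Oᵀ = det O`). `V_comp`: `actV u O (actV u' O' z) = actV (u * u') (O' * O) z`. -/

namespace H5.PC

open H5.PK Topology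

variable {N : ℕ}

private theorem vk_mat (O : Matrix (Fin N) (Fin N) ℝ) (hO : O ∈ Matrix.orthogonalGroup (Fin N) ℝ) :
    O * O.transpose = 1 := by
  have h := (Matrix.mem_orthogonalGroup_iff (Fin N) ℝ).mp hO
  exact h

private theorem vk_mat' (O : Matrix (Fin N) (Fin N) ℝ)
    (hO : O ∈ Matrix.orthogonalGroup (Fin N) ℝ) : O.transpose * O = 1 :=
  mul_eq_one_comm.mp (vk_mat O hO)

private theorem vk_sum (O : Matrix (Fin N) (Fin N) ℝ) (hO : O ∈ Matrix.orthogonalGroup (Fin N) ℝ)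
    (w w' : Fin N → ℂ) :
    ∑ j, (∑ i, w i * (O i j : ℂ)) * (∑ i, w' i * (O i j : ℂ)) = ∑ i, w i * w' i := by
  set C : Matrix (Fin N) (Fin N) ℂ := O.map Complex.ofReal with hC
  have hCC : C * C.transpose = 1 := by
    have h := congrArg (fun M : Matrix (Fin N) (Fin N) ℝ => M.map Complex.ofReal) (vk_mat O hO)
    have h1 : (O * O.transpose).map Complex.ofReal = C * C.transpose := by
      rw [hC]
      ext i j
      simp only [Matrix.map_apply, Matrix.mul_apply, Matrix.transpose_apply, Complex.ofReal_sum,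
        Complex.ofReal_mul]
    have h2 : (1 : Matrix (Fin N) (Fin N) ℝ).map Complex.ofReal = 1 := by
      ext i j
      by_cases hij : i = j
      · subst hij
        simp only [Matrix.map_apply, Matrix.one_apply_eq, Complex.ofReal_one]
      · simp only [Matrix.map_apply, Matrix.one_apply_ne hij, Complex.ofReal_zero]
    rw [← h1, ← h2]
    exact h
  have h3 : (Matrix.vecMul w C) ⬝ᵥ (Matrix.vecMul w' C) = w ⬝ᵥ w' := by
    rw [← Matrix.dotProduct_mulVec, ← Matrix.mulVec_transpose, Matrix.mulVec_mulVec, hCC,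
      Matrix.one_mulVec]
  exact h3

theorem V_one : ContinuousLinearMap.id ℂ (Fin N → ℂ) ∈ KV N := by
  refine ⟨1, 1, norm_one, Submonoid.one_mem _, Matrix.det_one, ?_⟩
  ext z j
  rw [actV_apply, one_mul, Finset.sum_eq_single j]
  · rw [Matrix.one_apply_eq, Complex.ofReal_one, mul_one]; rfl
  · intro i _ hij
    rw [Matrix.one_apply_ne hij, Complex.ofReal_zero, mul_zero]
  · intro h
    exact absurd (Finset.mem_univ j) h

theorem V_comp (u u' : ℂ) (O O' : Matrix (Fin N) (Fin N) ℝ) (z : Fin N → ℂ) :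
    actV u O (actV u' O' z) = actV (u * u') (O' * O) z := by
  funext j
  rw [actV_apply, actV_apply, mul_assoc]
  congr 1
  simp only [actV_apply, Matrix.mul_apply, Complex.ofReal_sum, Complex.ofReal_mul]
  rw [Finset.mul_sum]
  simp only [Finset.mul_sum, Finset.sum_mul]
  rw [Finset.sum_comm]
  refine Finset.sum_congr rfl fun k _ => Finset.sum_congr rfl fun i _ => ?_
  ring

private theorem vk_id (z : Fin N → ℂ) : actV 1 (1 : Matrix (Fin N) (Fin N) ℝ) z = z := by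
  funext j
  rw [actV_apply, one_mul, Finset.sum_eq_single j]
  · rw [Matrix.one_apply_eq, Complex.ofReal_one, mul_one]
  · intro i _ hij
    rw [Matrix.one_apply_ne hij, Complex.ofReal_zero, mul_zero]
  · intro h
    exact absurd (Finset.mem_univ j) h

private theorem vk_conj (u : ℂ) (hu : ‖u‖ = 1) : (starRingEnd ℂ) u * u = 1 := by
  rw [mul_comm, Complex.mul_conj, Complex.normSq_eq_norm_sq, hu]
  norm_num

theorem V_inv (k : (Fin N → ℂ) →L[ℂ] (Fin N → ℂ)) (hk : k ∈ KV N) :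
    ∃ k' ∈ KV N, (∀ z, k' (k z) = z) ∧ ∀ z, k (k' z) = z := by
  obtain ⟨u, O, hu, hO, hd, rfl⟩ := hk
  refine ⟨actV ((starRingEnd ℂ) u) O.transpose, ⟨_, _, ?_, ?_, ?_, rfl⟩, ?_, ?_⟩
  · rw [RCLike.norm_conj]; exact hu
  · rw [Matrix.mem_orthogonalGroup_iff]
    show O.transpose * O.transpose.transpose = 1
    rw [Matrix.transpose_transpose]
    exact vk_mat' O hO
  · rw [Matrix.det_transpose]; exact hd
  · intro z
    rw [V_comp, vk_conj u hu, vk_mat O hO, vk_id]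
  · intro z
    rw [V_comp, mul_comm u, vk_conj u hu, vk_mat' O hO, vk_id]

theorem V_nq (k : (Fin N → ℂ) →L[ℂ] (Fin N → ℂ)) (hk : k ∈ KV N) (z : Fin N → ℂ) :
    nq (k z) = nq z := by
  obtain ⟨u, O, hu, hO, hd, rfl⟩ := hk
  have h1 : ∀ w : ℂ, ((‖w‖ ^ 2 : ℝ) : ℂ) = w * (starRingEnd ℂ) w := by
    intro w
    rw [Complex.mul_conj, Complex.normSq_eq_norm_sq]
  have h2 : ∀ j, (starRingEnd ℂ) (∑ i, z i * (O i j : ℂ)) =
      ∑ i, (starRingEnd ℂ) (z i) * (O i j : ℂ) := by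
    intro j
    rw [map_sum]
    refine Finset.sum_congr rfl fun i _ => ?_
    rw [map_mul, Complex.conj_ofReal]
  have h3 : ((nq (actV u O z) : ℝ) : ℂ) = ((nq z : ℝ) : ℂ) := by
    unfold nq
    rw [Complex.ofReal_sum, Complex.ofReal_sum]
    have h4 := vk_sum O hO z (fun i => (starRingEnd ℂ) (z i))
    calc ∑ j, ((‖actV u O z j‖ ^ 2 : ℝ) : ℂ)
        = ∑ j, (∑ i, z i * (O i j : ℂ)) * (∑ i, (starRingEnd ℂ) (z i) * (O i j : ℂ)) := by
          refine Finset.sum_congr rfl fun j _ => ?_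
          rw [actV_apply, norm_mul, hu, one_mul, h1, h2]
      _ = ∑ i, z i * (starRingEnd ℂ) (z i) := h4
      _ = ∑ i, ((‖z i‖ ^ 2 : ℝ) : ℂ) := Finset.sum_congr rfl fun i _ => (h1 (z i)).symm
  exact Complex.ofReal_injective h3

theorem V_qf (k : (Fin N → ℂ) →L[ℂ] (Fin N → ℂ)) (hk : k ∈ KV N) (z : Fin N → ℂ) :
    ‖qf (k z)‖ = ‖qf z‖ := by
  obtain ⟨u, O, hu, hO, hd, rfl⟩ := hk
  have h4 := vk_sum O hO z z
  have h5 : qf (actV u O z) = u ^ 2 * qf z := by
    unfold qf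
    have h6 : ∑ i, z i ^ 2 = ∑ i, z i * z i := Finset.sum_congr rfl fun i _ => sq (z i)
    rw [h6, ← h4, Finset.mul_sum]
    refine Finset.sum_congr rfl fun j _ => ?_
    rw [actV_apply]
    ring
  rw [h5, norm_mul, norm_pow, hu, one_pow, one_mul]

end H5.PC
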