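import Pool.Agent.H5.PC.VS

/-! # PC.VL : type IV, the first conical polynomial

`u = z 0 - I z 1`, `v = z 0 + I z 1`, `W = ∑_{j ≥ 2} ‖z j‖²`, `ω = ∑_{j ≥ 2} z j ^ 2`, `‖ω‖ ≤ W`. `nq z = (‖u‖² + ‖v‖²)/2 + W` (parallelogram), `qf z = u v + ω`. With `t = sV z 0 ^ 2`, `t' = sV z 1 ^ 2 ≤ t`: `t + t' = 2 nq z`, `t t' = ‖qf z‖²`. If `‖u‖² ≤ nq z` then `‖u‖² ≤ t` since `t ≥ nq z`. Otherwise `‖u‖² > ‖v‖² + 2 W`, and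
`‖u‖⁴ - 2 nq z ‖u‖² + ‖qf z‖² ≤ - ‖u‖² ‖v‖² - 2 ‖u‖² W + (‖u‖ ‖v‖ + W)² = W (W + 2 ‖u‖ ‖v‖ - 2 ‖u‖²) ≤ 0` because `2 ‖u‖ (‖u‖ - ‖v‖) ≥ (‖u‖ + ‖v‖)(‖u‖ - ‖v‖) > 2 W ≥ W`; i.e. `(‖u‖² - t)(‖u‖² - t') ≤ 0`, so `‖u‖² ≤ t`. Sums over `Fin (n+3)`: `Fin.sum_univ_succ`. -/

namespace H5.PC

open H5.PK Topology

private theorem VL_real {x y W a b q : ℝ} (hx : 0 ≤ x) (hy : 0 ≤ y) (hW : 0 ≤ W) (hb : 0 ≤ b)
    (hab : b ≤ a) (h1 : a ^ 2 + b ^ 2 = x ^ 2 + y ^ 2 + 2 * W) (h2 : a * b = q) (hq : 0 ≤ q)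
    (h3 : q ≤ x * y + W) : x ≤ a := by
  by_contra hcon
  have hax : a < x := not_le.1 hcon
  have ha : 0 ≤ a := hb.trans hab
  have e1 : a ^ 2 < x ^ 2 := by nlinarith
  have e2 : b ^ 2 ≤ a ^ 2 := by nlinarith
  have e3 : 0 < (x ^ 2 - a ^ 2) * (x ^ 2 - b ^ 2) :=
    mul_pos (by linarith) (by linarith)
  have e4 : q ^ 2 ≤ (x * y + W) ^ 2 := pow_le_pow_left₀ hq h3 2
  have e5 : a ^ 2 * b ^ 2 = q ^ 2 := by rw [← h2]; ring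
  have e6 : 2 * W < x ^ 2 - y ^ 2 := by linarith
  have e7 : y < x := by
    by_contra h
    have h' : x ≤ y := not_lt.1 h
    nlinarith
  have e8 : 0 ≤ 2 * x ^ 2 - 2 * x * y - W := by nlinarith
  have e9 : 0 ≤ W * (2 * x ^ 2 - 2 * x * y - W) := mul_nonneg hW e8
  have e10 : (x ^ 2 - a ^ 2) * (x ^ 2 - b ^ 2) =
      x ^ 4 - (a ^ 2 + b ^ 2) * x ^ 2 + a ^ 2 * b ^ 2 := by ring
  rw [e10, h1, e5] at e3
  nlinarith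

theorem V_first (n : ℕ) (z : Fin (n + 3) → ℂ) : ‖z 0 - Complex.I * z 1‖ ≤ sV z 0 := by
  obtain ⟨W, hWd⟩ : ∃ W : ℝ, W = ∑ j : Fin (n + 1), ‖z j.succ.succ‖ ^ 2 := ⟨_, rfl⟩
  have hW : 0 ≤ W := by rw [hWd]; positivity
  have hnq : nq z = ‖z 0‖ ^ 2 + (‖z 1‖ ^ 2 + W) := by
    unfold nq
    rw [Fin.sum_univ_succ, Fin.sum_univ_succ, hWd]
    rfl
  have hqf : qf z = z 0 ^ 2 + (z 1 ^ 2 + ∑ j : Fin (n + 1), z j.succ.succ ^ 2) := by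
    unfold qf
    rw [Fin.sum_univ_succ, Fin.sum_univ_succ]
    rfl
  have hpar := parallelogram_law_with_norm ℝ (z 0) (Complex.I * z 1)
  rw [norm_mul, Complex.norm_I, one_mul] at hpar
  have hqf2 : qf z = (z 0 - Complex.I * z 1) * (z 0 + Complex.I * z 1) +
      ∑ j : Fin (n + 1), z j.succ.succ ^ 2 := by
    rw [hqf]
    linear_combination (z 1) ^ 2 * Complex.I_sq
  have hle : ‖qf z‖ ≤ ‖z 0 - Complex.I * z 1‖ * ‖z 0 + Complex.I * z 1‖ + W := by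
    rw [hqf2, hWd]
    refine (norm_add_le _ _).trans ?_
    rw [norm_mul]
    refine add_le_add le_rfl ((norm_sum_le _ _).trans (Finset.sum_le_sum fun j _ => ?_))
    rw [norm_pow]
  have hsq := V_sq z
  refine VL_real (norm_nonneg _) (norm_nonneg _) hW (V_nn z 1) (V_anti z (Fin.zero_le 1)) ?_
    (V_prod z) (norm_nonneg _) hle
  rw [hsq, hnq]
  nlinarith

end H5.PC
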