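import Pool.Agent.H5.PC.VS
import Pool.Agent.H5.PC.ColsR

/-! # PC.VP : type IV, polar decomposition

Let `q = qf z`; choose `u` with `|u| = 1` and `q = u² ‖q‖` (`u = exp (arg q / 2 * I)`), `w = conj u • z = x + i y` with real `x, y`: `qf w = ‖q‖`, so `|x|² - |y|² = ‖q‖ ≥ 0`, `x · y = 0`; `|x|² + |y|² = nq z`. `α = sV z 0 + sV z 1 = √(2 nq + 2‖q‖) = 2 |x|`, `β = sV z 0 - sV z 1 = 2 |y|`.
If `|y| > 0`: `exists_SO_rows` for `x / |x|`, `y / |y|` gives `O` with `z = u (|x| O₀ + i |y| O₁) = actV u O (dgV (sV z))`. If `|x| > 0 = |y|`: take for the second row any unit vector orthogonal to `x` (exists since `N ≥ 3`: e.g. among the differences of `e_i` and their projections, or apply the orthonormal extension in another way). If `x = 0`: `z = 0`, `O = 1`. -/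

namespace H5.PC

open H5.PK Topology

private lemma vp_sum {R : Type} [CommSemiring R] (n : ℕ) (g : Fin (n + 3) → R) (c d : R) :
    ∑ i, (if i = 0 then c else if i = 1 then d else 0) * g i = c * g 0 + d * g 1 := by
  rw [Fin.sum_univ_succ, Fin.sum_univ_succ]
  rw [Finset.sum_eq_zero, add_zero, if_pos rfl, if_neg (Fin.succ_ne_zero _),
    if_pos (show Fin.succ (0 : Fin (n + 2)) = 1 from rfl)]
  · rfl
  · intro i _
    rw [if_neg (Fin.succ_ne_zero _), if_neg, zero_mul]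
    intro h
    have h3 : i.succ.succ = Fin.succ 0 := h
    exact Fin.succ_ne_zero _ (Fin.succ_injective _ h3)

private lemma vp_sq (n : ℕ) (c d : ℝ) :
    ∑ i : Fin (n + 3), (if i = 0 then c else if i = 1 then d else 0) ^ 2 = c ^ 2 + d ^ 2 := by
  have h := vp_sum n (fun i : Fin (n + 3) => if i = 0 then c else if i = 1 then d else 0) c d
  have h10 : (1 : Fin (n + 3)) ≠ 0 := by
    intro h
    have := congrArg Fin.val h
    simp at this
  simp only [if_true, if_neg h10] at h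
  rw [show c ^ 2 + d ^ 2 = c * c + d * d by ring, ← h]
  exact Finset.sum_congr rfl fun i _ => sq _

private lemma vp_perp (n : ℕ) (x : Fin (n + 3) → ℝ) :
    ∃ y : Fin (n + 3) → ℝ, ∑ i, y i ^ 2 = 1 ∧ ∑ i, x i * y i = 0 := by
  by_cases h : x 0 ^ 2 + x 1 ^ 2 = 0
  · have h0 : x 0 = 0 := by nlinarith [sq_nonneg (x 0), sq_nonneg (x 1)]
    refine ⟨fun i => if i = 0 then 1 else if i = 1 then 0 else 0, ?_, ?_⟩
    · rw [vp_sq]
      norm_num
    · exact (Finset.sum_congr rfl fun i _ => mul_comm _ _).trans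
        ((vp_sum n x 1 0).trans (by rw [h0]; ring))
  · have hp : 0 < x 0 ^ 2 + x 1 ^ 2 := lt_of_le_of_ne (by positivity) (Ne.symm h)
    set r := Real.sqrt (x 0 ^ 2 + x 1 ^ 2) with hr
    have hr2 : r ^ 2 = x 0 ^ 2 + x 1 ^ 2 := Real.sq_sqrt hp.le
    have hr0 : 0 < r := Real.sqrt_pos.2 hp
    refine ⟨fun i => if i = 0 then -(x 1 / r) else if i = 1 then x 0 / r else 0, ?_, ?_⟩
    · rw [vp_sq]
      field_simp
      rw [hr2]
      ring
    · exact (Finset.sum_congr rfl fun i _ => mul_comm _ _).trans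
        ((vp_sum n x (-(x 1 / r)) (x 0 / r)).trans (by ring))

private lemma vp_rows (n : ℕ) (x y : Fin (n + 3) → ℝ) (a b : ℝ) (ha : 0 ≤ a) (hb : 0 ≤ b)
    (hba : b ≤ a) (hx : ∑ i, x i ^ 2 = a ^ 2) (hy : ∑ i, y i ^ 2 = b ^ 2)
    (hxy : ∑ i, x i * y i = 0) :
    ∃ x' y' : Fin (n + 3) → ℝ, ∑ i, x' i ^ 2 = 1 ∧ ∑ i, y' i ^ 2 = 1 ∧ ∑ i, x' i * y' i = 0 ∧
      (∀ i, x i = a * x' i) ∧ ∀ i, y i = b * y' i := by
  rcases ha.eq_or_lt with h0 | h0
  · subst h0
    have hb0 : b = 0 := le_antisymm hba hb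
    subst hb0
    have h1 : ∀ i, x i = 0 := by
      intro i
      have h2 : ∑ i, x i ^ 2 = 0 := by rw [hx]; ring
      have h3 := (Finset.sum_eq_zero_iff_of_nonneg fun i _ => sq_nonneg (x i)).1 h2 i
        (Finset.mem_univ _)
      exact pow_eq_zero_iff (two_ne_zero) |>.1 h3
    have h1' : ∀ i, y i = 0 := by
      intro i
      have h2 : ∑ i, y i ^ 2 = 0 := by rw [hy]; ring
      have h3 := (Finset.sum_eq_zero_iff_of_nonneg fun i _ => sq_nonneg (y i)).1 h2 i
        (Finset.mem_univ _)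
      exact pow_eq_zero_iff (two_ne_zero) |>.1 h3
    obtain ⟨x', hx', -⟩ := vp_perp n 0
    obtain ⟨y', hy', hxy'⟩ := vp_perp n x'
    exact ⟨x', y', hx', hy', hxy', fun i => by rw [h1 i, zero_mul], fun i => by rw [h1' i, zero_mul]⟩
  · have hx' : ∑ i, (x i / a) ^ 2 = 1 := by
      simp only [div_pow]
      rw [← Finset.sum_div, hx]
      exact div_self (pow_pos h0 2).ne'
    rcases hb.eq_or_lt with h0b | h0b
    · subst h0b
      have h1' : ∀ i, y i = 0 := by
        intro i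
        have h2 : ∑ i, y i ^ 2 = 0 := by rw [hy]; ring
        have h3 := (Finset.sum_eq_zero_iff_of_nonneg fun i _ => sq_nonneg (y i)).1 h2 i
          (Finset.mem_univ _)
        exact pow_eq_zero_iff (two_ne_zero) |>.1 h3
      obtain ⟨y', hy', hxy'⟩ := vp_perp n (fun i => x i / a)
      exact ⟨fun i => x i / a, y', hx', hy', hxy', fun i => by field_simp,
        fun i => by rw [h1' i, zero_mul]⟩
    · refine ⟨fun i => x i / a, fun i => y i / b, hx', ?_, ?_, fun i => by field_simp,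
        fun i => by field_simp⟩
      · simp only [div_pow]
        rw [← Finset.sum_div, hy]
        exact div_self (pow_pos h0b 2).ne'
      · have e : ∀ i, x i / a * (y i / b) = x i * y i / (a * b) := fun i => by
          rw [div_mul_div_comm]
        simp only [e]
        rw [← Finset.sum_div, hxy, zero_div]

theorem V_polar (n : ℕ) (z : Fin (n + 3) → ℂ) :
    ∃ k ∈ KV (n + 3), z = k (dgV n (cx1 (sV z))) := by
  set u : ℂ := Complex.exp ((Complex.arg (qf z) / 2 : ℝ) * Complex.I) with hu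
  have hu1 : ‖u‖ = 1 := Complex.norm_exp_ofReal_mul_I _
  have hu0 : u ≠ 0 := Complex.exp_ne_zero _
  have hu2 : (‖qf z‖ : ℂ) * u ^ 2 = qf z := by
    have : u ^ 2 = Complex.exp (Complex.arg (qf z) * Complex.I) := by
      rw [hu, ← Complex.exp_nat_mul]
      congr 1
      push_cast
      ring
    rw [this]
    exact Complex.norm_mul_exp_arg_mul_I _
  set w : Fin (n + 3) → ℂ := fun i => u⁻¹ * z i with hw
  have hzw : ∀ i, z i = u * w i := fun i => by
    rw [hw]
    field_simp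
  have hqw : ∑ i, w i ^ 2 = (‖qf z‖ : ℂ) := by
    have h1 : ∑ i, w i ^ 2 = (u ^ 2)⁻¹ * qf z := by
      unfold qf
      rw [Finset.mul_sum]
      refine Finset.sum_congr rfl fun i _ => ?_
      rw [hw]
      simp only []
      rw [mul_pow, inv_pow]
    rw [h1]
    conv_lhs => rw [← hu2]
    field_simp
  set x : Fin (n + 3) → ℝ := fun i => (w i).re with hx
  set y : Fin (n + 3) → ℝ := fun i => (w i).im with hy
  have hnq : nq z = ∑ i, x i ^ 2 + ∑ i, y i ^ 2 := by
    unfold nq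
    rw [← Finset.sum_add_distrib]
    refine Finset.sum_congr rfl fun i _ => ?_
    rw [hzw i, norm_mul, hu1, one_mul, Complex.sq_norm, Complex.normSq_apply]
    simp only [hx, hy]
    ring
  have hre : ∑ i, x i ^ 2 - ∑ i, y i ^ 2 = ‖qf z‖ := by
    have h := congrArg Complex.re hqw
    rw [Complex.re_sum, Complex.ofReal_re] at h
    rw [← h, ← Finset.sum_sub_distrib]
    refine Finset.sum_congr rfl fun i _ => ?_
    rw [sq (w i), Complex.mul_re]
    simp only [hx, hy]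
    ring
  have him : ∑ i, x i * y i = 0 := by
    have h := congrArg Complex.im hqw
    rw [Complex.im_sum, Complex.ofReal_im] at h
    have h2 : ∑ i, (w i ^ 2).im = 2 * ∑ i, x i * y i := by
      rw [Finset.mul_sum]
      refine Finset.sum_congr rfl fun i _ => ?_
      rw [sq (w i), Complex.mul_im]
      simp only [hx, hy]
      ring
    rw [h2] at h
    linarith
  have hX : 0 ≤ ∑ i, x i ^ 2 := Finset.sum_nonneg fun i _ => sq_nonneg _
  have hY : 0 ≤ ∑ i, y i ^ 2 := Finset.sum_nonneg fun i _ => sq_nonneg _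
  set a := Real.sqrt (∑ i, x i ^ 2) with ha
  set b := Real.sqrt (∑ i, y i ^ 2) with hb
  have ha2 : ∑ i, x i ^ 2 = a ^ 2 := (Real.sq_sqrt hX).symm
  have hb2 : ∑ i, y i ^ 2 = b ^ 2 := (Real.sq_sqrt hY).symm
  have ha0 : 0 ≤ a := Real.sqrt_nonneg _
  have hb0 : 0 ≤ b := Real.sqrt_nonneg _
  have hba : b ≤ a := by
    apply Real.sqrt_le_sqrt
    have := norm_nonneg (qf z)
    linarith
  obtain ⟨x', y', hx', hy', hxy', hxa, hyb⟩ := vp_rows n x y a b ha0 hb0 hba ha2 hb2 him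
  obtain ⟨O, hO, hd, hO0, hO1⟩ := exists_SO_rows x' y' hx' hy' hxy'
  have e1 : Real.sqrt (2 * nq z + 2 * ‖qf z‖) = 2 * a := by
    rw [hnq, ← hre, ha2, hb2, show 2 * (a ^ 2 + b ^ 2) + 2 * (a ^ 2 - b ^ 2) = (2 * a) ^ 2 by ring]
    exact Real.sqrt_sq (by positivity)
  have e2 : Real.sqrt (2 * nq z - 2 * ‖qf z‖) = 2 * b := by
    rw [hnq, ← hre, ha2, hb2, show 2 * (a ^ 2 + b ^ 2) - 2 * (a ^ 2 - b ^ 2) = (2 * b) ^ 2 by ring]
    exact Real.sqrt_sq (by positivity)
  have s0 : sV z 0 = a + b := by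
    show (Real.sqrt (2 * nq z + 2 * ‖qf z‖) + Real.sqrt (2 * nq z - 2 * ‖qf z‖)) / 2 = a + b
    rw [e1, e2]
    ring
  have s1 : sV z 1 = a - b := by
    show (Real.sqrt (2 * nq z + 2 * ‖qf z‖) - Real.sqrt (2 * nq z - 2 * ‖qf z‖)) / 2 = a - b
    rw [e1, e2]
    ring
  refine ⟨actV u O, ⟨u, O, hu1, hO, hd, rfl⟩, ?_⟩
  funext j
  rw [actV_apply]
  simp only [dgV_apply]
  rw [vp_sum n (fun i => ((O i j : ℝ) : ℂ))]
  show z j = u * ((((sV z 0 : ℝ) : ℂ) + ((sV z 1 : ℝ) : ℂ)) / 2 * ((O 0 j : ℝ) : ℂ) +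
    Complex.I * (((sV z 0 : ℝ) : ℂ) - ((sV z 1 : ℝ) : ℂ)) / 2 * ((O 1 j : ℝ) : ℂ))
  rw [s0, s1, hO0, hO1, hzw j]
  congr 1
  have h1 : w j = ((x j : ℝ) : ℂ) + ((y j : ℝ) : ℂ) * Complex.I := (Complex.re_add_im (w j)).symm
  rw [h1, hxa j, hyb j]
  push_cast
  ring

end H5.PC
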