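import Pool.Agent.H5.PC.Defs

/-! # PC.VR : type IV, root curves

`p = dgV (cx1 a) = (p₀, I p₁, 0, ..)`, `p₀ = (a 0 + a 1)/2 > 0`, `p₁ = (a 0 - a 1)/2 ≠ 0`. First curve: rotation in the plane `(0, 2)`: `c₁ t = (p₀ cos (t/p₀), I p₁, p₀ sin (t/p₀), 0, ..)`: `c₁' 0 = e₂`, `c₁'' 0 = - (1/p₀) e₀`. Second curve: rotation in the plane `(1, 2)`: `c₂ t = (p₀, I p₁ cos (t/p₁), I p₁ sin (t/p₁), 0, ..)`: `c₂' 0 = I e₂`, `c₂'' 0 = - (I/p₁) e₁`.
`x = e₂`, `PV x = 0`; `PV (y₁ + y₂) = (- 1/p₀ - 1/p₁, - 1/p₀ + 1/p₁)` (as `- I (- I/p₁) = - 1/p₁`). If `i = 0, j = 1`, `a 0 > a 1`: `= (- κ a 0, κ a 1)` with `κ = 4 / (a 0 ² - a 1 ²)`; if `i = 1, j = 0`: `κ = 4 / (a 1 ² - a 0 ²)`. The rotation matrices are orthogonal with determinant one (for the determinant: `O θ = (O (θ/2))²`, or a block matrix, or `Matrix.det_of_..`). -/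

namespace H5.PC

open H5.PK Topology

private noncomputable def vrD {N : ℕ} (k l : Fin N) : Matrix (Fin N) (Fin N) ℝ :=
  Matrix.single k k 1 + Matrix.single l l 1

private noncomputable def vrJ {N : ℕ} (k l : Fin N) : Matrix (Fin N) (Fin N) ℝ :=
  Matrix.single k l 1 - Matrix.single l k 1

private noncomputable def vrR {N : ℕ} (k l : Fin N) (θ : ℝ) : Matrix (Fin N) (Fin N) ℝ :=
  1 + (Real.cos θ - 1) • vrD k l + Real.sin θ • vrJ k l

private theorem vrR_mul {N : ℕ} {k l : Fin N} (h : k ≠ l) (α β : ℝ) :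
    vrR k l α * vrR k l β = vrR k l (α + β) := by
  have hDD : vrD k l * vrD k l = vrD k l := by
    simp [vrD, mul_add, add_mul, h, h.symm]
  have hJJ : vrJ k l * vrJ k l = - vrD k l := by
    simp [vrJ, vrD, mul_sub, sub_mul, h, h.symm]
    abel
  have hDJ : vrD k l * vrJ k l = vrJ k l := by
    simp [vrJ, vrD, mul_sub, add_mul, h, h.symm]
  have hJD : vrJ k l * vrD k l = vrJ k l := by
    simp [vrJ, vrD, sub_mul, mul_add, h, h.symm]
    try abel
  unfold vrR
  rw [Real.cos_add, Real.sin_add]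
  simp only [mul_add, add_mul, one_mul, mul_one, smul_mul_assoc, mul_smul_comm, hDD, hJJ, hDJ, hJD]
  module

private theorem vrR_zero {N : ℕ} (k l : Fin N) : vrR k l 0 = 1 := by
  unfold vrR
  rw [Real.cos_zero, Real.sin_zero, sub_self, zero_smul, zero_smul, add_zero, add_zero]

private theorem vrR_tr {N : ℕ} (k l : Fin N) (θ : ℝ) : (vrR k l θ).transpose = vrR k l (-θ) := by
  unfold vrR vrD vrJ
  rw [Real.cos_neg, Real.sin_neg]
  simp only [Matrix.transpose_add, Matrix.transpose_smul, Matrix.transpose_sub, Matrix.transpose_one,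
    Matrix.transpose_single]
  module

private theorem vrR_mem {N : ℕ} {k l : Fin N} (h : k ≠ l) (θ : ℝ) :
    vrR k l θ ∈ Matrix.orthogonalGroup (Fin N) ℝ := by
  rw [Matrix.mem_orthogonalGroup_iff]
  show vrR k l θ * (vrR k l θ).transpose = 1
  rw [vrR_tr, vrR_mul h, add_neg_cancel, vrR_zero]

private theorem vrR_det {N : ℕ} {k l : Fin N} (h : k ≠ l) (θ : ℝ) : (vrR k l θ).det = 1 := by
  have h1 : (vrR k l (θ / 2)).det * (vrR k l (θ / 2)).det = 1 := by
    have h2 := congrArg Matrix.det (vrR_mul h (θ / 2) (-(θ / 2)))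
    rw [add_neg_cancel, vrR_zero, Matrix.det_one, Matrix.det_mul, ← vrR_tr, Matrix.det_transpose] at h2
    exact h2
  have h3 := congrArg Matrix.det (vrR_mul h (θ / 2) (θ / 2))
  rw [Matrix.det_mul, h1, add_halves] at h3
  exact h3.symm

private theorem vr_act {N : ℕ} {k l : Fin N} (h : k ≠ l) (p : Fin N → ℂ) (hp : p l = 0) (θ : ℝ) :
    actV 1 (vrR k l θ) p = p + ((Real.cos θ - 1 : ℝ) : ℂ) • (Pi.single k (p k) : Fin N → ℂ) +
      ((Real.sin θ : ℝ) : ℂ) • (Pi.single l (p k) : Fin N → ℂ) := by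
  classical
  funext j
  rw [actV_apply, one_mul]
  have h1 : ∀ i, p i * ((vrR k l θ i j : ℝ) : ℂ) = (if i = j then p i else 0) +
      ((if i = k then (if k = j then ((Real.cos θ - 1 : ℝ) : ℂ) * p k else 0) else 0) +
      (if i = k then (if l = j then ((Real.sin θ : ℝ) : ℂ) * p k else 0) else 0)) := by
    intro i
    unfold vrR vrD vrJ
    simp only [Matrix.add_apply, Matrix.smul_apply, Matrix.sub_apply, Matrix.one_apply,
      Matrix.single_apply, smul_eq_mul]
    by_cases hik : i = k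
    · subst hik
      have h2 : ¬ (l = i ∧ l = j) := fun h3 => h h3.1.symm
      have h3 : ¬ (l = i ∧ i = j) := fun h3 => h h3.1.symm
      by_cases hij : i = j
      · subst hij
        have h4 : ¬ l = i := Ne.symm h
        simp only [and_self, if_true, if_false, h4, and_false, false_and]
        push_cast
        ring
      · by_cases hlj : l = j
        · subst hlj
          simp only [hij, and_self, if_true, if_false, and_false, and_true, Ne.symm h]
          push_cast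
          ring
        · simp only [hij, hlj, if_false, and_false, if_true]
          push_cast
          ring
    · have hki : ¬ k = i := Ne.symm hik
      by_cases hil : i = l
      · subst hil
        rw [hp]
        simp [hki, hik]
      · have hli : ¬ l = i := Ne.symm hil
        simp only [hik, hki, hli, false_and, if_false]
        split_ifs
        · push_cast
          ring
        · push_cast
          ring
  rw [Finset.sum_congr rfl fun i _ => h1 i, Finset.sum_add_distrib, Finset.sum_add_distrib,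
    Finset.sum_ite_eq' Finset.univ j, Finset.sum_ite_eq' Finset.univ k, Finset.sum_ite_eq' Finset.univ k,
    if_pos (Finset.mem_univ _), if_pos (Finset.mem_univ _), if_pos (Finset.mem_univ _)]
  rw [Pi.add_apply, Pi.add_apply, Pi.smul_apply, Pi.smul_apply, Pi.single_apply, Pi.single_apply,
    smul_eq_mul, smul_eq_mul, add_assoc]
  congr 2
  · by_cases hkj : k = j
    · rw [if_pos hkj, if_pos hkj.symm]
    · rw [if_neg hkj, if_neg (Ne.symm hkj), mul_zero]
  · by_cases hlj : l = j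
    · rw [if_pos hlj, if_pos hlj.symm]
    · rw [if_neg hlj, if_neg (Ne.symm hlj), mul_zero]

private theorem vr_hd {V : Type} [NormedAddCommGroup V] [NormedSpace ℂ V] {g : ℝ → ℝ} {g' t : ℝ}
    (h : HasDerivAt g g' t) (v : V) :
    HasDerivAt (fun t => ((g t : ℝ) : ℂ) • v) ((g' : ℂ) • v) t :=
  (h.ofReal_comp).smul_const v

private theorem vr_cu {N : ℕ} {k l : Fin N} (h : k ≠ l) (p : Fin N → ℂ) (hp : p l = 0) (r : ℝ) :
    Cu (KV N) p
      (fun t => p + ((Real.cos (t * r) - 1 : ℝ) : ℂ) • (Pi.single k (p k) : Fin N → ℂ) +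
        ((Real.sin (t * r) : ℝ) : ℂ) • (Pi.single l (p k) : Fin N → ℂ))
      (fun t => ((-Real.sin (t * r) * r : ℝ) : ℂ) • (Pi.single k (p k) : Fin N → ℂ) +
        ((Real.cos (t * r) * r : ℝ) : ℂ) • (Pi.single l (p k) : Fin N → ℂ))
      (((-(r ^ 2) : ℝ) : ℂ) • (Pi.single k (p k) : Fin N → ℂ)) := by
  have hc : ∀ t : ℝ, HasDerivAt (fun t : ℝ => Real.cos (t * r) - 1) (-Real.sin (t * r) * r) t :=
    fun t => ((hasDerivAt_mul_const r).cos).sub_const 1
  have hs : ∀ t : ℝ, HasDerivAt (fun t : ℝ => Real.sin (t * r)) (Real.cos (t * r) * r) t :=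
    fun t => (hasDerivAt_mul_const r).sin
  have hc1 : HasDerivAt (fun t : ℝ => -Real.sin (t * r) * r) (-(Real.cos (0 * r) * r) * r) 0 :=
    ((hs 0).neg).mul_const r
  have hs1 : HasDerivAt (fun t : ℝ => Real.cos (t * r) * r) (-Real.sin (0 * r) * r * r) 0 :=
    ((hasDerivAt_mul_const r).cos).mul_const r
  refine ⟨fun t => ?_, ?_, ?_, fun t => ?_⟩
  · have h1 := ((hasDerivAt_const t p).fun_add
      (vr_hd (hc t) (Pi.single k (p k) : Fin N → ℂ))).fun_add
      (vr_hd (hs t) (Pi.single l (p k) : Fin N → ℂ))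
    convert h1 using 1
    rw [zero_add]
  · have h1 := (vr_hd hc1 (Pi.single k (p k) : Fin N → ℂ)).fun_add
      (vr_hd hs1 (Pi.single l (p k) : Fin N → ℂ))
    convert h1 using 1
    rw [zero_mul, Real.sin_zero, Real.cos_zero, neg_zero, zero_mul, zero_mul, Complex.ofReal_zero,
      zero_smul, add_zero]
    congr 2
    ring
  · show p + ((Real.cos (0 * r) - 1 : ℝ) : ℂ) • (Pi.single k (p k) : Fin N → ℂ) +
        ((Real.sin (0 * r) : ℝ) : ℂ) • (Pi.single l (p k) : Fin N → ℂ) = p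
    rw [zero_mul, Real.sin_zero, Real.cos_zero, sub_self, Complex.ofReal_zero, zero_smul, zero_smul,
      add_zero, add_zero]
  · exact ⟨actV 1 (vrR k l (t * r)), ⟨1, vrR k l (t * r), norm_one, vrR_mem h _, vrR_det h _, rfl⟩,
      (vr_act h p hp _).symm⟩

theorem V_root (n : ℕ) (a : Fin 2 → ℝ) (ha : ∀ i, 0 ≤ a i) (i j : Fin 2) (hij : a j < a i) :
    ∃ κ : ℝ, 0 < κ ∧ RP1 (KV (n + 3)) (PV n) (dgV n (cx1 a))
      (Pi.single i ((-(κ * a i) : ℝ) : ℂ) + Pi.single j ((κ * a j : ℝ) : ℂ)) := by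
  have h02 : (0 : Fin (n + 3)) ≠ 2 := by
    intro h
    have h1 := congrArg Fin.val h
    rw [Fin.val_zero, Fin.val_two] at h1
    omega
  have h12 : (1 : Fin (n + 3)) ≠ 2 := by
    intro h
    have h1 := congrArg Fin.val h
    rw [Fin.val_one, Fin.val_two] at h1
    omega
  have h01 : (1 : Fin (n + 3)) ≠ 0 := by
    intro h
    have h1 := congrArg Fin.val h
    rw [Fin.val_one, Fin.val_zero] at h1
    omega
  set p : Fin (n + 3) → ℂ := dgV n (cx1 a) with hpdef
  set p0 : ℝ := (a 0 + a 1) / 2 with hp0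
  set p1 : ℝ := (a 0 - a 1) / 2 with hp1
  have e0 : p 0 = ((p0 : ℝ) : ℂ) := by
    rw [hpdef, dgV_apply, if_pos rfl, hp0]
    show (((a 0 : ℝ) : ℂ) + ((a 1 : ℝ) : ℂ)) / 2 = _
    push_cast
    ring
  have e1 : p 1 = Complex.I * ((p1 : ℝ) : ℂ) := by
    rw [hpdef, dgV_apply, if_neg h01, if_pos rfl, hp1]
    show Complex.I * (((a 0 : ℝ) : ℂ) - ((a 1 : ℝ) : ℂ)) / 2 = _
    push_cast
    ring
  have e2 : p 2 = 0 := by
    rw [hpdef, dgV_apply, if_neg (Ne.symm h02), if_neg (Ne.symm h12)]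
  have hp0' : p0 ≠ 0 ∧ p1 ≠ 0 := by
    have h0 := ha 0
    have h1 := ha 1
    fin_cases i <;> fin_cases j
    · exact absurd hij (lt_irrefl _)
    · have hij' : a 1 < a 0 := hij
      exact ⟨by rw [hp0]; intro h; linarith, by rw [hp1]; intro h; linarith⟩
    · have hij' : a 0 < a 1 := hij
      exact ⟨by rw [hp0]; intro h; linarith, by rw [hp1]; intro h; linarith⟩
    · exact absurd hij (lt_irrefl _)
  obtain ⟨hn0, hn1⟩ := hp0'
  have key : RP1 (KV (n + 3)) (PV n) p
      ![((-(1 / p0) - 1 / p1 : ℝ) : ℂ), ((-(1 / p0) + 1 / p1 : ℝ) : ℂ)] := by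
    refine ⟨Pi.single 2 1, _, _, _, _, _, _, ?_, vr_cu h02 p e2 (1 / p0), ?_,
      vr_cu h12 p e2 (1 / p1), ?_, ?_⟩
    · rw [PV_apply]
      rw [Pi.single_eq_of_ne h02, Pi.single_eq_of_ne h12]
      funext x
      fin_cases x
      · show (0 : ℂ) - Complex.I * 0 = 0
        ring
      · show (0 : ℂ) + Complex.I * 0 = 0
        ring
    · show ((-Real.sin (0 * (1 / p0)) * (1 / p0) : ℝ) : ℂ) • (Pi.single 0 (p 0) : Fin (n + 3) → ℂ) +
        ((Real.cos (0 * (1 / p0)) * (1 / p0) : ℝ) : ℂ) • (Pi.single 2 (p 0) : Fin (n + 3) → ℂ) = _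
      rw [zero_mul, Real.sin_zero, Real.cos_zero, neg_zero, zero_mul, Complex.ofReal_zero, zero_smul,
        zero_add, ← Pi.single_smul', e0, smul_eq_mul]
      congr 1
      rw [← Complex.ofReal_mul]
      rw [show 1 * (1 / p0) * p0 = 1 by field_simp]
      exact Complex.ofReal_one
    · show ((-Real.sin (0 * (1 / p1)) * (1 / p1) : ℝ) : ℂ) • (Pi.single 1 (p 1) : Fin (n + 3) → ℂ) +
        ((Real.cos (0 * (1 / p1)) * (1 / p1) : ℝ) : ℂ) • (Pi.single 2 (p 1) : Fin (n + 3) → ℂ) = _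
      rw [zero_mul, Real.sin_zero, Real.cos_zero, neg_zero, zero_mul, Complex.ofReal_zero, zero_smul,
        zero_add, ← Pi.single_smul', ← Pi.single_smul', e1, smul_eq_mul, smul_eq_mul]
      congr 1
      rw [mul_left_comm, ← Complex.ofReal_mul]
      rw [show 1 * (1 / p1) * p1 = 1 by field_simp]
      rw [Complex.ofReal_one]
    · rw [PV_apply]
      have f0 : (((-((1 / p0) ^ 2) : ℝ) : ℂ) • (Pi.single 0 (p 0) : Fin (n + 3) → ℂ) +
          ((-((1 / p1) ^ 2) : ℝ) : ℂ) • (Pi.single 1 (p 1) : Fin (n + 3) → ℂ)) 0 =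
          ((-(1 / p0) : ℝ) : ℂ) := by
        rw [Pi.add_apply, Pi.smul_apply, Pi.smul_apply, Pi.single_eq_same,
          Pi.single_eq_of_ne (Ne.symm h01), smul_zero, add_zero, e0, smul_eq_mul, ← Complex.ofReal_mul]
        congr 1
        field_simp
      have f1 : (((-((1 / p0) ^ 2) : ℝ) : ℂ) • (Pi.single 0 (p 0) : Fin (n + 3) → ℂ) +
          ((-((1 / p1) ^ 2) : ℝ) : ℂ) • (Pi.single 1 (p 1) : Fin (n + 3) → ℂ)) 1 =
          Complex.I * ((-(1 / p1) : ℝ) : ℂ) := by
        rw [Pi.add_apply, Pi.smul_apply, Pi.smul_apply, Pi.single_eq_same,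
          Pi.single_eq_of_ne h01, smul_zero, zero_add, e1, smul_eq_mul, mul_left_comm,
          ← Complex.ofReal_mul]
        congr 2
        field_simp
      rw [f0, f1]
      have hI : ∀ z : ℂ, Complex.I * (Complex.I * z) = -z := fun z => by
        rw [← mul_assoc, Complex.I_mul_I, neg_one_mul]
      rw [hI]
      funext x
      fin_cases x
      · show ((-(1 / p0) : ℝ) : ℂ) - -((-(1 / p1) : ℝ) : ℂ) = ((-(1 / p0) - 1 / p1 : ℝ) : ℂ)
        push_cast
        ring
      · show ((-(1 / p0) : ℝ) : ℂ) + -((-(1 / p1) : ℝ) : ℂ) = ((-(1 / p0) + 1 / p1 : ℝ) : ℂ)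
        push_cast
        ring
  have hsum : p0 + p1 = a 0 := by rw [hp0, hp1]; ring
  have hdiff : p0 - p1 = a 1 := by rw [hp0, hp1]; ring
  have g0 : -(1 / p0) - 1 / p1 = -((1 / (p0 * p1)) * a 0) := by
    rw [← hsum]
    field_simp
    ring
  have g1 : -(1 / p0) + 1 / p1 = (1 / (p0 * p1)) * a 1 := by
    rw [← hdiff]
    field_simp
    ring
  rw [g0, g1] at key
  fin_cases i <;> fin_cases j
  · exact absurd hij (lt_irrefl _)
  · have hij' : a 1 < a 0 := hij
    have h1 := ha 1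
    refine ⟨1 / (p0 * p1), ?_, ?_⟩
    · have h2 : 0 < p0 := by rw [hp0]; linarith
      have h3 : 0 < p1 := by rw [hp1]; linarith
      positivity
    · convert key using 1
      funext x
      fin_cases x
      · show (Pi.single (0 : Fin 2) ((-(1 / (p0 * p1) * a 0) : ℝ) : ℂ) : Fin 2 → ℂ) 0 +
          (Pi.single (1 : Fin 2) ((1 / (p0 * p1) * a 1 : ℝ) : ℂ) : Fin 2 → ℂ) 0 = _
        rw [Pi.single_eq_same, Pi.single_eq_of_ne (by decide), add_zero]
        rfl
      · show (Pi.single (0 : Fin 2) ((-(1 / (p0 * p1) * a 0) : ℝ) : ℂ) : Fin 2 → ℂ) 1 +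
          (Pi.single (1 : Fin 2) ((1 / (p0 * p1) * a 1 : ℝ) : ℂ) : Fin 2 → ℂ) 1 = _
        rw [Pi.single_eq_same, Pi.single_eq_of_ne (by decide), zero_add]
        rfl
  · have hij' : a 0 < a 1 := hij
    have h0 := ha 0
    refine ⟨-(1 / (p0 * p1)), ?_, ?_⟩
    · have h2 : 0 < p0 := by rw [hp0]; linarith
      have h3 : p1 < 0 := by rw [hp1]; linarith
      have h4 : p0 * p1 < 0 := mul_neg_of_pos_of_neg h2 h3
      have h5 : 1 / (p0 * p1) < 0 := one_div_neg.mpr h4
      linarith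
    · convert key using 1
      funext x
      fin_cases x
      · show (Pi.single (1 : Fin 2) ((-(-(1 / (p0 * p1)) * a 1) : ℝ) : ℂ) : Fin 2 → ℂ) 0 +
          (Pi.single (0 : Fin 2) ((-(1 / (p0 * p1)) * a 0 : ℝ) : ℂ) : Fin 2 → ℂ) 0 = _
        rw [Pi.single_eq_same, Pi.single_eq_of_ne (by decide), zero_add]
        show _ = ((-(1 / (p0 * p1) * a 0) : ℝ) : ℂ)
        congr 1
        ring
      · show (Pi.single (1 : Fin 2) ((-(-(1 / (p0 * p1)) * a 1) : ℝ) : ℂ) : Fin 2 → ℂ) 1 +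
          (Pi.single (0 : Fin 2) ((-(1 / (p0 * p1)) * a 0 : ℝ) : ℂ) : Fin 2 → ℂ) 1 = _
        rw [Pi.single_eq_same, Pi.single_eq_of_ne (by decide), add_zero]
        show _ = ((1 / (p0 * p1) * a 1 : ℝ) : ℂ)
        congr 1
        ring
  · exact absurd hij (lt_irrefl _)

end H5.PC
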