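import Pool.Agent.H5.PC.Defs

/-! # PC.VT : type IV, torus and swap

`V_torus`: `φ = (θ 0 - θ 1)/2`, `u = exp ((θ 0 + θ 1)/2 I)`, `O` the rotation which maps `z` to `(cos φ z 0 + sin φ z 1, - sin φ z 0 + cos φ z 1, z 2, ..)` (`O 0 0 = O 1 1 = cos φ`, `O 1 0 = sin φ`, `O 0 1 = - sin φ`, identity elsewhere; orthogonal, determinant one: e.g. via `Matrix.det_succ_row_zero`, or as a block matrix, or: determinant `± 1` and continuous in `φ`,
or `O φ = (O (φ/2))²`, so the determinant is a square): it multiplies `z 0 - I z 1` by `exp (I φ)` and `z 0 + I z 1` by `exp (- I φ)`. `V_swap`: for `i = j` the identity; for `i ≠ j` (so `a 0 = a 1`) `u = 1`, `O = diagonal (1, -1, -1, 1, ..)`. `dgV b = ((b 0 + b 1)/2, I (b 0 - b 1)/2, 0, ..)`. -/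

namespace H5.PC

open H5.PK Topology

/-- the equivalence -/
private def vtE (n : ℕ) : Fin 2 ⊕ Fin (n + 1) ≃ Fin (n + 3) :=
  finSumFinEquiv.trans (finCongr (by omega))

private theorem vtE_inl_zero (n : ℕ) : vtE n (Sum.inl 0) = 0 := rfl

private theorem vtE_inl_one (n : ℕ) : vtE n (Sum.inl 1) = 1 := rfl

private theorem vtE_inr_ne_zero (n : ℕ) (k : Fin (n + 1)) : vtE n (Sum.inr k) ≠ 0 := by
  intro h
  have h1 := congrArg Fin.val h
  have h2 : ((vtE n (Sum.inr k) : Fin (n + 3)) : ℕ) = 2 + (k : ℕ) := rfl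
  rw [h2] at h1
  simp at h1

private theorem vtE_inr_ne_one (n : ℕ) (k : Fin (n + 1)) : vtE n (Sum.inr k) ≠ 1 := by
  intro h
  have h1 := congrArg Fin.val h
  have h2 : ((vtE n (Sum.inr k) : Fin (n + 3)) : ℕ) = 2 + (k : ℕ) := rfl
  rw [h2, Fin.val_one] at h1
  omega

/-- the rotation of the first two coordinates -/
private noncomputable def vtR (c s : ℝ) : Matrix (Fin 2) (Fin 2) ℝ := !![c, -s; s, c]

/-- the rotation -/
private noncomputable def vtO (n : ℕ) (c s : ℝ) : Matrix (Fin (n + 3)) (Fin (n + 3)) ℝ :=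
  (Matrix.fromBlocks (vtR c s) 0 0 1).submatrix (vtE n).symm (vtE n).symm

private theorem vtO_det (n : ℕ) {c s : ℝ} (h : c ^ 2 + s ^ 2 = 1) : (vtO n c s).det = 1 := by
  unfold vtO
  rw [Matrix.det_submatrix_equiv_self, Matrix.det_fromBlocks_zero₂₁, Matrix.det_one, mul_one]
  unfold vtR
  rw [Matrix.det_fin_two_of]
  linear_combination h

private theorem vtR_mul {c s : ℝ} (h : c ^ 2 + s ^ 2 = 1) : vtR c s * (vtR c s).transpose = 1 := by
  unfold vtR
  ext i j
  fin_cases i <;> fin_cases j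
  · simp [Matrix.mul_apply, Fin.sum_univ_two]
    linear_combination h
  · simp [Matrix.mul_apply, Fin.sum_univ_two]
    ring
  · simp [Matrix.mul_apply, Fin.sum_univ_two]
    ring
  · simp [Matrix.mul_apply, Fin.sum_univ_two]
    linear_combination h

private theorem vtO_mem (n : ℕ) {c s : ℝ} (h : c ^ 2 + s ^ 2 = 1) :
    vtO n c s ∈ Matrix.orthogonalGroup (Fin (n + 3)) ℝ := by
  rw [Matrix.mem_orthogonalGroup_iff]
  unfold vtO
  rw [Matrix.transpose_submatrix, Matrix.submatrix_mul_equiv, Matrix.fromBlocks_transpose,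
    Matrix.fromBlocks_multiply]
  simp only [Matrix.transpose_zero, Matrix.transpose_one, Matrix.mul_zero, Matrix.zero_mul,
    add_zero, zero_add, Matrix.mul_one, vtR_mul h]
  rw [Matrix.fromBlocks_one, Matrix.submatrix_one_equiv]

private theorem vtO_act (n : ℕ) (c s : ℝ) (u : ℂ) (b : Fin 2 → ℂ) (p q : ℂ)
    (hp : u * ((b 0 + b 1) / 2 * c + Complex.I * (b 0 - b 1) / 2 * s) = (p + q) / 2)
    (hq : u * (-((b 0 + b 1) / 2 * s) + Complex.I * (b 0 - b 1) / 2 * c) =
      Complex.I * (p - q) / 2) :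
    actV u (vtO n c s) (dgV n b) = dgV n ![p, q] := by
  funext j
  rw [actV_apply]
  obtain ⟨y, rfl⟩ := (vtE n).surjective j
  rw [← (vtE n).sum_comp, Fintype.sum_sum_type, Fin.sum_univ_two]
  have hz : ∀ k : Fin (n + 1), dgV n b (vtE n (Sum.inr k)) = 0 := by
    intro k
    rw [dgV_apply, if_neg (vtE_inr_ne_zero n k), if_neg (vtE_inr_ne_one n k)]
  have h0 : dgV n b (vtE n (Sum.inl 0)) = (b 0 + b 1) / 2 := by
    rw [dgV_apply, vtE_inl_zero, if_pos rfl]
  have h1 : dgV n b (vtE n (Sum.inl 1)) = Complex.I * (b 0 - b 1) / 2 := by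
    rw [dgV_apply, vtE_inl_one, if_neg (by exact Fin.ne_of_val_ne (by simp)), if_pos rfl]
  have hO : ∀ x y : Fin 2 ⊕ Fin (n + 1), vtO n c s (vtE n x) (vtE n y) =
      Matrix.fromBlocks (vtR c s) 0 0 1 x y := by
    intro x y
    unfold vtO
    rw [Matrix.submatrix_apply, Equiv.symm_apply_apply, Equiv.symm_apply_apply]
  have hsum : ∑ k : Fin (n + 1), dgV n b (vtE n (Sum.inr k)) *
      ((vtO n c s (vtE n (Sum.inr k)) (vtE n y) : ℝ) : ℂ) = 0 :=
    Finset.sum_eq_zero fun k _ => by rw [hz k, zero_mul]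
  rw [hsum, add_zero, h0, h1, hO, hO]
  rcases y with y | y
  · rw [Matrix.fromBlocks_apply₁₁, Matrix.fromBlocks_apply₁₁]
    fin_cases y
    · show u * ((b 0 + b 1) / 2 * ((vtR c s 0 0 : ℝ) : ℂ) +
        Complex.I * (b 0 - b 1) / 2 * ((vtR c s 1 0 : ℝ) : ℂ)) = dgV n ![p, q] (vtE n (Sum.inl 0))
      rw [dgV_apply, vtE_inl_zero, if_pos rfl]
      exact hp
    · show u * ((b 0 + b 1) / 2 * ((vtR c s 0 1 : ℝ) : ℂ) +
        Complex.I * (b 0 - b 1) / 2 * ((vtR c s 1 1 : ℝ) : ℂ)) = dgV n ![p, q] (vtE n (Sum.inl 1))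
      rw [dgV_apply, vtE_inl_one, if_neg (by exact Fin.ne_of_val_ne (by simp)), if_pos rfl]
      have e1 : ((vtR c s 0 1 : ℝ) : ℂ) = -(s : ℂ) := by
        show (((-s : ℝ)) : ℂ) = -(s : ℂ)
        push_cast; rfl
      have e2 : ((vtR c s 1 1 : ℝ) : ℂ) = (c : ℂ) := rfl
      rw [e1, e2]
      show _ = Complex.I * (p - q) / 2
      rw [← hq]
      ring
  · rw [Matrix.fromBlocks_apply₁₂, Matrix.fromBlocks_apply₁₂, dgV_apply,
      if_neg (vtE_inr_ne_zero n y), if_neg (vtE_inr_ne_one n y)]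
    simp

theorem V_torus (n : ℕ) (θ : Fin 2 → ℝ) : ∃ k ∈ KV (n + 3), ∀ b : Fin 2 → ℂ,
    k (dgV n b) = dgV n (fun i => Complex.exp ((θ i : ℂ) * Complex.I) * b i) := by
  set φ : ℝ := (θ 0 - θ 1) / 2 with hφ
  set ψ : ℝ := (θ 0 + θ 1) / 2 with hψ
  have hcs : Real.cos φ ^ 2 + Real.sin φ ^ 2 = 1 := by
    rw [add_comm]; exact Real.sin_sq_add_cos_sq φ
  refine ⟨actV (Complex.exp ((ψ : ℂ) * Complex.I)) (vtO n (Real.cos φ) (Real.sin φ)),
    ⟨_, _, Complex.norm_exp_ofReal_mul_I ψ, vtO_mem n hcs, vtO_det n hcs, rfl⟩, fun b => ?_⟩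
  have e1 : Complex.exp ((φ : ℂ) * Complex.I) = (Real.cos φ : ℂ) + (Real.sin φ : ℂ) * Complex.I := by
    rw [Complex.exp_mul_I, Complex.ofReal_cos, Complex.ofReal_sin]
  have e2 : Complex.exp (-((φ : ℂ) * Complex.I)) =
      (Real.cos φ : ℂ) - (Real.sin φ : ℂ) * Complex.I := by
    rw [← neg_mul, Complex.exp_mul_I, Complex.cos_neg, Complex.sin_neg, Complex.ofReal_cos,
      Complex.ofReal_sin]
    ring
  have f0 : Complex.exp ((θ 0 : ℂ) * Complex.I) = Complex.exp ((ψ : ℂ) * Complex.I) *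
      ((Real.cos φ : ℂ) + (Real.sin φ : ℂ) * Complex.I) := by
    rw [← e1, ← Complex.exp_add]
    congr 1
    rw [hφ, hψ]; push_cast; ring
  have f1 : Complex.exp ((θ 1 : ℂ) * Complex.I) = Complex.exp ((ψ : ℂ) * Complex.I) *
      ((Real.cos φ : ℂ) - (Real.sin φ : ℂ) * Complex.I) := by
    rw [← e2, ← Complex.exp_add]
    congr 1
    rw [hφ, hψ]; push_cast; ring
  have hb : (fun i => Complex.exp ((θ i : ℂ) * Complex.I) * b i) =
      ![Complex.exp ((θ 0 : ℂ) * Complex.I) * b 0, Complex.exp ((θ 1 : ℂ) * Complex.I) * b 1] := by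
    funext i
    fin_cases i <;> rfl
  rw [hb]
  apply vtO_act
  · rw [f0, f1]
    ring
  · rw [f0, f1]
    linear_combination (-(Complex.exp ((ψ : ℂ) * Complex.I)) * (Real.sin φ : ℂ) *
      (b 0 + b 1) / 2) * Complex.I_mul_I

private theorem vt_two (n : ℕ) : ((2 : Fin (n + 3)) : ℕ) = 2 := by
  show 2 % (n + 3) = 2
  exact Nat.mod_eq_of_lt (by omega)

/-- the diagonal matrix -/
private def vtD (n : ℕ) : Matrix (Fin (n + 3)) (Fin (n + 3)) ℝ :=
  Matrix.diagonal (fun j => if j = 1 ∨ j = 2 then (-1 : ℝ) else 1)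

private theorem vtD_sq (n : ℕ) : vtD n * vtD n = 1 := by
  unfold vtD
  rw [Matrix.diagonal_mul_diagonal, ← Matrix.diagonal_one]
  congr 1
  funext j
  split_ifs <;> simp

private theorem vtD_mem (n : ℕ) : vtD n ∈ Matrix.orthogonalGroup (Fin (n + 3)) ℝ := by
  rw [Matrix.mem_orthogonalGroup_iff]
  have h1 : (vtD n).transpose = vtD n := Matrix.diagonal_transpose _
  rw [h1, vtD_sq]

private theorem vtD_det (n : ℕ) : (vtD n).det = 1 := by
  unfold vtD
  rw [Matrix.det_diagonal, Fin.prod_univ_succ, Fin.prod_univ_succ, Fin.prod_univ_succ]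
  have h0 : ¬ ((0 : Fin (n + 3)) = 1 ∨ (0 : Fin (n + 3)) = 2) := by
    rintro (h | h)
    · exact absurd (congrArg Fin.val h) (by simp)
    · have h4 := congrArg Fin.val h
      have h5 : ((2 : Fin (n + 3)) : ℕ) = 2 := vt_two n
      rw [h5] at h4
      simp at h4
  have h1 : ((Fin.succ 0 : Fin (n + 3)) = 1 ∨ (Fin.succ 0 : Fin (n + 3)) = 2) := Or.inl rfl
  have h2 : ((Fin.succ (Fin.succ 0) : Fin (n + 3)) = 1 ∨
      (Fin.succ (Fin.succ 0) : Fin (n + 3)) = 2) := Or.inr rfl
  have h3 : ∀ i : Fin n, ¬ ((i.succ.succ.succ : Fin (n + 3)) = 1 ∨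
      (i.succ.succ.succ : Fin (n + 3)) = 2) := by
    intro i
    rintro (h | h)
    · have h4 := congrArg Fin.val h
      rw [Fin.val_one] at h4
      simp only [Fin.val_succ] at h4
      omega
    · have h4 := congrArg Fin.val h
      have h5 : ((2 : Fin (n + 3)) : ℕ) = 2 := vt_two n
      rw [h5] at h4
      simp only [Fin.val_succ] at h4
      omega
  rw [if_neg h0, if_pos h1, if_pos h2, Finset.prod_eq_one (fun i _ => if_neg (h3 i))]
  norm_num

private theorem vtD_apply (n : ℕ) (z : Fin (n + 3) → ℂ) (j : Fin (n + 3)) :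
    actV 1 (vtD n) z j = if j = 1 ∨ j = 2 then -z j else z j := by
  rw [actV_apply, one_mul, Finset.sum_eq_single j]
  · unfold vtD
    rw [Matrix.diagonal_apply_eq]
    split_ifs <;> simp
  · intro i _ hi
    unfold vtD
    rw [Matrix.diagonal_apply_ne _ hi]
    simp
  · intro h
    exact absurd (Finset.mem_univ j) h

theorem V_swap (n : ℕ) (a : Fin 2 → ℝ) (i j : Fin 2) (h : a i = a j) :
    ∃ k ∈ KV (n + 3), (∀ z, k (k z) = z) ∧ k (dgV n (cx1 a)) = dgV n (cx1 a) ∧
      ∀ c : ℂ, k (dgV n (Pi.single i c)) = dgV n (Pi.single j c) := by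
  by_cases hij : i = j
  · subst hij
    have hid : ∀ z : Fin (n + 3) → ℂ, actV 1 (1 : Matrix (Fin (n + 3)) (Fin (n + 3)) ℝ) z = z := by
      intro z
      funext j
      rw [actV_apply, one_mul, Finset.sum_eq_single j]
      · simp
      · intro i _ hi
        rw [Matrix.one_apply_ne hi]
        simp
      · intro h
        exact absurd (Finset.mem_univ j) h
    exact ⟨actV 1 1, ⟨1, 1, norm_one, Submonoid.one_mem _, Matrix.det_one, rfl⟩,
      fun z => by rw [hid, hid], hid _, fun c => hid _⟩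
  · have ha : a 0 = a 1 := by
      fin_cases i <;> fin_cases j
      · exact absurd rfl hij
      · exact h
      · exact h.symm
      · exact absurd rfl hij
    have h10 : ¬ ((1 : Fin (n + 3)) = 0) := by
      intro h
      exact absurd (congrArg Fin.val h) (by simp)
    have h20 : ¬ ((2 : Fin (n + 3)) = 0) := by
      intro h
      have h1 := congrArg Fin.val h
      have h5 : ((2 : Fin (n + 3)) : ℕ) = 2 := vt_two n
      rw [h5] at h1
      simp at h1
    have h21 : ¬ ((2 : Fin (n + 3)) = 1) := by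
      intro h
      have h1 := congrArg Fin.val h
      have h5 : ((2 : Fin (n + 3)) : ℕ) = 2 := vt_two n
      rw [h5, Fin.val_one] at h1
      omega
    -- the effect on diagonal elements
    have key : ∀ b : Fin 2 → ℂ, actV 1 (vtD n) (dgV n b) = dgV n ![b 1, b 0] := by
      intro b
      funext j
      rw [vtD_apply, dgV_apply, dgV_apply]
      by_cases h0 : j = 0
      · subst h0
        rw [if_pos rfl, if_pos rfl, if_neg]
        · show (b 0 + b 1) / 2 = (b 1 + b 0) / 2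
          ring
        · rintro (h | h)
          · exact h10 h.symm
          · exact h20 h.symm
      · by_cases h1 : j = 1
        · subst h1
          rw [if_neg h10, if_pos rfl, if_neg h10, if_pos rfl, if_pos (Or.inl rfl)]
          show -(Complex.I * (b 0 - b 1) / 2) = Complex.I * (b 1 - b 0) / 2
          ring
        · rw [if_neg h0, if_neg h1, if_neg h0, if_neg h1]
          simp
    refine ⟨actV 1 (vtD n), ⟨1, _, norm_one, vtD_mem n, vtD_det n, rfl⟩, ?_, ?_, ?_⟩
    · intro z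
      funext j
      rw [vtD_apply, vtD_apply]
      split_ifs <;> simp
    · rw [key]
      congr 1
      funext l
      fin_cases l
      · show ((a 1 : ℝ) : ℂ) = ((a 0 : ℝ) : ℂ)
        rw [ha]
      · show ((a 0 : ℝ) : ℂ) = ((a 1 : ℝ) : ℂ)
        rw [ha]
    · intro c
      rw [key]
      congr 1
      fin_cases i <;> fin_cases j
      · exact absurd rfl hij
      · funext l
        fin_cases l
        · show (Pi.single (0 : Fin 2) c : Fin 2 → ℂ) 1 = (Pi.single (1 : Fin 2) c : Fin 2 → ℂ) 0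
          simp
        · show (Pi.single (0 : Fin 2) c : Fin 2 → ℂ) 0 = (Pi.single (1 : Fin 2) c : Fin 2 → ℂ) 1
          simp
      · funext l
        fin_cases l
        · show (Pi.single (1 : Fin 2) c : Fin 2 → ℂ) 1 = (Pi.single (0 : Fin 2) c : Fin 2 → ℂ) 0
          simp
        · show (Pi.single (1 : Fin 2) c : Fin 2 → ℂ) 0 = (Pi.single (0 : Fin 2) c : Fin 2 → ℂ) 1
          simp
      · exact absurd rfl hij

end H5.PC
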