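import Pool.Agent.H5.PC.VS
import Pool.Agent.H5.PC.VK
import Pool.Agent.H5.PC.VP
import Pool.Agent.H5.PC.VL
import Pool.Agent.H5.PC.VT
import Pool.Agent.H5.PC.VG
import Pool.Agent.H5.PC.VR
import Pool.Agent.H5.PC.VI
import Pool.Agent.H5.PC.TrF

/-! # PC.FV : type IV (glue) -/

namespace H5.PC

open H5.PK Topology
open scoped Matrix.Norms.Elementwise

theorem Iic_zero2 : (Finset.Iic (0 : Fin 2)) = {0} := by decide

theorem Iic_one2 : (Finset.Iic (1 : Fin 2)) = {0, 1} := by decide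

/-- type IV, on vectors -/
noncomputable def FrV (n : ℕ) : Fr (Fin (n + 3) → ℂ) 2 where
  K := KV (n + 3)
  dg := dgV n
  P := PV n
  s := sV
  tube := True
  d := 1
  Δ := ΔV n
  one := V_one
  P_dg := by
    intro b
    rw [PV_apply]
    funext i
    fin_cases i
    · show dgV n b 0 - Complex.I * dgV n b 1 = b 0
      rw [dgV_apply, dgV_apply, if_pos rfl, if_neg (by simp), if_pos rfl]
      linear_combination (-(b 0 - b 1) / 2) * Complex.I_mul_I
    · show dgV n b 0 + Complex.I * dgV n b 1 = b 1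
      rw [dgV_apply, dgV_apply, if_pos rfl, if_neg (by simp), if_pos rfl]
      linear_combination ((b 0 - b 1) / 2) * Complex.I_mul_I
  K_inv := V_inv
  s_cont := V_cont
  s_anti := V_anti
  s_nn := V_nn
  s_K := by
    intro k hk z
    unfold sV
    rw [V_nq k hk, V_qf k hk]
  s_dg := V_dg n
  polar := V_polar n
  torus := V_torus n
  swap := V_swap n
  grad := V_grad n
  root := V_root n
  root' := fun _ _ _ h => absurd trivial h
  d_pos := Nat.one_pos
  Δ_diff := by
    intro k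
    unfold ΔV qf
    by_cases hk : k = 0
    · simp only [if_pos hk]
      fun_prop
    · simp only [if_neg hk]
      fun_prop
  Δ_dg := by
    intro k b
    rw [pow_one]
    unfold ΔV
    fin_cases k
    · show (if (0 : Fin 2) = 0 then dgV n b 0 - Complex.I * dgV n b 1 else qf (dgV n b)) = ∏ i ∈ Finset.Iic (0 : Fin 2), b i
      rw [if_pos rfl, Iic_zero2, Finset.prod_singleton]
      rw [dgV_apply, dgV_apply, if_pos rfl, if_neg (by simp), if_pos rfl]
      linear_combination (-(b 0 - b 1) / 2) * Complex.I_mul_I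
    · show (if (1 : Fin 2) = 0 then dgV n b 0 - Complex.I * dgV n b 1 else qf (dgV n b)) = ∏ i ∈ Finset.Iic (1 : Fin 2), b i
      rw [if_neg (by simp), Iic_one2, Finset.prod_pair (by simp), V_qf_dg]
  Δ_le := by
    intro k z
    rw [pow_one]
    unfold ΔV
    fin_cases k
    · show ‖(if (0 : Fin 2) = 0 then z 0 - Complex.I * z 1 else qf z)‖ ≤ ∏ i ∈ Finset.Iic (0 : Fin 2), sV z i
      rw [if_pos rfl, Iic_zero2, Finset.prod_singleton]
      exact V_first n z
    · show ‖(if (1 : Fin 2) = 0 then z 0 - Complex.I * z 1 else qf z)‖ ≤ ∏ i ∈ Finset.Iic (1 : Fin 2), sV z i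
      rw [if_neg (by simp), Iic_one2, Finset.prod_pair (by simp), V_prod]
  Δ_eq := by
    intro _ k hk z
    have hk1 : k = 1 := by
      apply Fin.ext
      show (k : ℕ) = 1
      omega
    subst hk1
    unfold ΔV
    rw [if_neg (by simp), pow_one, Fin.prod_univ_two, V_prod]
  iso := V_iso n

/-- row vectors -/
noncomputable def eV (n : ℕ) : Sp (⊤ : Submodule ℂ (Matrix (Fin 1) (Fin (n + 3)) ℂ)) ≃L[ℂ]
    (Fin (n + 3) → ℂ) :=
  LinearEquiv.toContinuousLinearEquiv
    { toFun := fun Z => Z.val 0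
      invFun := fun z => Sp.mk (fun _ => z) trivial
      map_add' := fun _ _ => rfl
      map_smul' := fun _ _ => rfl
      left_inv := fun Z => Sp.ext (by
        funext i j
        show Z.val 0 j = Z.val i j
        rw [Subsingleton.elim i 0])
      right_inv := fun _ => rfl }

/-- type IV -/
noncomputable def FrIV (n : ℕ) : Fr (Sp (⊤ : Submodule ℂ (Matrix (Fin 1) (Fin (n + 3)) ℂ))) 2 :=
  (FrV n).congr (eV n)

theorem FrIV_K (n : ℕ) (T : Sp (⊤ : Submodule ℂ (Matrix (Fin 1) (Fin (n + 3)) ℂ)) →L[ℂ]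
    Sp (⊤ : Submodule ℂ (Matrix (Fin 1) (Fin (n + 3)) ℂ))) (hT : T ∈ (FrIV n).K) :
    ∃ (U : Matrix.unitaryGroup (Fin 1) ℂ) (W : Matrix.unitaryGroup (Fin (n + 3)) ℂ),
      ((∀ i j, ((W : Matrix (Fin (n + 3)) (Fin (n + 3)) ℂ) i j).im = 0) ∧
        (W : Matrix (Fin (n + 3)) (Fin (n + 3)) ℂ).det = 1) ∧
      ∀ Z, (T Z).val = (U : Matrix (Fin 1) (Fin 1) ℂ) * Z.val *
        (W : Matrix (Fin (n + 3)) (Fin (n + 3)) ℂ) := by
  obtain ⟨k, ⟨u, O, hu, hO, hd, rfl⟩, h⟩ := congr_K (FrV n) (eV n) hT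
  have hU : (Matrix.of fun _ _ => u : Matrix (Fin 1) (Fin 1) ℂ) ∈ Matrix.unitaryGroup (Fin 1) ℂ := by
    rw [Matrix.mem_unitaryGroup_iff]
    ext i j
    rw [Matrix.mul_apply, Fin.sum_univ_one, Subsingleton.elim i j, Matrix.one_apply_eq]
    show u * (starRingEnd ℂ) u = 1
    rw [Complex.mul_conj, Complex.normSq_eq_norm_sq, hu]
    norm_num
  have hOO : O * O.transpose = 1 := (Matrix.mem_orthogonalGroup_iff _ _).1 hO
  have hW : O.map (fun x : ℝ => (x : ℂ)) ∈ Matrix.unitaryGroup (Fin (n + 3)) ℂ := by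
    rw [Matrix.mem_unitaryGroup_iff]
    ext i j
    have h1 := congrFun (congrFun hOO i) j
    rw [Matrix.mul_apply] at h1 ⊢
    have h2 : ∀ x, (O.map (fun x : ℝ => (x : ℂ))) i x * (star (O.map (fun x : ℝ => (x : ℂ)))) x j =
        ((O i x * O.transpose x j : ℝ) : ℂ) := by
      intro x
      show (O i x : ℂ) * (starRingEnd ℂ) (O j x : ℂ) = ((O i x * O j x : ℝ) : ℂ)
      rw [Complex.conj_ofReal, Complex.ofReal_mul]
    rw [Finset.sum_congr rfl fun x _ => h2 x, ← Complex.ofReal_sum, h1]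
    rw [Matrix.one_apply, Matrix.one_apply]
    split_ifs <;> simp
  refine ⟨⟨_, hU⟩, ⟨_, hW⟩, ⟨fun i j => Complex.ofReal_im _, ?_⟩, fun Z => ?_⟩
  · have h1 := RingHom.map_det Complex.ofRealHom O
    have h2 : Complex.ofRealHom.mapMatrix O = O.map (fun x : ℝ => (x : ℂ)) := rfl
    rw [h2, hd, map_one] at h1
    exact h1.symm
  · rw [h]
    funext i j
    show u * ∑ x, Z.val 0 x * (O x j : ℂ) = _
    rw [Matrix.mul_apply, Finset.mul_sum]
    refine Finset.sum_congr rfl fun x _ => ?_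
    rw [Matrix.mul_apply, Fin.sum_univ_one]
    show u * (Z.val 0 x * (O x j : ℂ)) = u * Z.val 0 x * (O x j : ℂ)
    ring

end H5.PC
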