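import Pool.Agent.H5.PC.Tk
import Pool.Agent.H5.PK.SvB

/-! # PC.TkS : Takagi's factorisation with the singular values

`takagi` gives `b`, `U`; sort: a permutation `π` of `Fin n` with `b ∘ π` antitone (`Tuple.sort` of `- b`, or of `OrderDual.toDual ∘ b`). With the permutation matrix `P i j = if i = π j then 1 else 0`: `diag(b) = P diag(b ∘ π) Pᵀ` and `U P` is unitary. `Matrix.diagonal (cx1 b) = dgm (cx1 b)`. So `Z = (U P) * dgm (cx1 (b ∘ π)) * (U P)ᵀ`,
and `sv Z = b ∘ π` by `sv_eq (le_refl n)` (`IsSv`: `W = (U P)ᵀ` is unitary). -/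

namespace H5.PC

open H5.PK Topology
open scoped Matrix.Norms.Elementwise

private theorem dgm_diag {n : ℕ} (c : Fin n → ℂ) :
    (dgm c : Matrix (Fin n) (Fin n) ℂ) = Matrix.diagonal c := by
  ext i j
  rw [Matrix.diagonal_apply]
  unfold dgm
  by_cases h : i = j
  · rw [if_pos (by rw [h]), if_pos h]
  · rw [if_neg (fun h' => h (Fin.ext h')), if_neg h]

/-- Takagi's factorisation with sorted values -/
private theorem takagi_sorted {n : ℕ} (Z : Matrix (Fin n) (Fin n) ℂ) (hZ : Z.transpose = Z) :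
    ∃ (b : Fin n → ℝ) (U : Matrix.unitaryGroup (Fin n) ℂ), Antitone b ∧ (∀ i, 0 ≤ b i) ∧
      Z = (U : Matrix (Fin n) (Fin n) ℂ) * dgm (cx1 b) *
        (U : Matrix (Fin n) (Fin n) ℂ).transpose := by
  obtain ⟨b, U, hb, hU⟩ := takagi Z hZ
  obtain ⟨π, hπ⟩ : ∃ π : Equiv.Perm (Fin n), Antitone (b ∘ π) := by
    refine ⟨Tuple.sort (fun i => -b i), ?_⟩
    intro i j hij
    have h := Tuple.monotone_sort (fun i => -b i) hij
    simp only [Function.comp] at h ⊢
    linarith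
  have hV : (U : Matrix (Fin n) (Fin n) ℂ).submatrix id π ∈ Matrix.unitaryGroup (Fin n) ℂ := by
    rw [Matrix.mem_unitaryGroup_iff, Matrix.star_eq_conjTranspose, Matrix.conjTranspose_submatrix,
      Matrix.submatrix_mul_equiv, ← Matrix.star_eq_conjTranspose, Matrix.mem_unitaryGroup_iff.mp U.2,
      Matrix.submatrix_id_id]
  refine ⟨b ∘ π, ⟨_, hV⟩, hπ, fun i => hb _, ?_⟩
  have e : (dgm (cx1 (b ∘ π)) : Matrix (Fin n) (Fin n) ℂ) =
      (Matrix.diagonal (fun i => (b i : ℂ))).submatrix π π := by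
    rw [dgm_diag, Matrix.submatrix_diagonal_equiv]
    rfl
  rw [e]
  show Z = (U : Matrix (Fin n) (Fin n) ℂ).submatrix id π *
    (Matrix.diagonal (fun i => (b i : ℂ))).submatrix π π *
      ((U : Matrix (Fin n) (Fin n) ℂ).submatrix id π).transpose
  rw [Matrix.transpose_submatrix, Matrix.submatrix_mul_equiv, Matrix.submatrix_mul_equiv,
    Matrix.submatrix_id_id]
  exact hU

theorem Y_polar (n : ℕ) (Z : Sp (symS n)) : ∃ k ∈ KS (hsym n), Z = k (dgY n (cx1 (sv Z.val))) := by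
  obtain ⟨b, U, hb, h0, hU⟩ := takagi_sorted Z.val Z.mem
  have hUt : (U : Matrix (Fin n) (Fin n) ℂ).transpose ∈ Matrix.unitaryGroup (Fin n) ℂ := by
    rw [Matrix.mem_unitaryGroup_iff', Matrix.star_eq_conjTranspose]
    have h := congrArg Matrix.transpose (Matrix.mem_unitaryGroup_iff.mp U.2)
    rw [Matrix.transpose_mul, Matrix.transpose_one, Matrix.star_eq_conjTranspose] at h
    exact h
  have hs : sv Z.val = b := sv_eq (le_refl n) ⟨hb, h0, U, ⟨_, hUt⟩, hU⟩
  refine ⟨actS (hsym n) (U : Matrix (Fin n) (Fin n) ℂ), ⟨U, rfl⟩, ?_⟩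
  apply Sp.ext
  rw [actS_val, dgY_val, hs]
  exact hU

end H5.PC
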