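import Pool.Agent.H5.PC.Defs

/-! # PC.YG : type III, gradients

`U` diagonal with entry `-1` at `j` and `1` elsewhere: `Z ↦ U Z Uᵀ` is an involution, fixes `dgm b` and changes the sign of the entries `(i, j)`, `(j, i)`, `i ≠ j`; so `f` vanishes on the symmetric matrices with entries `c` at `(i, j)` and `(j, i)` only (`i ≠ j`; `f (k z) = f z`, `k z = - z`). Every symmetric `Z` is `dgY (PY Z)` plus a sum of such matrices
(over `i < j`), or: half the sum over all `i ≠ j` of the symmetric matrices with entries `Z i j` at `(i, j)` and `(j, i)`. Second claim: `U` diagonal with entry `I` at `i`: order four (`k (k (k (k z))) = z`), fixes `dgY (cx1 a)` because `a i = 0`, and maps `dgY (Pi.single i c)` to its negative (`I * c * I = - c`). -/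

namespace H5.PC

open H5.PK Topology
open scoped Matrix.Norms.Elementwise

/-- the map `Z ↦ D Z D` with `D` diagonal, entry `w` at `j` and `1` elsewhere -/
private noncomputable def yg_k (n : ℕ) (w : ℂ) (j : Fin n) : Sp (symS n) →L[ℂ] Sp (symS n) :=
  actS (hsym n) (Matrix.diagonal fun a => if a = j then w else 1)

private theorem yg_mem (n : ℕ) (w : ℂ) (hw : w * star w = 1) (j : Fin n) :
    yg_k n w j ∈ KS (hsym n) := by
  have h1 : (Matrix.diagonal (fun a => if a = j then w else 1) : Matrix (Fin n) (Fin n) ℂ) ∈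
      Matrix.unitaryGroup (Fin n) ℂ := by
    rw [Matrix.mem_unitaryGroup_iff, Matrix.star_eq_conjTranspose, Matrix.diagonal_conjTranspose,
      Matrix.diagonal_mul_diagonal, ← Matrix.diagonal_one]
    congr 1
    funext i
    rw [Pi.star_apply]
    split_ifs
    · exact hw
    · simp
  exact ⟨⟨_, h1⟩, rfl⟩

private theorem yg_val (n : ℕ) (w : ℂ) (j : Fin n) (Z : Sp (symS n)) (a b : Fin n) :
    (yg_k n w j Z).val a b = (if a = j then w else 1) * Z.val a b * (if b = j then w else 1) := by
  unfold yg_k
  rw [actS_val, Matrix.diagonal_transpose, Matrix.mul_diagonal, Matrix.diagonal_mul]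

private theorem yg_four (n : ℕ) (w : ℂ) (hw : w ^ 4 = 1) (j : Fin n) (Z : Sp (symS n)) :
    yg_k n w j (yg_k n w j (yg_k n w j (yg_k n w j Z))) = Z := by
  apply Sp.ext
  ext a b
  rw [yg_val, yg_val, yg_val, yg_val]
  have h1 : ∀ x : Fin n, (if x = j then w else 1) ^ 4 = 1 := fun x => by
    split_ifs
    · exact hw
    · simp
  linear_combination (Z.val a b * (if b = j then w else 1) ^ 4) * h1 a + Z.val a b * h1 b

private theorem dgm_val (n : ℕ) (b : Fin n → ℂ) (x y : Fin n) :
    (dgY n b).val x y = if x = y then b x else 0 := by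
  rw [dgY_val]
  show (if (x : ℕ) = (y : ℕ) then b x else 0) = if x = y then b x else 0
  by_cases h : x = y
  · rw [if_pos h, if_pos (congrArg Fin.val h)]
  · rw [if_neg h, if_neg (fun h' => h (Fin.ext h'))]

private theorem yg_dg (n : ℕ) (w : ℂ) (j : Fin n) (b : Fin n → ℂ) :
    yg_k n w j (dgY n b) = dgY n (fun x => (if x = j then w ^ 2 else 1) * b x) := by
  apply Sp.ext
  ext x y
  rw [yg_val, dgm_val, dgm_val]
  by_cases h : x = y
  · subst h
    rw [if_pos rfl, if_pos rfl]
    split_ifs
    · ring
    · ring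
  · rw [if_neg h, if_neg h, mul_zero, zero_mul]

private theorem yg_step (n : ℕ) (g : Sp (symS n) → ℝ) (hadd : ∀ x y, g (x + y) = g x + g y)
    (hg : ∀ j z, g (yg_k n (-1) j z) = g z) (s : Finset (Fin n)) (Z : Sp (symS n)) :
    ∃ Z' : Sp (symS n), g Z' = g Z ∧ ∀ a b, Z'.val a b =
      if a = b then Z.val a b else if a ∈ s ∨ b ∈ s then 0 else Z.val a b := by
  classical
  induction s using Finset.induction_on with
  | empty =>
    refine ⟨Z, rfl, fun a b => ?_⟩
    simp
  | insert j s hj ih =>
    obtain ⟨Z', h1, h2⟩ := ih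
    refine ⟨(1 / 2 : ℂ) • (Z' + yg_k n (-1) j Z'), ?_, fun a b => ?_⟩
    · have h3 : (1 / 2 : ℂ) • (Z' + yg_k n (-1) j Z') + (1 / 2 : ℂ) • (Z' + yg_k n (-1) j Z') =
          Z' + yg_k n (-1) j Z' := by
        rw [← add_smul]
        norm_num
      have h4 := congrArg g h3
      rw [hadd, hadd, hg] at h4
      linarith
    · rw [Sp.val_smul, Sp.val_add, Matrix.smul_apply, Matrix.add_apply, yg_val, h2, smul_eq_mul]
      by_cases hab : a = b
      · subst hab
        rw [if_pos rfl, if_pos rfl]
        split_ifs <;> ring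
      · rw [if_neg hab, if_neg hab]
        by_cases ha : a = j
        · have hb : b ≠ j := fun hb => hab (ha.trans hb.symm)
          have h5 : a ∈ insert j s ∨ b ∈ insert j s := Or.inl (by
            rw [ha]
            exact Finset.mem_insert_self j s)
          simp only [if_pos ha, if_neg hb, if_pos h5]
          ring
        · by_cases hb : b = j
          · have h5 : a ∈ insert j s ∨ b ∈ insert j s := Or.inr (by
              rw [hb]
              exact Finset.mem_insert_self j s)
            simp only [if_neg ha, if_pos hb, if_pos h5]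
            ring
          · have h5 : (a ∈ insert j s ∨ b ∈ insert j s) = (a ∈ s ∨ b ∈ s) := by
              simp only [Finset.mem_insert, ha, hb, false_or]
            simp only [if_neg ha, if_neg hb, h5]
            split_ifs <;> ring

theorem Y_grad (n : ℕ) (a : Fin n → ℝ) (ha : ∀ i, 0 ≤ a i) (f : symS n →L[ℝ] ℝ)
    (hf : ∀ k ∈ KS (hsym n), (∀ z, k (k (k (k z))) = z) → k (dgY n (cx1 a)) = dgY n (cx1 a) →
      ∀ z, f (k z) = f z) :
    (∀ z, f z = f (dgY n (PY n z))) ∧ ∀ i, a i = 0 → ∀ c : ℂ, f (dgY n (Pi.single i c)) = 0 := by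
  let g : Sp (symS n) → ℝ := fun z => f z
  have hadd : ∀ x y, g (x + y) = g x + g y := fun x y => map_add f x y
  have hneg : ∀ x, g (-x) = -g x := fun x => map_neg f x
  have hg : ∀ j z, g (yg_k n (-1) j z) = g z := fun j z => by
    refine hf _ (yg_mem n (-1) (by simp) j) (fun z => yg_four n (-1) (by norm_num) j z) ?_ z
    rw [yg_dg]
    congr 1
    funext x
    split_ifs <;> ring
  refine ⟨fun z => ?_, fun i hi c => ?_⟩
  · obtain ⟨Z', h1, h2⟩ := yg_step n g hadd hg Finset.univ z
    have h3 : Z' = dgY n (PY n z) := by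
      apply Sp.ext
      ext x y
      rw [h2, dgm_val, PY_apply]
      by_cases h : x = y
      · subst h
        rw [if_pos rfl, if_pos rfl]
      · rw [if_neg h, if_neg h, if_pos (Or.inl (Finset.mem_univ x))]
    have h4 : g z = g (dgY n (PY n z)) := by rw [← h3, h1]
    exact h4
  · have h1 : g (yg_k n Complex.I i (dgY n (Pi.single i c))) = g (dgY n (Pi.single i c)) := by
      refine hf _ (yg_mem n Complex.I (by simp) i)
        (fun z => yg_four n Complex.I Complex.I_pow_four i z) ?_ _
      rw [yg_dg]
      congr 1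
      funext x
      split_ifs with h
      · rw [h]
        show Complex.I ^ 2 * ((a i : ℝ) : ℂ) = ((a i : ℝ) : ℂ)
        rw [hi]
        simp
      · ring
    have h2 : yg_k n Complex.I i (dgY n (Pi.single i c)) = -dgY n (Pi.single i c) := by
      rw [yg_dg, ← map_neg]
      congr 1
      funext x
      rw [Pi.neg_apply]
      by_cases h : x = i
      · rw [if_pos h, Complex.I_sq]
        ring
      · rw [if_neg h, Pi.single_eq_of_ne h]
        ring
    rw [h2, hneg] at h1
    have h3 : g (dgY n (Pi.single i c)) = 0 := by linarith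
    exact h3

end H5.PC
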