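import Pool.Agent.H5.PC.Defs
import Pool.Agent.H5.PK.IIs

/-! # PC.YI : type III, the isolating functional

`M_iso` with `L = Unit`, `m = n = fun _ => n`, `a = fun _ => a`: the functional `φ' Z = φ (fun _ => Z.val)` (compose with the inclusion `Sp (symS n) →L[ℂ] MV ..`). `dgL .. (cx a) = fun _ => dgm (cx1 a)`. Sums over `Unit`: `Finset.univ_unique, Finset.sum_singleton`. -/

namespace H5.PC

open H5.PK Topology
open scoped Matrix.Norms.Elementwise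

theorem Y_iso (n : ℕ) (a : Fin n → ℝ) (ha : Antitone a) (h0 : ∀ i, 0 ≤ a i) :
    ∃ φ : Sp (symS n) →L[ℂ] ℂ, φ (dgY n (cx1 a)) = ((∑ i, a i ^ 2 : ℝ) : ℂ) ∧
      ∀ z : Sp (symS n), sv z.val = a → ‖φ z‖ ≤ ∑ i, a i ^ 2 ∧
        (φ z = ((∑ i, a i ^ 2 : ℝ) : ℂ) → z = dgY n (cx1 a)) := by
  obtain ⟨φ, h1, h2⟩ := M_iso (L := Unit) (m := fun _ => n) (n := fun _ => n) (fun _ => le_rfl)
    (fun _ => a) ⟨fun _ => h0, fun _ => ha⟩
  rw [Finset.univ_unique, Finset.sum_singleton] at h1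
  let ι : Sp (symS n) →L[ℂ] MV (fun _ : Unit => n) (fun _ : Unit => n) :=
    ContinuousLinearMap.pi fun _ => Sp.valL (symS n)
  refine ⟨φ.comp ι, ?_, fun z hz => ?_⟩
  · show φ (ι (dgY n (cx1 a))) = _
    rw [← h1]
    rfl
  · obtain ⟨h3, h4⟩ := h2 (ι z) (funext fun _ => hz)
    rw [Finset.univ_unique, Finset.sum_singleton] at h3 h4
    refine ⟨h3, fun h5 => ?_⟩
    have h6 := h4 h5
    exact Sp.ext (congrFun h6 ())

end H5.PC
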