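import Pool.Agent.H5.PC.Cg
import Pool.Agent.H5.PC.TkS
import Pool.Agent.H5.PC.YS
import Pool.Agent.H5.PC.YG
import Pool.Agent.H5.PC.YR
import Pool.Agent.H5.PC.YI
import Pool.Agent.H5.PK.SvC
import Pool.Agent.H5.PK.Mnr

/-! # PC.FY : type III (glue) -/

namespace H5.PC

open H5.PK Topology
open scoped Matrix.Norms.Elementwise

/-- type III -/
noncomputable def FrIII (n : ℕ) : Fr (Sp (symS n)) n where
  K := KS (hsym n)
  dg := dgY n
  P := PY n
  s := fun Z => sv Z.val
  tube := True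
  d := 1
  Δ := fun k Z => mnr (le_refl n) k Z.val
  one := KS_one (hsym n)
  P_dg := by
    intro b
    funext i
    rw [PY_apply, dgY_val]
    unfold dgm
    rw [if_pos rfl]
  K_inv := KS_inv (hsym n)
  s_cont := (sv_continuous (le_refl n)).comp (Sp.valL (symS n)).continuous
  s_anti := fun Z => (sv_spec (le_refl n) Z.val).1
  s_nn := fun Z i => (sv_spec (le_refl n) Z.val).2.1 i
  s_K := KS_sv (hsym n)
  s_dg := fun b hb h0 => sv_dgm (le_refl n) hb h0
  polar := Y_polar n
  torus := by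
    intro θ
    obtain ⟨U, h⟩ := Y_torus n θ
    exact ⟨_, ⟨U, rfl⟩, h⟩
  swap := by
    intro a i j hij
    obtain ⟨U, h1, h2, h3⟩ := Y_swap n a i j hij
    refine ⟨_, ⟨U, rfl⟩, fun Z => ?_, h2, h3⟩
    apply Sp.ext
    rw [actS_val, actS_val]
    have h4 : (U : Matrix (Fin n) (Fin n) ℂ).transpose * (U : Matrix (Fin n) (Fin n) ℂ).transpose = 1 := by
      rw [← Matrix.transpose_mul, h1, Matrix.transpose_one]
    calc (U : Matrix (Fin n) (Fin n) ℂ) * ((U : Matrix (Fin n) (Fin n) ℂ) * Z.val *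
          (U : Matrix (Fin n) (Fin n) ℂ).transpose) * (U : Matrix (Fin n) (Fin n) ℂ).transpose
        = ((U : Matrix (Fin n) (Fin n) ℂ) * (U : Matrix (Fin n) (Fin n) ℂ)) * Z.val *
          ((U : Matrix (Fin n) (Fin n) ℂ).transpose * (U : Matrix (Fin n) (Fin n) ℂ).transpose) := by
          simp only [Matrix.mul_assoc]
      _ = Z.val := by rw [h1, h4, Matrix.one_mul, Matrix.mul_one]
  grad := Y_grad n
  root := Y_root n
  root' := fun _ _ _ h => absurd trivial h
  d_pos := Nat.one_pos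
  Δ_diff := fun k => (mnr_diff (le_refl n) k).comp (Sp.valL (symS n)).differentiable
  Δ_dg := by
    intro k b
    rw [pow_one]
    exact mnr_dgm (le_refl n) k b
  Δ_le := by
    intro k Z
    rw [pow_one]
    exact mnr_le (le_refl n) k (sv_spec (le_refl n) Z.val)
  Δ_eq := by
    intro _ k hk Z
    rw [pow_one]
    exact mnr_eq (le_refl n) rfl k hk (sv_spec (le_refl n) Z.val)
  iso := Y_iso n

end H5.PC
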