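import Pool.Agent.H5.PC.FI
import Pool.Agent.H5.PC.FK
import Pool.Agent.H5.PC.FY
import Pool.Agent.H5.PC.FV
import Pool.Agent.H5.PK.Pk
import Pool.Agent.H5.PK.Cnv

/-! # PC.Main : the theorem for all classical bounded symmetric domains (glue) -/

namespace H5.PC

open H5.PK Topology
open scoped Matrix.Norms.Elementwise

/-- the frame of a classical factor -/
noncomputable def FF : (c : Fac) → Fr (Sp c.space) c.rank
  | .I m k => FrI m k
  | .II n => FrII n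
  | .III n => FrIII n
  | .IV n => FrIV n

theorem FF_K : ∀ (c : Fac) (T : Sp c.space →L[ℂ] Sp c.space), T ∈ (FF c).K →
    ∃ g ∈ c.group, ∀ Z : Sp c.space, (T Z).val = g.1.1 * Z.val * g.2.1 := by
  intro c
  cases c with
  | I m k =>
    intro T hT
    obtain ⟨U, W, h⟩ := FrI_K m k T hT
    exact ⟨(U, W), trivial, h⟩
  | II n =>
    intro T hT
    obtain ⟨U, rfl⟩ := hT
    exact ⟨(U, ⟨_, tr_unit U⟩), rfl, fun Z => rfl⟩
  | III n =>
    intro T hT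
    obtain ⟨U, rfl⟩ := hT
    exact ⟨(U, ⟨_, tr_unit U⟩), rfl, fun Z => rfl⟩
  | IV n =>
    intro T hT
    obtain ⟨U, W, h1, h⟩ := FrIV_K n T hT
    exact ⟨(U, W), h1, h⟩

variable {L : Type} [Fintype L] [DecidableEq L] {c : L → Fac}

theorem main {ρ : ((l : L) → Sp (c l).space) → ℝ}
    (hbd : Bornology.IsBounded {Z | ρ Z < 0}) (hconn : IsConnected {Z | ρ Z < 0})
    (hC : ContDiff ℝ 2 ρ) (hreg : ∀ p, ρ p = 0 → fderiv ℝ ρ p ≠ 0)
    (hlevi : ∀ p, ρ p = 0 → ∀ w : (l : L) → Sp (c l).space, fderiv ℝ ρ p w = 0 →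
      fderiv ℝ ρ p (Complex.I • w) = 0 →
      0 ≤ iteratedFDeriv ℝ 2 ρ p ![w, w] +
        iteratedFDeriv ℝ 2 ρ p ![Complex.I • w, Complex.I • w])
    (hinv : ∀ Z Z' : (l : L) → Sp (c l).space,
      (∀ l, ∃ g ∈ (c l).group, (Z' l).val = g.1.1 * (Z l).val * g.2.1) → ρ Z < 0 → ρ Z' < 0) :
    ((∀ p ∈ frontier {Z | ρ Z < 0}, Peak {Z | ρ Z < 0} p) ↔ NoDisc ρ) ∧
    ((∀ p ∈ frontier {Z | ρ Z < 0}, FinType ρ p) →
      ∀ p ∈ frontier {Z | ρ Z < 0}, Peak {Z | ρ Z < 0} p) := by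
  have hD : PDom (Fr.pi (fun l => FF (c l))) ρ :=
    { bdd := hbd
      conn := hconn
      smooth := hC
      reg := hreg
      levi := hlevi
      inv := by
        rintro k ⟨k', hk', rfl⟩ Z hZ
        refine hinv Z _ (fun l => ?_) hZ
        obtain ⟨g, hg, h⟩ := FF_K (c l) (k' l) (hk' l)
        exact ⟨g, hg, h (Z l)⟩ }
  have hfr : frontier {Z | ρ Z < 0} = {Z | ρ Z = 0} := frontier_lt hC hreg
  rw [hfr]
  have h1 : NoDisc ρ → ∀ p ∈ {Z | ρ Z = 0}, Peak {Z | ρ Z < 0} p := by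
    intro hnd p hp
    exact peak hD hnd hp
  refine ⟨⟨fun h => noDisc_of_peak hC hreg h, h1⟩, fun h => h1 (noDisc_of_finType h)⟩

end H5.PC
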