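import Pool.Agent.H5.PC.Defs

/-! # PC.PiS : product of frames, group, polar decomposition, torus, swaps

Everything is componentwise (`pm_apply`, `dgp_apply`, `choose` for the factors). `pi_swap`: the swap of the factor `l`, the identity
(`(F l').one`) in the other factors: `k = pm (Function.update (fun l' => ContinuousLinearMap.id ℂ (V l')) l k₀)`, or a `dite` on `l' = l`. In the last claim
`e1 l i c = Pi.single l (Pi.single i c)`, so `dgp F (e1 l i c)` is `0` in the factors `l' ≠ l`. -/

namespace H5.PC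

open H5.PK Topology

variable {L : Type} [Fintype L] [DecidableEq L] {V : L → Type} [∀ l, NormedAddCommGroup (V l)]
  [∀ l, NormedSpace ℂ (V l)] {r : L → ℕ} (F : (l : L) → Fr (V l) (r l))

set_option linter.unusedSectionVars false

theorem pi_inv (k : ((l : L) → V l) →L[ℂ] ((l : L) → V l)) (hk : k ∈ Kp F) :
    ∃ k' ∈ Kp F, (∀ z, k' (k z) = z) ∧ ∀ z, k (k' z) = z := by
  obtain ⟨κ, hκ, rfl⟩ := hk
  choose κ' h1 h2 h3 using fun l => (F l).K_inv (κ l) (hκ l)
  refine ⟨pm κ', ⟨κ', h1, rfl⟩, fun z => ?_, fun z => ?_⟩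
  · funext l
    rw [pm_apply, pm_apply]
    exact h2 l (z l)
  · funext l
    rw [pm_apply, pm_apply]
    exact h3 l (z l)

theorem pi_polar (z : (l : L) → V l) :
    ∃ k ∈ Kp F, z = k (dgp F (cx (fun l => (F l).s (z l)))) := by
  choose κ h1 h2 using fun l => (F l).polar (z l)
  refine ⟨pm κ, ⟨κ, h1, rfl⟩, ?_⟩
  funext l
  rw [pm_apply, dgp_apply]
  exact h2 l

theorem pi_torus (θ : X r) : ∃ k ∈ Kp F, ∀ b : XC r,
    k (dgp F b) = dgp F (fun l i => Complex.exp ((θ l i : ℂ) * Complex.I) * b l i) := by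
  choose κ h1 h2 using fun l => (F l).torus (θ l)
  refine ⟨pm κ, ⟨κ, h1, rfl⟩, fun b => ?_⟩
  funext l
  rw [pm_apply, dgp_apply, dgp_apply]
  exact h2 l (b l)

theorem pi_swap (a : X r) (l : L) (i j : Fin (r l)) (h : a l i = a l j) :
    ∃ k ∈ Kp F, (∀ z, k (k z) = z) ∧ k (dgp F (cx a)) = dgp F (cx a) ∧
      ∀ c, k (dgp F (e1 l i c)) = dgp F (e1 l j c) := by
  obtain ⟨k₀, h1, h2, h3, h4⟩ := (F l).swap (a l) i j h
  refine ⟨pm (Function.update (fun l' => ContinuousLinearMap.id ℂ (V l')) l k₀), ⟨_, fun l' => ?_, rfl⟩,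
    fun z => ?_, ?_, fun c => ?_⟩
  · by_cases hl : l' = l
    · subst hl
      rw [Function.update_self]
      exact h1
    · rw [Function.update_of_ne hl]
      exact (F l').one
  · funext l'
    rw [pm_apply, pm_apply]
    by_cases hl : l' = l
    · subst hl
      rw [Function.update_self]
      exact h2 (z l')
    · rw [Function.update_of_ne hl]
      rfl
  · funext l'
    rw [pm_apply, dgp_apply]
    by_cases hl : l' = l
    · subst hl
      rw [Function.update_self]
      exact h3
    · rw [Function.update_of_ne hl]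
      rfl
  · funext l'
    rw [pm_apply, dgp_apply, dgp_apply]
    unfold e1
    by_cases hl : l' = l
    · subst hl
      rw [Function.update_self, Pi.single_eq_same, Pi.single_eq_same]
      exact h4 c
    · rw [Function.update_of_ne hl, Pi.single_eq_of_ne hl, Pi.single_eq_of_ne hl]
      rfl

end H5.PC
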