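import Pool.Agent.H5.PC.SkE
import Pool.Agent.H5.PC.Cols

/-! # PC.Sk : normal form of skew symmetric matrices (values not sorted)

Strong induction on `n`. `Z = 0`: `b = 0` (`skm n 0 = 0`). `n ≤ 1`: `Z = 0` (`Z i i = - Z i i`). Otherwise `n = p + 2`, `u, v, σ` from `sk_vec`, `U₁` unitary with first columns `u, v` (`exists_unitary_cols`, `p = 2`, `![u, v]`). `Z' = U₁ᴴ * Z * (U₁ᴴ)ᵀ` is skew symmetric; its second column is `U₁ᴴ Z v̄ = σ e₀`, its first column `U₁ᴴ Z ū = - σ e₁`.
So `Z' = [[0, σ], [- σ, 0]] ⊕ Z''` with `Z''` skew symmetric of size `p` (`Z'.submatrix (Fin.natAdd 2 ..)` or `fun i j => Z' i.succ.succ j.succ.succ`), `Z'' = U₂ * skm p b'' * U₂ᵀ`. With `U₃ = 1 ⊕ U₂` and `b k = if k = 0 then σ else b'' (k - 1)` (`(p+2)/2 = p/2 + 1`): `Z' = U₃ * skm (p+2) b * U₃ᵀ`. -/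

namespace H5.PC

set_option linter.unusedSimpArgs false

open H5.PK Topology

private def skBl {n : ℕ} (U : Matrix (Fin n) (Fin n) ℂ) : Matrix (Fin (n + 1)) (Fin (n + 1)) ℂ :=
  Matrix.of (Fin.cons (Fin.cons 1 0) (fun i => Fin.cons 0 (U i)))

private theorem skBl_00 {n : ℕ} (U : Matrix (Fin n) (Fin n) ℂ) : skBl U 0 0 = 1 := rfl
private theorem skBl_0s {n : ℕ} (U : Matrix (Fin n) (Fin n) ℂ) (j : Fin n) : skBl U 0 j.succ = 0 := rfl
private theorem skBl_s0 {n : ℕ} (U : Matrix (Fin n) (Fin n) ℂ) (i : Fin n) : skBl U i.succ 0 = 0 := rfl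
private theorem skBl_ss {n : ℕ} (U : Matrix (Fin n) (Fin n) ℂ) (i j : Fin n) :
    skBl U i.succ j.succ = U i j := rfl

private theorem skBl_unitary {n : ℕ} (U : Matrix (Fin n) (Fin n) ℂ) (h0 : U ∈ Matrix.unitaryGroup (Fin n) ℂ) :
    skBl U ∈ Matrix.unitaryGroup (Fin (n + 1)) ℂ := by
  rw [Matrix.mem_unitaryGroup_iff]
  have hU : U * star U = 1 := Matrix.mem_unitaryGroup_iff.mp h0
  ext i j
  rw [Matrix.mul_apply, Fin.sum_univ_succ]
  simp only [Matrix.star_apply]
  refine Fin.cases ?_ (fun i => ?_) i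
  · refine Fin.cases ?_ (fun j => ?_) j
    · simp [skBl_00, skBl_0s]
    · simp [skBl_00, skBl_0s, skBl_s0, (Fin.succ_ne_zero j).symm]
  · refine Fin.cases ?_ (fun j => ?_) j
    · simp [skBl_00, skBl_0s, skBl_s0, Fin.succ_ne_zero i]
    · simp only [skBl_s0, skBl_ss, zero_mul, zero_add]
      have h := congrFun (congrFun hU i) j
      rw [Matrix.mul_apply] at h
      simp only [Matrix.star_apply] at h
      rw [h]
      simp [Matrix.one_apply]

private theorem sk_block {n : ℕ} (Z S : Matrix (Fin (n + 2)) (Fin (n + 2)) ℂ)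
    (S' U : Matrix (Fin n) (Fin n) ℂ)
    (h00 : Z 0 0 = S 0 0) (h01 : Z 0 (Fin.succ 0) = S 0 (Fin.succ 0))
    (h10 : Z (Fin.succ 0) 0 = S (Fin.succ 0) 0)
    (h11 : Z (Fin.succ 0) (Fin.succ 0) = S (Fin.succ 0) (Fin.succ 0))
    (z0 : ∀ j : Fin n, Z 0 j.succ.succ = 0) (z1 : ∀ j : Fin n, Z (Fin.succ 0) j.succ.succ = 0)
    (z2 : ∀ j : Fin n, Z j.succ.succ 0 = 0) (z3 : ∀ j : Fin n, Z j.succ.succ (Fin.succ 0) = 0)
    (s0 : ∀ j : Fin n, S 0 j.succ.succ = 0) (s1 : ∀ j : Fin n, S (Fin.succ 0) j.succ.succ = 0)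
    (s2 : ∀ j : Fin n, S j.succ.succ 0 = 0) (s3 : ∀ j : Fin n, S j.succ.succ (Fin.succ 0) = 0)
    (hs : ∀ i j : Fin n, S i.succ.succ j.succ.succ = S' i j)
    (hz : ∀ i j : Fin n, Z i.succ.succ j.succ.succ = (U * S' * U.transpose) i j) :
    Z = skBl (skBl U) * S * (skBl (skBl U)).transpose := by
  ext i j
  rw [Matrix.mul_apply, Fin.sum_univ_succ, Fin.sum_univ_succ]
  simp only [Matrix.mul_apply, Fin.sum_univ_succ (n := n + 1), Fin.sum_univ_succ (n := n),
    Matrix.transpose_apply]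
  refine Fin.cases ?_ (fun i => Fin.cases ?_ (fun i => ?_) i) i
  · refine Fin.cases ?_ (fun j => Fin.cases ?_ (fun j => ?_) j) j
    · simp only [skBl_00, skBl_0s, skBl_s0, skBl_ss, zero_mul, mul_zero, add_zero, zero_add, one_mul,
        mul_one, Finset.sum_const_zero, h00]
    · simp only [skBl_00, skBl_0s, skBl_s0, skBl_ss, zero_mul, mul_zero, add_zero, zero_add, one_mul,
        mul_one, Finset.sum_const_zero, h01]
    · simp only [skBl_00, skBl_0s, skBl_s0, skBl_ss, zero_mul, mul_zero, add_zero, zero_add, one_mul,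
        mul_one, Finset.sum_const_zero, z0, s0]
  · refine Fin.cases ?_ (fun j => Fin.cases ?_ (fun j => ?_) j) j
    · simp only [skBl_00, skBl_0s, skBl_s0, skBl_ss, zero_mul, mul_zero, add_zero, zero_add, one_mul,
        mul_one, Finset.sum_const_zero, h10]
    · simp only [skBl_00, skBl_0s, skBl_s0, skBl_ss, zero_mul, mul_zero, add_zero, zero_add, one_mul,
        mul_one, Finset.sum_const_zero, h11]
    · simp only [skBl_00, skBl_0s, skBl_s0, skBl_ss, zero_mul, mul_zero, add_zero, zero_add, one_mul,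
        mul_one, Finset.sum_const_zero, z1, s1]
  · refine Fin.cases ?_ (fun j => Fin.cases ?_ (fun j => ?_) j) j
    · simp only [skBl_00, skBl_0s, skBl_s0, skBl_ss, zero_mul, mul_zero, add_zero, zero_add, one_mul,
        mul_one, Finset.sum_const_zero, z2, s2]
    · simp only [skBl_00, skBl_0s, skBl_s0, skBl_ss, zero_mul, mul_zero, add_zero, zero_add, one_mul,
        mul_one, Finset.sum_const_zero, z3, s3]
    · have h := hz i j
      simp only [Matrix.mul_apply, Matrix.transpose_apply] at h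
      simp only [skBl_00, skBl_0s, skBl_s0, skBl_ss, zero_mul, mul_zero, add_zero, zero_add, one_mul,
        mul_one, Finset.sum_const_zero, hs]
      exact h

/-- the values for the next size -/
private def nb {n : ℕ} (σ : ℝ) (b : Fin (n / 2) → ℝ) : Fin ((n + 2) / 2) → ℝ :=
  fun k => if h : (k : ℕ) = 0 then σ else b ⟨(k : ℕ) - 1, by have := k.2; omega⟩

private theorem skm_ss {n : ℕ} (σ : ℝ) (b : Fin (n / 2) → ℝ) (i j : Fin n) :
    skm (n + 2) (cx1 (nb σ b)) i.succ.succ j.succ.succ = skm n (cx1 b) i j := by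
  unfold skm cx1 nb
  have hi : ((i.succ.succ : Fin (n + 2)) : ℕ) = (i : ℕ) + 2 := rfl
  have hj : ((j.succ.succ : Fin (n + 2)) : ℕ) = (j : ℕ) + 2 := rfl
  have hi2 := i.2
  have hj2 := j.2
  simp only [hi, hj]
  by_cases h1 : (i : ℕ) / 2 < n / 2
  · have h2 : ((i : ℕ) + 2) / 2 < (n + 2) / 2 := by omega
    rw [dif_pos h1, dif_pos h2]
    have h3 : ¬ ((i : ℕ) + 2) / 2 = 0 := by omega
    have h4 : ((i : ℕ) + 2) / 2 - 1 = (i : ℕ) / 2 := by omega
    simp only [h4]
    rw [dif_neg h3]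
    have c1 : ((j : ℕ) + 2 = (i : ℕ) + 2 + 1 ∧ ((i : ℕ) + 2) % 2 = 0) ↔
        ((j : ℕ) = (i : ℕ) + 1 ∧ (i : ℕ) % 2 = 0) := by omega
    have c2 : ((i : ℕ) + 2 = (j : ℕ) + 2 + 1 ∧ ((j : ℕ) + 2) % 2 = 0) ↔
        ((i : ℕ) = (j : ℕ) + 1 ∧ (j : ℕ) % 2 = 0) := by omega
    simp only [c1, c2]
  · have h2 : ¬ ((i : ℕ) + 2) / 2 < (n + 2) / 2 := by omega
    rw [dif_neg h1, dif_neg h2]

private theorem skm_zero (n : ℕ) : skm n (cx1 (fun _ => (0 : ℝ))) = 0 := by
  ext i j
  unfold skm cx1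
  split_ifs <;> simp

private theorem zero_nf {n : ℕ} (Z : Matrix (Fin n) (Fin n) ℂ) (h0 : Z = 0) :
    ∃ (b : Fin (n / 2) → ℝ) (U : Matrix.unitaryGroup (Fin n) ℂ), (∀ i, 0 ≤ b i) ∧
      Z = (U : Matrix (Fin n) (Fin n) ℂ) * skm n (cx1 b) *
        (U : Matrix (Fin n) (Fin n) ℂ).transpose := by
  refine ⟨fun _ => 0, 1, fun _ => le_rfl, ?_⟩
  rw [skm_zero, h0, mul_zero, zero_mul]

theorem skew_nf {n : ℕ} (Z : Matrix (Fin n) (Fin n) ℂ) (hZ : Z.transpose = -Z) :
    ∃ (b : Fin (n / 2) → ℝ) (U : Matrix.unitaryGroup (Fin n) ℂ), (∀ i, 0 ≤ b i) ∧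
      Z = (U : Matrix (Fin n) (Fin n) ℂ) * skm n (cx1 b) *
        (U : Matrix (Fin n) (Fin n) ℂ).transpose := by
  induction n using Nat.twoStepInduction with
  | zero =>
    refine zero_nf Z ?_
    ext i
    exact i.elim0
  | one =>
    refine zero_nf Z ?_
    ext i j
    have e : i = j := Subsingleton.elim _ _
    subst e
    have h := congrFun (congrFun hZ i) i
    rw [Matrix.transpose_apply, Matrix.neg_apply] at h
    rw [Matrix.zero_apply]
    linear_combination h / 2
  | more n ih _ =>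
    by_cases hne : Z = 0
    · exact zero_nf Z hne
    obtain ⟨u, v, σ, hσ, hu, hv, huv, hZv, hZu⟩ := sk_vec Z hZ hne
    have hvu : ∑ k, star (v k) * u k = 0 := by
      have h := congrArg star huv
      rw [star_sum, star_zero] at h
      rw [← h]
      refine Finset.sum_congr rfl fun k _ => ?_
      rw [star_mul', star_star, mul_comm]
    obtain ⟨U₁, hU₁⟩ := exists_unitary_cols (n := n + 2) (p := 2) (by omega) ![u, v] (by
      intro i j
      fin_cases i <;> fin_cases j
      · simpa using hu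
      · simpa using huv
      · simpa using hvu
      · simpa using hv)
    have hL : (U₁ : Matrix (Fin (n + 2)) (Fin (n + 2)) ℂ) *
        (U₁ : Matrix (Fin (n + 2)) (Fin (n + 2)) ℂ).conjTranspose = 1 := Matrix.mem_unitaryGroup_iff.mp U₁.2
    have hR : (U₁ : Matrix (Fin (n + 2)) (Fin (n + 2)) ℂ).conjTranspose *
        (U₁ : Matrix (Fin (n + 2)) (Fin (n + 2)) ℂ) = 1 := Matrix.mem_unitaryGroup_iff'.mp U₁.2
    set A : Matrix (Fin (n + 2)) (Fin (n + 2)) ℂ := (U₁ : Matrix (Fin (n + 2)) (Fin (n + 2)) ℂ) with hA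
    have hc0 : ∀ k, A k 0 = u k := fun k => hU₁ 0 k
    have hc1 : ∀ k, A k (Fin.succ 0) = v k := fun k => hU₁ 1 k
    have hT : (A.conjTranspose).transpose * A.transpose = 1 := by
      rw [← Matrix.transpose_mul, hL, Matrix.transpose_one]
    set Z' : Matrix (Fin (n + 2)) (Fin (n + 2)) ℂ :=
      A.conjTranspose * Z * (A.conjTranspose).transpose with hZ'
    have hskew : Z'.transpose = -Z' := by
      rw [hZ', Matrix.transpose_mul, Matrix.transpose_mul, Matrix.transpose_transpose, hZ,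
        Matrix.neg_mul, Matrix.mul_neg, Matrix.mul_assoc]
    have hanti : ∀ i j, Z' i j = -Z' j i := by
      intro i j
      have h := congrFun (congrFun hskew j) i
      rw [Matrix.transpose_apply, Matrix.neg_apply] at h
      exact h
    have hcol1 : ∀ i, Z' i (Fin.succ 0) = if i = 0 then (σ : ℂ) else 0 := by
      intro i
      have e2 : ∀ k, (Z * (A.conjTranspose).transpose) k (Fin.succ 0) = (σ : ℂ) * u k := by
        intro k
        have h := congrFun hZv k
        rw [Matrix.mulVec, dotProduct, Pi.smul_apply, smul_eq_mul] at h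
        rw [Matrix.mul_apply, ← h]
        refine Finset.sum_congr rfl fun j _ => ?_
        rw [Matrix.transpose_apply, Matrix.conjTranspose_apply, hc1, Pi.star_apply]
      rw [hZ', Matrix.mul_assoc, Matrix.mul_apply]
      simp only [e2]
      have h := congrFun (congrFun hR i) 0
      rw [Matrix.mul_apply] at h
      simp only [hc0] at h
      have e3 : ∀ k, A.conjTranspose i k * ((σ : ℂ) * u k) = (σ : ℂ) * (A.conjTranspose i k * u k) := by
        intro k
        ring
      simp only [e3]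
      rw [← Finset.mul_sum, h, Matrix.one_apply]
      split_ifs <;> simp
    have hcol0 : ∀ i, Z' i 0 = if i = Fin.succ 0 then -(σ : ℂ) else 0 := by
      intro i
      have e2 : ∀ k, (Z * (A.conjTranspose).transpose) k 0 = -(σ : ℂ) * v k := by
        intro k
        have h := congrFun hZu k
        rw [Matrix.mulVec, dotProduct, Pi.smul_apply, smul_eq_mul] at h
        rw [Matrix.mul_apply, ← h]
        refine Finset.sum_congr rfl fun j _ => ?_
        rw [Matrix.transpose_apply, Matrix.conjTranspose_apply, hc0, Pi.star_apply]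
      rw [hZ', Matrix.mul_assoc, Matrix.mul_apply]
      simp only [e2]
      have h := congrFun (congrFun hR i) (Fin.succ 0)
      rw [Matrix.mul_apply] at h
      simp only [hc1] at h
      have e3 : ∀ k, A.conjTranspose i k * (-(σ : ℂ) * v k) = -(σ : ℂ) * (A.conjTranspose i k * v k) := by
        intro k
        ring
      simp only [e3]
      rw [← Finset.mul_sum, h, Matrix.one_apply]
      split_ifs <;> simp
    have n1 : (Fin.succ 0 : Fin (n + 2)) ≠ 0 := Fin.succ_ne_zero _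
    have n2 : ∀ j : Fin n, (j.succ.succ : Fin (n + 2)) ≠ Fin.succ 0 := by
      intro j h
      exact Fin.succ_ne_zero j (Fin.succ_injective _ h)
    have k00 : Z' 0 0 = 0 := by rw [hcol0, if_neg n1.symm]
    have k01 : Z' 0 (Fin.succ 0) = (σ : ℂ) := by rw [hcol1, if_pos rfl]
    have k10 : Z' (Fin.succ 0) 0 = -(σ : ℂ) := by rw [hcol0, if_pos rfl]
    have k11 : Z' (Fin.succ 0) (Fin.succ 0) = 0 := by rw [hcol1, if_neg n1]
    have z2 : ∀ j : Fin n, Z' j.succ.succ 0 = 0 := fun j => by rw [hcol0, if_neg (n2 j)]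
    have z3 : ∀ j : Fin n, Z' j.succ.succ (Fin.succ 0) = 0 := fun j => by
      rw [hcol1, if_neg (Fin.succ_ne_zero _)]
    have z0 : ∀ j : Fin n, Z' 0 j.succ.succ = 0 := fun j => by rw [hanti, z2, neg_zero]
    have z1 : ∀ j : Fin n, Z' (Fin.succ 0) j.succ.succ = 0 := fun j => by rw [hanti, z3, neg_zero]
    obtain ⟨b, U₂, hb0, hb⟩ := ih (Z'.submatrix (fun i => i.succ.succ) (fun i => i.succ.succ)) (by
      rw [Matrix.transpose_submatrix, hskew]
      rfl)
    have q0 : (0 : ℕ) / 2 < (n + 2) / 2 := by omega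
    have q1 : (1 : ℕ) / 2 < (n + 2) / 2 := by omega
    have nb0 : ∀ h : 0 < (n + 2) / 2, nb σ b ⟨0, h⟩ = σ := fun h => rfl
    have v0 : ((0 : Fin (n + 2)) : ℕ) = 0 := rfl
    have v1 : ((Fin.succ 0 : Fin (n + 2)) : ℕ) = 1 := rfl
    have vs : ∀ j : Fin n, ((j.succ.succ : Fin (n + 2)) : ℕ) = (j : ℕ) + 2 := fun _ => rfl
    have hbl : Z' = skBl (skBl (U₂ : Matrix (Fin n) (Fin n) ℂ)) * skm (n + 2) (cx1 (nb σ b)) *
        (skBl (skBl (U₂ : Matrix (Fin n) (Fin n) ℂ))).transpose := by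
      refine sk_block Z' _ (skm n (cx1 b)) _ ?_ ?_ ?_ ?_ z0 z1 z2 z3 ?_ ?_ ?_ ?_
        (fun i j => skm_ss σ b i j) (fun i j => ?_)
      · rw [k00]
        unfold skm
        rw [v0, dif_pos q0, if_neg (by omega), if_neg (by omega)]
      · rw [k01]
        unfold skm
        rw [v0, v1, dif_pos q0, if_pos (by omega)]
        rfl
      · rw [k10]
        unfold skm
        rw [v0, v1, dif_pos q1, if_neg (by omega), if_pos (by omega)]
        rfl
      · rw [k11]
        unfold skm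
        rw [v1, dif_pos q1, if_neg (by omega), if_neg (by omega)]
      · intro j
        unfold skm
        rw [v0, vs, dif_pos q0, if_neg (by omega), if_neg (by omega)]
      · intro j
        unfold skm
        rw [v1, vs, dif_pos q1, if_neg (by omega), if_neg (by omega)]
      · intro j
        have q2 : ((j : ℕ) + 2) / 2 < (n + 2) / 2 ∨ ¬ ((j : ℕ) + 2) / 2 < (n + 2) / 2 := em _
        unfold skm
        rcases q2 with q2 | q2
        · rw [v0, vs, dif_pos q2, if_neg (by omega), if_neg (by omega)]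
        · rw [v0, vs, dif_neg q2]
      · intro j
        have q2 : ((j : ℕ) + 2) / 2 < (n + 2) / 2 ∨ ¬ ((j : ℕ) + 2) / 2 < (n + 2) / 2 := em _
        unfold skm
        rcases q2 with q2 | q2
        · rw [v1, vs, dif_pos q2, if_neg (by omega), if_neg (by omega)]
        · rw [v1, vs, dif_neg q2]
      · exact congrFun (congrFun hb i) j
    refine ⟨nb σ b, U₁ * ⟨skBl (skBl (U₂ : Matrix (Fin n) (Fin n) ℂ)),
      skBl_unitary _ (skBl_unitary _ U₂.2)⟩, ?_, ?_⟩
    · intro i
      unfold nb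
      split_ifs
      · exact hσ.le
      · exact hb0 _
    · have e : Z = A * Z' * A.transpose := by
        rw [hZ']
        calc Z = (A * A.conjTranspose) * Z * ((A.conjTranspose).transpose * A.transpose) := by
              rw [hL, hT, Matrix.one_mul, Matrix.mul_one]
          _ = _ := by simp only [Matrix.mul_assoc]
      rw [e]
      conv_lhs => rw [hbl]
      show _ = (A * skBl (skBl (U₂ : Matrix (Fin n) (Fin n) ℂ))) * _ *
        (A * skBl (skBl (U₂ : Matrix (Fin n) (Fin n) ℂ))).transpose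
      rw [Matrix.transpose_mul]
      simp only [Matrix.mul_assoc]

end H5.PC
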