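import Pool.Agent.H5.PC.Defs

/-! # PC.SkE : two vectors for a skew symmetric matrix `Z ≠ 0`

`H = Z * Zᴴ` is positive semidefinite and not zero (its trace is `∑ |Z i j|²`), so it has an eigenvalue `c ≠ 0`, hence `c = σ²`, `σ > 0`, with a unit eigenvector `v` (`Matrix.IsHermitian.spectral_theorem` / `eigenvectorBasis`; if all eigenvalues vanish then `H = 0`, e.g. `Matrix.IsHermitian.eigenvalues_eq_zero_iff`). Let `u = σ⁻¹ Z v̄`.
`star Z = - Zᴴ` entrywise, so `Z ū = σ⁻¹ Z * (star Z) * v = - σ⁻¹ H v = - σ v`. `‖Z v̄‖² = ‖(star Z) v‖² = ‖Zᴴ v‖² = ⟪v, H v⟫ = σ²`: `‖u‖ = 1`. `∑ k, star (v k) * u k = σ⁻¹ ∑ star (v i) Z i j star (v j) = 0` by skew symmetry. -/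

namespace H5.PC

open H5.PK Topology

private theorem sk_conj {n : ℕ} {Z : Matrix (Fin n) (Fin n) ℂ} (hZ : Z.transpose = -Z) (v : Fin n → ℂ) :
    star (Z.mulVec (star v)) = -(Z.conjTranspose.mulVec v) := by
  have h1 : Z.conjTranspose.transpose = -Z.conjTranspose := by
    ext i j
    have h2 := congrFun (congrFun hZ j) i
    rw [Matrix.transpose_apply, Matrix.neg_apply] at h2
    rw [Matrix.transpose_apply, Matrix.conjTranspose_apply, Matrix.neg_apply,
      Matrix.conjTranspose_apply, h2, star_neg]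
  rw [Matrix.star_mulVec, star_star, ← Matrix.mulVec_transpose, h1, Matrix.neg_mulVec]

private theorem sk_dot {n : ℕ} {Z : Matrix (Fin n) (Fin n) ℂ} (hZ : Z.transpose = -Z) (v : Fin n → ℂ) :
    (Z.conjTranspose.mulVec v) ⬝ᵥ v = 0 := by
  have h1 : Z.conjTranspose.transpose = -Z.conjTranspose := by
    ext i j
    have h2 := congrFun (congrFun hZ j) i
    rw [Matrix.transpose_apply, Matrix.neg_apply] at h2
    rw [Matrix.transpose_apply, Matrix.conjTranspose_apply, Matrix.neg_apply,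
      Matrix.conjTranspose_apply, h2, star_neg]
  have h2 : (Z.conjTranspose.mulVec v) ⬝ᵥ v = -((Z.conjTranspose.mulVec v) ⬝ᵥ v) := by
    conv_lhs => rw [dotProduct_comm, Matrix.dotProduct_mulVec, ← Matrix.mulVec_transpose, h1,
      Matrix.neg_mulVec, neg_dotProduct]
  have h3 : (2 : ℂ) * ((Z.conjTranspose.mulVec v) ⬝ᵥ v) = 0 := by
    linear_combination h2
  rcases mul_eq_zero.1 h3 with h | h
  · norm_num at h
  · exact h

open scoped ComplexOrder in
theorem sk_vec {n : ℕ} (Z : Matrix (Fin n) (Fin n) ℂ) (hZ : Z.transpose = -Z) (h0 : Z ≠ 0) :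
    ∃ (u v : Fin n → ℂ) (σ : ℝ), 0 < σ ∧ ∑ k, star (u k) * u k = 1 ∧ ∑ k, star (v k) * v k = 1 ∧
      ∑ k, star (u k) * v k = 0 ∧ Z.mulVec (star v) = (σ : ℂ) • u ∧
      Z.mulVec (star u) = (-σ : ℂ) • v := by
  have hP : (Z * Z.conjTranspose).PosSemidef := Matrix.posSemidef_self_mul_conjTranspose Z
  have hH := hP.isHermitian
  have hne : hH.eigenvalues ≠ 0 := by
    intro h
    have h1 : Z * Z.conjTranspose = 0 := hH.eigenvalues_eq_zero_iff.1 h
    exact h0 (Matrix.self_mul_conjTranspose_eq_zero.1 h1)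
  obtain ⟨i, hi⟩ : ∃ i, hH.eigenvalues i ≠ 0 := by
    by_contra h
    push Not at h
    exact hne (funext h)
  have hc : 0 < hH.eigenvalues i := lt_of_le_of_ne (hP.eigenvalues_nonneg i) (Ne.symm hi)
  obtain ⟨c, hcd⟩ : ∃ c : ℝ, c = hH.eigenvalues i := ⟨_, rfl⟩
  rw [← hcd] at hc
  obtain ⟨v, hv⟩ : ∃ v : Fin n → ℂ, v = (hH.eigenvectorBasis i).ofLp := ⟨_, rfl⟩
  have hev : (Z * Z.conjTranspose).mulVec v = (c : ℂ) • v := by
    have h1 := hH.mulVec_eigenvectorBasis i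
    rw [← hv, ← hcd] at h1
    rw [h1]
    ext k
    simp
  have hvv : ∑ k, star (v k) * v k = 1 := by
    have h1 : ‖hH.eigenvectorBasis i‖ = 1 := hH.eigenvectorBasis.orthonormal.1 i
    have h2 : ‖hH.eigenvectorBasis i‖ ^ 2 = ∑ k, ‖v k‖ ^ 2 := by
      rw [EuclideanSpace.norm_sq_eq, hv]
    rw [h1] at h2
    have h3 : ∀ k, star (v k) * v k = ((‖v k‖ ^ 2 : ℝ) : ℂ) := by
      intro k
      have := Complex.conj_mul' (v k)
      rw [← Complex.ofReal_pow] at this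
      exact this
    rw [Finset.sum_congr rfl fun k _ => h3 k, ← Complex.ofReal_sum, ← h2]
    norm_num
  have hvd : star v ⬝ᵥ v = 1 := hvv
  obtain ⟨σ, hσd⟩ : ∃ σ : ℝ, σ = Real.sqrt c := ⟨_, rfl⟩
  have hσ : 0 < σ := by rw [hσd]; exact Real.sqrt_pos.2 hc
  have hσ2 : σ ^ 2 = c := by rw [hσd]; exact Real.sq_sqrt hc.le
  have hσc : (σ : ℂ) ≠ 0 := by exact_mod_cast hσ.ne'
  have hσ2c : (σ : ℂ) ^ 2 = c := by exact_mod_cast hσ2
  obtain ⟨w, hw⟩ : ∃ w : Fin n → ℂ, w = Z.mulVec (star v) := ⟨_, rfl⟩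
  have hsw : star w = -(Z.conjTranspose.mulVec v) := by rw [hw]; exact sk_conj hZ v
  have hZw : Z.mulVec (star w) = -((c : ℂ) • v) := by
    rw [hsw, Matrix.mulVec_neg, Matrix.mulVec_mulVec, hev]
  have hww : star w ⬝ᵥ w = c := by
    have h1 : star w ⬝ᵥ w = star v ⬝ᵥ (Z * Z.conjTranspose).mulVec v := by
      have h2 : w = -star (Z.conjTranspose.mulVec v) := by
        have h3 := congrArg star hsw
        rw [star_star, star_neg] at h3
        exact h3
      rw [hsw, h2, neg_dotProduct, dotProduct_neg, neg_neg, dotProduct_comm, Matrix.star_mulVec,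
        Matrix.conjTranspose_conjTranspose, ← Matrix.dotProduct_mulVec, Matrix.mulVec_mulVec]
    rw [h1, hev, dotProduct_smul, hvd, smul_eq_mul, mul_one]
  have hsu : star ((σ : ℂ)⁻¹ • w) = (σ : ℂ)⁻¹ • star w := by
    rw [star_smul]
    congr 1
    rw [star_inv₀]
    congr 1
    exact Complex.conj_ofReal σ
  refine ⟨(σ : ℂ)⁻¹ • w, v, σ, hσ, ?_, hvv, ?_, ?_, ?_⟩
  · have h1 : star ((σ : ℂ)⁻¹ • w) ⬝ᵥ ((σ : ℂ)⁻¹ • w) = 1 := by
      rw [hsu, smul_dotProduct, dotProduct_smul, hww, smul_eq_mul, smul_eq_mul, ← hσ2c]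
      field_simp
    exact h1
  · have h1 : star ((σ : ℂ)⁻¹ • w) ⬝ᵥ v = 0 := by
      rw [hsu, smul_dotProduct, hsw, neg_dotProduct, sk_dot hZ, neg_zero, smul_zero]
    exact h1
  · rw [smul_smul, mul_inv_cancel₀ hσc, one_smul, hw]
  · rw [hsu, Matrix.mulVec_smul, hZw, ← hσ2c]
    ext k
    simp only [Pi.smul_apply, Pi.neg_apply, smul_eq_mul]
    field_simp

end H5.PC
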