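import Pool.Agent.H5.PC.TkE
import Pool.Agent.H5.PC.Cols

/-! # PC.Tk : Takagi's factorisation (values not sorted)

Induction on `n`; `n = 0` is trivial. For `n + 1`: `u, σ` from `tk_vec`, `U₁` unitary with first column `u` (`exists_unitary_cols` with `p = 1`). `Z' = U₁ᴴ * Z * (U₁ᴴ)ᵀ` is symmetric and its first column is `U₁ᴴ (Z ū) = σ U₁ᴴ u = σ e₀` (`(U₁ᴴ)ᵀ e₀ = ū`), so also its first row; let `Z''` be the rest
(`Z'.submatrix Fin.succ Fin.succ`, symmetric), `Z'' = U₂ diag(b'') U₂ᵀ` by induction. With `U₃ = 1 ⊕ U₂` (e.g. `Matrix.of (Fin.cons (Fin.cons 1 0) (fun i => Fin.cons 0 (U₂ i)))`) and `b = Fin.cons σ b''`: `Z' = U₃ diag(b) U₃ᵀ` and `Z = U₁ Z' U₁ᵀ = (U₁ U₃) diag(b) (U₁ U₃)ᵀ`. -/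

namespace H5.PC

open H5.PK Topology

private def tkBl {n : ℕ} (U : Matrix (Fin n) (Fin n) ℂ) : Matrix (Fin (n + 1)) (Fin (n + 1)) ℂ :=
  Matrix.of (Fin.cons (Fin.cons 1 0) (fun i => Fin.cons 0 (U i)))

private theorem tkBl_00 {n : ℕ} (U : Matrix (Fin n) (Fin n) ℂ) : tkBl U 0 0 = 1 := rfl
private theorem tkBl_0s {n : ℕ} (U : Matrix (Fin n) (Fin n) ℂ) (j : Fin n) : tkBl U 0 j.succ = 0 := rfl
private theorem tkBl_s0 {n : ℕ} (U : Matrix (Fin n) (Fin n) ℂ) (i : Fin n) : tkBl U i.succ 0 = 0 := rfl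
private theorem tkBl_ss {n : ℕ} (U : Matrix (Fin n) (Fin n) ℂ) (i j : Fin n) :
    tkBl U i.succ j.succ = U i j := rfl

private theorem tkBl_unitary {n : ℕ} (U : Matrix.unitaryGroup (Fin n) ℂ) :
    tkBl (U : Matrix (Fin n) (Fin n) ℂ) ∈ Matrix.unitaryGroup (Fin (n + 1)) ℂ := by
  rw [Matrix.mem_unitaryGroup_iff]
  have hU : (U : Matrix (Fin n) (Fin n) ℂ) * star (U : Matrix (Fin n) (Fin n) ℂ) = 1 :=
    Matrix.mem_unitaryGroup_iff.mp U.2
  ext i j
  rw [Matrix.mul_apply, Fin.sum_univ_succ]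
  simp only [Matrix.star_apply]
  refine Fin.cases ?_ (fun i => ?_) i
  · refine Fin.cases ?_ (fun j => ?_) j
    · simp [tkBl_00, tkBl_0s]
    · simp [tkBl_00, tkBl_0s, tkBl_s0, (Fin.succ_ne_zero j).symm]
  · refine Fin.cases ?_ (fun j => ?_) j
    · simp [tkBl_00, tkBl_0s, tkBl_s0, Fin.succ_ne_zero i]
    · simp only [tkBl_s0, tkBl_ss, zero_mul, zero_add]
      have h := congrFun (congrFun hU i) j
      rw [Matrix.mul_apply] at h
      simp only [Matrix.star_apply] at h
      rw [h]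
      simp [Matrix.one_apply]

private theorem tk_block {n : ℕ} (Z' : Matrix (Fin (n + 1)) (Fin (n + 1)) ℂ) (hZ' : Z'.transpose = Z')
    (σ : ℝ) (h0 : Z' 0 0 = (σ : ℂ)) (hs : ∀ i : Fin n, Z' i.succ 0 = 0)
    (b : Fin n → ℝ) (U : Matrix (Fin n) (Fin n) ℂ)
    (hb : Z'.submatrix Fin.succ Fin.succ = U * Matrix.diagonal (fun i => (b i : ℂ)) * U.transpose) :
    Z' = tkBl U * Matrix.diagonal (fun i => ((Fin.cons σ b : Fin (n + 1) → ℝ) i : ℂ)) *
      (tkBl U).transpose := by
  have hs' : ∀ i : Fin n, Z' 0 i.succ = 0 := by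
    intro i
    have := congrFun (congrFun hZ' 0) i.succ
    rw [Matrix.transpose_apply] at this
    rw [← this, hs]
  ext i j
  rw [Matrix.mul_apply, Fin.sum_univ_succ]
  simp only [Matrix.mul_diagonal, Matrix.transpose_apply, Fin.cons_zero, Fin.cons_succ]
  refine Fin.cases ?_ (fun i => ?_) i
  · refine Fin.cases ?_ (fun j => ?_) j
    · simp [tkBl_00, tkBl_0s, h0]
    · simp [tkBl_0s, tkBl_s0, hs']
  · refine Fin.cases ?_ (fun j => ?_) j
    · simp [tkBl_0s, tkBl_s0, hs]
    · simp only [tkBl_s0, tkBl_ss, zero_mul, zero_add]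
      have h := congrFun (congrFun hb i) j
      rw [Matrix.mul_apply] at h
      simp only [Matrix.mul_diagonal, Matrix.transpose_apply, Matrix.submatrix_apply] at h
      exact h

theorem takagi {n : ℕ} (Z : Matrix (Fin n) (Fin n) ℂ) (hZ : Z.transpose = Z) :
    ∃ (b : Fin n → ℝ) (U : Matrix.unitaryGroup (Fin n) ℂ), (∀ i, 0 ≤ b i) ∧
      Z = (U : Matrix (Fin n) (Fin n) ℂ) * Matrix.diagonal (fun i => (b i : ℂ)) *
        (U : Matrix (Fin n) (Fin n) ℂ).transpose := by
  induction n with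
  | zero =>
    refine ⟨fun i => i.elim0, 1, fun i => i.elim0, ?_⟩
    ext i
    exact i.elim0
  | succ n ih =>
    obtain ⟨u, σ, hσ, hu, hZu⟩ := tk_vec Z hZ
    obtain ⟨U₁, hU₁⟩ := exists_unitary_cols (n := n + 1) (p := 1) (by omega) (fun _ => u) (by
      intro i j
      rw [if_pos (Subsingleton.elim i j)]
      exact hu)
    have hc : ∀ k, (U₁ : Matrix (Fin (n + 1)) (Fin (n + 1)) ℂ) k 0 = u k := by
      intro k
      have := hU₁ 0 k
      simpa using this
    have hL : (U₁ : Matrix (Fin (n + 1)) (Fin (n + 1)) ℂ) *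
        (U₁ : Matrix (Fin (n + 1)) (Fin (n + 1)) ℂ).conjTranspose = 1 := Matrix.mem_unitaryGroup_iff.mp U₁.2
    have hR : (U₁ : Matrix (Fin (n + 1)) (Fin (n + 1)) ℂ).conjTranspose *
        (U₁ : Matrix (Fin (n + 1)) (Fin (n + 1)) ℂ) = 1 := Matrix.mem_unitaryGroup_iff'.mp U₁.2
    set A : Matrix (Fin (n + 1)) (Fin (n + 1)) ℂ := (U₁ : Matrix (Fin (n + 1)) (Fin (n + 1)) ℂ) with hA
    have hT : (A.conjTranspose).transpose * A.transpose = 1 := by
      rw [← Matrix.transpose_mul, hL, Matrix.transpose_one]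
    set Z' : Matrix (Fin (n + 1)) (Fin (n + 1)) ℂ :=
      A.conjTranspose * Z * (A.conjTranspose).transpose with hZ'
    have hsym : Z'.transpose = Z' := by
      rw [hZ', Matrix.transpose_mul, Matrix.transpose_mul, Matrix.transpose_transpose, hZ, Matrix.mul_assoc]
    have hcol : ∀ i, Z' i 0 = if i = 0 then (σ : ℂ) else 0 := by
      intro i
      have e1 : ∀ k, (A.conjTranspose).transpose k 0 = star (u k) := by
        intro k
        rw [Matrix.transpose_apply, Matrix.conjTranspose_apply, hc]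
      have e2 : ∀ k, (Z * (A.conjTranspose).transpose) k 0 = (σ : ℂ) * u k := by
        intro k
        have := congrFun hZu k
        rw [Matrix.mul_apply]
        simp only [e1]
        rw [Matrix.mulVec, dotProduct] at this
        simpa using this
      rw [hZ', Matrix.mul_assoc, Matrix.mul_apply]
      simp only [e2]
      have h := congrFun (congrFun hR i) 0
      rw [Matrix.mul_apply] at h
      simp only [hc] at h
      have e3 : ∀ k, A.conjTranspose i k * ((σ : ℂ) * u k) = (σ : ℂ) * (A.conjTranspose i k * u k) := by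
        intro k
        ring
      simp only [e3]
      rw [← Finset.mul_sum, h, Matrix.one_apply]
      split_ifs <;> simp
    have h0 : Z' 0 0 = (σ : ℂ) := by rw [hcol, if_pos rfl]
    have hs : ∀ i : Fin n, Z' i.succ 0 = 0 := by
      intro i
      rw [hcol, if_neg (Fin.succ_ne_zero i)]
    obtain ⟨b, U₂, hb0, hb⟩ := ih (Z'.submatrix Fin.succ Fin.succ) (by
      rw [Matrix.transpose_submatrix, hsym])
    have hbl := tk_block Z' hsym σ h0 hs b _ hb
    refine ⟨Fin.cons σ b, U₁ * ⟨tkBl U₂, tkBl_unitary U₂⟩, ?_, ?_⟩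
    · intro i
      refine Fin.cases ?_ (fun i => ?_) i
      · exact hσ
      · exact hb0 i
    · have e : Z = A * Z' * A.transpose := by
        rw [hZ']
        calc Z = (A * A.conjTranspose) * Z * ((A.conjTranspose).transpose * A.transpose) := by
              rw [hL, hT, Matrix.one_mul, Matrix.mul_one]
          _ = _ := by simp only [Matrix.mul_assoc]
      rw [e]
      conv_lhs => rw [hbl]
      show _ = (A * tkBl U₂) * _ * (A * tkBl U₂).transpose
      rw [Matrix.transpose_mul]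
      simp only [Matrix.mul_assoc]

end H5.PC
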