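import Pool.Agent.H5.PC.Defs

/-! # PC.TkE : a vector with `Z * conj u = σ u` for a symmetric matrix `Z`

Let `J v = Z *ᵥ star v` (conjugate linear). `J (J v) = Z *ᵥ star (Z *ᵥ star v) = (Z * Zᴴ) *ᵥ v` because `star Z = Zᴴ` entrywise for symmetric `Z`. `Z * Zᴴ` is positive semidefinite of size `n + 1 > 0`: it has an eigenvector `v ≠ 0` with eigenvalue `c = σ²`, `σ ≥ 0` (`Matrix.IsHermitian.eigenvectorBasis`, `mulVec_eigenvectorBasis`, `PosSemidef.eigenvalues_nonneg`; any index).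
If `J v + σ v ≠ 0` let `u₀ = J v + σ v`: `J u₀ = σ² v + σ J v = σ u₀` (`J (σ v) = σ J v`, `σ` real). Otherwise `J v = - σ v` and `u₀ = I v`: `J (I v) = - I J v = σ (I v)`. Normalise: `u = ‖u₀‖⁻¹ u₀` (real factor). -/

namespace H5.PC

open H5.PK Topology

private theorem star_mulVec_symm {n : ℕ} (Z : Matrix (Fin (n + 1)) (Fin (n + 1)) ℂ)
    (hZ : Z.transpose = Z) (w : Fin (n + 1) → ℂ) :
    star (Z.mulVec (star w)) = Z.conjTranspose.mulVec w := by
  rw [Matrix.star_mulVec, star_star, ← Matrix.mulVec_transpose]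
  congr 1
  have h : Z.conjTranspose = Z.map star := by rw [Matrix.conjTranspose, hZ]
  rw [h, ← Matrix.transpose_map, hZ]

private theorem J_J {n : ℕ} (Z : Matrix (Fin (n + 1)) (Fin (n + 1)) ℂ)
    (hZ : Z.transpose = Z) (w : Fin (n + 1) → ℂ) :
    Z.mulVec (star (Z.mulVec (star w))) = (Z * Z.conjTranspose).mulVec w := by
  rw [star_mulVec_symm Z hZ, Matrix.mulVec_mulVec]

private theorem tk_norm {n : ℕ} (Z : Matrix (Fin (n + 1)) (Fin (n + 1)) ℂ) (u₀ : Fin (n + 1) → ℂ)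
    (h0 : u₀ ≠ 0) (σ : ℝ) (h : Z.mulVec (star u₀) = (σ : ℂ) • u₀) :
    ∃ u : Fin (n + 1) → ℂ, ∑ k, star (u k) * u k = 1 ∧ Z.mulVec (star u) = (σ : ℂ) • u := by
  have hr : ∑ k, star (u₀ k) * u₀ k = ((∑ k, ‖u₀ k‖ ^ 2 : ℝ) : ℂ) := by
    push_cast
    refine Finset.sum_congr rfl fun k _ => ?_
    rw [Complex.star_def, Complex.conj_mul']
  set r : ℝ := ∑ k, ‖u₀ k‖ ^ 2 with hrdef
  have hrpos : 0 < r := by
    obtain ⟨k, hk⟩ : ∃ k, u₀ k ≠ 0 := by
      by_contra hcon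
      push Not at hcon
      exact h0 (funext hcon)
    rw [hrdef]
    refine Finset.sum_pos' (fun i _ => by positivity) ⟨k, Finset.mem_univ k, ?_⟩
    have := norm_pos_iff.mpr hk
    positivity
  have hs : Real.sqrt r * Real.sqrt r = r := Real.mul_self_sqrt hrpos.le
  have hs0 : Real.sqrt r ≠ 0 := (Real.sqrt_pos.mpr hrpos).ne'
  set a : ℂ := (((Real.sqrt r)⁻¹ : ℝ) : ℂ) with ha
  have hastar : star a = a := by
    rw [ha, Complex.star_def, Complex.conj_ofReal]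
  refine ⟨a • u₀, ?_, ?_⟩
  · have h1 : ∀ k, star ((a • u₀) k) * (a • u₀) k = a * a * (star (u₀ k) * u₀ k) := by
      intro k
      rw [Pi.smul_apply, smul_eq_mul, star_mul', hastar]
      ring
    simp only [h1]
    rw [← Finset.mul_sum, hr, ha]
    rw [← Complex.ofReal_mul, ← Complex.ofReal_mul]
    rw [← mul_inv, hs, inv_mul_cancel₀ hrpos.ne', Complex.ofReal_one]
  · have h2 : star (a • u₀) = a • star u₀ := by
      rw [star_smul, hastar]
    rw [h2, Matrix.mulVec_smul, h, smul_comm]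

open scoped ComplexOrder in
private theorem tk_eig {n : ℕ} (Z : Matrix (Fin (n + 1)) (Fin (n + 1)) ℂ) :
    ∃ (v : Fin (n + 1) → ℂ) (c : ℝ), 0 ≤ c ∧ v ≠ 0 ∧
      (Z * Z.conjTranspose).mulVec v = (c : ℂ) • v := by
  have hps : (Z * Z.conjTranspose).PosSemidef := Matrix.posSemidef_self_mul_conjTranspose Z
  have hH := hps.isHermitian
  refine ⟨⇑(hH.eigenvectorBasis 0), hH.eigenvalues 0, hps.eigenvalues_nonneg 0, ?_, ?_⟩
  · intro h
    have h1 := hH.eigenvectorBasis.orthonormal.1 0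
    have h2 : hH.eigenvectorBasis 0 = 0 := by
      ext i
      exact congrFun h i
    rw [h2, norm_zero] at h1
    exact zero_ne_one h1
  · rw [hH.mulVec_eigenvectorBasis 0]
    ext i
    simp

theorem tk_vec {n : ℕ} (Z : Matrix (Fin (n + 1)) (Fin (n + 1)) ℂ) (hZ : Z.transpose = Z) :
    ∃ (u : Fin (n + 1) → ℂ) (σ : ℝ), 0 ≤ σ ∧ ∑ k, star (u k) * u k = 1 ∧
      Z.mulVec (star u) = (σ : ℂ) • u := by
  obtain ⟨v, c, hc0, hv0, hcv⟩ := tk_eig Z
  set σ : ℝ := Real.sqrt c with hσ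
  have hσ0 : 0 ≤ σ := Real.sqrt_nonneg c
  have hσ2 : (σ : ℂ) * σ = c := by
    rw [← Complex.ofReal_mul, hσ, Real.mul_self_sqrt hc0]
  have hσs : star (σ : ℂ) = σ := by rw [Complex.star_def, Complex.conj_ofReal]
  have hJJ : Z.mulVec (star (Z.mulVec (star v))) = (c : ℂ) • v := by
    rw [J_J Z hZ, hcv]
  by_cases hcase : Z.mulVec (star v) + (σ : ℂ) • v = 0
  · have h1 : Z.mulVec (star v) = -((σ : ℂ) • v) := eq_neg_of_add_eq_zero_left hcase
    have h2 : (Complex.I • v) ≠ 0 := smul_ne_zero Complex.I_ne_zero hv0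
    have h3 : Z.mulVec (star (Complex.I • v)) = (σ : ℂ) • (Complex.I • v) := by
      rw [star_smul, Matrix.mulVec_smul, h1, Complex.star_def, Complex.conj_I, smul_neg, neg_smul,
        neg_neg, smul_comm]
    obtain ⟨u, hu1, hu2⟩ := tk_norm Z _ h2 σ h3
    exact ⟨u, σ, hσ0, hu1, hu2⟩
  · have h3 : Z.mulVec (star (Z.mulVec (star v) + (σ : ℂ) • v)) =
        (σ : ℂ) • (Z.mulVec (star v) + (σ : ℂ) • v) := by
      rw [star_add, Matrix.mulVec_add, hJJ, star_smul, hσs, Matrix.mulVec_smul, smul_add, smul_smul,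
        hσ2]
      exact add_comm _ _
    obtain ⟨u, hu1, hu2⟩ := tk_norm Z _ hcase σ h3
    exact ⟨u, σ, hσ0, hu1, hu2⟩

end H5.PC
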