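import Pool.Agent.H5.PC.Defs

/-! # PC.TrA : transport of a frame with one block, first part

`F` is a frame with index type `Unit`, `e : V ≃L[ℂ] V'`. Everything is conjugated by `e`: for `k ∈ F.K` let `T = e.symm ∘ k ∘ e` (a continuous linear map; `T ∈ trK F e`). A real vector `a : Fin r → ℝ` gives `fun _ : Unit => a` (`X`), with `cx (fun _ => a) = fun _ => cx1 a` by `rfl`;
`Pi.single i c` gives `e1 () i c` (`= fun _ => Pi.single i c`, by `funext`). `tr_grad`: apply `F.grad` to `f ∘ e.symm` (`f.comp` of the restriction of scalars of `e.symm`). -/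

namespace H5.PC

open H5.PK Topology

variable {V V' : Type} [NormedAddCommGroup V] [NormedSpace ℂ V] [NormedAddCommGroup V']
  [NormedSpace ℂ V'] {r : ℕ} (F : Frame V' (fun _ : Unit => r)) (e : V ≃L[ℂ] V')

/-- conjugation by `e` -/
private noncomputable def cj (e : V ≃L[ℂ] V') (k : V' →L[ℂ] V') : V →L[ℂ] V :=
  (e.symm : V' →L[ℂ] V).comp (k.comp (e : V →L[ℂ] V'))

private theorem cj_apply (e : V ≃L[ℂ] V') (k : V' →L[ℂ] V') (z : V) :
    cj e k z = e.symm (k (e z)) := rfl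

private theorem e_trD (b : Fin r → ℂ) : e (trD F e b) = F.dg (fun _ => b) := by
  rw [trD_apply, e.apply_symm_apply]

private theorem e1_unit (i : Fin r) (c : ℂ) :
    (e1 () i c : XC (fun _ : Unit => r)) = fun _ => Pi.single i c := by
  funext l
  cases l
  unfold e1
  rw [Pi.single_eq_same]

private theorem unit_eta {α : Type} (v : Unit → α) : (fun _ : Unit => v ()) = v := by
  funext l
  cases l
  rfl

theorem tr_inv (k : V →L[ℂ] V) (hk : k ∈ trK F e) :
    ∃ k' ∈ trK F e, (∀ z, k' (k z) = z) ∧ ∀ z, k (k' z) = z := by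
  obtain ⟨k0, hk0, h⟩ := hk
  obtain ⟨k1, hk1, h1, h2⟩ := F.K_inv k0 hk0
  refine ⟨cj e k1, ⟨k1, hk1, fun z => rfl⟩, fun z => ?_, fun z => ?_⟩
  · rw [cj_apply, h, e.apply_symm_apply, h1, e.symm_apply_apply]
  · rw [h, cj_apply, e.apply_symm_apply, h2, e.symm_apply_apply]

theorem tr_dg (b : Fin r → ℝ) (hb : Antitone b) (h0 : ∀ i, 0 ≤ b i) :
    F.s (e (trD F e (cx1 b))) () = b := by
  have h1 := F.s_dg (fun _ => b) ⟨fun _ i => h0 i, fun _ => hb⟩
  have h2 : e (trD F e (cx1 b)) = F.dg (cx (fun _ => b)) := e_trD F e (cx1 b)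
  rw [h2, h1]

theorem tr_polar (z : V) : ∃ k ∈ trK F e, z = k (trD F e (cx1 (F.s (e z) ()))) := by
  obtain ⟨k, hk, h⟩ := F.polar (e z)
  refine ⟨cj e k, ⟨k, hk, fun z => rfl⟩, ?_⟩
  have h0 : (fun _ : Unit => cx1 (F.s (e z) ())) = cx (F.s (e z)) := by
    funext l
    cases l
    rfl
  have h1 : e (trD F e (cx1 (F.s (e z) ()))) = F.dg (cx (F.s (e z))) := by
    rw [e_trD, h0]
  rw [cj_apply, h1, ← h, e.symm_apply_apply]

theorem tr_torus (θ : Fin r → ℝ) : ∃ k ∈ trK F e, ∀ b : Fin r → ℂ,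
    k (trD F e b) = trD F e (fun i => Complex.exp ((θ i : ℂ) * Complex.I) * b i) := by
  obtain ⟨k, hk, h⟩ := F.torus (fun _ => θ)
  refine ⟨cj e k, ⟨k, hk, fun z => rfl⟩, fun b => ?_⟩
  rw [cj_apply, e_trD, h (fun _ => b)]
  rfl

theorem tr_swap (a : Fin r → ℝ) (i j : Fin r) (h : a i = a j) :
    ∃ k ∈ trK F e, (∀ z, k (k z) = z) ∧ k (trD F e (cx1 a)) = trD F e (cx1 a) ∧
      ∀ c : ℂ, k (trD F e (Pi.single i c)) = trD F e (Pi.single j c) := by
  obtain ⟨k, hk, h1, h2, h3⟩ := F.swap (fun _ => a) () i j h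
  refine ⟨cj e k, ⟨k, hk, fun z => rfl⟩, fun z => ?_, ?_, fun c => ?_⟩
  · rw [cj_apply, cj_apply, e.apply_symm_apply, h1, e.symm_apply_apply]
  · have h2' : k (F.dg (fun _ => cx1 a)) = F.dg (fun _ => cx1 a) := h2
    rw [cj_apply, e_trD, h2']
    rfl
  · have h3' := h3 c
    rw [e1_unit, e1_unit] at h3'
    rw [cj_apply, e_trD, h3']
    rfl

theorem tr_grad (a : Fin r → ℝ) (ha : ∀ i, 0 ≤ a i) (f : V →L[ℝ] ℝ)
    (hf : ∀ k ∈ trK F e, (∀ z, k (k (k (k z))) = z) → k (trD F e (cx1 a)) = trD F e (cx1 a) →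
      ∀ z, f (k z) = f z) :
    (∀ z, f z = f (trD F e (trP F e z))) ∧
      ∀ i, a i = 0 → ∀ c : ℂ, f (trD F e (Pi.single i c)) = 0 := by
  obtain ⟨g, hg⟩ : ∃ g : V' →L[ℝ] ℝ, ∀ w, g w = f (e.symm w) :=
    ⟨f.comp ((e.symm : V' →L[ℂ] V).restrictScalars ℝ), fun w => rfl⟩
  obtain ⟨g1, g2⟩ := F.grad (fun _ => a) (fun _ i => ha i) g (by
    intro k hk h4 hd z
    have hd' : k (F.dg (fun _ => cx1 a)) = F.dg (fun _ => cx1 a) := hd
    have h5 := hf (cj e k) ⟨k, hk, fun z => rfl⟩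
      (fun z => by
        rw [cj_apply, cj_apply, cj_apply, cj_apply, e.apply_symm_apply, e.apply_symm_apply,
          e.apply_symm_apply, h4, e.symm_apply_apply])
      (by
        rw [cj_apply, e_trD, hd']
        rfl) (e.symm z)
    rw [cj_apply, e.apply_symm_apply] at h5
    rw [hg, hg, h5])
  refine ⟨fun z => ?_, fun i hi c => ?_⟩
  · have h1 := g1 (e z)
    rw [hg, hg, e.symm_apply_apply] at h1
    rw [h1, trD_apply, trP_apply, unit_eta (F.P (e z))]
  · have h1 := g2 () i hi c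
    rw [hg, e1_unit] at h1
    rw [trD_apply, h1]

end H5.PC
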