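import Pool.Agent.H5.PC.Defs

/-! # PC.VS : type IV, the singular values

`‖qf z‖ ≤ nq z` (triangle inequality), so the square roots are of nonnegative numbers. `V_prod`: `(A + B)(A - B)/4 = (A² - B²)/4`. `V_dg`: `nq (dgV b) = (b₀² + b₁²)/2`, `qf (dgV b) = b₀ b₁` for real `b`: `√((b₀ + b₁)²) = b₀ + b₁`, `√((b₀ - b₁)²) = b₀ - b₁` (`b₀ ≥ b₁ ≥ 0`). The sums over `Fin (n+3)`: `Fin.sum_univ_succ` three times; the remaining terms vanish. -/

namespace H5.PC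

open H5.PK Topology

variable {N : ℕ}

theorem norm_qf_le (z : Fin N → ℂ) : ‖qf z‖ ≤ nq z := by
  unfold qf nq
  refine (norm_sum_le _ _).trans (le_of_eq ?_)
  exact Finset.sum_congr rfl fun i _ => norm_pow _ _

private theorem vs_qf_cont : Continuous (qf : (Fin N → ℂ) → ℂ) := by
  unfold qf
  exact continuous_finsetSum _ fun i _ => (continuous_apply i).pow 2

private theorem vs_nq_cont : Continuous (nq : (Fin N → ℂ) → ℝ) := by
  unfold nq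
  exact continuous_finsetSum _ fun i _ => (continuous_apply i).norm.pow 2

theorem V_cont : Continuous (sV : (Fin N → ℂ) → Fin 2 → ℝ) := by
  have h1 : Continuous fun z : Fin N → ℂ => Real.sqrt (2 * nq z + 2 * ‖qf z‖) :=
    ((continuous_const.mul vs_nq_cont).add (continuous_const.mul vs_qf_cont.norm)).sqrt
  have h2 : Continuous fun z : Fin N → ℂ => Real.sqrt (2 * nq z - 2 * ‖qf z‖) :=
    ((continuous_const.mul vs_nq_cont).sub (continuous_const.mul vs_qf_cont.norm)).sqrt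
  refine continuous_pi fun i => ?_
  fin_cases i
  · exact (h1.add h2).div_const 2
  · exact (h1.sub h2).div_const 2

private theorem vs_zero (z : Fin N → ℂ) : sV z 0 =
    (Real.sqrt (2 * nq z + 2 * ‖qf z‖) + Real.sqrt (2 * nq z - 2 * ‖qf z‖)) / 2 := rfl

private theorem vs_one (z : Fin N → ℂ) : sV z 1 =
    (Real.sqrt (2 * nq z + 2 * ‖qf z‖) - Real.sqrt (2 * nq z - 2 * ‖qf z‖)) / 2 := rfl

theorem V_anti (z : Fin N → ℂ) : Antitone (sV z) := by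
  have h : sV z 1 ≤ sV z 0 := by
    rw [vs_zero, vs_one]
    have := Real.sqrt_nonneg (2 * nq z - 2 * ‖qf z‖)
    linarith
  intro i j hij
  fin_cases i <;> fin_cases j
  · exact le_rfl
  · exact h
  · exact absurd hij (by decide)
  · exact le_rfl

theorem V_nn (z : Fin N → ℂ) (i : Fin 2) : 0 ≤ sV z i := by
  have h1 := Real.sqrt_nonneg (2 * nq z - 2 * ‖qf z‖)
  have h2 : Real.sqrt (2 * nq z - 2 * ‖qf z‖) ≤ Real.sqrt (2 * nq z + 2 * ‖qf z‖) := by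
    apply Real.sqrt_le_sqrt
    have := norm_nonneg (qf z)
    linarith
  fin_cases i
  · show 0 ≤ (Real.sqrt (2 * nq z + 2 * ‖qf z‖) + Real.sqrt (2 * nq z - 2 * ‖qf z‖)) / 2
    linarith
  · show 0 ≤ (Real.sqrt (2 * nq z + 2 * ‖qf z‖) - Real.sqrt (2 * nq z - 2 * ‖qf z‖)) / 2
    linarith

private theorem vs_sq1 (z : Fin N → ℂ) :
    Real.sqrt (2 * nq z + 2 * ‖qf z‖) ^ 2 = 2 * nq z + 2 * ‖qf z‖ := by
  apply Real.sq_sqrt
  have h1 := norm_qf_le z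
  have h2 := norm_nonneg (qf z)
  linarith

private theorem vs_sq2 (z : Fin N → ℂ) :
    Real.sqrt (2 * nq z - 2 * ‖qf z‖) ^ 2 = 2 * nq z - 2 * ‖qf z‖ := by
  apply Real.sq_sqrt
  have h1 := norm_qf_le z
  linarith

theorem V_prod (z : Fin N → ℂ) : sV z 0 * sV z 1 = ‖qf z‖ := by
  rw [vs_zero, vs_one]
  have h1 := vs_sq1 z
  have h2 := vs_sq2 z
  nlinarith

theorem V_sq (z : Fin N → ℂ) : sV z 0 ^ 2 + sV z 1 ^ 2 = 2 * nq z := by
  rw [vs_zero, vs_one]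
  have h1 := vs_sq1 z
  have h2 := vs_sq2 z
  nlinarith

private theorem vs_sum {M : Type} [AddCommMonoid M] (n : ℕ) (g : ℂ → M) (hg : g 0 = 0)
    (b : Fin 2 → ℂ) : ∑ j, g (dgV n b j) =
      g ((b 0 + b 1) / 2) + g (Complex.I * (b 0 - b 1) / 2) := by
  rw [Fin.sum_univ_succ, Fin.sum_univ_succ]
  have h0 : dgV n b 0 = (b 0 + b 1) / 2 := by
    rw [dgV_apply, if_pos rfl]
  have h1 : dgV n b (Fin.succ 0) = Complex.I * (b 0 - b 1) / 2 := by
    rw [dgV_apply, if_neg (Fin.succ_ne_zero _), if_pos (show Fin.succ (0 : Fin (n + 2)) = 1 from rfl)]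
  have h2 : ∀ i : Fin (n + 1), dgV n b i.succ.succ = 0 := by
    intro i
    rw [dgV_apply, if_neg (Fin.succ_ne_zero _), if_neg]
    intro h
    have h3 : i.succ.succ = Fin.succ 0 := h
    exact Fin.succ_ne_zero _ (Fin.succ_injective _ h3)
  rw [h0, h1, Finset.sum_eq_zero (fun i _ => by rw [h2 i, hg]), add_zero]

theorem V_qf_dg (n : ℕ) (b : Fin 2 → ℂ) : qf (dgV n b) = b 0 * b 1 := by
  unfold qf
  rw [vs_sum n (fun c => c ^ 2) (by simp) b]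
  have hI := Complex.I_sq
  show ((b 0 + b 1) / 2) ^ 2 + (Complex.I * (b 0 - b 1) / 2) ^ 2 = b 0 * b 1
  have e : (Complex.I * (b 0 - b 1) / 2) ^ 2 = Complex.I ^ 2 * ((b 0 - b 1) ^ 2 / 4) := by ring
  rw [e, hI]
  ring

theorem V_nq_dg (n : ℕ) (b : Fin 2 → ℝ) : nq (dgV n (cx1 b)) = (b 0 ^ 2 + b 1 ^ 2) / 2 := by
  unfold nq
  rw [vs_sum n (fun c => ‖c‖ ^ 2) (by simp) (cx1 b)]
  have e1 : (cx1 b 0 + cx1 b 1) / 2 = (((b 0 + b 1) / 2 : ℝ) : ℂ) := by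
    unfold cx1
    push_cast
    ring
  have e2 : Complex.I * (cx1 b 0 - cx1 b 1) / 2 = Complex.I * (((b 0 - b 1) / 2 : ℝ) : ℂ) := by
    unfold cx1
    push_cast
    ring
  show ‖(cx1 b 0 + cx1 b 1) / 2‖ ^ 2 + ‖Complex.I * (cx1 b 0 - cx1 b 1) / 2‖ ^ 2 = _
  rw [e1, e2, norm_mul, Complex.norm_I, one_mul, Complex.norm_real, Complex.norm_real,
    Real.norm_eq_abs, Real.norm_eq_abs, sq_abs, sq_abs]
  ring

theorem V_dg (n : ℕ) (b : Fin 2 → ℝ) (hb : Antitone b) (h0 : ∀ i, 0 ≤ b i) :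
    sV (dgV n (cx1 b)) = b := by
  have h10 : b 1 ≤ b 0 := hb (by decide)
  have hq : ‖qf (dgV n (cx1 b))‖ = b 0 * b 1 := by
    rw [V_qf_dg]
    show ‖((b 0 : ℝ) : ℂ) * ((b 1 : ℝ) : ℂ)‖ = b 0 * b 1
    rw [norm_mul, Complex.norm_real, Complex.norm_real, Real.norm_of_nonneg (h0 0),
      Real.norm_of_nonneg (h0 1)]
  have e1 : 2 * nq (dgV n (cx1 b)) + 2 * ‖qf (dgV n (cx1 b))‖ = (b 0 + b 1) ^ 2 := by
    rw [V_nq_dg, hq]
    ring
  have e2 : 2 * nq (dgV n (cx1 b)) - 2 * ‖qf (dgV n (cx1 b))‖ = (b 0 - b 1) ^ 2 := by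
    rw [V_nq_dg, hq]
    ring
  have s1 : Real.sqrt ((b 0 + b 1) ^ 2) = b 0 + b 1 :=
    Real.sqrt_sq (add_nonneg (h0 0) (h0 1))
  have s2 : Real.sqrt ((b 0 - b 1) ^ 2) = b 0 - b 1 := Real.sqrt_sq (sub_nonneg.mpr h10)
  funext i
  fin_cases i
  · show sV (dgV n (cx1 b)) 0 = b 0
    rw [vs_zero, e1, e2, s1, s2]
    ring
  · show sV (dgV n (cx1 b)) 1 = b 1
    rw [vs_one, e1, e2, s1, s2]
    ring

end H5.PC
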